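import Pool.Agent.TEQ.Targets
import Pool.Agent.SSC.MER

/-!
# TEQ, target MRT: products of Mertens
-/

set_option autoImplicit false

open Finset

noncomputable section

namespace Pool.Agent.TEQ

namespace MRT_

theorem pri_eq (y : ℕ) : SSC.pri 1 (y : ℝ) = PP y := by
  ext l
  unfold SSC.pri PP
  rw [Nat.floor_natCast]
  simp only [Finset.mem_filter, Finset.mem_Icc, Finset.mem_range]
  constructor
  · rintro ⟨h1, h2, h3⟩
    exact ⟨by omega, h2⟩
  · rintro ⟨h1, h2⟩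
    have h3 := h2.two_le
    refine ⟨⟨by omega, by omega⟩, h2, ?_⟩
    have h4 : (2 : ℝ) ≤ l := by exact_mod_cast h3
    linarith

theorem two_le {y p : ℕ} (h : p ∈ PP y) : 2 ≤ p := by
  unfold PP at h
  exact (Finset.mem_filter.1 h).2.two_le

theorem tele (y : ℕ) (hy : 1 ≤ y) :
    ∑ n ∈ Finset.Icc 2 y, 1 / ((n : ℝ) * (n - 1)) = 1 - 1 / y := by
  induction y, hy using Nat.le_induction with
  | base => norm_num
  | succ y hy ih =>
    have h1 : Finset.Icc 2 (y + 1) = insert (y + 1) (Finset.Icc 2 y) := by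
      ext n
      simp only [Finset.mem_Icc, Finset.mem_insert]
      omega
    rw [h1, Finset.sum_insert (by simp), ih]
    have h2 : (0 : ℝ) < y := by exact_mod_cast hy
    have h3 : (0 : ℝ) < y + 1 := by linarith
    have h4 : ((y + 1 : ℕ) : ℝ) * (((y + 1 : ℕ) : ℝ) - 1) = (y + 1) * y := by
      push_cast
      ring
    rw [h4]
    push_cast
    field_simp
    ring

theorem sum_sq (y : ℕ) (hy : 1 ≤ y) : ∑ p ∈ PP y, 1 / ((p : ℝ) * (p - 1)) ≤ 1 := by
  have h1 : PP y ⊆ Finset.Icc 2 y := by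
    intro p hp
    have h2 := two_le hp
    unfold PP at hp
    rw [Finset.mem_filter, Finset.mem_range] at hp
    rw [Finset.mem_Icc]
    omega
  have h3 : ∑ p ∈ PP y, 1 / ((p : ℝ) * (p - 1)) ≤
      ∑ p ∈ Finset.Icc 2 y, 1 / ((p : ℝ) * (p - 1)) := by
    refine Finset.sum_le_sum_of_subset_of_nonneg h1 fun n hn _ => ?_
    have h4 : (2 : ℝ) ≤ n := by exact_mod_cast (Finset.mem_Icc.1 hn).1
    have h5 : (0 : ℝ) < (n : ℝ) * (n - 1) := mul_pos (by linarith) (by linarith)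
    exact (one_div_pos.2 h5).le
  rw [tele y hy] at h3
  have h6 : (0 : ℝ) ≤ 1 / y := by positivity
  linarith

theorem upper (y : ℕ) :
    ∏ p ∈ PP y, (1 - 1 / (p : ℝ)) ≤ Real.exp (-∑ p ∈ PP y, 1 / (p : ℝ)) := by
  rw [← Finset.sum_neg_distrib, Real.exp_sum]
  refine Finset.prod_le_prod (fun p hp => ?_) (fun p hp => ?_)
  · have h1 : (2 : ℝ) ≤ p := by exact_mod_cast two_le hp
    have h2 : 1 / (p : ℝ) ≤ 1 := by
      rw [div_le_one (by linarith)]
      linarith
    linarith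
  · have h3 := Real.add_one_le_exp (-(1 / (p : ℝ)))
    linarith

theorem lower (y : ℕ) (hy : 1 ≤ y) :
    Real.exp (-(∑ p ∈ PP y, 1 / (p : ℝ)) - 1) ≤ ∏ p ∈ PP y, (1 - 1 / (p : ℝ)) := by
  have h1 : Real.exp (-∑ p ∈ PP y, 1 / ((p : ℝ) - 1)) ≤ ∏ p ∈ PP y, (1 - 1 / (p : ℝ)) := by
    rw [← Finset.sum_neg_distrib, Real.exp_sum]
    refine Finset.prod_le_prod (fun p hp => (Real.exp_pos _).le) (fun p hp => ?_)
    have h1 : (2 : ℝ) ≤ p := by exact_mod_cast two_le hp
    have h2 := Real.add_one_le_exp (1 / ((p : ℝ) - 1))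
    have h3 : (0 : ℝ) < (p : ℝ) - 1 := by linarith
    have h4 : (1 - 1 / (p : ℝ)) * (1 / ((p : ℝ) - 1) + 1) = 1 := by
      field_simp
      ring
    have h5 : (0 : ℝ) < 1 - 1 / (p : ℝ) := by
      have h6 : 1 / (p : ℝ) < 1 := by
        rw [div_lt_one (by linarith)]
        linarith
      linarith
    rw [Real.exp_neg, inv_le_iff_one_le_mul₀ (Real.exp_pos _)]
    calc (1 : ℝ) = (1 - 1 / (p : ℝ)) * (1 / ((p : ℝ) - 1) + 1) := h4.symm
      _ ≤ (1 - 1 / (p : ℝ)) * Real.exp (1 / ((p : ℝ) - 1)) :=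
        mul_le_mul_of_nonneg_left h2 h5.le
  have h2 : ∑ p ∈ PP y, 1 / ((p : ℝ) - 1) ≤ (∑ p ∈ PP y, 1 / (p : ℝ)) + 1 := by
    have h3 : ∑ p ∈ PP y, 1 / ((p : ℝ) - 1) =
        (∑ p ∈ PP y, 1 / (p : ℝ)) + ∑ p ∈ PP y, 1 / ((p : ℝ) * (p - 1)) := by
      rw [← Finset.sum_add_distrib]
      refine Finset.sum_congr rfl fun p hp => ?_
      have h1 : (2 : ℝ) ≤ p := by exact_mod_cast two_le hp
      have h3 : (0 : ℝ) < (p : ℝ) - 1 := by linarith
      have h4 : (0 : ℝ) < (p : ℝ) := by linarith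
      field_simp
      ring
    rw [h3]
    have h4 := sum_sq y hy
    linarith
  refine le_trans (Real.exp_le_exp.2 ?_) h1
  linarith

end MRT_

open MRT_ in
/-- MRT: products of Mertens -/
theorem p_MRT : T_MRT := by
  obtain ⟨C, hC, h⟩ := SSC.p_MER
  refine ⟨Real.exp (-C - 1), Real.exp C, Real.exp_pos _, Real.exp_pos _, fun y hy => ?_⟩
  have hy' : (2 : ℝ) ≤ y := by exact_mod_cast hy
  have h1 := h y hy'
  rw [pri_eq] at h1
  have h2 : 0 < Real.log y := Real.log_pos (by linarith)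
  obtain ⟨h3, h4⟩ := abs_le.1 h1
  constructor
  · refine le_trans ?_ (lower y (by omega))
    have h5 : Real.exp (-C - 1) / Real.log y = Real.exp (-C - 1 - Real.log (Real.log y)) := by
      rw [Real.exp_sub (-C - 1), Real.exp_log h2]
    rw [h5]
    refine Real.exp_le_exp.2 ?_
    linarith
  · refine le_trans (upper y) ?_
    have h5 : Real.exp C / Real.log y = Real.exp (C - Real.log (Real.log y)) := by
      rw [Real.exp_sub C, Real.exp_log h2]
    rw [h5]
    refine Real.exp_le_exp.2 ?_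
    linarith

end Pool.Agent.TEQ
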