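import Pool.Agent.TEQ.Targets

/-!
# TEQ: primes `≡ 1` to smooth moduli with weights `(log n)^r n^(-1-η)`
-/

set_option autoImplicit false

open Finset

noncomputable section

namespace Pool.Agent.TEQ

open ArithmeticFunction.vonMangoldt Complex in
/-- the L-series of the von Mangoldt function on the class of one -/
abbrev APS_f (m : ℕ) : ℕ → ℂ := fun n => ((residueClass (1 : ZMod m) n : ℝ) : ℂ)

lemma APS_log (m r n : ℕ) :
    (LSeries.logMul^[r] (APS_f m)) n = ((Real.log n : ℝ) : ℂ) ^ r * APS_f m n := by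
  induction r with
  | zero => simp
  | succ r ih =>
    rw [Function.iterate_succ_apply']
    simp only [LSeries.logMul]
    rw [ih, ← Complex.natCast_log]
    ring

lemma APS_ofReal_term (m r : ℕ) (η : ℝ) (n : ℕ) :
    LSeries.term (LSeries.logMul^[r] (APS_f m)) ((1 + η : ℝ) : ℂ) n =
      ((if n ≡ 1 [MOD m] then ArithmeticFunction.vonMangoldt n * (Real.log n) ^ r *
        (n : ℝ) ^ (-(1 + η)) else 0 : ℝ) : ℂ) := by
  rcases Nat.eq_zero_or_pos n with rfl | hn
  · simp
  · rw [LSeries.term_of_ne_zero hn.ne', APS_log]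
    have h1 : (n : ℂ) ^ (((1 + η : ℝ) : ℂ)) = (((n : ℝ) ^ (1 + η) : ℝ) : ℂ) := by
      rw [Complex.ofReal_cpow (Nat.cast_nonneg n)]
      norm_cast
    have h2 : (n : ℝ) ^ (-(1 + η)) = ((n : ℝ) ^ (1 + η))⁻¹ := Real.rpow_neg (Nat.cast_nonneg n) _
    have h3 : ((n : ZMod m) = 1) ↔ n ≡ 1 [MOD m] := by
      rw [← Nat.cast_one, ZMod.natCast_eq_natCast_iff]
    rw [h1, h2]
    by_cases h : n ≡ 1 [MOD m]
    · have h4 : ArithmeticFunction.vonMangoldt.residueClass (1 : ZMod m) n =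
          ArithmeticFunction.vonMangoldt n := Set.indicator_of_mem
            (s := {n : ℕ | (n : ZMod m) = 1}) (h3.2 h) (fun n => ArithmeticFunction.vonMangoldt n)
      rw [if_pos h]
      simp only [APS_f]
      rw [h4]
      push_cast
      ring
    · have h4 : ArithmeticFunction.vonMangoldt.residueClass (1 : ZMod m) n = 0 :=
        Set.indicator_of_notMem (s := {n : ℕ | (n : ZMod m) = 1}) (fun hh => h (h3.1 hh))
          (fun n => ArithmeticFunction.vonMangoldt n)
      rw [if_neg h]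
      simp only [APS_f]
      rw [h4]
      simp

lemma APS_abs (m : ℕ) (η : ℝ) (hη : 0 < η) :
    LSeries.abscissaOfAbsConv (APS_f m) < (((1 + η : ℝ) : ℂ)).re := by
  refine (ArithmeticFunction.vonMangoldt.abscissaOfAbsConv_residueClass_le_one
    (1 : ZMod m)).trans_lt ?_
  rw [Complex.ofReal_re]
  exact_mod_cast (by linarith : (1 : ℝ) < 1 + η)

lemma APS_summable (m r : ℕ) (η : ℝ) (hη : 0 < η) :
    Summable (fun n : ℕ => if n ≡ 1 [MOD m] then
      ArithmeticFunction.vonMangoldt n * (Real.log n) ^ r * (n : ℝ) ^ (-(1 + η)) else 0) := by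
  have h1 : LSeriesSummable (LSeries.logMul^[r] (APS_f m)) ((1 + η : ℝ) : ℂ) :=
    LSeriesSummable_of_abscissaOfAbsConv_lt_re (by
      rw [LSeries.absicssaOfAbsConv_logPowMul]
      exact APS_abs m η hη)
  rw [← Complex.summable_ofReal]
  refine h1.congr fun n => ?_
  exact APS_ofReal_term m r η n

lemma APS_iter (m r : ℕ) (η : ℝ) (hη : 0 < η) :
    iteratedDeriv r (LSeries (APS_f m)) ((1 + η : ℝ) : ℂ) = (-1) ^ r * ((apS m r η : ℝ) : ℂ) := by
  rw [LSeries_iteratedDeriv r (APS_abs m η hη)]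
  congr 1
  rw [apS, Complex.ofReal_tsum]
  exact tsum_congr fun n => APS_ofReal_term m r η n

lemma APS_pole (c : ℂ) (r : ℕ) (s : ℂ) (hs : s ≠ 1) :
    iteratedDeriv r (fun z => c / (z - 1)) s = (-1) ^ r * (c * r.factorial / (s - 1) ^ (r + 1)) := by
  induction r generalizing s with
  | zero => simp
  | succ r ih =>
    rw [iteratedDeriv_succ]
    have h1 : iteratedDeriv r (fun z => c / (z - 1)) =ᶠ[nhds s]
        fun z => (-1) ^ r * (c * r.factorial * ((z - 1) ^ (r + 1))⁻¹) := by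
      filter_upwards [isOpen_ne.mem_nhds hs] with z hz
      rw [ih z hz, div_eq_mul_inv]
    rw [h1.deriv_eq]
    have h0 : s - 1 ≠ 0 := sub_ne_zero.2 hs
    have h2 : HasDerivAt (fun z : ℂ => (z - 1) ^ (r + 1)) (((r + 1 : ℕ) : ℂ) * (s - 1) ^ r) s := by
      have h5 : HasDerivAt (fun z : ℂ => z - 1) 1 s := (hasDerivAt_id s).sub_const 1
      have h6 : HasDerivAt (fun z : ℂ => (z - 1) ^ (r + 1))
        (((r + 1 : ℕ) : ℂ) * (s - 1) ^ (r + 1 - 1) * 1) s := h5.pow (r + 1)
      rw [mul_one, Nat.add_sub_cancel] at h6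
      exact h6
    have h3 := ((h2.inv (pow_ne_zero _ h0)).const_mul (c * r.factorial)).const_mul ((-1 : ℂ) ^ r)
    have h4 := h3.deriv
    refine h4.trans ?_
    rw [Nat.factorial_succ]
    push_cast
    field_simp
    ring

theorem p_APS (h : T_AUX) : T_APS := by
  intro y
  obtain ⟨C, hC, hA⟩ := h y
  refine ⟨4 * C, by linarith, fun m r η h8 hm hs hη hη2 => ⟨APS_summable m r η hη, ?_⟩⟩
  have : NeZero m := ⟨hm⟩
  obtain ⟨hdiff, hbd⟩ := hA m h8 hs
  have hm8 : 8 ≤ m := Nat.le_of_dvd (Nat.pos_of_ne_zero hm) h8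
  have hl : 0 < Real.log m := Real.log_pos (by exact_mod_cast (by omega : 1 < m))
  set ℓ : ℝ := Real.log m ^ 9 with hℓ
  have hℓ0 : 0 < ℓ := pow_pos hl 9
  set K : ℝ := C * ℓ with hK
  have hK0 : 0 < K := mul_pos (by linarith) hℓ0
  set s₀ : ℂ := ((1 + η : ℝ) : ℂ) with hs₀
  have hρ : 0 < 1 / (2 * K) := by positivity
  have hη3 : η ≤ 1 / (4 * K) := by
    have : 4 * C * ℓ = 4 * K := by rw [hK]; ring
    rwa [this] at hη2
  have hsub : Metric.closedBall s₀ (1 / (2 * K)) ⊆ Metric.ball (1 : ℂ) (1 / K) := by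
    intro z hz
    rw [Metric.mem_closedBall, dist_eq_norm] at hz
    rw [Metric.mem_ball, dist_eq_norm]
    have h1 : ‖s₀ - 1‖ = η := by
      rw [hs₀]
      have : (((1 + η : ℝ) : ℂ)) - 1 = ((η : ℝ) : ℂ) := by push_cast; ring
      rw [this, Complex.norm_real, Real.norm_eq_abs, abs_of_pos hη]
    have h2 : ‖z - 1‖ ≤ ‖z - s₀‖ + ‖s₀ - 1‖ := by
      have := norm_add_le (z - s₀) (s₀ - 1)
      rwa [sub_add_sub_cancel] at this
    have h3 : 1 / (2 * K) + 1 / (4 * K) < 1 / K := by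
      have : 1 / (2 * K) + 1 / (4 * K) = (3 / 4) * (1 / K) := by field_simp; norm_num
      rw [this]
      have : 0 < 1 / K := by positivity
      linarith
    linarith
  have hcauchy := Complex.norm_iteratedDeriv_le_of_forall_mem_sphere_norm_le (c := s₀) r hρ
    (hdiff.diffContOnCl_ball hsub) (C := K)
    (fun z hz => hbd z (hsub (Metric.sphere_subset_closedBall hz)))
  have hre : (1 : ℝ) < s₀.re := by rw [hs₀, Complex.ofReal_re]; linarith
  have heq : ArithmeticFunction.vonMangoldt.LFunctionResidueClassAux (1 : ZMod m) =ᶠ[nhds s₀]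
      (LSeries (APS_f m) - fun z => (m.totient : ℂ)⁻¹ / (z - 1)) := by
    have hopen : IsOpen {s : ℂ | 1 < s.re} := isOpen_lt continuous_const Complex.continuous_re
    filter_upwards [hopen.mem_nhds hre] with z hz
    exact ArithmeticFunction.vonMangoldt.eqOn_LFunctionResidueClassAux isUnit_one hz
  have hne : s₀ ≠ 1 := by
    intro h0
    rw [h0, Complex.one_re] at hre
    exact lt_irrefl _ hre
  have hcd1 : ContDiffAt ℂ r (LSeries (APS_f m)) s₀ :=
    (LSeries_analyticOnNhd (APS_f m) s₀ (APS_abs m η hη)).contDiffAt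
  have hcd2 : ContDiffAt ℂ r (fun z : ℂ => (m.totient : ℂ)⁻¹ / (z - 1)) s₀ :=
    contDiffAt_const.div (contDiffAt_id.sub contDiffAt_const) (sub_ne_zero.2 hne)
  rw [heq.iteratedDeriv_eq r, iteratedDeriv_sub hcd1 hcd2, APS_iter m r η hη,
    APS_pole _ r s₀ hne, ← mul_sub, norm_mul, norm_pow, norm_neg, norm_one, one_pow,
    one_mul] at hcauchy
  have h5 : ((apS m r η : ℝ) : ℂ) - (m.totient : ℂ)⁻¹ * r.factorial / (s₀ - 1) ^ (r + 1) =
      ((apS m r η - r.factorial / (m.totient * η ^ (r + 1)) : ℝ) : ℂ) := by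
    have : s₀ - 1 = ((η : ℝ) : ℂ) := by rw [hs₀]; push_cast; ring
    rw [this]
    push_cast
    congr 1
    rw [div_mul_eq_div_div, div_eq_mul_inv ((r.factorial : ℂ)) ((m.totient : ℂ)), mul_comm
      ((r.factorial : ℂ))]
  rw [h5, Complex.norm_real, Real.norm_eq_abs] at hcauchy
  refine hcauchy.trans ?_
  have h6 : 4 * C * ℓ = 4 * K := by rw [hK]; ring
  rw [h6]
  have h7 : (r.factorial : ℝ) * K / (1 / (2 * K)) ^ r = r.factorial * (K * (2 * K) ^ r) := by
    rw [one_div, inv_pow, div_inv_eq_mul]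
    ring
  rw [h7]
  refine mul_le_mul_of_nonneg_left ?_ (Nat.cast_nonneg _)
  rw [pow_succ (4 * K) r, mul_comm K]
  have h8 : (2 * K) ^ r ≤ (4 * K) ^ r := pow_le_pow_left₀ (by positivity) (by linarith) r
  exact mul_le_mul h8 (by linarith) hK0.le (by positivity)

end Pool.Agent.TEQ
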