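import Pool.Agent.TEQ.Targets

/-!
# TEQ: target `ASY` (uniform asymptotics), from `RGS`
-/

set_option autoImplicit false

open Finset

noncomputable section

namespace Pool.Agent.TEQ

lemma ASY_kap (y : ℕ) (Q : Finset ℕ) (h2 : 2 ∈ Q) : (1 / 2 : ℝ) ^ (y + 1) ≤ kap y Q := by
  unfold kap
  have hcard : (PP y \ Q).card ≤ y + 1 := by
    calc (PP y \ Q).card ≤ (PP y).card := card_le_card sdiff_subset
      _ ≤ (range (y + 1)).card := card_le_card (filter_subset _ _)
      _ = y + 1 := card_range _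
  calc (1 / 2 : ℝ) ^ (y + 1) ≤ (1 / 2 : ℝ) ^ (PP y \ Q).card :=
        pow_le_pow_of_le_one (by norm_num) (by norm_num) hcard
    _ = ∏ _p ∈ PP y \ Q, (1 / 2 : ℝ) := by rw [prod_const]
    _ ≤ ∏ p ∈ PP y \ Q, (1 - 1 / ((p : ℝ) - 1)) := by
        refine prod_le_prod (fun _ _ => by norm_num) fun p hp => ?_
        rw [mem_sdiff] at hp
        have hpp : p.Prime := (mem_filter.1 hp.1).2
        have hp2 : p ≠ 2 := fun h => hp.2 (h ▸ h2)
        have hp3 : 3 ≤ p := by
          have := hpp.two_le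
          omega
        have hp3' : (3 : ℝ) ≤ p := by exact_mod_cast hp3
        have : 1 / ((p : ℝ) - 1) ≤ 1 / 2 := one_div_le_one_div_of_le (by norm_num) (by linarith)
        linarith

theorem p_ASY (h : T_RGS) : T_ASY := by
  intro y hy
  obtain ⟨C, hC, hR⟩ := h y hy
  have hC0 : 0 < C := by linarith
  set B : ℝ := 320 * C + y with hB
  have hB1 : 320 ≤ B := by
    have : (0 : ℝ) ≤ y := Nat.cast_nonneg y
    rw [hB]
    linarith
  refine ⟨B ^ 11, one_le_pow₀ (by linarith), ?_⟩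
  intro U m hU h8 hm hsm hmU
  set L : ℝ := U ^ (1 / 11 : ℝ) with hL
  have hU0 : 0 < U := lt_of_lt_of_le (by positivity) hU
  have hLB : B ≤ L := by
    have h1 : (B ^ 11) ^ (1 / 11 : ℝ) ≤ U ^ (1 / 11 : ℝ) :=
      Real.rpow_le_rpow (by positivity) hU (by norm_num)
    have h2 : (B ^ 11) ^ (1 / 11 : ℝ) = B := by
      rw [← Real.rpow_natCast, ← Real.rpow_mul (by linarith)]
      norm_num
    rw [h2] at h1
    exact h1
  have hL1 : 1 ≤ L := by linarith
  have hL0 : 0 < L := by linarith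
  have hUL : U = L ^ 11 := by
    rw [hL, ← Real.rpow_natCast, ← Real.rpow_mul hU0.le]
    norm_num
  have hm8 : 8 ≤ m := Nat.le_of_dvd (Nat.pos_of_ne_zero hm) h8
  have hm0 : (0 : ℝ) < m := by exact_mod_cast (Nat.pos_of_ne_zero hm)
  have hm1 : (1 : ℝ) < m := by
    have : (8 : ℝ) ≤ m := by exact_mod_cast hm8
    linarith
  have hl0 : 0 < Real.log m := Real.log_pos hm1
  have hlL : Real.log m ≤ L := by
    rw [Real.log_le_iff_le_exp hm0]
    exact hmU
  set r : ℕ := ⌈L⌉₊ + 3 with hr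
  have hrL : L + 3 ≤ r := by
    rw [hr]
    push_cast
    have := Nat.le_ceil L
    linarith
  have hrL' : (r : ℝ) ≤ 5 * L := by
    rw [hr]
    push_cast
    have := Nat.ceil_lt_add_one hL0.le
    linarith
  refine ⟨r, by omega, ?_⟩
  intro t ht1 ht2
  have hr0 : (0 : ℝ) < r := by linarith
  have ht0 : 0 < t := lt_of_lt_of_le (by positivity) ht1
  set X : ℝ := C * Real.log m ^ 9 with hX
  have hX0 : 0 < X := by positivity
  have hXt : X * t ≤ 1 / 8 := by
    have h1 : X ≤ C * L ^ 9 := by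
      rw [hX]
      gcongr
    have h2 : t ≤ 40 * L / L ^ 11 := by
      refine ht2.trans ?_
      rw [hUL]
      exact div_le_div_of_nonneg_right (by linarith) (by positivity)
    calc X * t ≤ (C * L ^ 9) * (40 * L / L ^ 11) := by gcongr
      _ = 40 * C / L := by
          field_simp
      _ ≤ 1 / 8 := by
          rw [div_le_div_iff₀ hL0 (by norm_num)]
          have : (0 : ℝ) ≤ y := Nat.cast_nonneg y
          rw [hB] at hLB
          linarith
  have htX : t ≤ 1 / X := by
    rw [le_div_iff₀ hX0]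
    linarith
  obtain ⟨hsum, habs⟩ := hR m r t h8 hm hsm ht0 htX
  refine ⟨hsum, habs.trans ?_⟩
  have hkap := ASY_kap y m.primeFactors (by
    rw [Nat.mem_primeFactors]
    exact ⟨Nat.prime_two, dvd_trans (by norm_num) h8, hm⟩)
  have hfac : (r.factorial : ℝ) * X ^ (r + 1) = (r.factorial / t ^ (r + 1)) * (X * t) ^ (r + 1) := by
    rw [mul_pow X t]
    have htp : t ^ (r + 1) ≠ 0 := by positivity
    generalize X ^ (r + 1) = a
    generalize t ^ (r + 1) = b at htp
    field_simp
  rw [hfac]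
  have hT : 0 < (r.factorial : ℝ) / t ^ (r + 1) := by positivity
  have hy : y ≤ r := by
    have : (y : ℝ) ≤ r := by
      have h1 : (y : ℝ) ≤ B := by
        rw [hB]
        linarith
      linarith
    exact_mod_cast this
  have hm3 : (m : ℝ) ≤ 4 ^ r := by
    refine hmU.trans ?_
    calc Real.exp L ≤ Real.exp r := Real.exp_le_exp.2 (by linarith)
      _ = Real.exp 1 ^ r := by rw [← Real.exp_nat_mul, mul_one]
      _ ≤ 4 ^ r := by
          refine pow_le_pow_left₀ (Real.exp_pos 1).le ?_ r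
          have := Real.exp_one_lt_d9
          linarith
  have key : (X * t) ^ (r + 1) ≤ 1 / 10 * (kap y m.primeFactors / m) := by
    have h1 : (X * t) ^ (r + 1) ≤ (1 / 8 : ℝ) ^ (r + 1) :=
      pow_le_pow_left₀ (by positivity) hXt _
    have hyr : y + 3 ≤ r := by
      have h1 : (y : ℝ) + 3 ≤ r := by
        have h1 : (y : ℝ) ≤ B := by
          rw [hB]
          linarith
        linarith
      exact_mod_cast h1
    have h2 : (1 / 8 : ℝ) ^ (r + 1) ≤ 1 / 10 * ((1 / 2 : ℝ) ^ (y + 1) / 4 ^ r) := by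
      have e1 : (1 / 8 : ℝ) ^ (r + 1) = (1 / 2) ^ r * (1 / 8) / 4 ^ r := by
        rw [pow_succ, show (1 / 8 : ℝ) = (1 / 2) * (1 / 4) by norm_num, mul_pow, div_pow 1 4,
          one_pow]
        ring
      have e2 : (1 / 2 : ℝ) ^ r ≤ (1 / 2) ^ (y + 1) * (1 / 4) := by
        calc (1 / 2 : ℝ) ^ r ≤ (1 / 2 : ℝ) ^ (y + 1 + 2) :=
              pow_le_pow_of_le_one (by norm_num) (by norm_num) (by omega)
          _ = (1 / 2) ^ (y + 1) * (1 / 4) := by
              rw [pow_add]
              norm_num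
      have e3 : (0 : ℝ) < (1 / 2) ^ (y + 1) := by positivity
      have e4 : 1 / 10 * ((1 / 2 : ℝ) ^ (y + 1) / 4 ^ r) =
          (1 / 10 * (1 / 2 : ℝ) ^ (y + 1)) / 4 ^ r := by ring
      rw [e1, e4]
      apply div_le_div_of_nonneg_right _ (by positivity)
      linarith
    refine h1.trans (h2.trans ?_)
    have h3 : (1 / 2 : ℝ) ^ (y + 1) / 4 ^ r ≤ kap y m.primeFactors / m := by
      have hk0 : 0 ≤ kap y m.primeFactors := le_trans (by positivity) hkap
      calc (1 / 2 : ℝ) ^ (y + 1) / 4 ^ r ≤ kap y m.primeFactors / 4 ^ r := by gcongr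
        _ ≤ kap y m.primeFactors / m := div_le_div_of_nonneg_left hk0 hm0 hm3
    linarith
  calc (r.factorial : ℝ) / t ^ (r + 1) * (X * t) ^ (r + 1)
      ≤ r.factorial / t ^ (r + 1) * (1 / 10 * (kap y m.primeFactors / m)) := by gcongr
    _ = 1 / 10 * (kap y m.primeFactors / m * (r.factorial / t ^ (r + 1))) := by ring

end Pool.Agent.TEQ
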