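import Pool.Agent.TEQ.Targets

/-!
# TEQ: AUX (the auxiliary function of a residue class near `1`)
-/

set_option autoImplicit false

open Finset

noncomputable section

namespace Pool.Agent.TEQ

namespace AUX_

open DirichletCharacter

theorem log_ge {m : ℕ} (h : 8 ≤ m) : 1 ≤ Real.log m := by
  have h1 : Real.exp 1 ≤ m := by
    have h2 : (8 : ℝ) ≤ m := by exact_mod_cast h
    linarith [Real.exp_one_lt_d9]
  have h3 := Real.log_le_log (Real.exp_pos 1) h1
  rwa [Real.log_exp] at h3

theorem diff_div {f : ℂ → ℂ} (hf : Differentiable ℂ f) {U : Set ℂ} (h : ∀ s ∈ U, f s ≠ 0) :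
    DifferentiableOn ℂ (fun s => deriv f s / f s) U := by
  have h1 : Differentiable ℂ (deriv f) := by
    have h2 := (hf.differentiableOn (s := Set.univ)).deriv isOpen_univ
    exact differentiableOn_univ.1 h2
  exact h1.differentiableOn.div hf.differentiableOn h

theorem card_c (m : ℕ) [NeZero m] [DecidableEq (DirichletCharacter ℂ m)] :
    (({1}ᶜ : Finset (DirichletCharacter ℂ m))).card = m.totient - 1 := by
  rw [Finset.card_compl, Finset.card_singleton, ← Nat.card_eq_fintype_card,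
    DirichletCharacter.card_eq_totient_of_hasEnoughRootsOfUnity]

end AUX_

open AUX_ in
theorem p_AUX (h1 : T_CXL) (h2 : T_REL) (h3 : T_PRN) : T_AUX := by
  intro y
  obtain ⟨C₁, hC₁, H₁⟩ := h1
  obtain ⟨C₂, hC₂, H₂⟩ := h2 y
  obtain ⟨C₃, hC₃, H₃⟩ := h3 y
  refine ⟨C₁ + C₂ + C₃, by linarith, ?_⟩
  intro m _ hm8 hy
  have hm0 : m ≠ 0 := NeZero.ne m
  have hm : 8 ≤ m := Nat.le_of_dvd (Nat.pos_of_ne_zero hm0) hm8
  have hl : 1 ≤ Real.log m := log_ge hm
  have hl9 : 1 ≤ Real.log m ^ 9 := one_le_pow₀ hl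
  set L : ℝ := Real.log m ^ 9 with hL
  set C : ℝ := C₁ + C₂ + C₃ with hC
  have hCpos : 0 < C := by linarith
  have b1 : ∀ s ∈ Metric.ball (1 : ℂ) (1 / (C * L)), ‖s - 1‖ ≤ 1 / (C₁ * L) := by
    intro s hs
    rw [Metric.mem_ball, dist_eq_norm] at hs
    refine hs.le.trans (one_div_le_one_div_of_le (by positivity) ?_)
    exact mul_le_mul_of_nonneg_right (by linarith) (by linarith)
  have b2 : ∀ s ∈ Metric.ball (1 : ℂ) (1 / (C * L)), ‖s - 1‖ ≤ 1 / C₂ := by
    intro s hs
    rw [Metric.mem_ball, dist_eq_norm] at hs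
    refine hs.le.trans (one_div_le_one_div_of_le (by positivity) ?_)
    nlinarith
  have b3 : ∀ s ∈ Metric.ball (1 : ℂ) (1 / (C * L)), ‖s - 1‖ ≤ 1 / C₃ := by
    intro s hs
    rw [Metric.mem_ball, dist_eq_norm] at hs
    refine hs.le.trans (one_div_le_one_div_of_le (by positivity) ?_)
    nlinarith
  have hCL1 : C₁ * L ≤ C * L := mul_le_mul_of_nonneg_right (by linarith) (by linarith)
  have hCL2 : C₂ ≤ C * L := by nlinarith
  have hCL3 : C₃ ≤ C * L := by nlinarith
  have key : ∀ χ : DirichletCharacter ℂ m, χ ≠ 1 →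
      ∀ s ∈ Metric.ball (1 : ℂ) (1 / (C * L)), χ.LFunction s ≠ 0 ∧
        ‖deriv χ.LFunction s / χ.LFunction s‖ ≤ C * L := by
    intro χ hχ s hs
    by_cases h : χ ^ 2 = 1
    · obtain ⟨k1, k2⟩ := H₂ m χ hm8 hy h hχ s (b2 s hs)
      exact ⟨k1, k2.trans hCL2⟩
    · obtain ⟨k1, k2⟩ := H₁ m χ hm h s (b1 s hs)
      exact ⟨k1, k2.trans hCL1⟩
  have key0 : ∀ s ∈ Metric.ball (1 : ℂ) (1 / (C * L)),
      DirichletCharacter.LFunctionTrivChar₁ m s ≠ 0 ∧
        ‖deriv (DirichletCharacter.LFunctionTrivChar₁ m) s /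
          DirichletCharacter.LFunctionTrivChar₁ m s‖ ≤ C * L := by
    intro s hs
    obtain ⟨k1, k2⟩ := H₃ m hy s (b3 s hs)
    exact ⟨k1, k2.trans hCL3⟩
  constructor
  · unfold ArithmeticFunction.vonMangoldt.LFunctionResidueClassAux
    refine DifferentiableOn.const_mul (DifferentiableOn.sub ?_ ?_) _
    · have h := (diff_div (DirichletCharacter.differentiable_LFunctionTrivChar₁ m)
        (fun s hs => (key0 s hs).1)).neg
      refine h.congr fun s hs => ?_
      simp only [Pi.neg_apply, neg_div]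
    · refine DifferentiableOn.fun_sum fun χ hχ => ?_
      have hχ' : χ ≠ 1 := by simpa using hχ
      have h := (diff_div (DirichletCharacter.differentiable_LFunction hχ')
        (fun s hs => (key χ hχ' s hs).1)).const_mul (χ (1 : ZMod m)⁻¹)
      refine h.congr fun s hs => ?_
      rw [mul_div_assoc]
  · intro s hs
    unfold ArithmeticFunction.vonMangoldt.LFunctionResidueClassAux
    have hφ : 0 < (m.totient : ℝ) := by
      exact_mod_cast Nat.totient_pos.2 (Nat.pos_of_ne_zero hm0)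
    rw [norm_mul, norm_inv, Complex.norm_natCast, inv_mul_le_iff₀ hφ]
    have h0 := (key0 s hs).2
    have e : (m.totient : ℝ) * (C * L) = C * L + ((m.totient : ℝ) - 1) * (C * L) := by ring
    rw [neg_div, e]
    refine (norm_sub_le _ _).trans (add_le_add ?_ ?_)
    · rw [norm_neg]
      exact h0
    · refine (norm_sum_le_of_le (n := fun _ => C * L) _ ?_).trans ?_
      · intro χ hχ
        have hχ' : χ ≠ 1 := by simpa using hχ
        rw [mul_div_assoc, norm_mul]
        have k1 := (key χ hχ' s hs).2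
        have k2 : ‖χ (1 : ZMod m)⁻¹‖ ≤ 1 := DirichletCharacter.norm_le_one χ _
        calc ‖χ (1 : ZMod m)⁻¹‖ * ‖deriv χ.LFunction s / χ.LFunction s‖
            ≤ 1 * ‖deriv χ.LFunction s / χ.LFunction s‖ :=
              mul_le_mul_of_nonneg_right k2 (norm_nonneg _)
          _ ≤ C * L := by rw [one_mul]; exact k1
      · rw [Finset.sum_const, nsmul_eq_mul]
        refine mul_le_mul_of_nonneg_right ?_ (by positivity)
        rw [@card_c m _ (fun a b => Classical.propDecidable (a = b))]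
        have := Nat.totient_pos.2 (Nat.pos_of_ne_zero hm0)
        have hc : m.totient - 1 + 1 = m.totient := by omega
        have hc' : ((m.totient - 1 : ℕ) : ℝ) + 1 = m.totient := by exact_mod_cast hc
        linarith

end Pool.Agent.TEQ
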