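import Pool.Agent.TEQ.Targets

/-!
# TEQ: AVG, the average of the singular series over `MM A V`
-/

set_option autoImplicit false

open Finset

noncomputable section

namespace Pool.Agent.TEQ

namespace AVG_

/-- the map `(a, u) ↦ 2 ^ (3 + a) * u` is injective for odd `u` -/
lemma inj {A : ℕ} {V : Finset ℕ} (hV : ∀ u ∈ V, Odd u) :
    Set.InjOn (fun x : ℕ × ℕ => 2 ^ (3 + x.1) * x.2)
      ((range A ×ˢ V : Finset (ℕ × ℕ)) : Set (ℕ × ℕ)) := by
  have key : ∀ a b u v : ℕ, Odd u → Odd v → 2 ^ (3 + a) * u = 2 ^ (3 + b) * v → a ≤ b → a = b := by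
    intro a b u v hu _ h hab
    obtain ⟨k, rfl⟩ := Nat.exists_eq_add_of_le hab
    have h1 : 2 ^ (3 + a) * u = 2 ^ (3 + a) * (2 ^ k * v) := by
      rw [h, ← mul_assoc, ← pow_add]
      ring_nf
    have h2 : u = 2 ^ k * v := Nat.eq_of_mul_eq_mul_left (by positivity) h1
    rcases Nat.eq_zero_or_pos k with hk | hk
    · simp [hk]
    · exfalso
      have h3 : 2 ∣ u := by
        rw [h2]
        exact Dvd.dvd.mul_right (dvd_pow_self 2 (by omega)) v
      exact (Nat.not_even_iff_odd.mpr hu) (even_iff_two_dvd.mpr h3)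
  rintro ⟨a, u⟩ hx ⟨b, v⟩ hy h
  simp only [coe_product, Set.mem_prod, mem_coe] at hx hy
  simp only at h
  have hu := hV u hx.2
  have hv := hV v hy.2
  have hab : a = b := by
    rcases le_total a b with h1 | h1
    · exact key a b u v hu hv h h1
    · exact (key b a v u hv hu h.symm h1).symm
  subst hab
  have huv : u = v := Nat.eq_of_mul_eq_mul_left (by positivity) h
  rw [huv]

lemma card_MM {A : ℕ} {V : Finset ℕ} (hV : ∀ u ∈ V, Odd u) :
    (MM A V).card = A * V.card := by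
  unfold MM
  rw [card_image_of_injOn (inj hV), card_product, card_range]

/-- the large prime factors -/
lemma big (n : ℕ) (M : ℝ) (S : Finset ℕ) (hM : 1 ≤ M) (hn : n ≠ 0)
    (hnM : (n : ℝ) ≤ Real.exp M) (hS : S ⊆ n.primeFactors) (hS2 : ∀ p ∈ S, M < (p : ℝ)) :
    ∏ p ∈ S, (1 + 4 / (p : ℝ)) ≤ Real.exp 6 := by
  have hprime : ∀ p ∈ S, p.Prime := fun p hp => Nat.prime_of_mem_primeFactors (hS hp)
  have hdvd : (∏ p ∈ S, p) ∣ n := by
    apply Finset.prod_primes_dvd n
    · intro p hp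
      exact (hprime p hp).prime
    · intro p hp
      exact Nat.dvd_of_mem_primeFactors (hS hp)
  have h1 : 2 ^ S.card ≤ ∏ p ∈ S, p :=
    Finset.pow_card_le_prod S (fun p => p) 2 fun p hp => (hprime p hp).two_le
  have h2 : 2 ^ S.card ≤ n := h1.trans (Nat.le_of_dvd (Nat.pos_of_ne_zero hn) hdvd)
  have h3 : ((2 : ℝ) ^ S.card) ≤ Real.exp M := by
    refine le_trans ?_ hnM
    exact_mod_cast h2
  have h4 : (S.card : ℝ) * Real.log 2 ≤ M := by
    have := Real.log_le_log (by positivity) h3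
    rwa [Real.log_exp, Real.log_pow] at this
  have hlog : (2 : ℝ) / 3 ≤ Real.log 2 := by
    have := Real.log_two_gt_d9
    linarith
  have h5 : (S.card : ℝ) * (2 / 3) ≤ M :=
    le_trans (mul_le_mul_of_nonneg_left hlog (by positivity)) h4
  have h6 : ∏ p ∈ S, (1 + 4 / (p : ℝ)) ≤ ∏ _p ∈ S, Real.exp (4 / M) := by
    apply Finset.prod_le_prod
    · intro p _
      positivity
    · intro p hp
      have hpM := hS2 p hp
      have e1 : (4 : ℝ) / p ≤ 4 / M := by
        apply div_le_div_of_nonneg_left (by norm_num) (by linarith) hpM.le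
      have e2 := Real.add_one_le_exp (4 / (p : ℝ))
      have e3 := Real.exp_le_exp.mpr e1
      linarith
  refine h6.trans ?_
  rw [prod_const, ← Real.exp_nat_mul]
  apply Real.exp_le_exp.mpr
  have hM0 : (0 : ℝ) < M := by linarith
  rw [mul_div_assoc', div_le_iff₀ hM0]
  linarith

/-- expansion of `HH` -/
lemma expand (Q : Finset ℕ) (n : ℕ) (M : ℝ) (hM : 1 ≤ M) (hn : n ≠ 0)
    (hnM : (n : ℝ) ≤ Real.exp M) :
    HH Q n ≤ Real.exp 6 * ∑ E ∈ (PP ⌊M⌋₊ \ Q).powerset,
      if (∏ p ∈ E, p) ∣ n then (4 : ℝ) ^ E.card / ((∏ p ∈ E, p : ℕ) : ℝ) else 0 := by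
  unfold HH
  set T := (n.primeFactors \ Q).filter (· ≠ 2) with hT
  have hTn : T ⊆ n.primeFactors := fun p hp => by
    rw [hT, mem_filter, mem_sdiff] at hp
    exact hp.1.1
  rw [← prod_filter_mul_prod_filter_not T (fun p : ℕ => M < (p : ℝ))]
  refine mul_le_mul ?_ ?_ ?_ (Real.exp_pos 6).le
  · apply big n M _ hM hn hnM
    · exact (filter_subset _ _).trans hTn
    · intro p hp
      exact (mem_filter.mp hp).2
  · rw [Finset.prod_one_add, ← sum_filter]
    have hnn : ∀ E : Finset ℕ, (0 : ℝ) ≤ (4 : ℝ) ^ E.card / ((∏ p ∈ E, p : ℕ) : ℝ) := fun E => by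
      positivity
    have e1 : ∀ E : Finset ℕ, ∏ p ∈ E, (4 / (p : ℝ)) =
        (4 : ℝ) ^ E.card / ((∏ p ∈ E, p : ℕ) : ℝ) := fun E => by
      rw [prod_div_distrib, prod_const]
      push_cast
      rfl
    rw [sum_congr rfl fun E _ => e1 E]
    apply sum_le_sum_of_subset_of_nonneg
    · intro E hE
      rw [mem_powerset] at hE
      have hE2 : ∀ p ∈ E, p ∈ n.primeFactors ∧ p ∉ Q ∧ ¬ M < (p : ℝ) := by
        intro p hp
        have h1 := hE hp
        rw [mem_filter] at h1
        have h2 := h1.1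
        rw [hT, mem_filter, mem_sdiff] at h2
        exact ⟨h2.1.1, h2.1.2, h1.2⟩
      rw [mem_filter, mem_powerset]
      constructor
      · intro p hp
        obtain ⟨a1, a2, a3⟩ := hE2 p hp
        rw [mem_sdiff]
        refine ⟨?_, a2⟩
        unfold PP
        rw [mem_filter, mem_range]
        refine ⟨?_, Nat.prime_of_mem_primeFactors a1⟩
        rw [Nat.lt_succ_iff]
        exact Nat.le_floor (not_lt.mp a3)
      · apply Finset.prod_primes_dvd n
        · intro p hp
          exact (Nat.prime_of_mem_primeFactors (hE2 p hp).1).prime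
        · intro p hp
          exact Nat.dvd_of_mem_primeFactors (hE2 p hp).1
    · intro E _ _
      exact hnn E
  · exact prod_nonneg fun p _ => by positivity

/-- the number of elements of `MM A V` in a residue class -/
lemma count (h1 : T_ORD) (A d v : ℕ) (V : Finset ℕ) (hd : 0 < d) (hodd : Odd d)
    (hV : ∀ u ∈ V, u.Coprime d) :
    (((MM A V).filter fun m => m ≡ v [MOD d]).card : ℝ) ≤
      V.card * (A * (1 / (orderOf (2 : ZMod d) : ℝ)) + 1) := by
  have e1 : ((MM A V).filter fun m => m ≡ v [MOD d]).card ≤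
      ((range A ×ˢ V).filter fun x : ℕ × ℕ => 2 ^ (3 + x.1) * x.2 ≡ v [MOD d]).card := by
    unfold MM
    rw [filter_image]
    exact card_image_le
  have e2 : ((range A ×ˢ V).filter fun x : ℕ × ℕ => 2 ^ (3 + x.1) * x.2 ≡ v [MOD d]).card =
      ∑ u ∈ V, ((range A).filter fun a => 2 ^ (3 + a) * u ≡ v [MOD d]).card := by
    rw [card_filter, sum_product_right]
    exact sum_congr rfl fun u _ => (card_filter _ _).symm
  have e3 : ∑ u ∈ V, ((range A).filter fun a => 2 ^ (3 + a) * u ≡ v [MOD d]).card ≤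
      ∑ _u ∈ V, (A / orderOf (2 : ZMod d) + 1) :=
    sum_le_sum fun u hu => h1 A d u v hd hodd (hV u hu)
  rw [sum_const, smul_eq_mul] at e3
  have e4 : ((MM A V).filter fun m => m ≡ v [MOD d]).card ≤
      V.card * (A / orderOf (2 : ZMod d) + 1) := e1.trans (e2.le.trans e3)
  have e5 : (((MM A V).filter fun m => m ≡ v [MOD d]).card : ℝ) ≤
      V.card * (((A / orderOf (2 : ZMod d) : ℕ) : ℝ) + 1) := by exact_mod_cast e4
  refine e5.trans ?_
  apply mul_le_mul_of_nonneg_left _ (by positivity)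
  have e6 : ((A / orderOf (2 : ZMod d) : ℕ) : ℝ) ≤ (A : ℝ) / (orderOf (2 : ZMod d) : ℝ) :=
    Nat.cast_div_le
  rw [mul_one_div]
  linarith

end AVG_

open AVG_ in
theorem p_AVG (h1 : T_ORD) (h2 : T_RMC) : T_AVG := by
  obtain ⟨C, hC, hR⟩ := h2
  refine ⟨Real.exp 6 * (C + 1), by positivity, ?_⟩
  intro A V Q M hA hQ hV hM hle hprod
  set D : Finset (Finset ℕ) := (PP ⌊M⌋₊ \ Q).powerset with hD
  set w : Finset ℕ → ℝ := fun E => (4 : ℝ) ^ E.card / ((∏ p ∈ E, p : ℕ) : ℝ) with hw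
  have hw0 : ∀ E, 0 ≤ w E := fun E => by
    rw [hw]
    positivity
  have hDp : ∀ E ∈ D, ∀ p ∈ E, p.Prime ∧ p ∉ Q ∧ p ∈ PP ⌊M⌋₊ := by
    intro E hE p hp
    have h3 := (mem_powerset.mp hE) hp
    rw [mem_sdiff] at h3
    have h4 := h3.1
    unfold PP at h4
    rw [mem_filter] at h4
    exact ⟨h4.2, h3.2, h3.1⟩
  have hpf : ∀ E ∈ D, (∏ p ∈ E, p).primeFactors = E := fun E hE =>
    Nat.primeFactors_prod fun p hp => (hDp E hE p hp).1
  have hpos : ∀ E ∈ D, 0 < ∏ p ∈ E, p := fun E hE =>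
    prod_pos fun p hp => (hDp E hE p hp).1.pos
  have hodd : ∀ E ∈ D, Odd (∏ p ∈ E, p) := by
    intro E hE
    rw [← Nat.not_even_iff_odd, even_iff_two_dvd]
    intro h3
    have h4 : 2 ∈ (∏ p ∈ E, p).primeFactors :=
      Nat.mem_primeFactors.mpr ⟨Nat.prime_two, h3, (hpos E hE).ne'⟩
    rw [hpf E hE] at h4
    exact (hDp E hE 2 h4).2.1 hQ
  have hsq : ∀ E ∈ D, Squarefree (∏ p ∈ E, p) := by
    intro E hE
    apply Finset.squarefree_prod_of_pairwise_isCoprime
    · intro p hp q hq hpq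
      exact Nat.coprime_iff_isRelPrime.mp
        ((Nat.coprime_primes (hDp E hE p hp).1 (hDp E hE q hq).1).mpr hpq)
    · intro p hp
      exact (hDp E hE p hp).1.prime.squarefree
  have hinj : Set.InjOn (fun E : Finset ℕ => ∏ p ∈ E, p) (D : Set (Finset ℕ)) := by
    intro E hE E' hE' h3
    have h4 : (∏ p ∈ E, p) = ∏ p ∈ E', p := h3
    rw [← hpf E hE, ← hpf E' hE', h4]
  -- the two sums over `D`
  have hs1 : ∑ E ∈ D, w E * (1 / (orderOf (2 : ZMod (∏ p ∈ E, p)) : ℝ)) ≤ C := by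
    have h3 := hR (D.image fun E : Finset ℕ => ∏ p ∈ E, p) (by
      intro d hd
      obtain ⟨E, hE, rfl⟩ := mem_image.mp hd
      exact ⟨hsq E hE, hodd E hE⟩)
    rw [sum_image hinj] at h3
    refine le_trans (le_of_eq ?_) h3
    apply sum_congr rfl
    intro E hE
    rw [hpf E hE, hw]
    simp only
    rw [div_mul_div_comm, mul_one]
  have hs2 : ∑ E ∈ D, w E ≤ A := by
    refine le_trans ?_ hprod
    rw [Finset.prod_one_add]
    have e1 : ∀ E : Finset ℕ, w E = ∏ p ∈ E, (4 / (p : ℝ)) := fun E => by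
      rw [prod_div_distrib, prod_const, hw]
      push_cast
      rfl
    rw [sum_congr rfl fun E _ => e1 E]
    apply sum_le_sum_of_subset_of_nonneg
    · exact powerset_mono.mpr sdiff_subset
    · intro E _ _
      exact prod_nonneg fun p _ => by positivity
  have hcard : ((MM A V).card : ℝ) = A * V.card := by
    rw [card_MM fun u hu => (hV u hu).1]
    push_cast
    rfl
  -- pointwise bound
  have hpt : ∀ m ∈ MM A V, ∀ m' ∈ (MM A V).erase m, HH Q (Int.natAbs ((m : ℤ) - m')) ≤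
      Real.exp 6 * ∑ E ∈ D, if m' ≡ m [MOD (∏ p ∈ E, p)] then w E else 0 := by
    intro m hm m' hm'
    rw [mem_erase] at hm'
    have hne : Int.natAbs ((m : ℤ) - m') ≠ 0 := by
      have := hm'.1
      omega
    have hle2 : ((Int.natAbs ((m : ℤ) - m') : ℕ) : ℝ) ≤ Real.exp M := by
      have h3 : Int.natAbs ((m : ℤ) - m') ≤ m ∨ Int.natAbs ((m : ℤ) - m') ≤ m' := by omega
      rcases h3 with h3 | h3
      · exact le_trans (by exact_mod_cast h3) (hle m hm)
      · exact le_trans (by exact_mod_cast h3) (hle m' hm'.2)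
    refine (expand Q _ M hM hne hle2).trans (le_of_eq ?_)
    congr 1
    apply sum_congr rfl
    intro E _
    have h4 : ((∏ p ∈ E, p) ∣ Int.natAbs ((m : ℤ) - m')) ↔ m' ≡ m [MOD (∏ p ∈ E, p)] := by
      rw [Nat.modEq_iff_dvd, Int.natCast_dvd]
    simp only [h4, hw]
  -- the double sum
  have hcnt : ∀ E ∈ D, ∀ m : ℕ,
      (((MM A V).filter fun m' => m' ≡ m [MOD (∏ p ∈ E, p)]).card : ℝ) ≤
      V.card * (A * (1 / (orderOf (2 : ZMod (∏ p ∈ E, p)) : ℝ)) + 1) := by
    intro E hE m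
    apply count h1 A _ m V (hpos E hE) (hodd E hE)
    intro u hu
    apply Nat.Coprime.prod_right
    intro p hp
    rw [Nat.coprime_comm, Nat.Prime.coprime_iff_not_dvd (hDp E hE p hp).1]
    intro h3
    have hu0 : u ≠ 0 := by
      rintro rfl
      exact absurd (hV 0 hu).1 (by decide)
    exact (hDp E hE p hp).2.1
      ((hV u hu).2 (Nat.mem_primeFactors.mpr ⟨(hDp E hE p hp).1, h3, hu0⟩))
  have hnn : ∀ (m m' : ℕ), (0 : ℝ) ≤ ∑ E ∈ D, if m' ≡ m [MOD (∏ p ∈ E, p)] then w E else 0 := by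
    intro m m'
    apply sum_nonneg
    intro E _
    split_ifs
    · exact hw0 E
    · exact le_rfl
  have hin : ∀ m ∈ MM A V, ∑ m' ∈ (MM A V).erase m, HH Q (Int.natAbs ((m : ℤ) - m')) ≤
      Real.exp 6 * (V.card * (A * C + A)) := by
    intro m hm
    calc ∑ m' ∈ (MM A V).erase m, HH Q (Int.natAbs ((m : ℤ) - m'))
        ≤ ∑ m' ∈ (MM A V).erase m,
          Real.exp 6 * ∑ E ∈ D, (if m' ≡ m [MOD (∏ p ∈ E, p)] then w E else 0) :=
          sum_le_sum fun m' hm' => hpt m hm m' hm'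
      _ ≤ ∑ m' ∈ MM A V,
          Real.exp 6 * ∑ E ∈ D, (if m' ≡ m [MOD (∏ p ∈ E, p)] then w E else 0) := by
          apply sum_le_sum_of_subset_of_nonneg (erase_subset _ _)
          intro m' _ _
          exact mul_nonneg (Real.exp_pos 6).le (hnn m m')
      _ = Real.exp 6 * ∑ E ∈ D, w E *
          (((MM A V).filter fun m' => m' ≡ m [MOD (∏ p ∈ E, p)]).card : ℝ) := by
          rw [← mul_sum, sum_comm]
          congr 1
          apply sum_congr rfl
          intro E _
          rw [← sum_filter, sum_const, nsmul_eq_mul, mul_comm]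
      _ ≤ Real.exp 6 * ∑ E ∈ D, w E *
          (V.card * (A * (1 / (orderOf (2 : ZMod (∏ p ∈ E, p)) : ℝ)) + 1)) := by
          apply mul_le_mul_of_nonneg_left _ (Real.exp_pos 6).le
          exact sum_le_sum fun E hE => mul_le_mul_of_nonneg_left (hcnt E hE m) (hw0 E)
      _ = Real.exp 6 * (V.card *
          (A * (∑ E ∈ D, w E * (1 / (orderOf (2 : ZMod (∏ p ∈ E, p)) : ℝ))) +
            ∑ E ∈ D, w E)) := by
          congr 1
          rw [mul_sum, ← sum_add_distrib, mul_sum]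
          apply sum_congr rfl
          intro E _
          ring
      _ ≤ Real.exp 6 * (V.card * (A * C + A)) := by
          apply mul_le_mul_of_nonneg_left _ (Real.exp_pos 6).le
          apply mul_le_mul_of_nonneg_left _ (by positivity)
          exact add_le_add (mul_le_mul_of_nonneg_left hs1 (by positivity)) hs2
  calc ∑ m ∈ MM A V, ∑ m' ∈ (MM A V).erase m, HH Q (Int.natAbs ((m : ℤ) - m'))
      ≤ ∑ _m ∈ MM A V, Real.exp 6 * (V.card * (A * C + A)) := sum_le_sum hin
    _ = ((MM A V).card : ℝ) * (Real.exp 6 * (V.card * (A * C + A))) := by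
        rw [sum_const, nsmul_eq_mul]
    _ = Real.exp 6 * (C + 1) * ((MM A V).card : ℝ) ^ 2 := by
        rw [hcard]
        ring

end Pool.Agent.TEQ
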