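import Pool.Agent.TEQ.Targets

/-!
# TEQ-BOX: the box of smooth numbers
-/

set_option autoImplicit false

open Finset

namespace Pool.Agent.TEQ

namespace BOX_

/-- the number with the prime factors `R` and the exponents `1 + a` -/
noncomputable def FF (R : Finset ℕ) (a : R → ℕ) : ℕ := ∏ p : R, (p : ℕ) ^ (1 + a p)

/-- the numbers with exactly the prime factors `R` and exponents in `[1, N]` -/
noncomputable def VV (R : Finset ℕ) (N : ℕ) : Finset ℕ :=
  (Fintype.piFinset (fun _ : R => range N)).image (FF R)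

theorem FF_ne (R : Finset ℕ) (hR : ∀ p ∈ R, p.Prime) (a : R → ℕ) : FF R a ≠ 0 := by
  unfold FF
  rw [Finset.prod_ne_zero_iff]
  intro p _
  exact pow_ne_zero _ (hR p p.2).ne_zero

theorem FF_fac (R : Finset ℕ) (hR : ∀ p ∈ R, p.Prime) (a : R → ℕ) (q : R) :
    (FF R a).factorization q = 1 + a q := by
  unfold FF
  rw [Nat.factorization_prod
    (fun (p : R) _ => pow_ne_zero (1 + a p) (hR (p : ℕ) p.2).ne_zero)]
  rw [Finsupp.finsetSum_apply]
  rw [Finset.sum_eq_single q]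
  · rw [Nat.factorization_pow, Finsupp.smul_apply, (hR q q.2).factorization_self]
    simp
  · intro p _ hpq
    have hne : (p : ℕ) ≠ q := fun h => hpq (Subtype.ext h)
    rw [Nat.factorization_pow, Finsupp.smul_apply, (hR p p.2).factorization,
      Finsupp.single_eq_of_ne hne.symm]
    simp
  · intro h
    exact absurd (Finset.mem_univ q) h

theorem FF_inj (R : Finset ℕ) (hR : ∀ p ∈ R, p.Prime) : Function.Injective (FF R) := by
  intro a b h
  funext q
  have h1 := FF_fac R hR a q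
  have h2 := FF_fac R hR b q
  rw [h] at h1
  omega

theorem FF_pf (R : Finset ℕ) (hR : ∀ p ∈ R, p.Prime) (a : R → ℕ) :
    (FF R a).primeFactors = R := by
  ext q
  constructor
  · intro hq
    have hqp := Nat.prime_of_mem_primeFactors hq
    have hd := Nat.dvd_of_mem_primeFactors hq
    unfold FF at hd
    rw [Prime.dvd_finsetProd_iff hqp.prime] at hd
    obtain ⟨p, _, hp⟩ := hd
    have h1 := hqp.dvd_of_dvd_pow hp
    have h2 := (Nat.prime_dvd_prime_iff_eq hqp (hR p p.2)).1 h1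
    rw [h2]
    exact p.2
  · intro hq
    rw [Nat.mem_primeFactors]
    refine ⟨hR q hq, ?_, FF_ne R hR a⟩
    unfold FF
    refine Dvd.dvd.trans ?_ (Finset.dvd_prod_of_mem _ (Finset.mem_univ (⟨q, hq⟩ : R)))
    exact dvd_pow_self _ (by omega)

theorem FF_le (R : Finset ℕ) (hR : ∀ p ∈ R, p.Prime) (N Y : ℕ) (hY : ∀ p ∈ R, p ≤ Y)
    (a : R → ℕ) (ha : ∀ p, a p < N) : FF R a ≤ Y ^ (N * R.card) := by
  unfold FF
  have h1 : ∏ p : R, (p : ℕ) ^ (1 + a p) ≤ ∏ _p : R, Y ^ N := by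
    refine Finset.prod_le_prod' ?_
    intro p _
    have hp := hR p p.2
    calc (p : ℕ) ^ (1 + a p) ≤ (p : ℕ) ^ N :=
          Nat.pow_le_pow_right hp.pos (by have := ha p; omega)
      _ ≤ Y ^ N := Nat.pow_le_pow_left (hY p p.2) N
  refine h1.trans (le_of_eq ?_)
  rw [Finset.prod_const, Finset.card_univ, Fintype.card_coe, ← pow_mul]

theorem VV_card (R : Finset ℕ) (hR : ∀ p ∈ R, p.Prime) (N : ℕ) :
    (VV R N).card = N ^ R.card := by
  unfold VV
  rw [Finset.card_image_of_injective _ (FF_inj R hR), Fintype.card_piFinset]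
  simp

theorem MM_card (A : ℕ) (V : Finset ℕ) (hV : ∀ u ∈ V, Odd u) : (MM A V).card = A * V.card := by
  unfold MM
  rw [Finset.card_image_of_injOn, Finset.card_product, Finset.card_range]
  intro x hx x' hx' h
  have hx2 : x.2 ∈ V := (Finset.mem_product.1 hx).2
  have hx2' : x'.2 ∈ V := (Finset.mem_product.1 hx').2
  have ho := hV _ hx2
  have ho' := hV _ hx2'
  have key : ∀ (e u : ℕ), Odd u → (2 ^ e * u).factorization 2 = e := by
    intro e u hu
    have hu0 : u ≠ 0 := by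
      rintro rfl
      exact absurd hu (by decide)
    rw [Nat.factorization_mul (by positivity) hu0, Finsupp.add_apply,
      Nat.Prime.factorization_pow Nat.prime_two, Finsupp.single_eq_same,
      Nat.factorization_eq_zero_of_not_dvd]
    · rfl
    · rw [← even_iff_two_dvd, Nat.not_even_iff_odd]
      exact hu
  have h' : 2 ^ (3 + x.1) * x.2 = 2 ^ (3 + x'.1) * x'.2 := h
  have h1 := key (3 + x.1) x.2 ho
  have h2 := key (3 + x'.1) x'.2 ho'
  rw [h'] at h1
  have h3 : x.1 = x'.1 := by omega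
  rw [h3] at h'
  have h4 : x.2 = x'.2 := Nat.eq_of_mul_eq_mul_left (by positivity) h'
  exact Prod.ext h3 h4

theorem MM_le (R : Finset ℕ) (hR : ∀ p ∈ R, p.Prime) (N Y : ℕ) (hY : ∀ p ∈ R, p ≤ Y)
    (h2 : 2 ≤ Y) (m : ℕ) (hm : m ∈ MM N (VV R N)) : m ≤ 8 * Y ^ (N * (R.card + 1)) := by
  unfold MM at hm
  obtain ⟨x, hx, rfl⟩ := Finset.mem_image.1 hm
  obtain ⟨hx1, hx2⟩ := Finset.mem_product.1 hx
  unfold VV at hx2
  obtain ⟨a, ha, hau⟩ := Finset.mem_image.1 hx2
  have ha' : ∀ p, a p < N := fun p => Finset.mem_range.1 (Fintype.mem_piFinset.1 ha p)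
  have h1 := FF_le R hR N Y hY a ha'
  rw [hau] at h1
  have h3 : x.1 < N := Finset.mem_range.1 hx1
  calc 2 ^ (3 + x.1) * x.2 = 8 * 2 ^ x.1 * x.2 := by rw [pow_add]; norm_num
    _ ≤ 8 * Y ^ N * Y ^ (N * R.card) := by
        refine Nat.mul_le_mul ?_ h1
        refine Nat.mul_le_mul_left _ ?_
        calc 2 ^ x.1 ≤ 2 ^ N := Nat.pow_le_pow_right (by norm_num) h3.le
          _ ≤ Y ^ N := Nat.pow_le_pow_left h2 N
    _ = 8 * Y ^ (N * (R.card + 1)) := by rw [mul_assoc, ← pow_add]; ring_nf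

theorem ev (k : ℕ) (ℓ K C : ℝ) (hk : 1 ≤ k) (hℓ : 0 < ℓ) :
    ∀ᶠ L : ℝ in Filter.atTop, 6 ≤ L ∧ 2 * k * ℓ ≤ L ∧ K ≤ (1 / (4 * k * ℓ)) ^ 34 * L ^ 12 ∧
      C * (Real.log (L + 3)) ^ 4 ≤ L / (4 * k * ℓ) := by
  have hk' : (1 : ℝ) ≤ k := by exact_mod_cast hk
  have hkl : 0 < 4 * k * ℓ := by positivity
  have h1 : ∀ᶠ L : ℝ in Filter.atTop, 6 ≤ L := Filter.eventually_ge_atTop 6
  have h2 : ∀ᶠ L : ℝ in Filter.atTop, 2 * k * ℓ ≤ L := Filter.eventually_ge_atTop _
  have h3 : ∀ᶠ L : ℝ in Filter.atTop, K ≤ (1 / (4 * k * ℓ)) ^ 34 * L ^ 12 := by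
    have : Filter.Tendsto (fun L : ℝ => (1 / (4 * k * ℓ)) ^ 34 * L ^ 12) Filter.atTop
        Filter.atTop :=
      Filter.Tendsto.const_mul_atTop (by positivity) (Filter.tendsto_pow_atTop (by norm_num))
    exact this.eventually_ge_atTop K
  have h4 : ∀ᶠ L : ℝ in Filter.atTop, C * (Real.log (L + 3)) ^ 4 ≤ L / (4 * k * ℓ) := by
    have ho := (Real.isLittleO_pow_log_id_atTop (n := 4)).def
      (c := 1 / (2 * (|C| + 1) * (4 * k * ℓ))) (by positivity)
    have hs : Filter.Tendsto (fun L : ℝ => L + 3) Filter.atTop Filter.atTop :=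
      Filter.tendsto_atTop_add_const_right _ _ Filter.tendsto_id
    filter_upwards [hs.eventually ho, h1] with L hL hL6
    have hL3 : 0 < L + 3 := by linarith
    rw [Real.norm_eq_abs, Real.norm_eq_abs, id, abs_of_nonneg (a := Real.log (L + 3) ^ 4)
      (by positivity), abs_of_pos hL3] at hL
    have hC : C ≤ |C| + 1 := by linarith [le_abs_self C]
    have h0 : 0 ≤ (Real.log (L + 3)) ^ 4 := by positivity
    calc C * (Real.log (L + 3)) ^ 4 ≤ (|C| + 1) * (Real.log (L + 3)) ^ 4 :=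
          mul_le_mul_of_nonneg_right hC h0
      _ ≤ (|C| + 1) * (1 / (2 * (|C| + 1) * (4 * k * ℓ)) * (L + 3)) :=
          mul_le_mul_of_nonneg_left hL (by positivity)
      _ = (L + 3) / 2 / (4 * k * ℓ) := by
          field_simp
      _ ≤ L / (4 * k * ℓ) := by
          refine div_le_div_of_nonneg_right ?_ hkl.le
          linarith
  filter_upwards [h1, h2, h3, h4] with L a b c d
  exact ⟨a, b, c, d⟩

end BOX_

open BOX_ in
/-- TEQ-BOX -/
theorem p_BOX (h : T_PRS) : T_BOX := by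
  intro y Q K h2Q hQ hk
  obtain ⟨C, hC, hPRS⟩ := h
  set R := Q.erase 2 with hRdef
  have hRc : R.card + 1 = Q.card := by
    rw [hRdef]; exact Finset.card_erase_add_one h2Q
  have hQp : ∀ p ∈ Q, p.Prime ∧ p ≤ y := by
    intro p hp
    have := hQ hp
    unfold PP at this
    rw [Finset.mem_filter, Finset.mem_range] at this
    exact ⟨this.2, by omega⟩
  have hRp : ∀ p ∈ R, p.Prime := fun p hp => (hQp p (Finset.mem_of_mem_erase hp)).1
  have hRy : ∀ p ∈ R, p ≤ y + 2 := fun p hp => by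
    have := (hQp p (Finset.mem_of_mem_erase hp)).2
    omega
  set k := Q.card with hkdef
  have hk1 : 1 ≤ k := by omega
  have hk1' : (1 : ℝ) ≤ k := by exact_mod_cast hk1
  set ℓ := Real.log ((y : ℝ) + 2) with hℓdef
  have hℓ : 0 < ℓ := Real.log_pos (by have : (0:ℝ) ≤ y := Nat.cast_nonneg y; linarith)
  have hev := ev k ℓ K C hk1 hℓ
  have ht : Filter.Tendsto (fun U : ℝ => U ^ (1 / 11 : ℝ)) Filter.atTop Filter.atTop :=
    tendsto_rpow_atTop (by norm_num)
  obtain ⟨U₁, hU₁⟩ := Filter.eventually_atTop.1 (ht.eventually hev)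
  refine ⟨max U₁ 1, le_max_right _ _, ?_⟩
  intro U hU
  have hU1 : 1 ≤ U := (le_max_right _ _).trans hU
  obtain ⟨e6, e2, e3, e4⟩ := hU₁ U ((le_max_left _ _).trans hU)
  set L := U ^ (1 / 11 : ℝ) with hLdef
  have hL0 : 0 < L := by linarith
  have hL22 : L ^ 22 = U ^ 2 := by
    rw [hLdef, ← Real.rpow_natCast, ← Real.rpow_mul (by linarith)]
    norm_num
  have hkl : 0 < 2 * k * ℓ := by positivity
  set x := L / (2 * k * ℓ) with hxdef
  have hx1 : 1 ≤ x := by
    rw [hxdef, le_div_iff₀ hkl]; linarith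
  set N := ⌊x⌋₊ with hNdef
  have hN1 : 1 ≤ N := Nat.le_floor (by exact_mod_cast hx1)
  have hNx : (N : ℝ) ≤ x := Nat.floor_le (by linarith)
  have hNx' : x / 2 ≤ N := by
    have := Nat.lt_floor_add_one x
    have hN1' : (1 : ℝ) ≤ N := by exact_mod_cast hN1
    rw [← hNdef] at this
    linarith
  have hx2 : x / 2 = L / (4 * k * ℓ) := by
    rw [hxdef]; field_simp; norm_num
  have hVodd : ∀ u ∈ VV R N, Odd u ∧ u.primeFactors = R := by
    intro u hu
    unfold VV at hu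
    obtain ⟨a, _, rfl⟩ := Finset.mem_image.1 hu
    have hpf := FF_pf R hRp a
    refine ⟨?_, hpf⟩
    rw [← Nat.not_even_iff_odd, even_iff_two_dvd]
    intro hd
    have : 2 ∈ (FF R a).primeFactors :=
      Nat.mem_primeFactors.2 ⟨Nat.prime_two, hd, FF_ne R hRp a⟩
    rw [hpf, hRdef] at this
    exact absurd rfl (Finset.ne_of_mem_erase this)
  refine ⟨N, VV R N, hN1, hVodd, ?_, ?_, ?_⟩
  · intro m hm
    have h1 := MM_le R hRp N (y + 2) hRy (by omega) m hm
    rw [hRc] at h1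
    have h2 : (m : ℝ) ≤ 8 * ((y : ℝ) + 2) ^ (N * k) := by exact_mod_cast h1
    have h3 : ((y : ℝ) + 2) ^ (N * k) = Real.exp ((N * k : ℕ) * ℓ) := by
      rw [Real.exp_nat_mul, hℓdef, Real.exp_log (by positivity)]
    have h4 : (8 : ℝ) ≤ Real.exp 3 := by
      have h5 : (2 : ℝ) ≤ Real.exp 1 := by
        have := Real.add_one_le_exp (1 : ℝ); linarith
      have h6 : Real.exp 3 = Real.exp 1 ^ 3 := by
        rw [← Real.exp_nat_mul]; norm_num
      rw [h6]
      calc (8 : ℝ) = 2 ^ 3 := by norm_num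
        _ ≤ Real.exp 1 ^ 3 := by gcongr
    calc (m : ℝ) ≤ 8 * ((y : ℝ) + 2) ^ (N * k) := h2
      _ ≤ Real.exp 3 * Real.exp ((N * k : ℕ) * ℓ) := by
          rw [h3]
          exact mul_le_mul_of_nonneg_right h4 (Real.exp_pos _).le
      _ = Real.exp (3 + (N * k : ℕ) * ℓ) := by rw [Real.exp_add]
      _ ≤ Real.exp L := by
          refine Real.exp_le_exp.2 ?_
          push_cast
          have : (N : ℝ) * (k * ℓ) ≤ x * (k * ℓ) :=
            mul_le_mul_of_nonneg_right hNx (by positivity)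
          have h7 : x * (k * ℓ) = L / 2 := by
            rw [hxdef]; field_simp
          rw [h7] at this
          nlinarith
  · rw [MM_card N _ (fun u hu => (hVodd u hu).1), VV_card R hRp N]
    have h1 : N * N ^ R.card = N ^ k := by rw [← hRc, pow_succ]; ring
    rw [h1]
    have h2 : N ^ 34 ≤ N ^ k := Nat.pow_le_pow_right hN1 hk
    have h3 : ((N : ℝ)) ^ 34 ≤ ((N ^ k : ℕ) : ℝ) := by exact_mod_cast h2
    refine le_trans ?_ h3
    have h4 : (L / (4 * k * ℓ)) ^ 34 ≤ (N : ℝ) ^ 34 := by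
      rw [← hx2]
      exact pow_le_pow_left₀ (by linarith) hNx' 34
    refine le_trans ?_ h4
    have h5 : (L / (4 * k * ℓ)) ^ 34 = ((1 / (4 * k * ℓ)) ^ 34 * L ^ 12) * U ^ 2 := by
      rw [← hL22, div_eq_mul_one_div L, mul_pow]
      ring
    rw [h5]
    exact mul_le_mul_of_nonneg_right e3 (by positivity)
  · have h1 := hPRS (PP ⌊L⌋₊) (fun p hp => by
      unfold PP at hp
      exact (Finset.mem_filter.1 hp).2)
    refine h1.trans ?_
    have h2 : ((PP ⌊L⌋₊).card : ℝ) + 2 ≤ L + 3 := by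
      have h3 : (PP ⌊L⌋₊).card ≤ ⌊L⌋₊ + 1 := by
        unfold PP
        refine (Finset.card_filter_le _ _).trans ?_
        rw [Finset.card_range]
      have h4 : ((PP ⌊L⌋₊).card : ℝ) ≤ (⌊L⌋₊ : ℝ) + 1 := by exact_mod_cast h3
      have h5 := Nat.floor_le hL0.le
      linarith
    have h6 : Real.log ((PP ⌊L⌋₊).card + 2) ≤ Real.log (L + 3) :=
      Real.log_le_log (by positivity) h2
    have h7 : 0 ≤ Real.log (((PP ⌊L⌋₊).card : ℝ) + 2) := by
      refine Real.log_nonneg ?_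
      have : (0 : ℝ) ≤ (PP ⌊L⌋₊).card := Nat.cast_nonneg _
      linarith
    calc C * Real.log ((PP ⌊L⌋₊).card + 2) ^ 4 ≤ C * Real.log (L + 3) ^ 4 := by
          refine mul_le_mul_of_nonneg_left ?_ hC.le
          exact pow_le_pow_left₀ h7 h6 4
      _ ≤ L / (4 * k * ℓ) := e4
      _ = x / 2 := hx2.symm
      _ ≤ N := hNx'

end Pool.Agent.TEQ
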