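import Pool.Agent.TEQ.Targets

/-!
# TEQ: CNT (helper70)
-/

set_option autoImplicit false

open Finset

noncomputable section

namespace Pool.Agent.TEQ

namespace CNT_

theorem cop (R n : ℕ) :
    ((range (R * n)).filter fun b => b.Coprime R).card = n * R.totient := by
  induction n with
  | zero => simp
  | succ n ih =>
    have h1 : range (R * (n + 1)) = range (R * n) ∪ Ico (R * n) (R * n + R) := by
      rw [range_eq_Ico, range_eq_Ico, Finset.Ico_union_Ico_eq_Ico (Nat.zero_le _)
        (Nat.le_add_right _ _)]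
      rfl
    have h2 : ((Ico (R * n) (R * n + R)).filter fun b => b.Coprime R).card = R.totient := by
      have := Nat.filter_coprime_Ico_eq_totient R (R * n)
      rw [← this]
      congr 1
      refine Finset.filter_congr fun x _ => ?_
      exact Nat.coprime_comm
    rw [h1, Finset.filter_union, Finset.card_union_of_disjoint, ih, h2]
    · ring
    · refine Finset.disjoint_filter_filter ?_
      rw [range_eq_Ico]
      exact Finset.Ico_disjoint_Ico_consecutive _ _ _

theorem pi_prime {y z p : ℕ} (h : p ∈ PI y z) : p.Prime := by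
  unfold PI at h
  exact (Finset.mem_filter.1 h).2

theorem pr_pos (y z : ℕ) : 0 < PR y z :=
  Finset.prod_pos fun p hp => (pi_prime hp).pos

theorem pr_pf (y z : ℕ) : (PR y z).primeFactors = PI y z :=
  Nat.primeFactors_prod fun p hp => pi_prime hp

theorem dvd_pow {y z s K : ℕ} (hr : Rough y s) (h1 : 1 ≤ s) (hsz : s ≤ z) (hzK : z ≤ K)
    (hK : 1 ≤ K) : s * PR y z ∣ PR y z ^ K := by
  have hR := pr_pos y z
  rw [← Nat.factorization_le_iff_dvd (by positivity) (by positivity)]
  intro p
  rw [Nat.factorization_mul (by omega) hR.ne', Nat.factorization_pow]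
  simp only [Finsupp.coe_add, Pi.add_apply, Finsupp.coe_smul, Pi.smul_apply, smul_eq_mul]
  by_cases hp : p.Prime ∧ p ∣ s
  · obtain ⟨hpp, hps⟩ := hp
    have hyp : y < p := by
      by_contra h
      exact hr p hpp (not_lt.1 h) hps
    have hpz : p ≤ z := (Nat.le_of_dvd (by omega) hps).trans hsz
    have hmem : p ∈ PI y z := by
      unfold PI
      exact Finset.mem_filter.2 ⟨Finset.mem_Ioc.2 ⟨hyp, hpz⟩, hpp⟩
    have h3 : (PR y z).factorization p = 1 := by
      unfold PR
      rw [Nat.factorization_prod_apply fun q hq => (pi_prime hq).ne_zero]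
      rw [Finset.sum_eq_single p]
      · exact hpp.factorization_self
      · intro q hq hne
        rw [(pi_prime hq).factorization]
        exact Finsupp.single_eq_of_ne hne.symm
      · intro h
        exact absurd hmem h
    rw [h3]
    have h4 : p ^ s.factorization p ∣ s := Nat.ordProj_dvd s p
    have h5 : 2 ^ s.factorization p ≤ s :=
      (Nat.pow_le_pow_left hpp.two_le _).trans (Nat.le_of_dvd (by omega) h4)
    have h6 : s < 2 ^ K := lt_of_le_of_lt (hsz.trans hzK) Nat.lt_two_pow_self
    have h7 : s.factorization p < K := by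
      by_contra h
      have := Nat.pow_le_pow_right (n := 2) (by norm_num) (not_lt.1 h)
      omega
    omega
  · have h0 : s.factorization p = 0 := by
      rcases not_and_or.1 hp with h | h
      · exact Nat.factorization_eq_zero_of_not_prime s h
      · exact Nat.factorization_eq_zero_of_not_dvd h
    rw [h0, zero_add]
    exact Nat.le_mul_of_pos_left _ hK

end CNT_

open CNT_ in
theorem p_CNT : T_CNT := by
  intro y z s K hr h1 hsz hzK hK
  have hR := pr_pos y z
  obtain ⟨n, hn⟩ := dvd_pow hr h1 hsz hzK hK
  have hn' : PR y z ^ K = s * (PR y z * n) := by rw [hn]; ring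
  have hcard : ((range (PR y z ^ K)).filter fun b => s ∣ b ∧ (b / s).Coprime (PR y z)).card =
      ((range (PR y z * n)).filter fun b => b.Coprime (PR y z)).card := by
    symm
    refine Finset.card_bij (fun b _ => s * b) ?_ ?_ ?_
    · intro b hb
      rw [Finset.mem_filter, Finset.mem_range] at hb ⊢
      refine ⟨?_, Dvd.intro _ rfl, ?_⟩
      · rw [hn']
        exact Nat.mul_lt_mul_of_pos_left hb.1 (by omega)
      · rw [Nat.mul_div_cancel_left _ (by omega)]
        exact hb.2
    · intro a _ b _ hab
      exact Nat.eq_of_mul_eq_mul_left (by omega) hab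
    · intro b hb
      rw [Finset.mem_filter, Finset.mem_range] at hb
      obtain ⟨hb1, ⟨c, rfl⟩, hb3⟩ := hb
      rw [Nat.mul_div_cancel_left _ (by omega)] at hb3
      refine ⟨c, ?_, rfl⟩
      rw [Finset.mem_filter, Finset.mem_range]
      refine ⟨?_, hb3⟩
      rw [hn'] at hb1
      exact Nat.lt_of_mul_lt_mul_left hb1
  have htot : ((PR y z).totient : ℝ) = (PR y z : ℝ) * ∏ p ∈ PI y z, (1 - 1 / (p : ℝ)) := by
    have h := Nat.totient_eq_mul_prod_factors (PR y z)
    rw [pr_pf] at h
    have h' : (((PR y z).totient : ℚ) : ℝ) =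
        (((PR y z : ℚ) * ∏ p ∈ PI y z, (1 - (p : ℚ)⁻¹) : ℚ) : ℝ) := by rw [h]
    push_cast at h'
    rw [h']
    congr 1
    refine Finset.prod_congr rfl fun p _ => ?_
    rw [one_div]
  have hs : (s : ℝ) ≠ 0 := by
    have : (0 : ℝ) < s := by exact_mod_cast h1
    exact this.ne'
  have hpow : (PR y z : ℝ) ^ K / s = (PR y z : ℝ) * n := by
    rw [div_eq_iff hs]
    have : ((PR y z ^ K : ℕ) : ℝ) = ((s * (PR y z * n) : ℕ) : ℝ) := by rw [hn']
    push_cast at this
    rw [this]
    ring
  rw [hcard, cop, hpow]
  push_cast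
  rw [htot]
  ring

end Pool.Agent.TEQ
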