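import Pool.Agent.TEQ.Targets

/-!
# TEQ: target CRT (independence of coprime periods)
-/

set_option autoImplicit false

open Finset

noncomputable section

namespace Pool.Agent.TEQ

namespace CRT_

lemma per (W : ℕ) (B : ℕ → Prop) (h : ∀ a, B (a + W) ↔ B a) (k : ℕ) :
    ∀ a, B (a + W * k) ↔ B a := by
  induction k with
  | zero => intro a; simp
  | succ k ih =>
    intro a
    rw [Nat.mul_succ, ← add_assoc, h]
    exact ih a

lemma per_mod (W : ℕ) (B : ℕ → Prop) (h : ∀ a, B (a + W) ↔ B a) (a : ℕ) :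
    B (a % W) ↔ B a := by
  have h1 := per W B h (a / W) (a % W)
  rw [Nat.mod_add_div] at h1
  exact h1.symm

end CRT_

open CRT_ in
/-- CRT -/
theorem p_CRT : T_CRT := by
  intro W R B E hW hR hc hB hE
  classical
  rw [← Finset.card_product]
  refine Finset.card_bij (fun a _ => (a % W, a % R)) ?_ ?_ ?_
  · intro a ha
    simp only [mem_filter, mem_range] at ha
    simp only [mem_product, mem_filter, mem_range]
    exact ⟨⟨Nat.mod_lt _ hW, (per_mod W B hB a).mpr ha.2.1⟩,
      ⟨Nat.mod_lt _ hR, (per_mod R E hE a).mpr ha.2.2⟩⟩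
  · intro a ha b hb hab
    simp only [mem_filter, mem_range] at ha hb
    obtain ⟨h1, h2⟩ := Prod.mk.inj hab
    have h3 : a ≡ b [MOD W * R] := (Nat.modEq_and_modEq_iff_modEq_mul hc).mp ⟨h1, h2⟩
    exact h3.eq_of_lt_of_lt ha.1 hb.1
  · rintro ⟨x, y⟩ hxy
    simp only [mem_product, mem_filter, mem_range] at hxy
    obtain ⟨⟨hx, hBx⟩, ⟨hy, hEy⟩⟩ := hxy
    have hk := (Nat.chineseRemainder hc x y).2
    have hlt := Nat.chineseRemainder_lt_mul hc x y hW.ne' hR.ne'
    set k : ℕ := (Nat.chineseRemainder hc x y : ℕ) with hkdef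
    have e1 : k % W = x := by
      have := hk.1
      unfold Nat.ModEq at this
      rw [this, Nat.mod_eq_of_lt hx]
    have e2 : k % R = y := by
      have := hk.2
      unfold Nat.ModEq at this
      rw [this, Nat.mod_eq_of_lt hy]
    refine ⟨k, ?_, ?_⟩
    · simp only [mem_filter, mem_range]
      refine ⟨hlt, ?_, ?_⟩
      · rw [← per_mod W B hB k, e1]
        exact hBx
      · rw [← per_mod R E hE k, e2]
        exact hEy
    · rw [e1, e2]

end Pool.Agent.TEQ
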