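import Pool.Agent.TEQ.Targets

set_option autoImplicit false

open Finset

noncomputable section

namespace Pool.Agent.TEQ

namespace CSQ_

open Classical in
/-- the number of `m` related to `s` -/
def Z (M : Finset ℕ) (R : ℕ → ℕ → Prop) (s : ℕ) : ℝ := ((M.filter (R · s)).card : ℝ)

open Classical in
lemma sum_one (W M : Finset ℕ) (R : ℕ → ℕ → Prop) :
    ∑ m ∈ M, ∑ s ∈ W.filter (R m), 1 / (s : ℝ) = ∑ s ∈ W, Z M R s * (1 / (s : ℝ)) := by
  simp_rw [Finset.sum_filter]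
  rw [Finset.sum_comm]
  refine Finset.sum_congr rfl fun s _ => ?_
  rw [← Finset.sum_filter, Finset.sum_const, nsmul_eq_mul]
  rfl

open Classical in
lemma sum_two (W M : Finset ℕ) (R : ℕ → ℕ → Prop) :
    ∑ m ∈ M, ∑ m' ∈ M, ∑ s ∈ W.filter (fun s => R m s ∧ R m' s), 1 / (s : ℝ) =
      ∑ s ∈ W, Z M R s ^ 2 * (1 / (s : ℝ)) := by
  have h1 : ∀ m ∈ M, ∑ m' ∈ M, ∑ s ∈ W.filter (fun s => R m s ∧ R m' s), 1 / (s : ℝ) =
      ∑ s ∈ W, if R m s then Z M R s * (1 / (s : ℝ)) else 0 := by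
    intro m _
    simp_rw [Finset.sum_filter]
    rw [Finset.sum_comm]
    refine Finset.sum_congr rfl fun s _ => ?_
    by_cases hm : R m s
    · simp only [hm, true_and, if_true]
      rw [← Finset.sum_filter, Finset.sum_const, nsmul_eq_mul]
      rfl
    · simp [hm]
  rw [Finset.sum_congr rfl h1, Finset.sum_comm]
  refine Finset.sum_congr rfl fun s _ => ?_
  rw [← Finset.sum_filter, Finset.sum_const, nsmul_eq_mul]
  change Z M R s * (Z M R s * (1 / (s : ℝ))) = _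
  ring

end CSQ_

open Classical in
theorem p_CSQ : T_CSQ := by
  intro W M R T F₂ _ hF hT
  rw [CSQ_.sum_two] at hF
  rw [CSQ_.sum_one] at hT ⊢
  have hset : (W.filter fun s => T ≤ (M.filter (R · s)).card) =
      W.filter fun s => (T : ℝ) ≤ CSQ_.Z M R s := by
    refine Finset.filter_congr fun s _ => ?_
    unfold CSQ_.Z
    exact Nat.cast_le.symm
  rw [hset]
  set Z := CSQ_.Z M R with hZ
  set B := W.filter fun s => (T : ℝ) ≤ Z s with hB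
  have hw : ∀ s : ℕ, (0 : ℝ) ≤ 1 / (s : ℝ) := fun s => by positivity
  have hle : ∑ s ∈ W, Z s * (1 / (s : ℝ)) - T * ∑ s ∈ W, 1 / (s : ℝ) ≤
      ∑ s ∈ B, Z s * (1 / (s : ℝ)) := by
    rw [Finset.mul_sum, ← Finset.sum_sub_distrib, hB, Finset.sum_filter]
    refine Finset.sum_le_sum fun s _ => ?_
    split_ifs with h
    · have h1 : (0 : ℝ) ≤ (T : ℝ) * (1 / (s : ℝ)) := mul_nonneg (Nat.cast_nonneg _) (hw s)
      linarith
    · have h1 : Z s * (1 / (s : ℝ)) ≤ (T : ℝ) * (1 / (s : ℝ)) :=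
        mul_le_mul_of_nonneg_right (not_le.1 h).le (hw s)
      linarith
  have hcs : (∑ s ∈ B, Z s * (1 / (s : ℝ))) ^ 2 ≤
      (∑ s ∈ B, Z s ^ 2 * (1 / (s : ℝ))) * ∑ s ∈ B, 1 / (s : ℝ) := by
    refine Finset.sum_sq_le_sum_mul_sum_of_sq_eq_mul B (fun s _ => ?_) (fun s _ => hw s)
      (fun s _ => ?_)
    · exact mul_nonneg (sq_nonneg _) (hw s)
    · ring
  have hBF : ∑ s ∈ B, Z s ^ 2 * (1 / (s : ℝ)) ≤ F₂ :=
    (Finset.sum_le_sum_of_subset_of_nonneg (Finset.filter_subset _ _)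
      (fun s _ _ => mul_nonneg (sq_nonneg _) (hw s))).trans hF
  have h0 : 0 ≤ ∑ s ∈ W, Z s * (1 / (s : ℝ)) - T * ∑ s ∈ W, 1 / (s : ℝ) := by linarith
  calc (∑ s ∈ W, Z s * (1 / (s : ℝ)) - T * ∑ s ∈ W, 1 / (s : ℝ)) ^ 2
      ≤ (∑ s ∈ B, Z s * (1 / (s : ℝ))) ^ 2 := pow_le_pow_left₀ h0 hle 2
    _ ≤ (∑ s ∈ B, Z s ^ 2 * (1 / (s : ℝ))) * ∑ s ∈ B, 1 / (s : ℝ) := hcs
    _ ≤ F₂ * ∑ s ∈ B, 1 / (s : ℝ) :=
        mul_le_mul_of_nonneg_right hBF (Finset.sum_nonneg fun s _ => hw s)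

end Pool.Agent.TEQ
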