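import Pool.Agent.TEQ.Targets

set_option autoImplicit false

noncomputable section

namespace Pool.Agent.TEQ

namespace CXL_

open Complex DirichletCharacter

private lemma triv_bound (m : ℕ) [NeZero m] (x : ℝ) (hx : 0 < x) (hx1 : x ≤ 1) :
    ‖DirichletCharacter.LFunctionTrivChar m (1 + x)‖ ≤ 2 / x := by
  have h1 : 1 < (1 + x : ℂ).re := by simp [hx]
  rw [DirichletCharacter.LFunctionTrivChar, DirichletCharacter.LFunction_eq_LSeries 1 h1]
  have hsum : Summable (fun n : ℕ => 1 / (n : ℝ) ^ (1 + x)) :=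
    Real.summable_one_div_nat_rpow.mpr (by linarith)
  have hb : ∀ n : ℕ, ‖LSeries.term (fun n : ℕ => (1 : DirichletCharacter ℂ m) (n : ZMod m))
      (1 + x) n‖ ≤ 1 / (n : ℝ) ^ (1 + x) := by
    intro n
    rcases Nat.eq_zero_or_pos n with rfl | hn
    · simp only [LSeries.term_zero, norm_zero]
      positivity
    · rw [LSeries.term_of_ne_zero hn.ne', norm_div]
      have h2 : ‖(n : ℂ) ^ (1 + x : ℂ)‖ = (n : ℝ) ^ (1 + x) := by
        rw [Complex.norm_natCast_cpow_of_pos hn]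
        simp
      rw [h2]
      have h3 : ‖(1 : DirichletCharacter ℂ m) (n : ZMod m)‖ ≤ 1 :=
        DirichletCharacter.norm_le_one _ _
      have h4 : (0 : ℝ) < (n : ℝ) ^ (1 + x) := by positivity
      gcongr
  have h5 := tsum_of_norm_bounded hsum.hasSum hb
  have h6 : (∑' n : ℕ, 1 / (n : ℝ) ^ (1 + x)) = ∑' n : ℕ, 1 / ((n : ℝ) + 1) ^ (1 + x) := by
    rw [hsum.tsum_eq_zero_add]
    have : ((0 : ℕ) : ℝ) ^ (1 + x) = 0 := by
      rw [Nat.cast_zero, Real.zero_rpow (by linarith)]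
    rw [this]
    simp
  have h7 := ZetaAsymptotics.zeta_limit_aux1 (s := 1 + x) (by linarith)
  have h8 : 0 ≤ ZetaAsymptotics.termTSum (1 + x) :=
    tsum_nonneg fun n => ZetaAsymptotics.term_nonneg (n + 1) _
  have h9 : (∑' n : ℕ, 1 / ((n : ℝ) + 1) ^ (1 + x)) ≤ 1 + 1 / x := by
    have h10 : 0 ≤ (1 + x) * ZetaAsymptotics.termTSum (1 + x) := by positivity
    have h11 : (1 : ℝ) + x - 1 = x := by ring
    rw [h11] at h7
    linarith
  have h12 : 1 + 1 / x ≤ 2 / x := by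
    rw [add_div' _ _ _ hx.ne', div_le_div_iff_of_pos_right hx]; linarith
  unfold LSeries
  calc _ ≤ ∑' n : ℕ, 1 / (n : ℝ) ^ (1 + x) := h5
    _ ≤ _ := by rw [h6]; linarith

end CXL_

open CXL_ in
theorem p_CXL (h : T_LUB) : T_CXL := by
  obtain ⟨C₁, hC₁, hL⟩ := h
  set B : ℝ := 8 * C₁ with hB
  have hB8 : 8 ≤ B := by linarith
  have hB0 : 0 < B := by linarith
  refine ⟨B ^ 5, one_le_pow₀ (by linarith), ?_⟩
  intro m _ χ hm hχ2 s hs
  have hχ1 : χ ≠ 1 := by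
    rintro rfl
    exact hχ2 (by simp)
  set ℓ : ℝ := Real.log m with hℓ
  have hℓ2 : 2 ≤ ℓ := by
    have h8 : (8 : ℝ) ≤ m := by exact_mod_cast hm
    have h1 : Real.log 8 ≤ ℓ := Real.log_le_log (by norm_num) h8
    have h2 : Real.log 8 = 3 * Real.log 2 := by
      rw [show (8 : ℝ) = 2 ^ 3 by norm_num, Real.log_pow]; norm_num
    have h3 := Real.log_two_gt_d9
    linarith
  have hℓ0 : 0 < ℓ := by linarith
  set x : ℝ := 1 / (B ^ 5 * ℓ ^ 9) with hx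
  have hB5 : 8 ≤ B ^ 5 := by
    calc (8 : ℝ) ≤ B := hB8
      _ = B ^ 1 := (pow_one B).symm
      _ ≤ B ^ 5 := pow_le_pow_right₀ (by linarith) (by norm_num)
  have hℓ9 : ℓ ≤ ℓ ^ 9 := by
    calc ℓ = ℓ ^ 1 := (pow_one ℓ).symm
      _ ≤ ℓ ^ 9 := pow_le_pow_right₀ (by linarith) (by norm_num)
  have hden : 2 * ℓ ≤ B ^ 5 * ℓ ^ 9 := by
    have : 2 * ℓ ≤ B ^ 5 * ℓ := by nlinarith
    nlinarith
  have hx0 : 0 < x := by positivity
  have hx2 : x ≤ 1 / (2 * ℓ) := by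
    rw [hx]
    exact one_div_le_one_div_of_le (by positivity) hden
  have hxl : 1 / (2 * ℓ) ≤ 1 / ℓ := one_div_le_one_div_of_le hℓ0 (by linarith)
  have hx1 : x ≤ 1 := by
    have : 1 / (2 * ℓ) ≤ 1 := by
      rw [div_le_one (by positivity)]; linarith
    linarith
  have hdiff : Differentiable ℂ χ.LFunction := DirichletCharacter.differentiable_LFunction hχ1
  -- derivative bound
  have hder : ∀ z : ℂ, ‖z - 1‖ ≤ 1 / (2 * ℓ) → ‖deriv χ.LFunction z‖ ≤ 2 * C₁ * ℓ ^ 2 := by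
    intro z hz
    have hR : 0 < 1 / (2 * ℓ) := by positivity
    have h1 := Complex.norm_deriv_le_of_forall_mem_sphere_norm_le (c := z) (R := 1 / (2 * ℓ))
      (C := C₁ * ℓ) (f := χ.LFunction) hR hdiff.diffContOnCl (by
        intro w hw
        apply hL m χ hm hχ1
        have h2 : ‖w - z‖ = 1 / (2 * ℓ) := by simpa [dist_eq_norm] using hw
        have h3 : ‖w - 1‖ ≤ ‖w - z‖ + ‖z - 1‖ := by
          have := norm_add_le (w - z) (z - 1)
          simpa using this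
        have h4 : 1 / (2 * ℓ) + 1 / (2 * ℓ) = 1 / ℓ := by
          field_simp; norm_num
        linarith)
    have h5 : C₁ * ℓ / (1 / (2 * ℓ)) = 2 * C₁ * ℓ ^ 2 := by
      field_simp
    rw [h5] at h1
    exact h1
  -- lower bound at 1 + x
  have hprod := DirichletCharacter.norm_LFunction_product_ge_one (N := m) χ hx0 0
  simp only [Complex.ofReal_zero, mul_zero, add_zero] at hprod
  rw [norm_mul, norm_mul, norm_pow, norm_pow] at hprod
  have ht := triv_bound m x hx0 hx1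
  have hnx : ‖(1 + (x : ℂ)) - 1‖ = x := by
    rw [add_sub_cancel_left, Complex.norm_real, Real.norm_of_nonneg hx0.le]
  have h2 : ‖(χ ^ 2).LFunction (1 + x)‖ ≤ C₁ * ℓ := by
    apply hL m (χ ^ 2) hm hχ2
    rw [hnx]; linarith
  have hlow : 1 / (B ^ 4 * ℓ ^ 7) ≤ ‖χ.LFunction (1 + x)‖ := by
    have h4 : (1 / (B ^ 4 * ℓ ^ 7)) ^ 4 ≤ ‖χ.LFunction (1 + x)‖ ^ 4 := by
      set y := ‖χ.LFunction (1 + x)‖ with hy
      have hy0 : 0 ≤ y := norm_nonneg _
      have h5 : 1 ≤ (2 / x) ^ 3 * y ^ 4 * (C₁ * ℓ) := by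
        calc (1 : ℝ) ≤ ‖DirichletCharacter.LFunctionTrivChar m (1 + x)‖ ^ 3 * y ^ 4 *
              ‖(χ ^ 2).LFunction (1 + x)‖ := hprod
          _ ≤ _ := by gcongr
      have h6 : (2 / x) ^ 3 * y ^ 4 * (C₁ * ℓ) = y ^ 4 * (B ^ 16 * ℓ ^ 28) := by
        rw [hx, hB]
        field_simp
        ring
      rw [h6] at h5
      have h7 : (1 / (B ^ 4 * ℓ ^ 7)) ^ 4 = 1 / (B ^ 16 * ℓ ^ 28) := by
        field_simp
      rw [h7, div_le_iff₀ (by positivity)]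
      exact h5
    exact le_of_pow_le_pow_left₀ (by norm_num) (norm_nonneg _) h4
  have hsx : ‖s - 1‖ ≤ x := hs
  have hmv : ‖χ.LFunction s - χ.LFunction (1 + x)‖ ≤ 2 * C₁ * ℓ ^ 2 * ‖s - (1 + x)‖ := by
    apply Convex.norm_image_sub_le_of_norm_deriv_le (s := Metric.closedBall (1 : ℂ) (1 / (2 * ℓ)))
      (𝕜 := ℂ)
    · intro z _
      exact hdiff z
    · intro z hz
      apply hder z
      simpa [dist_eq_norm] using hz
    · exact convex_closedBall _ _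
    · rw [Metric.mem_closedBall, dist_eq_norm, hnx]; exact hx2
    · rw [Metric.mem_closedBall, dist_eq_norm]; linarith
  have hsx2 : ‖s - (1 + x)‖ ≤ 2 * x := by
    have h1 : s - (1 + x) = (s - 1) - x := by ring
    rw [h1]
    calc ‖(s - 1) - (x : ℂ)‖ ≤ ‖s - 1‖ + ‖(x : ℂ)‖ := norm_sub_le _ _
      _ ≤ x + x := by
        rw [Complex.norm_real, Real.norm_of_nonneg hx0.le]; linarith
      _ = 2 * x := by ring
  have hmv2 : ‖χ.LFunction s - χ.LFunction (1 + x)‖ ≤ 1 / 2 * (1 / (B ^ 4 * ℓ ^ 7)) := by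
    calc _ ≤ 2 * C₁ * ℓ ^ 2 * ‖s - (1 + x)‖ := hmv
      _ ≤ 2 * C₁ * ℓ ^ 2 * (2 * x) := by gcongr
      _ = 1 / 2 * (1 / (B ^ 4 * ℓ ^ 7)) := by
        have hC : C₁ = B / 8 := by rw [hB]; ring
        rw [hx, hC]
        field_simp
        ring
  have hLs : 1 / 2 * (1 / (B ^ 4 * ℓ ^ 7)) ≤ ‖χ.LFunction s‖ := by
    have h1 : ‖χ.LFunction (1 + x)‖ ≤ ‖χ.LFunction s‖ + ‖χ.LFunction s - χ.LFunction (1 + x)‖ := by
      have := norm_sub_le (χ.LFunction s) (χ.LFunction s - χ.LFunction (1 + x))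
      simpa using this
    linarith
  have hpos : 0 < 1 / 2 * (1 / (B ^ 4 * ℓ ^ 7)) := by positivity
  have hLpos : 0 < ‖χ.LFunction s‖ := lt_of_lt_of_le hpos hLs
  refine ⟨norm_pos_iff.mp hLpos, ?_⟩
  rw [norm_div, div_le_iff₀ hLpos]
  have hd := hder s (by linarith)
  calc ‖deriv χ.LFunction s‖ ≤ 2 * C₁ * ℓ ^ 2 := hd
    _ = B ^ 5 * ℓ ^ 9 * (1 / 4 * (1 / (B ^ 4 * ℓ ^ 7))) := by
      have hC : C₁ = B / 8 := by rw [hB]; ring
      rw [hC]
      field_simp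
      ring
    _ ≤ B ^ 5 * ℓ ^ 9 * (1 / 2 * (1 / (B ^ 4 * ℓ ^ 7))) := by
      gcongr
      norm_num
    _ ≤ B ^ 5 * ℓ ^ 9 * ‖χ.LFunction s‖ := by gcongr

end Pool.Agent.TEQ
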