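import Pool.Agent.TEQ.Targets

/-!
# TEQ: dyadic summation (DYA)
-/

set_option autoImplicit false

open Finset

noncomputable section

namespace Pool.Agent.TEQ

theorem DYA_HH_nonneg (Q : Finset ℕ) (n : ℕ) : 0 ≤ HH Q n :=
  Finset.prod_nonneg fun p _ => by positivity

theorem p_DYA (h : T_SV2) : T_DYA := by
  classical
  obtain ⟨C, hC, h⟩ := h
  refine ⟨700 * C, by positivity, fun y hy => ?_⟩
  obtain ⟨S₀, hS₀, h⟩ := h y hy
  refine ⟨max 63 (10 * Real.log S₀), le_trans (by norm_num) (le_max_left _ _),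
    fun U m m' hU hm hm' hne h2 hpf hsm => ?_⟩
  have hU1 : (63 : ℝ) ≤ U := le_trans (le_max_left _ _) hU
  have hU2 : 10 * Real.log S₀ ≤ U := le_trans (le_max_right _ _) hU
  have hU0 : 0 < U := by linarith
  have hlog2 : 0 < Real.log 2 := Real.log_pos (by norm_num)
  have hlog2a : Real.log 2 < 0.6931471808 := Real.log_two_lt_d9
  have hlog2b : 0.6931471803 < Real.log 2 := Real.log_two_gt_d9
  have hlogy : 0 ≤ Real.log y := Real.log_nonneg (by
    have : (2 : ℝ) ≤ y := by exact_mod_cast hy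
    linarith)
  set B : ℝ := C * Real.log y * kap y m.primeFactors ^ 2 *
    HH m.primeFactors (Int.natAbs ((m : ℤ) - m')) with hBdef
  have hB : 0 ≤ B := by
    have := DYA_HH_nonneg m.primeFactors (Int.natAbs ((m : ℤ) - m'))
    positivity
  suffices main : ∀ X : Finset ℕ, (∀ s ∈ X, 1 ≤ s ∧ (s : ℝ) ≤ Real.exp (4 * U) ∧
      Real.exp (U / 9) ≤ s ∧ Rough y s ∧ (m * s + 1).Prime ∧ (m' * s + 1).Prime) →
      ∑ s ∈ X, 1 / (s : ℝ) ≤ 700 * C * Real.log y * kap y m.primeFactors ^ 2 *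
          HH m.primeFactors (Int.natAbs ((m : ℤ) - m')) / U by
    refine main _ fun s hs => ?_
    rw [Finset.mem_filter] at hs
    obtain ⟨h1, h2, h3, h4, h5⟩ := hs
    obtain ⟨h6, h7⟩ := Finset.mem_Icc.1 h1
    exact ⟨h6, (Nat.cast_le.2 h7).trans (Nat.floor_le (Real.exp_pos _).le), h2, h3, h4, h5⟩
  intro X hmem
  have hmaps : ∀ s ∈ X, Nat.log 2 s ∈ range (⌊6 * U⌋₊ + 1) := by
    intro s hs
    obtain ⟨h1, h2, -⟩ := hmem s hs
    rw [Finset.mem_range, Nat.lt_succ_iff, Nat.le_floor_iff (by positivity)]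
    have h3 : (2 : ℝ) ^ Nat.log 2 s ≤ s := by
      exact_mod_cast Nat.pow_log_le_self 2 (by omega)
    have h4 := Real.log_le_log (by positivity) (h3.trans h2)
    rw [Real.log_pow, Real.log_exp] at h4
    have h5 : (Nat.log 2 s : ℝ) * 0.6931471803 ≤ 4 * U :=
      le_trans (mul_le_mul_of_nonneg_left hlog2b.le (Nat.cast_nonneg _)) h4
    have h6 : (0 : ℝ) ≤ (Nat.log 2 s : ℝ) := Nat.cast_nonneg _
    linarith
  have key : ∀ j ∈ range (⌊6 * U⌋₊ + 1),
      ∑ s ∈ X.filter (fun s => Nat.log 2 s = j), 1 / (s : ℝ) ≤ 100 * B / U ^ 2 := by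
    intro j _
    by_cases hne' : (X.filter (fun s => Nat.log 2 s = j)).Nonempty
    swap
    · rw [Finset.not_nonempty_iff_eq_empty.1 hne', Finset.sum_empty]
      positivity
    obtain ⟨s₁, hs₁⟩ := hne'
    obtain ⟨hs₁, hj⟩ := Finset.mem_filter.1 hs₁
    obtain ⟨a1, -, a3, -⟩ := hmem s₁ hs₁
    -- `j log 2 ≥ U / 10`
    have b1 : (s₁ : ℝ) < (2 : ℝ) ^ (j + 1) := by
      have := Nat.lt_pow_succ_log_self (b := 2) (by norm_num) s₁
      rw [hj] at this
      exact_mod_cast this
    have b2 : U / 9 < (j + 1) * Real.log 2 := by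
      have := Real.log_lt_log (Real.exp_pos _) (a3.trans_lt b1)
      rw [Real.log_exp, Real.log_pow] at this
      push_cast at this
      exact this
    have b3 : U / 10 ≤ j * Real.log 2 := by linarith
    have b4 : S₀ ≤ 2 ^ j := by
      have c1 : Real.log S₀ ≤ j * Real.log 2 := by linarith
      have c2 : Real.log S₀ ≤ Real.log ((2 : ℝ) ^ j) := by rw [Real.log_pow]; exact c1
      have c3 : (0 : ℝ) < S₀ := by
        have : 0 < S₀ := by omega
        exact_mod_cast this
      have c4 := (Real.log_le_log_iff c3 (by positivity)).1 c2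
      exact_mod_cast c4
    have b5 := h (2 ^ j) m m' b4 hm hm' hne h2 hpf hsm
    have b6 : ((X.filter (fun s => Nat.log 2 s = j)).card : ℝ) ≤
        B * ((2 ^ j : ℕ) : ℝ) / (Real.log ((2 ^ j : ℕ) : ℝ)) ^ 2 := by
      refine le_trans (Nat.cast_le.2 (Finset.card_le_card ?_)) b5
      intro s hs
      obtain ⟨hs, hj'⟩ := Finset.mem_filter.1 hs
      obtain ⟨d1, -, -, d4, d5, d6⟩ := hmem s hs
      rw [Finset.mem_filter]
      refine ⟨Finset.mem_Ico.2 ⟨?_, ?_⟩, d4, d5, d6⟩
      · rw [← hj']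
        exact Nat.pow_log_le_self 2 (by omega)
      · have := Nat.lt_pow_succ_log_self (b := 2) (by norm_num) s
        rw [hj', pow_succ] at this
        omega
    have b7 : ∑ s ∈ X.filter (fun s => Nat.log 2 s = j), 1 / (s : ℝ) ≤
        ((X.filter (fun s => Nat.log 2 s = j)).card : ℝ) * (1 / (2 : ℝ) ^ j) := by
      rw [← nsmul_eq_mul]
      refine Finset.sum_le_card_nsmul _ _ _ fun s hs => ?_
      obtain ⟨hs, hj'⟩ := Finset.mem_filter.1 hs
      obtain ⟨d1, -⟩ := hmem s hs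
      refine one_div_le_one_div_of_le (by positivity) ?_
      have : 2 ^ j ≤ s := by
        rw [← hj']
        exact Nat.pow_log_le_self 2 (by omega)
      exact_mod_cast this
    have b8 : Real.log ((2 ^ j : ℕ) : ℝ) = j * Real.log 2 := by
      push_cast
      rw [Real.log_pow]
    have b9 : 0 < (j : ℝ) * Real.log 2 := by linarith [div_pos hU0 (by norm_num : (0 : ℝ) < 10)]
    calc ∑ s ∈ X.filter (fun s => Nat.log 2 s = j), 1 / (s : ℝ)
        ≤ ((X.filter (fun s => Nat.log 2 s = j)).card : ℝ) * (1 / (2 : ℝ) ^ j) := b7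
      _ ≤ (B * ((2 ^ j : ℕ) : ℝ) / (Real.log ((2 ^ j : ℕ) : ℝ)) ^ 2) * (1 / (2 : ℝ) ^ j) :=
          mul_le_mul_of_nonneg_right b6 (by positivity)
      _ = B / (j * Real.log 2) ^ 2 := by
          rw [b8]
          push_cast
          field_simp
      _ ≤ B / (U / 10) ^ 2 :=
          div_le_div_of_nonneg_left hB (by positivity)
            (pow_le_pow_left₀ (by positivity) b3 2)
      _ = 100 * B / U ^ 2 := by
          field_simp
          norm_num
  calc ∑ s ∈ X, 1 / (s : ℝ)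
      = ∑ j ∈ range (⌊6 * U⌋₊ + 1), ∑ s ∈ X.filter (fun s => Nat.log 2 s = j), 1 / (s : ℝ) :=
        (Finset.sum_fiberwise_of_maps_to hmaps _).symm
    _ ≤ (range (⌊6 * U⌋₊ + 1)).card • (100 * B / U ^ 2) := Finset.sum_le_card_nsmul _ _ _ key
    _ = ((⌊6 * U⌋₊ : ℝ) + 1) * (100 * B / U ^ 2) := by
        rw [nsmul_eq_mul, Finset.card_range]
        push_cast
        ring
    _ ≤ (7 * U) * (100 * B / U ^ 2) := by
        refine mul_le_mul_of_nonneg_right ?_ (by positivity)
        have := Nat.floor_le (show 0 ≤ 6 * U by positivity)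
        linarith
    _ = 700 * B / U := by
        field_simp
        ring
    _ = 700 * C * Real.log y * kap y m.primeFactors ^ 2 *
          HH m.primeFactors (Int.natAbs ((m : ℤ) - m')) / U := by
        rw [hBdef]
        ring

end Pool.Agent.TEQ
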