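import Pool.Agent.TEQ.Targets

/-!
# TEQ: few integers have fewer than 34 small prime factors
-/

set_option autoImplicit false

open Finset

noncomputable section

namespace Pool.Agent.TEQ

namespace FEW_

/-- the number of multiples of a divisor `d` of `N` below `N` -/
theorem card_mult (N d : ℕ) (hd : 0 < d) (h : d ∣ N) :
    (((range N).filter fun i => d ∣ i).card : ℝ) = N / d := by
  obtain ⟨m, rfl⟩ := h
  have e : ((range (d * m)).filter fun i => d ∣ i) = (range m).image (fun i => d * i) := by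
    ext i
    simp only [mem_filter, mem_range, mem_image]
    constructor
    · rintro ⟨h1, k, rfl⟩
      exact ⟨k, lt_of_mul_lt_mul_left h1 (Nat.zero_le d), rfl⟩
    · rintro ⟨k, hk, rfl⟩
      exact ⟨Nat.mul_lt_mul_of_pos_left hk hd, dvd_mul_right d k⟩
  rw [e, card_image_of_injective _ (fun a b hab => Nat.eq_of_mul_eq_mul_left hd hab), card_range]
  have hd' : (d : ℝ) ≠ 0 := by exact_mod_cast hd.ne'
  push_cast
  field_simp

theorem sum_mult (N d : ℕ) (hd : 0 < d) (h : d ∣ N) :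
    ∑ i ∈ range N, (if d ∣ i then (1 : ℝ) else 0) = N / d := by
  rw [← card_mult N d hd h, card_filter]
  push_cast
  rfl

/-- the product of the primes up to `y` -/
def pr (y : ℕ) : ℕ := ∏ p ∈ PP y, p

/-- the sum of the reciprocals of the primes up to `y` -/
def rs (y : ℕ) : ℝ := ∑ p ∈ PP y, 1 / (p : ℝ)

theorem prime_of_mem {y p : ℕ} (h : p ∈ PP y) : p.Prime := (mem_filter.1 h).2

theorem dvd_pr {y p : ℕ} (h : p ∈ PP y) : p ∣ pr y := dvd_prod_of_mem _ h

theorem coprime_of_ne {y p q : ℕ} (hp : p ∈ PP y) (hq : q ∈ PP y) (h : p ≠ q) : p.Coprime q :=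
  (Nat.coprime_primes (prime_of_mem hp) (prime_of_mem hq)).2 h

theorem mul_dvd_pr {y p q : ℕ} (hp : p ∈ PP y) (hq : q ∈ PP y) (h : p ≠ q) : p * q ∣ pr y :=
  (coprime_of_ne hp hq h).mul_dvd_of_dvd_of_dvd (dvd_pr hp) (dvd_pr hq)

theorem card_QQ (y i : ℕ) : ((QQ y i).card : ℝ) = ∑ p ∈ PP y, if p ∣ i then (1 : ℝ) else 0 := by
  unfold QQ
  rw [card_filter]
  push_cast
  rfl

theorem rs_nonneg (y : ℕ) : 0 ≤ rs y := sum_nonneg fun _ _ => by positivity

theorem sum_one (y : ℕ) : ∑ i ∈ range (pr y), ((QQ y i).card : ℝ) = pr y * rs y := by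
  simp_rw [card_QQ]
  rw [sum_comm]
  unfold rs
  rw [mul_sum]
  refine sum_congr rfl fun p hp => ?_
  rw [sum_mult _ p (prime_of_mem hp).pos (dvd_pr hp)]
  ring

theorem sum_pair (y p q : ℕ) (hp : p ∈ PP y) (hq : q ∈ PP y) :
    ∑ i ∈ range (pr y), (if p ∣ i then (1 : ℝ) else 0) * (if q ∣ i then (1 : ℝ) else 0) ≤
      pr y * ((1 / (p : ℝ)) * (1 / (q : ℝ))) + if p = q then (pr y : ℝ) * (1 / (p : ℝ)) else 0 := by
  by_cases h : p = q
  · subst h
    rw [if_pos rfl]
    have e : ∀ i ∈ range (pr y), (if p ∣ i then (1 : ℝ) else 0) * (if p ∣ i then (1 : ℝ) else 0) =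
        if p ∣ i then (1 : ℝ) else 0 := by
      intro i _
      split_ifs <;> norm_num
    rw [sum_congr rfl e, sum_mult _ p (prime_of_mem hp).pos (dvd_pr hp)]
    have h1 : (0 : ℝ) ≤ pr y * ((1 / (p : ℝ)) * (1 / (p : ℝ))) := by positivity
    have h2 : (pr y : ℝ) / p = pr y * (1 / (p : ℝ)) := by ring
    linarith
  · rw [if_neg h, add_zero]
    have e : ∀ i ∈ range (pr y), (if p ∣ i then (1 : ℝ) else 0) * (if q ∣ i then (1 : ℝ) else 0) =
        if p * q ∣ i then (1 : ℝ) else 0 := by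
      intro i _
      have h3 : p * q ∣ i ↔ p ∣ i ∧ q ∣ i :=
        ⟨fun h => ⟨(dvd_mul_right p q).trans h, (dvd_mul_left q p).trans h⟩,
          fun h => (coprime_of_ne hp hq ‹_›).mul_dvd_of_dvd_of_dvd h.1 h.2⟩
      by_cases h1 : p ∣ i <;> by_cases h2 : q ∣ i <;> simp [h1, h2, h3]
    rw [sum_congr rfl e, sum_mult _ (p * q)
      (Nat.mul_pos (prime_of_mem hp).pos (prime_of_mem hq).pos) (mul_dvd_pr hp hq h)]
    apply le_of_eq
    push_cast
    rw [div_mul_div_comm, one_mul, mul_one_div]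

theorem sum_two (y : ℕ) :
    ∑ i ∈ range (pr y), ((QQ y i).card : ℝ) ^ 2 ≤ pr y * rs y ^ 2 + pr y * rs y := by
  have e : ∀ i ∈ range (pr y), ((QQ y i).card : ℝ) ^ 2 = ∑ p ∈ PP y, ∑ q ∈ PP y,
      (if p ∣ i then (1 : ℝ) else 0) * (if q ∣ i then (1 : ℝ) else 0) := by
    intro i _
    rw [card_QQ, sq, sum_mul_sum]
  rw [sum_congr rfl e, sum_comm]
  have h1 : ∀ p ∈ PP y, ∑ i ∈ range (pr y), ∑ q ∈ PP y,
      (if p ∣ i then (1 : ℝ) else 0) * (if q ∣ i then (1 : ℝ) else 0) ≤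
      ∑ q ∈ PP y, (pr y * ((1 / (p : ℝ)) * (1 / (q : ℝ))) +
        if p = q then (pr y : ℝ) * (1 / (p : ℝ)) else 0) := by
    intro p hp
    rw [sum_comm]
    exact sum_le_sum fun q hq => sum_pair y p q hp hq
  refine (sum_le_sum h1).trans (le_of_eq ?_)
  simp_rw [sum_add_distrib]
  congr 1
  · unfold rs
    rw [sq, sum_mul_sum, mul_sum]
    refine sum_congr rfl fun p _ => ?_
    rw [mul_sum]
  · unfold rs
    rw [mul_sum]
    refine sum_congr rfl fun p hp => ?_
    rw [sum_ite_eq, if_pos hp]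

theorem variance (y : ℕ) :
    ∑ i ∈ range (pr y), (rs y - ((QQ y i).card : ℝ)) ^ 2 ≤ pr y * rs y := by
  have e : ∀ i ∈ range (pr y), (rs y - ((QQ y i).card : ℝ)) ^ 2 =
      rs y ^ 2 - 2 * rs y * ((QQ y i).card : ℝ) + ((QQ y i).card : ℝ) ^ 2 := by
    intro i _
    ring
  rw [sum_congr rfl e, sum_add_distrib, sum_sub_distrib, ← mul_sum, sum_one, sum_const,
    card_range, nsmul_eq_mul]
  have := sum_two y
  nlinarith

theorem count (y : ℕ) (h : 34 ≤ rs y) :
    (((range (pr y)).filter fun i => (QQ y i).card < 34).card : ℝ) * (rs y - 34) ^ 2 ≤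
      pr y * rs y := by
  refine le_trans ?_ (variance y)
  calc (((range (pr y)).filter fun i => (QQ y i).card < 34).card : ℝ) * (rs y - 34) ^ 2
      = ∑ _i ∈ (range (pr y)).filter fun i => (QQ y i).card < 34, (rs y - 34) ^ 2 := by
        rw [sum_const, nsmul_eq_mul]
    _ ≤ ∑ i ∈ (range (pr y)).filter fun i => (QQ y i).card < 34,
        (rs y - ((QQ y i).card : ℝ)) ^ 2 := by
        refine sum_le_sum fun i hi => ?_
        have h1 : ((QQ y i).card : ℝ) ≤ 34 := by exact_mod_cast (mem_filter.1 hi).2.le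
        have h2 : 0 ≤ rs y - 34 := by linarith
        exact pow_le_pow_left₀ h2 (by linarith) 2
    _ ≤ ∑ i ∈ range (pr y), (rs y - ((QQ y i).card : ℝ)) ^ 2 :=
        sum_le_sum_of_subset_of_nonneg (filter_subset _ _) fun _ _ _ => sq_nonneg _

theorem rs_large (M : ℝ) : ∃ y : ℕ, 2 ≤ y ∧ M ≤ rs y := by
  have h0 : ∀ n : ℕ, 0 ≤ Set.indicator {p : ℕ | p.Prime} (fun n : ℕ => (1 : ℝ) / n) n :=
    fun n => Set.indicator_nonneg (fun _ _ => by positivity) n
  have h1 := (not_summable_iff_tendsto_nat_atTop_of_nonneg h0).1 not_summable_one_div_on_primes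
  obtain ⟨n, hn⟩ := (h1.eventually_ge_atTop M).exists
  refine ⟨max n 2, le_max_right _ _, hn.trans ?_⟩
  have h2 : rs (max n 2) = ∑ i ∈ range (max n 2 + 1),
      Set.indicator {p : ℕ | p.Prime} (fun n : ℕ => (1 : ℝ) / n) i := by
    unfold rs PP
    rw [sum_filter]
    refine sum_congr rfl fun a _ => ?_
    by_cases ha : a.Prime
    · rw [if_pos ha, Set.indicator_of_mem (show a ∈ {p : ℕ | p.Prime} from ha)]
    · rw [if_neg ha, Set.indicator_of_notMem (show a ∉ {p : ℕ | p.Prime} from ha)]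
  rw [h2]
  refine sum_le_sum_of_subset_of_nonneg ?_ fun i _ _ => h0 i
  intro i hi
  rw [mem_range] at hi ⊢
  have := le_max_left n 2
  omega

end FEW_

open FEW_ in
/-- Target FEW. -/
theorem p_FEW : T_FEW := by
  intro ε hε
  obtain ⟨y, hy, hM⟩ := rs_large (68 + 4 / ε)
  refine ⟨y, hy, ?_⟩
  have h4 : 0 < 4 / ε := by positivity
  have hS : 68 ≤ rs y := by linarith
  have hS4 : 4 / ε ≤ rs y := by linarith
  have h1 := count y (by linarith)
  change (((range (pr y)).filter fun i => (QQ y i).card < 34).card : ℝ) ≤ ε * (pr y : ℝ)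
  set A : ℝ := (((range (pr y)).filter fun i => (QQ y i).card < 34).card : ℝ) with hA
  have hA0 : 0 ≤ A := Nat.cast_nonneg _
  have h2 : rs y ^ 2 / 4 ≤ (rs y - 34) ^ 2 := by nlinarith
  have h3 : A * (rs y ^ 2 / 4) ≤ pr y * rs y := (mul_le_mul_of_nonneg_left h2 hA0).trans h1
  have hS0 : 0 < rs y := by linarith
  have h5 : A * rs y ≤ 4 * pr y := by
    have : A * rs y * rs y ≤ 4 * pr y * rs y := by nlinarith
    exact le_of_mul_le_mul_right this hS0
  have h6 : 4 ≤ ε * rs y := by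
    rw [div_le_iff₀ hε] at hS4
    linarith
  have hP : (0 : ℝ) ≤ pr y := Nat.cast_nonneg _
  have h7 : A * rs y ≤ (ε * pr y) * rs y := by nlinarith
  exact le_of_mul_le_mul_right h7 hS0

end Pool.Agent.TEQ
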