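import Pool.Agent.TEQ.P_ITR

set_option autoImplicit false

open Finset

noncomputable section

namespace Pool.Agent.TEQ

open ITR_

theorem p_FIN (hI : T_ITR) : T_FIN := by
  classical
  intro T ε hε
  obtain ⟨W, C, B, hW, hper, hcnt, hgood⟩ := hI T (ε / 2) (by positivity)
  refine ⟨C, W, fun x hx => ?_⟩
  have hsub : ((Icc 1 x).filter fun i => Even i ∧ (sols C i).card < T) ⊆
      (range ((x / W + 1) * W)).filter B := by
    intro i hi
    simp only [mem_filter, mem_Icc, mem_range] at hi ⊢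
    obtain ⟨⟨h1, h2⟩, h3, h4⟩ := hi
    refine ⟨?_, ?_⟩
    · have h5 := Nat.div_add_mod x W
      have h6 := Nat.mod_lt x hW
      have h7 : (x / W + 1) * W = W * (x / W) + W := by ring
      rw [h7]
      omega
    · by_contra hB
      exact absurd (hgood i h1 h3 hB) (not_le.2 h4)
  have h1 := (card_le_card hsub).trans_eq (card_mul B W hper (x / W + 1))
  have h2 : ((((Icc 1 x).filter fun i => Even i ∧ (sols C i).card < T).card : ℕ) : ℝ) ≤
      ((x / W + 1 : ℕ) : ℝ) * (((range W).filter B).card : ℝ) := by exact_mod_cast h1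
  have hWr : (0 : ℝ) < W := by exact_mod_cast hW
  have hxr : (W : ℝ) ≤ x := by exact_mod_cast hx
  have h3 : ((x / W + 1 : ℕ) : ℝ) * W ≤ 2 * x := by
    have h5 : (x / W + 1) * W ≤ 2 * x := by
      have h6 := Nat.div_mul_le_self x W
      rw [add_mul, one_mul]
      omega
    exact_mod_cast h5
  calc _ ≤ ((x / W + 1 : ℕ) : ℝ) * (((range W).filter B).card : ℝ) := h2
    _ ≤ ((x / W + 1 : ℕ) : ℝ) * (ε / 2 * W) := mul_le_mul_of_nonneg_left hcnt (by positivity)
    _ = ε / 2 * (((x / W + 1 : ℕ) : ℝ) * W) := by ring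
    _ ≤ ε / 2 * (2 * x) := mul_le_mul_of_nonneg_left h3 (by positivity)
    _ = ε * x := by ring

end Pool.Agent.TEQ
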