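import Pool.Agent.TEQ.Targets

/-!
# TEQ: GE1
-/

set_option autoImplicit false

open Finset

noncomputable section

namespace Pool.Agent.TEQ

namespace GE1_

/-- the sum over the divisors `≤ L` of the product of `P` -/
def sm (h : ℕ → ℝ) (P : Finset ℕ) (L : ℕ) : ℝ :=
  ∑ l ∈ (∏ p ∈ P, p).divisors.filter (· ≤ L), ∏ p ∈ l.primeFactors, h p

lemma step (h : ℕ → ℝ) (hh : ∀ p, 0 ≤ h p) {p : ℕ} (hp : p.Prime) {P : Finset ℕ}
    (hP : ∀ q ∈ P, q.Prime) (hpP : p ∉ P) {L M : ℕ} (hL : p * L ≤ M) :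
    (1 + h p) * sm h P L ≤ sm h (insert p P) M := by
  have hN : ∏ q ∈ P, q ≠ 0 := Finset.prod_ne_zero_iff.2 fun q hq => (hP q hq).ne_zero
  have hprod : ∏ q ∈ insert p P, q = p * ∏ q ∈ P, q := Finset.prod_insert hpP
  have hndvd : ∀ l, l ∣ ∏ q ∈ P, q → ¬ p ∣ l := by
    intro l hl hpl
    obtain ⟨q, hq, hpq⟩ := (hp.prime.dvd_finsetProd_iff _).1 (hpl.trans hl)
    have := (Nat.prime_dvd_prime_iff_eq hp (hP q hq)).1 hpq
    exact hpP (this ▸ hq)
  have hLM : L ≤ M := le_trans (Nat.le_mul_of_pos_left L hp.pos) hL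
  set A : Finset ℕ := (∏ q ∈ P, q).divisors.filter (· ≤ L) with hA
  have hmemA : ∀ l ∈ A, l ∣ ∏ q ∈ P, q ∧ l ≤ L := by
    intro l hl
    rw [hA, mem_filter, Nat.mem_divisors] at hl
    exact ⟨hl.1.1, hl.2⟩
  have hinj : Set.InjOn (fun l => p * l) (A : Set ℕ) := by
    intro a _ b _ hab
    exact Nat.eq_of_mul_eq_mul_left hp.pos hab
  have hdis : Disjoint A (A.image fun l => p * l) := by
    rw [Finset.disjoint_left]
    intro l hl hl2
    obtain ⟨m, _, rfl⟩ := mem_image.1 hl2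
    exact hndvd _ (hmemA _ hl).1 (dvd_mul_right p m)
  have hsub : A ∪ A.image (fun l => p * l) ⊆
      (∏ q ∈ insert p P, q).divisors.filter (· ≤ M) := by
    intro l hl
    rw [mem_filter, Nat.mem_divisors, hprod]
    rcases mem_union.1 hl with hl | hl
    · obtain ⟨h1, h2⟩ := hmemA _ hl
      exact ⟨⟨h1.trans (dvd_mul_left _ p), mul_ne_zero hp.ne_zero hN⟩, h2.trans hLM⟩
    · obtain ⟨m, hm, rfl⟩ := mem_image.1 hl
      obtain ⟨h1, h2⟩ := hmemA _ hm
      exact ⟨⟨mul_dvd_mul_left p h1, mul_ne_zero hp.ne_zero hN⟩,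
        (Nat.mul_le_mul_left p h2).trans hL⟩
  have hsum : (1 + h p) * sm h P L =
      ∑ l ∈ A ∪ A.image (fun l => p * l), ∏ q ∈ l.primeFactors, h q := by
    rw [sum_union hdis, sum_image hinj, add_mul, one_mul]
    unfold sm
    rw [← hA, mul_sum]
    congr 1
    refine sum_congr rfl fun l hl => ?_
    have hl0 : l ≠ 0 := ne_zero_of_dvd_ne_zero hN (hmemA l hl).1
    rw [Nat.primeFactors_mul hp.ne_zero hl0, hp.primeFactors, ← insert_eq,
      prod_insert]
    intro h1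
    exact hndvd l (hmemA l hl).1 (Nat.dvd_of_mem_primeFactors h1)
  rw [hsum]
  exact sum_le_sum_of_subset_of_nonneg hsub fun l _ _ => prod_nonneg fun q _ => hh q

lemma main (h : ℕ → ℝ) (hh : ∀ p, 0 ≤ h p) (P₁ : Finset ℕ) :
    ∀ (P₂ : Finset ℕ) (L L' : ℕ), (∀ p ∈ P₁, p.Prime) → (∀ p ∈ P₂, p.Prime) →
    Disjoint P₁ P₂ → (∏ p ∈ P₁, p) * L' ≤ L →
    (∏ p ∈ P₁, (1 + h p)) * sm h P₂ L' ≤ sm h (P₁ ∪ P₂) L := by
  induction P₁ using Finset.induction_on with
  | empty =>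
    intro P₂ L L' _ _ _ hL
    rw [prod_empty, one_mul] at hL
    rw [prod_empty, one_mul, empty_union]
    unfold sm
    refine sum_le_sum_of_subset_of_nonneg ?_ fun l _ _ => prod_nonneg fun q _ => hh q
    intro l hl
    rw [mem_filter] at hl ⊢
    exact ⟨hl.1, hl.2.trans hL⟩
  | insert p P hpP ih =>
    intro P₂ L L' h1 h2 hd hL
    rw [Finset.disjoint_insert_left] at hd
    have hp : p.Prime := h1 p (mem_insert_self p P)
    have h1' : ∀ q ∈ P, q.Prime := fun q hq => h1 q (mem_insert_of_mem hq)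
    have h2' : ∀ q ∈ insert p P₂, q.Prime := by
      intro q hq
      rcases mem_insert.1 hq with rfl | hq
      · exact hp
      · exact h2 q hq
    rw [prod_insert hpP] at hL ⊢
    have hs := step h hh hp h2 hd.1 (L := L') (M := p * L') le_rfl
    have hi := ih (insert p P₂) L (p * L') h1' h2'
      (by
        rw [Finset.disjoint_insert_right]
        exact ⟨hpP, hd.2⟩)
      (by
        calc (∏ q ∈ P, q) * (p * L') = p * (∏ q ∈ P, q) * L' := by ring
          _ ≤ L := hL)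
    have hu : P ∪ insert p P₂ = insert p P ∪ P₂ := by
      rw [union_insert, insert_union]
    rw [hu] at hi
    have hpos : 0 ≤ ∏ q ∈ P, (1 + h q) := prod_nonneg fun q _ => by linarith [hh q]
    calc (1 + h p) * (∏ q ∈ P, (1 + h q)) * sm h P₂ L'
        = (∏ q ∈ P, (1 + h q)) * ((1 + h p) * sm h P₂ L') := by ring
      _ ≤ (∏ q ∈ P, (1 + h q)) * sm h (insert p P₂) (p * L') :=
          mul_le_mul_of_nonneg_left hs hpos
      _ ≤ _ := hi

end GE1_

theorem p_GE1 : T_GE1 := by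
  intro h P₁ P₂ L L' hh h1 h2 hd hL
  exact GE1_.main h hh P₁ P₂ L L' h1 h2 hd hL

end Pool.Agent.TEQ
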