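import Pool.Agent.TEQ.Targets

/-!
# TEQ: the target GE2 (helper9)

Removing the primes of a finite set from a sieve sum.
-/

set_option autoImplicit false

open Finset

noncomputable section

namespace Pool.Agent.TEQ

namespace GE2_

/-- the summand -/
def f (l : ℕ) : ℝ := (2 : ℝ) ^ l.primeFactors.card / l

theorem f_nonneg (l : ℕ) : 0 ≤ f l := by
  unfold f
  positivity

theorem f_mul {p l : ℕ} (hp : p.Prime) (hl : ¬ p ∣ l) (hl0 : l ≠ 0) :
    f (p * l) = 2 / (p : ℝ) * f l := by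
  have hp0 : (p : ℝ) ≠ 0 := Nat.cast_ne_zero.2 hp.ne_zero
  have hl0' : (l : ℝ) ≠ 0 := Nat.cast_ne_zero.2 hl0
  have h1 : (p * l).primeFactors.card = l.primeFactors.card + 1 := by
    rw [Nat.primeFactors_mul hp.ne_zero hl0, hp.primeFactors, Finset.card_union_of_disjoint]
    · rw [Finset.card_singleton, add_comm]
    · rw [Finset.disjoint_singleton_left]
      intro h
      exact hl (Nat.dvd_of_mem_primeFactors h)
  unfold f
  rw [h1, pow_succ, Nat.cast_mul]
  field_simp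

/-- squarefree numbers without prime factors in `E` -/
def A (L : ℕ) (E : Finset ℕ) : Finset ℕ :=
  (Icc 1 L).filter (fun l => Squarefree l ∧ ∀ p ∈ E, ¬ p ∣ l)

theorem mem_A {L l : ℕ} {E : Finset ℕ} :
    l ∈ A L E ↔ (1 ≤ l ∧ l ≤ L) ∧ Squarefree l ∧ ∀ p ∈ E, ¬ p ∣ l := by
  unfold A
  rw [mem_filter, mem_Icc]

theorem step (L : ℕ) (E : Finset ℕ) (p : ℕ) (hp : p.Prime) :
    ∑ l ∈ A L E, f l ≤ (1 + 2 / (p : ℝ)) * ∑ l ∈ A L (insert p E), f l := by
  have h1 : (A L E).filter (fun l => ¬ p ∣ l) = A L (insert p E) := by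
    ext l
    rw [mem_filter, mem_A, mem_A]
    constructor
    · rintro ⟨⟨h1, h2, h3⟩, h4⟩
      refine ⟨h1, h2, fun q hq => ?_⟩
      rcases mem_insert.1 hq with rfl | hq
      · exact h4
      · exact h3 q hq
    · rintro ⟨h1, h2, h3⟩
      exact ⟨⟨h1, h2, fun q hq => h3 q (mem_insert_of_mem hq)⟩, h3 p (mem_insert_self _ _)⟩
  have h2 : (A L E).filter (fun l => p ∣ l) ⊆ (A L (insert p E)).image (fun l => p * l) := by
    intro l hl
    rw [mem_filter, mem_A] at hl
    obtain ⟨⟨⟨h1, h1'⟩, h2, h3⟩, k, rfl⟩ := hl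
    have hk0 : k ≠ 0 := by
      rintro rfl
      simp at h1
    have hkp : k ≤ p * k := Nat.le_mul_of_pos_left k hp.pos
    refine mem_image.2 ⟨k, mem_A.2 ⟨⟨Nat.one_le_iff_ne_zero.2 hk0, hkp.trans h1'⟩,
      h2.squarefree_of_dvd (dvd_mul_left k p), fun q hq => ?_⟩, rfl⟩
    rcases mem_insert.1 hq with rfl | hq
    · rintro ⟨m, rfl⟩
      have h4 := h2 q ⟨m, by ring⟩
      exact hp.one_lt.ne' (Nat.isUnit_iff.1 h4)
    · intro h
      exact h3 q hq (h.trans (dvd_mul_left k p))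
  have h3 : ∑ l ∈ (A L E).filter (fun l => p ∣ l), f l ≤
      2 / (p : ℝ) * ∑ l ∈ A L (insert p E), f l := by
    refine (sum_le_sum_of_subset_of_nonneg h2 (fun l _ _ => f_nonneg l)).trans ?_
    rw [sum_image (fun a _ b _ h => Nat.eq_of_mul_eq_mul_left hp.pos h), mul_sum]
    refine (sum_congr rfl fun l hl => ?_).le
    rw [mem_A] at hl
    exact f_mul hp (hl.2.2 p (mem_insert_self _ _)) (by omega)
  rw [← sum_filter_not_add_sum_filter (A L E) (fun l => p ∣ l) f, h1]
  linarith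

theorem main (L : ℕ) (E : Finset ℕ) : (∀ p ∈ E, p.Prime) →
    ∑ l ∈ A L ∅, f l ≤ (∏ p ∈ E, (1 + 2 / (p : ℝ))) * ∑ l ∈ A L E, f l := by
  induction E using Finset.induction_on with
  | empty =>
    intro _
    simp
  | insert p E hpE ih =>
    intro h
    have h1 := ih fun q hq => h q (mem_insert_of_mem hq)
    have h2 := step L E p (h p (mem_insert_self _ _))
    have h3 : 0 ≤ ∏ p ∈ E, (1 + 2 / (p : ℝ)) := prod_nonneg fun q _ => by positivity
    refine h1.trans ((mul_le_mul_of_nonneg_left h2 h3).trans (le_of_eq ?_))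
    rw [prod_insert hpE]
    ring

end GE2_

open GE2_ in
/-- GE2 -/
theorem p_GE2 : T_GE2 := by
  intro E L hE
  have h := main L E hE
  have h1 : A L ∅ = (Icc 1 L).filter Squarefree := by
    ext l
    rw [mem_A, mem_filter, mem_Icc]
    constructor
    · rintro ⟨h1, h2, _⟩
      exact ⟨h1, h2⟩
    · rintro ⟨h1, h2⟩
      exact ⟨h1, h2, fun p hp => absurd hp (notMem_empty p)⟩
  rw [h1] at h
  exact h

end Pool.Agent.TEQ
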