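import Pool.Agent.TEQ.Targets

set_option autoImplicit false

open Finset

noncomputable section

namespace Pool.Agent.TEQ

namespace ITR_

open Classical in
/-- counting a periodic predicate over a multiple of the period -/
lemma card_mul (B : ℕ → Prop) (P : ℕ) (h : ∀ a, B (a + P) ↔ B a) (k : ℕ) :
    ((range (k * P)).filter B).card = k * ((range P).filter B).card := by
  have hk : ∀ k a, B (a + k * P) ↔ B a := by
    intro k
    induction k with
    | zero => intro a; simp
    | succ k ih =>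
      intro a
      rw [show a + (k + 1) * P = (a + k * P) + P by ring, h, ih]
  induction k with
  | zero => simp
  | succ k ih =>
    have h1 : range ((k + 1) * P) = range (k * P) ∪ (range P).map (addRightEmbedding (k * P)) := by
      rw [show (k + 1) * P = k * P + P by ring, Finset.range_eq_Ico, Finset.range_eq_Ico,
        Finset.range_eq_Ico, Finset.map_add_right_Ico]
      rw [show (0 : ℕ) + k * P = k * P by ring, show P + k * P = k * P + P by ring,
        Finset.Ico_union_Ico_eq_Ico (Nat.zero_le _) (Nat.le_add_right _ _)]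
    have h2 : Disjoint (range (k * P)) ((range P).map (addRightEmbedding (k * P))) := by
      rw [Finset.disjoint_left]
      intro x hx hx'
      simp only [mem_range, mem_map, addRightEmbedding_apply] at hx hx'
      obtain ⟨a, -, ha⟩ := hx'
      omega
    rw [h1, filter_union, card_union_of_disjoint (disjoint_filter_filter h2), ih, filter_map,
      card_map, add_mul, one_mul]
    congr 2
    ext a
    simp only [mem_filter, Function.comp, addRightEmbedding_apply, hk]

lemma QQ_mono {y z : ℕ} (h : y ≤ z) (a : ℕ) : QQ y a ⊆ QQ z a := by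
  intro p hp
  simp only [QQ, PP, mem_filter, mem_range] at hp ⊢
  exact ⟨⟨by omega, hp.1.2⟩, hp.2⟩

lemma sols_mono {C D : ℕ} (h : C ≤ D) (i : ℕ) : (sols C i).card ≤ (sols D i).card := by
  refine card_le_card ?_
  intro n hn
  simp only [sols, mem_filter, mem_Icc] at hn ⊢
  exact ⟨⟨hn.1.1, hn.1.2.trans (Nat.mul_le_mul_right i h)⟩, hn.2⟩

lemma QQ_per (y W : ℕ) (h : ∀ p ∈ PP y, p ∣ W) (a : ℕ) : QQ y (a + W) = QQ y a := by
  unfold QQ
  refine filter_congr fun p hp => ?_
  exact (Nat.dvd_add_left (h p hp))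

lemma per_of_dvd (B : ℕ → Prop) {W W' : ℕ} (h : ∀ a, B (a + W) ↔ B a) (hd : W ∣ W') (a : ℕ) :
    B (a + W') ↔ B a := by
  obtain ⟨k, rfl⟩ := hd
  induction k generalizing a with
  | zero => simp
  | succ k ih => rw [show a + W * (k + 1) = (a + W * k) + W by ring, h, ih]

end ITR_

open ITR_

theorem p_ITR (hP : T_PRB) (hS : T_STP) (hF : T_FEW) (hSol : T_SOL) : T_ITR := by
  classical
  intro T ε hε
  obtain ⟨c₀, hc₀, hP⟩ := hP
  set c : ℝ := min c₀ (1 / 2) with hcdef
  have hc : 0 < c := lt_min hc₀ (by norm_num)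
  have hc1 : c ≤ 1 / 2 := min_le_right _ _
  obtain ⟨y₀, hy₀, hfew⟩ := hF (ε / 2) (by positivity)
  set P₀ : ℕ := ∏ p ∈ PP y₀, p with hP₀
  have hPP : ∀ {y p : ℕ}, p ∈ PP y ↔ p ≤ y ∧ p.Prime := by
    intro y p
    simp only [PP, mem_filter, mem_range, Nat.lt_succ_iff]
  have key : ∀ J : ℕ, ∃ (y W C : ℕ) (B : ℕ → Prop), 2 ≤ y ∧ 0 < W ∧ Smooth y W ∧
      (∀ p ∈ PP y, p ∣ W) ∧ (∀ a, B (a + W) ↔ B a) ∧
      (∀ a, B a → 2 ∈ QQ y a ∧ 34 ≤ (QQ y a).card) ∧
      (((range W).filter B).card : ℝ) / W ≤ (1 - c) ^ J ∧ P₀ ∣ W ∧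
      ∀ i : ℕ, 1 ≤ i → 2 ∣ i → 34 ≤ (QQ y₀ i).card → ¬ B i → T ≤ (sols C i).card := by
    intro J
    induction J with
    | zero =>
      have hpos : 0 < P₀ := Finset.prod_pos fun p hp => (hPP.1 hp).2.pos
      have hdv : ∀ p ∈ PP y₀, p ∣ P₀ := fun p hp => Finset.dvd_prod_of_mem _ hp
      refine ⟨y₀, P₀, 0, fun a => 2 ∣ a ∧ 34 ≤ (QQ y₀ a).card, hy₀, hpos, ?_, hdv, ?_, ?_, ?_,
        dvd_refl _, ?_⟩
      · intro p hp hpd
        rw [hP₀, (Nat.Prime.prime hp).dvd_finsetProd_iff] at hpd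
        obtain ⟨q, hq, hpq⟩ := hpd
        rw [(Nat.prime_dvd_prime_iff_eq hp (hPP.1 hq).2)] at hpq
        rw [hpq]
        exact (hPP.1 hq).1
      · intro a
        show (2 ∣ a + P₀ ∧ 34 ≤ (QQ y₀ (a + P₀)).card) ↔ (2 ∣ a ∧ 34 ≤ (QQ y₀ a).card)
        rw [QQ_per y₀ P₀ hdv a, Nat.dvd_add_left (hdv 2 (hPP.2 ⟨hy₀, Nat.prime_two⟩))]
      · intro a ha
        refine ⟨?_, ha.2⟩
        simp only [QQ, mem_filter]
        exact ⟨hPP.2 ⟨hy₀, Nat.prime_two⟩, ha.1⟩
      · rw [pow_zero, div_le_one (by exact_mod_cast hpos)]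
        have h0 := Finset.card_le_card (Finset.filter_subset
          (p := fun a => 2 ∣ a ∧ 34 ≤ (QQ y₀ a).card) (s := range P₀))
        rw [card_range] at h0
        have h1 : ((((range P₀).filter (fun a => 2 ∣ a ∧ 34 ≤ (QQ y₀ a).card)).card : ℕ) : ℝ) ≤
          (P₀ : ℝ) := by exact_mod_cast h0
        refine le_trans (le_of_eq ?_) h1
        congr!
      · intro i _ h2 h34 hB
        exact absurd ⟨h2, h34⟩ hB
    | succ J ih =>
      obtain ⟨y, W, C, B, hy, hW, hsm, hdv, hper, hB, hcnt, hPW, hgood⟩ := ih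
      obtain ⟨z, hyz, hz⟩ := hP y T hy
      have hz' : ∀ Q : Finset ℕ, Q ⊆ PP y → 2 ∈ Q → 34 ≤ Q.card →
          c ≤ (∏ p ∈ PI y z, (1 - 1 / (p : ℝ))) * ∑ s ∈ SS y z T Q, 1 / (s : ℝ) :=
        fun Q h1 h2 h3 => (min_le_left _ _).trans (hz Q h1 h2 h3)
      obtain ⟨W', hW', hWW', hsm', hdv', hper', hcnt'⟩ :=
        hS c y z T W B hc hyz hW hsm hdv hper hB hz'
      refine ⟨z, W', max C z, fun a => B a ∧ ¬ Good y z T a, hy.trans hyz.le, hW', hsm', hdv',
        ?_, ?_, ?_, hPW.trans hWW', ?_⟩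
      · intro a
        show (B (a + W') ∧ ¬ Good y z T (a + W')) ↔ (B a ∧ ¬ Good y z T a)
        rw [per_of_dvd B hper hWW' a, hper' a]
      · intro a ha
        have h1 := hB a ha.1
        exact ⟨QQ_mono hyz.le a h1.1, h1.2.trans (card_le_card (QQ_mono hyz.le a))⟩
      · have h9 : (1 - c) * ((((range W).filter B).card : ℝ) / W) ≤ (1 - c) ^ (J + 1) := by
          rw [pow_succ, mul_comm]
          exact mul_le_mul_of_nonneg_right hcnt (by linarith)
        have h8 := hcnt'.trans (le_trans (le_of_eq (by congr)) h9)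
        refine le_trans (le_of_eq ?_) h8
        congr!
      · intro i hi h2 h34 hBi
        by_cases hg : Good y z T i
        · exact (hSol y z T i hi hg).trans (sols_mono (le_max_right _ _) i)
        · have : ¬ B i := fun hb => hBi ⟨hb, hg⟩
          exact (hgood i hi h2 h34 this).trans (sols_mono (le_max_left _ _) i)
  obtain ⟨J, hJ⟩ := exists_pow_lt_of_lt_one (show (0 : ℝ) < ε / 2 by positivity)
    (show (1 - c : ℝ) < 1 by linarith)
  obtain ⟨y, W, C, B, hy, hW, hsm, hdv, hper, hB, hcnt, hPW, hgood⟩ := key J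
  have hperQ : ∀ a, (QQ y₀ (a + P₀)).card < 34 ↔ (QQ y₀ a).card < 34 := by
    intro a
    rw [QQ_per y₀ P₀ (fun p hp => Finset.dvd_prod_of_mem _ hp) a]
  refine ⟨W, C, fun a => (QQ y₀ a).card < 34 ∨ B a, hW, ?_, ?_, ?_⟩
  · intro a
    show ((QQ y₀ (a + W)).card < 34 ∨ B (a + W)) ↔ ((QQ y₀ a).card < 34 ∨ B a)
    rw [hper a, per_of_dvd (fun a => (QQ y₀ a).card < 34) hperQ hPW a]
  · have h0 : ((range W).filter fun a => (QQ y₀ a).card < 34 ∨ B a) =
      ((range W).filter fun a => (QQ y₀ a).card < 34) ∪ (range W).filter B := filter_or _ _ _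
    suffices h : ((((range W).filter fun a => (QQ y₀ a).card < 34 ∨ B a).card : ℕ) : ℝ) ≤ ε * W by
      refine le_trans (le_of_eq ?_) h
      congr!
    rw [h0]
    have h1 := card_union_le ((range W).filter fun a => (QQ y₀ a).card < 34)
      ((range W).filter B)
    have hWr : (0 : ℝ) < W := by exact_mod_cast hW
    have h2 : (((range W).filter B).card : ℝ) ≤ ε / 2 * W := by
      have := hcnt.trans hJ.le
      rwa [div_le_iff₀ hWr] at this
    have h3 : (((range W).filter fun a => (QQ y₀ a).card < 34).card : ℝ) ≤ ε / 2 * W := by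
      obtain ⟨k, hk⟩ := hPW
      have hcm := card_mul (fun a => (QQ y₀ a).card < 34) P₀ hperQ k
      rw [mul_comm k P₀, ← hk] at hcm
      have hcm' : ((((range W).filter fun a => (QQ y₀ a).card < 34).card : ℕ) : ℝ) =
          k * (((range P₀).filter fun i => (QQ y₀ i).card < 34).card : ℝ) := by
        have : ((((range W).filter fun a => (QQ y₀ a).card < 34).card : ℕ) : ℝ) =
          ((k * ((range P₀).filter fun i => (QQ y₀ i).card < 34).card : ℕ) : ℝ) := by
          congr 1
          convert hcm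
        rw [this]
        push_cast
        rfl
      have hk0 : (0 : ℝ) ≤ k := Nat.cast_nonneg k
      calc _ = _ := hcm'
        _ ≤ k * (ε / 2 * (P₀ : ℝ)) := mul_le_mul_of_nonneg_left hfew hk0
        _ = ε / 2 * W := by rw [hk]; push_cast; ring
    have h4 : ((((range W).filter fun a => (QQ y₀ a).card < 34) ∪ (range W).filter B).card : ℝ) ≤
        (((range W).filter fun a => (QQ y₀ a).card < 34).card : ℝ) +
          (((range W).filter B).card : ℝ) := by exact_mod_cast h1
    linarith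
  · intro i hi heven hBi
    simp only [not_or, not_lt] at hBi
    exact hgood i hi heven.two_dvd hBi.1 hBi.2

end Pool.Agent.TEQ
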