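import Pool.Agent.TEQ.Targets
import Pool.Agent.SSN.LBD

/-!
# LUB: an upper bound for Dirichlet `L`-functions near `1`
-/

set_option autoImplicit false

open Finset

noncomputable section

namespace Pool.Agent.TEQ

namespace LUB_

open SSN.LBD_

theorem rpow_le {m : ℕ} {l σ : ℝ} (hl : l = Real.log m) (hl0 : 0 < l) (hm : 0 < m)
    (hσ : 1 - 1 / l ≤ σ) {x : ℝ} (hx1 : 1 ≤ x) (hxm : x ≤ m) :
    x ^ (-σ) ≤ Real.exp 1 * x⁻¹ := by
  have hx0 : 0 < x := by linarith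
  have h1 : x ^ (-σ) ≤ x ^ (1 / l + (-1 : ℝ)) :=
    Real.rpow_le_rpow_of_exponent_le hx1 (by linarith)
  rw [Real.rpow_add hx0, Real.rpow_neg_one] at h1
  have h2 : x ^ (1 / l) ≤ (m : ℝ) ^ (1 / l) :=
    Real.rpow_le_rpow hx0.le hxm (by positivity)
  have h3 : (m : ℝ) ^ (1 / l) = Real.exp 1 := by
    rw [Real.rpow_def_of_pos (by exact_mod_cast hm), ← hl]
    congr 1
    field_simp
  rw [h3] at h2
  exact h1.trans (mul_le_mul_of_nonneg_right h2 (by positivity))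

theorem main_sum {m : ℕ} [NeZero m] (χ : DirichletCharacter ℂ m) {l : ℝ} (hl : l = Real.log m)
    (hl0 : 0 < l) (hm : 0 < m) {s : ℂ} (hσ : 1 - 1 / l ≤ s.re) :
    ‖∑ n ∈ range m, χ ((n + 1 : ℕ) : ZMod m) * ((n + 1 : ℕ) : ℂ) ^ (-s)‖ ≤
      Real.exp 1 * (1 + l) := by
  have h1 : ∀ n ∈ range m, ‖χ ((n + 1 : ℕ) : ZMod m) * ((n + 1 : ℕ) : ℂ) ^ (-s)‖ ≤
      Real.exp 1 * (((n : ℝ) + 1)⁻¹) := by
    intro n hn
    have hn' : n < m := Finset.mem_range.1 hn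
    rw [norm_mul]
    have h2 : ‖((((n + 1 : ℕ) : ℝ)) : ℂ) ^ (-s)‖ = ((n + 1 : ℕ) : ℝ) ^ (-s).re :=
      Complex.norm_cpow_eq_rpow_re_of_pos (by positivity) _
    rw [Complex.ofReal_natCast] at h2
    rw [h2]
    have h3 : ((n + 1 : ℕ) : ℝ) ^ (-s).re ≤ Real.exp 1 * (((n + 1 : ℕ) : ℝ))⁻¹ := by
      rw [Complex.neg_re]
      refine rpow_le hl hl0 hm hσ ?_ ?_
      · push_cast; linarith [(Nat.cast_nonneg n : (0 : ℝ) ≤ n)]
      · exact_mod_cast hn'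
    have h4 : ‖χ ((n + 1 : ℕ) : ZMod m)‖ ≤ 1 := DirichletCharacter.norm_le_one χ _
    calc ‖χ ((n + 1 : ℕ) : ZMod m)‖ * ((n + 1 : ℕ) : ℝ) ^ (-s).re
        ≤ 1 * (Real.exp 1 * (((n + 1 : ℕ) : ℝ))⁻¹) :=
          mul_le_mul h4 h3 (by positivity) (by norm_num)
      _ = Real.exp 1 * (((n : ℝ) + 1)⁻¹) := by push_cast; ring
  refine (norm_sum_le_of_le _ h1).trans ?_
  rw [← Finset.mul_sum]
  refine mul_le_mul_of_nonneg_left ?_ (Real.exp_pos 1).le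
  have h5 := harmonic_le_one_add_log m
  have h6 : ((harmonic m : ℚ) : ℝ) = ∑ n ∈ range m, ((n : ℝ) + 1)⁻¹ := by
    unfold harmonic
    push_cast
    rfl
  rw [← h6, hl]
  exact h5

end LUB_

open LUB_ SSN.LBD_ in
/-- the bound `L(s, χ) ≪ log m` near `1` -/
theorem p_LUB : T_LUB := by
  refine ⟨12, by norm_num, ?_⟩
  intro m _ χ hm hχ s hs
  have hm0 : 0 < m := by omega
  have hmR : (8 : ℝ) ≤ m := by exact_mod_cast hm
  obtain ⟨l, hl⟩ : ∃ l : ℝ, l = Real.log m := ⟨_, rfl⟩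
  rw [← hl] at hs ⊢
  have hl2 : 2 ≤ l := by
    have h1 : Real.log 8 ≤ Real.log m := Real.log_le_log (by norm_num) hmR
    have h2 : Real.log 8 = 3 * Real.log 2 := by
      rw [show (8 : ℝ) = 2 ^ 3 by norm_num, Real.log_pow]; norm_num
    have h3 := Real.log_two_gt_d9
    rw [hl]; linarith
  have hl0 : 0 < l := by linarith
  have hinv : 1 / l ≤ 1 / 2 := one_div_le_one_div_of_le (by norm_num) hl2
  have hre : |(s - 1).re| ≤ 1 / l := (Complex.abs_re_le_norm _).trans hs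
  rw [Complex.sub_re, Complex.one_re] at hre
  have hσ : 1 - 1 / l ≤ s.re := by linarith [(abs_le.1 hre).1]
  have hσ2 : 1 / 2 ≤ s.re := by linarith
  have hσ0 : 0 < s.re := by linarith
  have hns : ‖s‖ ≤ 3 / 2 := by
    have h1 : s = (s - 1) + 1 := by ring
    rw [h1]
    refine (norm_add_le _ _).trans ?_
    rw [norm_one]
    linarith
  have hq : ‖s‖ / s.re ≤ 3 := by
    rw [div_le_iff₀ hσ0]; linarith
  rw [FF_eq hχ hσ0]
  have hsp : FF χ s = ∑ n ∈ range m, tm χ n s + ∑' n, tm χ (n + m) s :=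
    ((summable_tm hχ hσ0).of_norm.sum_add_tsum_nat_add m).symm
  have hpt := sum_parts χ s m
  have e : FF χ s = ∑ n ∈ range m, χ ((n + 1 : ℕ) : ZMod m) * ((n + 1 : ℕ) : ℂ) ^ (-s) -
      AA χ m * ((m + 1 : ℕ) : ℂ) ^ (-s) + ∑' n, tm χ (n + m) s := by
    rw [hsp, hpt]; ring
  have hb := norm_boundary_le hχ s m
  have ht := norm_tail_le hχ hσ0 m
  have hms := main_sum χ hl hl0 hm0 hσ
  have h1 : ((m + 1 : ℕ) : ℝ) ^ (-s.re) ≤ Real.exp 1 * (m : ℝ)⁻¹ := by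
    refine le_trans (Real.rpow_le_rpow_of_nonpos (by linarith) (by push_cast; linarith)
      (by linarith)) (rpow_le hl hl0 hm0 hσ (by linarith) le_rfl)
  have h2 : (m : ℝ) * ((m + 1 : ℕ) : ℝ) ^ (-s.re) ≤ Real.exp 1 := by
    refine (mul_le_mul_of_nonneg_left h1 (by linarith)).trans (le_of_eq ?_)
    have : (m : ℝ) ≠ 0 := by linarith
    field_simp
  have h3 : (m : ℝ) * (‖s‖ / s.re) * ((m + 1 : ℕ) : ℝ) ^ (-s.re) ≤ 3 * Real.exp 1 := by
    have h4 : (m : ℝ) * (‖s‖ / s.re) * ((m + 1 : ℕ) : ℝ) ^ (-s.re) =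
        (‖s‖ / s.re) * ((m : ℝ) * ((m + 1 : ℕ) : ℝ) ^ (-s.re)) := by ring
    rw [h4]
    exact mul_le_mul hq h2 (by positivity) (by norm_num)
  have he : Real.exp 1 ≤ 3 := by linarith [Real.exp_one_lt_d9]
  calc ‖FF χ s‖ ≤ ‖∑ n ∈ range m, χ ((n + 1 : ℕ) : ZMod m) * ((n + 1 : ℕ) : ℂ) ^ (-s)‖ +
        ‖AA χ m * ((m + 1 : ℕ) : ℂ) ^ (-s)‖ + ‖∑' n, tm χ (n + m) s‖ := by
          rw [e]
          exact (norm_add_le _ _).trans (add_le_add_left (norm_sub_le _ _) _)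
    _ ≤ Real.exp 1 * (1 + l) + Real.exp 1 + 3 * Real.exp 1 :=
          add_le_add (add_le_add hms (hb.trans h2)) (ht.trans h3)
    _ = Real.exp 1 * (5 + l) := by ring
    _ ≤ 3 * (5 + l) := mul_le_mul_of_nonneg_right he (by linarith)
    _ ≤ 12 * l := by linarith

end Pool.Agent.TEQ

end
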