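import Pool.Agent.TEQ.Targets

/-!
# TEQ: the number of sifted classes (helper56)
-/

set_option autoImplicit false

open Finset

namespace Pool.Agent.TEQ

namespace NUC_

/-- the solution of `a x + 1 = 0` modulo `p` -/
def sol (p a : ℕ) : ℕ := (-(a : ZMod p)⁻¹).val

theorem sol_lt {p : ℕ} (hp : p.Prime) (a : ℕ) : sol p a < p :=
  haveI : Fact p.Prime := ⟨hp⟩
  ZMod.val_lt _

theorem cast_ne {p a : ℕ} (ha : ¬ p ∣ a) : (a : ZMod p) ≠ 0 := fun h =>
  ha ((ZMod.natCast_eq_zero_iff a p).1 h)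

theorem sol_spec {p a : ℕ} (hp : p.Prime) (ha : ¬ p ∣ a) (x : ℕ) (hx : x < p) :
    p ∣ a * x + 1 ↔ x = sol p a := by
  haveI : Fact p.Prime := ⟨hp⟩
  have h0 : (a : ZMod p) ≠ 0 := cast_ne ha
  have h1 : p ∣ a * x + 1 ↔ (a : ZMod p) * (x : ZMod p) + 1 = 0 := by
    rw [← ZMod.natCast_eq_zero_iff]
    push_cast
    exact Iff.rfl
  rw [h1]
  constructor
  · intro h
    have h2 : (x : ZMod p) = -(a : ZMod p)⁻¹ := by
      have h3 : (a : ZMod p) * (x : ZMod p) = -1 := eq_neg_of_add_eq_zero_left h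
      have h4 : (a : ZMod p)⁻¹ * ((a : ZMod p) * (x : ZMod p)) = (a : ZMod p)⁻¹ * (-1) := by
        rw [h3]
      rw [← mul_assoc, inv_mul_cancel₀ h0, one_mul] at h4
      rw [h4]
      ring
    unfold sol
    rw [← h2, ZMod.val_natCast, Nat.mod_eq_of_lt hx]
  · intro h
    have h2 : (x : ZMod p) = -(a : ZMod p)⁻¹ := by
      rw [h]
      unfold sol
      rw [ZMod.natCast_val, ZMod.cast_id]
    rw [h2, mul_neg, mul_inv_cancel₀ h0]
    ring

theorem sol_ne {p a : ℕ} (hp : p.Prime) (ha : ¬ p ∣ a) : sol p a ≠ 0 := by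
  intro h
  have h1 := (sol_spec hp ha 0 hp.pos).2 h.symm
  rw [mul_zero, zero_add] at h1
  exact hp.one_lt.ne' (Nat.dvd_one.1 h1)

theorem sol_eq {p a b : ℕ} (hp : p.Prime) (ha : ¬ p ∣ a) (hb : ¬ p ∣ b) :
    sol p a = sol p b ↔ a ≡ b [MOD p] := by
  haveI : Fact p.Prime := ⟨hp⟩
  rw [← ZMod.natCast_eq_natCast_iff]
  unfold sol
  constructor
  · intro h
    have h1 := ZMod.val_injective p h
    exact inv_injective (neg_injective h1)
  · intro h
    rw [h]

end NUC_

open NUC_ in
/-- NUC -/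
theorem p_NUC : T_NUC := by
  intro y m m' p hp hm hm' hpf hs
  have hdvd : p ∣ m ↔ p ∣ m' := by
    have h1 : p ∈ m.primeFactors ↔ p ∈ m'.primeFactors := by rw [hpf]
    rw [Nat.mem_primeFactors, Nat.mem_primeFactors] at h1
    constructor
    · intro h
      exact (h1.1 ⟨hp, h, hm.ne'⟩).2.1
    · intro h
      exact (h1.2 ⟨hp, h, hm'.ne'⟩).2.1
  refine ⟨?_, ?_, ?_⟩
  · intro h
    have hy : p ≤ y := hs p hp h
    have h' : p ∣ m' := hdvd.1 h
    have hne : ∀ a x : ℕ, p ∣ a → ¬ p ∣ a * x + 1 := by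
      intro a x ha hax
      have h1 : p ∣ 1 := (Nat.dvd_add_right (ha.mul_right x)).1 hax
      exact hp.one_lt.ne' (Nat.dvd_one.1 h1)
    have hO : Om y m m' p = {0} := by
      ext x
      simp only [Om, Finset.mem_filter, Finset.mem_range, Finset.mem_singleton]
      constructor
      · rintro ⟨_, h1 | h1 | h1⟩
        · exact h1.2
        · exact absurd h1 (hne m x h)
        · exact absurd h1 (hne m' x h')
      · intro h1
        exact ⟨by rw [h1]; exact hp.pos, Or.inl ⟨hy, h1⟩⟩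
    rw [hO, Finset.card_singleton]
  · intro h hy
    have h' : ¬ p ∣ m' := fun h1 => h (hdvd.2 h1)
    have hO : Om y m m' p = {0, sol p m, sol p m'} := by
      ext x
      simp only [Om, Finset.mem_filter, Finset.mem_range, Finset.mem_insert,
        Finset.mem_singleton]
      constructor
      · rintro ⟨hx, h1 | h1 | h1⟩
        · exact Or.inl h1.2
        · exact Or.inr (Or.inl ((sol_spec hp h x hx).1 h1))
        · exact Or.inr (Or.inr ((sol_spec hp h' x hx).1 h1))
      · rintro (h1 | h1 | h1)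
        · exact ⟨by rw [h1]; exact hp.pos, Or.inl ⟨hy, h1⟩⟩
        · have hx : x < p := by rw [h1]; exact sol_lt hp m
          exact ⟨hx, Or.inr (Or.inl ((sol_spec hp h x hx).2 h1))⟩
        · have hx : x < p := by rw [h1]; exact sol_lt hp m'
          exact ⟨hx, Or.inr (Or.inr ((sol_spec hp h' x hx).2 h1))⟩
    have n1 : sol p m ≠ 0 := sol_ne hp h
    have n2 : sol p m' ≠ 0 := sol_ne hp h'
    refine ⟨?_, ?_⟩
    · intro hmm
      have e : sol p m = sol p m' := (sol_eq hp h h').2 hmm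
      rw [hO, ← e, Finset.pair_eq_singleton, Finset.card_pair n1.symm]
    · intro hmm
      have e : sol p m ≠ sol p m' := fun e => hmm ((sol_eq hp h h').1 e)
      rw [hO, Finset.card_eq_three]
      exact ⟨0, sol p m, sol p m', n1.symm, n2.symm, e, rfl⟩
  · intro hy
    have h : ¬ p ∣ m := fun h1 => absurd (hs p hp h1) (not_le.2 hy)
    have h' : ¬ p ∣ m' := fun h1 => h (hdvd.2 h1)
    have hO : Om y m m' p = {sol p m, sol p m'} := by
      ext x
      simp only [Om, Finset.mem_filter, Finset.mem_range, Finset.mem_insert,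
        Finset.mem_singleton]
      constructor
      · rintro ⟨hx, h1 | h1 | h1⟩
        · exact absurd h1.1 (not_le.2 hy)
        · exact Or.inl ((sol_spec hp h x hx).1 h1)
        · exact Or.inr ((sol_spec hp h' x hx).1 h1)
      · rintro (h1 | h1)
        · have hx : x < p := by rw [h1]; exact sol_lt hp m
          exact ⟨hx, Or.inr (Or.inl ((sol_spec hp h x hx).2 h1))⟩
        · have hx : x < p := by rw [h1]; exact sol_lt hp m'
          exact ⟨hx, Or.inr (Or.inr ((sol_spec hp h' x hx).2 h1))⟩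
    refine ⟨?_, ?_⟩
    · intro hmm
      have e : sol p m = sol p m' := (sol_eq hp h h').2 hmm
      rw [hO, ← e, Finset.pair_eq_singleton, Finset.card_singleton]
    · intro hmm
      have e : sol p m ≠ sol p m' := fun e => hmm ((sol_eq hp h h').1 e)
      rw [hO, Finset.card_pair e]

end Pool.Agent.TEQ
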