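import Pool.Agent.TEQ.Targets

/-!
# ORD: powers of two in a residue class
-/

set_option autoImplicit false

open Finset

noncomputable section

namespace Pool.Agent.TEQ

namespace ORD_

private lemma isUnit_two {d : ℕ} (hd : Odd d) : IsUnit (2 : ZMod d) := by
  have h := (ZMod.isUnit_iff_coprime 2 d).2 (Nat.coprime_two_left.2 hd)
  simpa using h

private lemma modEq_of_mem {d u v a b : ℕ} (hodd : Odd d) (hu : u.Coprime d)
    (ha : 2 ^ (3 + a) * u ≡ v [MOD d]) (hb : 2 ^ (3 + b) * u ≡ v [MOD d]) :
    a ≡ b [MOD orderOf (2 : ZMod d)] := by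
  have h2 : IsUnit (2 : ZMod d) := isUnit_two hodd
  have huu : IsUnit (u : ZMod d) := (ZMod.isUnit_iff_coprime u d).2 hu
  have h := (ha.trans hb.symm)
  rw [← ZMod.natCast_eq_natCast_iff] at h
  push_cast at h
  have h' : (2 : ZMod d) ^ (3 + a) = 2 ^ (3 + b) := huu.mul_right_cancel h
  rw [pow_add, pow_add] at h'
  have h'' : (2 : ZMod d) ^ a = 2 ^ b := (h2.pow 3).mul_left_cancel h'
  obtain ⟨w, hw⟩ := h2
  rw [← hw] at h'' ⊢
  rw [orderOf_units]
  apply pow_eq_pow_iff_modEq.1
  apply Units.ext
  push_cast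
  exact h''

end ORD_

theorem p_ORD : T_ORD := by
  intro A d u v hd hodd hu
  have : NeZero d := ⟨hd.ne'⟩
  set e := orderOf (2 : ZMod d) with he
  have hepos : 0 < e := by
    obtain ⟨w, hw⟩ := ORD_.isUnit_two hodd
    rw [he, ← hw, orderOf_units]
    exact orderOf_pos w
  calc ((range A).filter fun a => 2 ^ (3 + a) * u ≡ v [MOD d]).card
      ≤ (range (A / e + 1)).card := by
        apply Finset.card_le_card_of_injOn (fun a => a / e)
        · intro a ha
          have ha' := (Finset.mem_filter.1 (Finset.mem_coe.1 ha)).1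
          rw [Finset.mem_range] at ha'
          rw [Finset.mem_coe, Finset.mem_range]
          exact Nat.lt_succ_of_le (Nat.div_le_div_right ha'.le)
        · intro a ha b hb hab
          have ha' := (Finset.mem_filter.1 (Finset.mem_coe.1 ha)).2
          have hb' := (Finset.mem_filter.1 (Finset.mem_coe.1 hb)).2
          have hmod : a % e = b % e := ORD_.modEq_of_mem hodd hu ha' hb'
          have hdiv : a / e = b / e := hab
          rw [← Nat.div_add_mod a e, ← Nat.div_add_mod b e, hmod, hdiv]
    _ = A / e + 1 := by rw [Finset.card_range]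

end Pool.Agent.TEQ
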