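import Pool.Agent.TEQ.Targets

/-!
# TEQ-PPW: prime powers
-/

set_option autoImplicit false

open Finset

noncomputable section

namespace Pool.Agent.TEQ

namespace PPW_

/-- geometric sums over a set of exponents -/
lemma geo (p : ℕ) (hp : 2 ≤ p) (B : ℝ) (hB : 0 < B) (F : Finset ℕ)
    (hF : ∀ k ∈ F, B ≤ (p : ℝ) ^ k) : ∑ k ∈ F, 1 / (p : ℝ) ^ k ≤ 2 / B := by
  classical
  rcases F.eq_empty_or_nonempty with h | h
  · subst h; simp; positivity
  · have hp0 : (0 : ℝ) < p := by exact_mod_cast (by omega : 0 < p)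
    have hp2 : (2 : ℝ) ≤ p := by exact_mod_cast hp
    set k0 := F.min' h with hk0
    set K := F.max' h with hK
    have hsub : F ⊆ Ico k0 (K + 1) := by
      intro k hk
      rw [mem_Ico]
      exact ⟨F.min'_le k hk, Nat.lt_succ_of_le (F.le_max' k hk)⟩
    have h1 : ∑ k ∈ F, 1 / (p : ℝ) ^ k ≤ ∑ k ∈ Ico k0 (K + 1), (1 / (p : ℝ)) ^ k := by
      calc ∑ k ∈ F, 1 / (p : ℝ) ^ k = ∑ k ∈ F, (1 / (p : ℝ)) ^ k := by
            apply sum_congr rfl; intro k _; rw [one_div_pow]
        _ ≤ _ := sum_le_sum_of_subset_of_nonneg hsub (fun _ _ _ => by positivity)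
    have hlt : 1 / (p : ℝ) ≤ 1 / 2 := one_div_le_one_div_of_le (by norm_num) hp2
    have h2 : ∑ k ∈ Ico k0 (K + 1), (1 / (p : ℝ)) ^ k ≤ (1 / (p : ℝ)) ^ k0 / (1 - 1 / (p : ℝ)) :=
      geom_sum_Ico_le_of_lt_one (by positivity) (by linarith)
    have h3 : (1 / (p : ℝ)) ^ k0 ≤ 1 / B := by
      rw [one_div_pow]
      exact one_div_le_one_div_of_le hB (hF k0 (F.min'_mem h))
    have h4 : (1 / (p : ℝ)) ^ k0 / (1 - 1 / (p : ℝ)) ≤ (1 / B) / (1 / 2) := by
      apply div_le_div₀ (by positivity) h3 (by norm_num) (by linarith)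
    calc _ ≤ _ := h1
      _ ≤ _ := h2
      _ ≤ _ := h4
      _ = 2 / B := by field_simp

/-- telescoping -/
lemma tel (n : ℕ) (hn : 1 ≤ n) :
    Real.log ((n + 1 : ℕ) : ℝ) / ((n + 1 : ℕ) : ℝ) ^ 2 ≤
      (Real.log n + 2) / n - (Real.log ((n + 1 : ℕ) : ℝ) + 2) / ((n + 1 : ℕ) : ℝ) := by
  have hn0 : (0 : ℝ) < n := by exact_mod_cast hn
  have hn1 : (1 : ℝ) ≤ n := by exact_mod_cast hn
  push_cast
  have hlog : Real.log ((n : ℝ) + 1) - Real.log n ≤ 1 / n := by
    rw [← Real.log_div (by positivity) (by positivity)]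
    have : ((n : ℝ) + 1) / n = 1 + 1 / n := by field_simp
    rw [this]
    have := Real.log_le_sub_one_of_pos (show (0 : ℝ) < 1 + 1 / n by positivity)
    linarith
  have hl0 : 0 ≤ Real.log ((n : ℝ) + 1) := Real.log_nonneg (by linarith)
  have h1 : (Real.log n + 2) / n - (Real.log ((n : ℝ) + 1) + 2) / ((n : ℝ) + 1) =
      (Real.log ((n : ℝ) + 1) - (n + 1) * (Real.log ((n : ℝ) + 1) - Real.log n) + 2) /
        (n * (n + 1)) := by
    field_simp
    ring
  rw [h1]
  have h2 : (n + 1) * (Real.log ((n : ℝ) + 1) - Real.log n) ≤ 2 := by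
    calc (n + 1) * (Real.log ((n : ℝ) + 1) - Real.log n) ≤ (n + 1) * (1 / n) := by gcongr
      _ = 1 + 1 / n := by field_simp
      _ ≤ 1 + 1 := by
        have : 1 / (n : ℝ) ≤ 1 := by rw [div_le_one hn0]; exact hn1
        linarith
      _ = 2 := by norm_num
  calc Real.log ((n : ℝ) + 1) / ((n : ℝ) + 1) ^ 2 ≤
        Real.log ((n : ℝ) + 1) / (n * (n + 1)) := by
        apply div_le_div_of_nonneg_left hl0 (by positivity)
        nlinarith
    _ ≤ _ := by
        gcongr
        linarith

lemma tail (N M : ℕ) (hN : 1 ≤ N) :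
    ∑ n ∈ Ioc N M, Real.log n / (n : ℝ) ^ 2 ≤ (Real.log N + 2) / N := by
  have key : ∀ k : ℕ, ∑ n ∈ Ioc N (N + k), Real.log n / (n : ℝ) ^ 2 ≤
      (Real.log N + 2) / N - (Real.log ((N + k : ℕ) : ℝ) + 2) / ((N + k : ℕ) : ℝ) := by
    intro k
    induction k with
    | zero => simp
    | succ k ih =>
      rw [← add_assoc, Finset.sum_Ioc_succ_top (by omega)]
      have := tel (N + k) (by omega)
      linarith
  rcases le_total M N with h | h
  · rw [Ioc_eq_empty (by omega), sum_empty]
    have : 0 ≤ Real.log (N : ℝ) := Real.log_natCast_nonneg N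
    positivity
  · obtain ⟨k, rfl⟩ := Nat.exists_eq_add_of_le h
    have h1 := key k
    have : 0 ≤ Real.log ((N + k : ℕ) : ℝ) := Real.log_natCast_nonneg _
    have h2 : 0 ≤ (Real.log ((N + k : ℕ) : ℝ) + 2) / ((N + k : ℕ) : ℝ) := by positivity
    linarith

/-- the contribution of one prime -/
lemma one (X : ℝ) (hX : 2 ≤ X) (M p : ℕ) (hp : p ∈ Icc 1 M) :
    ∑ n ∈ ((Icc 1 M).filter (fun n : ℕ => X ≤ n ∧ ¬ n.Prime)).filter (fun n => n.minFac = p),
      ArithmeticFunction.vonMangoldt n / n ≤ Real.log p * (2 / max ((p : ℝ) ^ 2) X) := by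
  classical
  have hp1 : 1 ≤ p := (mem_Icc.mp hp).1
  have hlogp : 0 ≤ Real.log (p : ℝ) := Real.log_natCast_nonneg p
  have hmax : 0 < max ((p : ℝ) ^ 2) X := lt_max_of_lt_right (by linarith)
  by_cases hpp : p.Prime
  · -- keep only the prime powers
    set F := (range (M + 1)).filter (fun k => max ((p : ℝ) ^ 2) X ≤ (p : ℝ) ^ k) with hF
    have h1 : ∑ n ∈ ((Icc 1 M).filter (fun n : ℕ => X ≤ n ∧ ¬ n.Prime)).filter
          (fun n => n.minFac = p), ArithmeticFunction.vonMangoldt n / n ≤
        ∑ n ∈ F.image (fun k => p ^ k), Real.log p / (n : ℝ) := by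
      rw [← sum_filter_of_ne (p := fun n => IsPrimePow n)]
      · calc _ = ∑ n ∈ (((Icc 1 M).filter (fun n : ℕ => X ≤ n ∧ ¬ n.Prime)).filter
              (fun n => n.minFac = p)).filter (fun n => IsPrimePow n), Real.log p / (n : ℝ) := by
              apply sum_congr rfl
              intro n hn
              simp only [mem_filter] at hn
              rw [ArithmeticFunction.vonMangoldt_apply, if_pos hn.2, hn.1.2]
          _ ≤ _ := by
              apply sum_le_sum_of_subset_of_nonneg
              · intro n hn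
                simp only [mem_filter, mem_Icc] at hn
                obtain ⟨⟨⟨⟨hn1, hnM⟩, hXn, hnp⟩, hmf⟩, hpow⟩ := hn
                obtain ⟨q, k, hq, hk, rfl⟩ := (isPrimePow_nat_iff _).mp hpow
                have hqp : q = p := by
                  rw [← hmf, Nat.pow_minFac (by omega), hq.minFac_eq]
                subst hqp
                have hk2 : 2 ≤ k := by
                  rcases Nat.lt_or_ge k 2 with h | h
                  · have : k = 1 := by omega
                    subst this
                    exact absurd (by simpa using hq) hnp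
                  · exact h
                rw [mem_image]
                refine ⟨k, ?_, rfl⟩
                rw [hF, mem_filter, mem_range]
                refine ⟨?_, max_le ?_ ?_⟩
                · have : k < q ^ k := Nat.lt_pow_self hq.one_lt
                  omega
                · exact pow_le_pow_right₀ (by exact_mod_cast hp1) hk2
                · exact_mod_cast hXn
              · intro n _ _
                positivity
      · intro n _ hne
        by_contra hnot
        apply hne
        rw [ArithmeticFunction.vonMangoldt_apply, if_neg hnot, zero_div]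
    have h2 : ∑ n ∈ F.image (fun k => p ^ k), Real.log p / (n : ℝ) =
        Real.log p * ∑ k ∈ F, 1 / (p : ℝ) ^ k := by
      rw [sum_image (fun a _ b _ h => Nat.pow_right_injective hpp.two_le h), mul_sum]
      apply sum_congr rfl
      intro k _
      push_cast
      ring
    rw [h2] at h1
    refine h1.trans ?_
    apply mul_le_mul_of_nonneg_left _ hlogp
    apply geo p hpp.two_le _ hmax
    intro k hk
    exact (mem_filter.mp hk).2
  · have h0 : ∑ n ∈ ((Icc 1 M).filter (fun n : ℕ => X ≤ n ∧ ¬ n.Prime)).filter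
          (fun n => n.minFac = p), ArithmeticFunction.vonMangoldt n / (n : ℝ) = 0 := by
      apply sum_eq_zero
      intro n hn
      simp only [mem_filter, mem_Icc] at hn
      obtain ⟨⟨⟨hn1, hnM⟩, hXn, hnp⟩, hmf⟩ := hn
      exfalso
      apply hpp
      rw [← hmf]
      apply Nat.minFac_prime
      rintro rfl
      norm_num at hXn
      linarith
    rw [h0]
    positivity

end PPW_

open PPW_ in
theorem p_PPW : T_PPW := by
  classical
  refine ⟨20, by norm_num, ?_⟩
  intro X Y hX
  set M := ⌊Y⌋₊ with hM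
  have hX0 : (0 : ℝ) < X := by linarith
  set N := ⌊Real.sqrt X⌋₊ with hNdef
  have hsX : 0 < Real.sqrt X := Real.sqrt_pos.mpr hX0
  have hsX1 : 1 ≤ Real.sqrt X := by
    rw [Real.one_le_sqrt]; linarith
  have hss : Real.sqrt X * Real.sqrt X = X := Real.mul_self_sqrt hX0.le
  have hN1 : 1 ≤ N := by
    rw [hNdef, Nat.one_le_floor_iff]; exact hsX1
  have hNle : (N : ℝ) ≤ Real.sqrt X := Nat.floor_le hsX.le
  have hNgt : Real.sqrt X < N + 1 := Nat.lt_floor_add_one _
  have hlogX : Real.log 2 ≤ Real.log X := Real.log_le_log (by norm_num) hX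
  have hlog2 : (0.69 : ℝ) < Real.log 2 := by
    have := Real.log_two_gt_d9; linarith
  have hlogN : Real.log N ≤ Real.log X / 2 := by
    have h1 : Real.log N ≤ Real.log (Real.sqrt X) :=
      Real.log_le_log (by exact_mod_cast hN1) hNle
    rwa [Real.log_sqrt hX0.le] at h1
  -- fibres over the least prime factor
  have h1 : ∑ n ∈ (Icc 1 M).filter (fun n : ℕ => X ≤ n ∧ ¬ n.Prime),
      ArithmeticFunction.vonMangoldt n / n =
      ∑ p ∈ Icc 1 M, ∑ n ∈ ((Icc 1 M).filter (fun n : ℕ => X ≤ n ∧ ¬ n.Prime)).filter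
        (fun n => n.minFac = p), ArithmeticFunction.vonMangoldt n / n := by
    rw [sum_fiberwise_of_maps_to]
    intro n hn
    simp only [mem_filter, mem_Icc] at hn ⊢
    exact ⟨Nat.minFac_pos n, (Nat.minFac_le (by omega)).trans hn.1.2⟩
  rw [h1]
  have h2 : ∑ p ∈ Icc 1 M, ∑ n ∈ ((Icc 1 M).filter (fun n : ℕ => X ≤ n ∧ ¬ n.Prime)).filter
        (fun n => n.minFac = p), ArithmeticFunction.vonMangoldt n / (n : ℝ) ≤
      ∑ p ∈ Icc 1 M, Real.log p * (2 / max ((p : ℝ) ^ 2) X) :=
    sum_le_sum (fun p hp => one X hX M p hp)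
  have h3 : ∑ p ∈ Icc 1 M, Real.log p * (2 / max ((p : ℝ) ^ 2) X) ≤
      ∑ p ∈ Icc 1 N ∪ Ioc N M, Real.log p * (2 / max ((p : ℝ) ^ 2) X) := by
    apply sum_le_sum_of_subset_of_nonneg
    · intro p hp
      simp only [mem_union, mem_Icc, mem_Ioc] at hp ⊢
      omega
    · intro p _ _
      have : 0 ≤ Real.log (p : ℝ) := Real.log_natCast_nonneg p
      have hmax : 0 < max ((p : ℝ) ^ 2) X := lt_max_of_lt_right (by linarith)
      positivity
  have hdis : Disjoint (Icc 1 N) (Ioc N M) := by
    rw [disjoint_left]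
    intro p hp hp'
    simp only [mem_Icc, mem_Ioc] at hp hp'
    omega
  rw [sum_union hdis] at h3
  have h4 : ∑ p ∈ Icc 1 N, Real.log p * (2 / max ((p : ℝ) ^ 2) X) ≤
      Real.log X / Real.sqrt X := by
    calc ∑ p ∈ Icc 1 N, Real.log p * (2 / max ((p : ℝ) ^ 2) X) ≤
          ∑ p ∈ Icc 1 N, (Real.log X / 2) * (2 / X) := by
          apply sum_le_sum
          intro p hp
          rw [mem_Icc] at hp
          have hp0 : (0 : ℝ) < p := by exact_mod_cast hp.1
          apply mul_le_mul
          · refine le_trans (Real.log_le_log hp0 (by exact_mod_cast hp.2)) hlogN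
          · apply div_le_div_of_nonneg_left (by norm_num) hX0 (le_max_right _ _)
          · have hmax : 0 < max ((p : ℝ) ^ 2) X := lt_max_of_lt_right (by linarith)
            positivity
          · linarith
      _ = N * (Real.log X / X) := by
          rw [sum_const, Nat.card_Icc, nsmul_eq_mul]
          have : N + 1 - 1 = N := by omega
          rw [this]
          field_simp
      _ ≤ Real.sqrt X * (Real.log X / X) := by
          apply mul_le_mul_of_nonneg_right hNle
          apply div_nonneg _ hX0.le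
          linarith
      _ = Real.log X / Real.sqrt X := by
          rw [← mul_div_assoc, div_eq_div_iff hX0.ne' hsX.ne']
          calc Real.sqrt X * Real.log X * Real.sqrt X = Real.log X * (Real.sqrt X * Real.sqrt X) := by
                ring
            _ = _ := by rw [hss]
  have h5 : ∑ p ∈ Ioc N M, Real.log p * (2 / max ((p : ℝ) ^ 2) X) ≤
      2 * ((Real.log N + 2) / N) := by
    calc ∑ p ∈ Ioc N M, Real.log p * (2 / max ((p : ℝ) ^ 2) X) ≤
          ∑ p ∈ Ioc N M, 2 * (Real.log p / (p : ℝ) ^ 2) := by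
          apply sum_le_sum
          intro p hp
          rw [mem_Ioc] at hp
          have hp0 : (0 : ℝ) < p := by exact_mod_cast (by omega : 0 < p)
          have : 0 ≤ Real.log (p : ℝ) := Real.log_natCast_nonneg p
          calc Real.log p * (2 / max ((p : ℝ) ^ 2) X) ≤ Real.log p * (2 / (p : ℝ) ^ 2) := by
                apply mul_le_mul_of_nonneg_left _ this
                apply div_le_div_of_nonneg_left (by norm_num) (by positivity) (le_max_left _ _)
            _ = _ := by ring
      _ = 2 * ∑ p ∈ Ioc N M, (Real.log p / (p : ℝ) ^ 2) := by rw [mul_sum]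
      _ ≤ _ := by
          have := tail N M hN1
          linarith
  have h6 : 2 * ((Real.log N + 2) / N) ≤ 19 * (Real.log X / Real.sqrt X) := by
    have hN0 : (0 : ℝ) < N := by exact_mod_cast hN1
    have hN1' : (1 : ℝ) ≤ N := by exact_mod_cast hN1
    have hN2 : Real.sqrt X / 2 ≤ N := by linarith
    calc 2 * ((Real.log N + 2) / N) ≤ 2 * ((Real.log X / 2 + 2) / (Real.sqrt X / 2)) := by
          apply mul_le_mul_of_nonneg_left _ (by norm_num)
          apply div_le_div₀ (by linarith) (by linarith) (by positivity) hN2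
      _ = (2 * Real.log X + 8) / Real.sqrt X := by field_simp; ring
      _ ≤ (19 * Real.log X) / Real.sqrt X := by
          apply div_le_div_of_nonneg_right _ hsX.le
          linarith
      _ = _ := by ring
  have h7 : 20 * Real.log X / Real.sqrt X = 20 * (Real.log X / Real.sqrt X) := by ring
  rw [h7]
  linarith

end Pool.Agent.TEQ
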