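import Pool.Agent.TEQ.Targets

set_option autoImplicit false

open Finset

noncomputable section

namespace Pool.Agent.TEQ

/-- `kap` is not too small -/
private lemma PRB_kap {y : ℕ} {Q : Finset ℕ} (h2 : 2 ∈ Q) :
    (1 / 2 : ℝ) ^ (y + 1) ≤ kap y Q := by
  have h3 : ∀ p ∈ PP y \ Q, (1 / 2 : ℝ) ≤ 1 - 1 / ((p : ℝ) - 1) := by
    intro p hp
    rw [mem_sdiff, PP, mem_filter] at hp
    have hp2 : 2 ≤ p := hp.1.2.two_le
    have hp3 : p ≠ 2 := fun h => hp.2 (h ▸ h2)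
    have hp4 : (3 : ℝ) ≤ p := by
      have : 3 ≤ p := by omega
      exact_mod_cast this
    have hp5 : 1 / ((p : ℝ) - 1) ≤ 1 / 2 := by
      apply one_div_le_one_div_of_le <;> linarith
    linarith
  have h4 : (1 / 2 : ℝ) ^ (PP y \ Q).card ≤ kap y Q := by
    unfold kap
    rw [← Finset.prod_const]
    exact Finset.prod_le_prod (fun _ _ => by norm_num) h3
  refine le_trans ?_ h4
  apply pow_le_pow_of_le_one (by norm_num) (by norm_num)
  calc (PP y \ Q).card ≤ (PP y).card := card_le_card sdiff_subset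
    _ ≤ (range (y + 1)).card := card_le_card (filter_subset _ _)
    _ = y + 1 := card_range _

private lemma PRB_MM {y A : ℕ} {V Q : Finset ℕ} (hQ : Q ⊆ PP y) (h2 : 2 ∈ Q)
    (hV : ∀ u ∈ V, Odd u ∧ u.primeFactors = Q.erase 2) {m : ℕ} (hm : m ∈ MM A V) :
    8 ∣ m ∧ m ≠ 0 ∧ m.primeFactors = Q ∧ Smooth y m := by
  unfold MM at hm
  rw [mem_image] at hm
  obtain ⟨⟨a, u⟩, hau, rfl⟩ := hm
  rw [mem_product] at hau
  obtain ⟨hu1, hu2⟩ := hV u hau.2
  have hu0 : u ≠ 0 := by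
    rintro rfl
    simp at hu1
  have h0 : 2 ^ (3 + a) * u ≠ 0 := mul_ne_zero (by positivity) hu0
  have hp : (2 ^ (3 + a) * u).primeFactors = Q := by
    rw [Nat.primeFactors_mul (by positivity) hu0, Nat.primeFactors_pow 2 (by omega),
      Nat.prime_two.primeFactors, hu2]
    ext p
    simp only [mem_union, mem_singleton, mem_erase]
    constructor
    · rintro (rfl | h)
      · exact h2
      · exact h.2
    · intro h
      by_cases hp2 : p = 2
      · exact Or.inl hp2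
      · exact Or.inr ⟨hp2, h⟩
  refine ⟨?_, h0, hp, ?_⟩
  · rw [pow_add]
    exact Dvd.dvd.mul_right (Dvd.dvd.mul_right (by norm_num) _) _
  · intro p hpp hpd
    have h5 : p ∈ (2 ^ (3 + a) * u).primeFactors := Nat.mem_primeFactors.2 ⟨hpp, hpd, h0⟩
    rw [hp] at h5
    have h6 := hQ h5
    rw [PP, mem_filter, mem_range] at h6
    omega

/-- harmonic sum -/
private lemma PRB_harm {U : ℝ} (hU : 1 ≤ U) :
    ∑ s ∈ Icc 1 ⌊Real.exp (4 * U)⌋₊, 1 / (s : ℝ) ≤ 5 * U := by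
  have h1 : (1 : ℝ) ≤ Real.exp (4 * U) := Real.one_le_exp (by linarith)
  have h2 := harmonic_floor_le_one_add_log (Real.exp (4 * U)) h1
  rw [harmonic_eq_sum_Icc, Real.log_exp] at h2
  push_cast at h2
  simp only [one_div]
  linarith

private lemma PRB_split {y z : ℕ} (h : y ≤ z) (f : ℕ → ℝ) :
    ∏ p ∈ PP z, f p = (∏ p ∈ PP y, f p) * ∏ p ∈ PI y z, f p := by
  have h1 : PP z = PP y ∪ PI y z := by
    ext p
    simp only [PP, PI, mem_union, mem_filter, mem_range, mem_Ioc]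
    constructor
    · rintro ⟨ha, hb⟩
      by_cases hc : p < y + 1
      · exact Or.inl ⟨hc, hb⟩
      · exact Or.inr ⟨⟨by omega, by omega⟩, hb⟩
    · rintro (⟨ha, hb⟩ | ⟨ha, hb⟩)
      · exact ⟨by omega, hb⟩
      · exact ⟨by omega, hb⟩
  have h2 : Disjoint (PP y) (PI y z) := by
    rw [Finset.disjoint_left]
    intro p hp hq
    simp only [PP, PI, mem_filter, mem_range, mem_Ioc] at hp hq
    omega
  rw [h1, prod_union h2]

private lemma PRB_core {y T : ℕ} {U G x : ℝ} {Q : Finset ℕ} {A : ℕ} {V : Finset ℕ}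
    (h6 : T_CSQ) (hU : 1 ≤ U) (hG : 0 < G) (hx0 : 0 ≤ x)
    (hMM : ∀ m ∈ MM A V, m ≠ 0 ∧ m.primeFactors = Q)
    (hWin : ∀ m ∈ MM A V, x ≤ ∑ s ∈ WW y m U, 1 / (s : ℝ))
    (hoff : (open Classical in
      ∑ m ∈ MM A V, ∑ m' ∈ (MM A V).erase m,
        ∑ s ∈ (Icc 1 ⌊Real.exp (4 * U)⌋₊).filter (fun s : ℕ => Real.exp (U / 9) ≤ s ∧ Rough y s ∧
      (m * s + 1).Prime ∧ (m' * s + 1).Prime), 1 / (s : ℝ)) ≤ G)
    (hdiag : ((MM A V).card : ℝ) * (5 * U) ≤ G)
    (hT : T * (5 * U) ≤ (MM A V).card * x / 2) :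
    ((MM A V).card * x / 2) ^ 2 ≤
      (2 * G) * ∑ s ∈ SS y ⌊Real.exp (4 * U)⌋₊ T Q, 1 / (s : ℝ) := by
  classical
  obtain ⟨W, hW⟩ : ∃ W : Finset ℕ, ∀ s, s ∈ W ↔ s ∈ Icc 1 ⌊Real.exp (4 * U)⌋₊ ∧
      Real.exp (U / 9) ≤ (s : ℝ) ∧ Rough y s :=
    ⟨(Icc 1 ⌊Real.exp (4 * U)⌋₊).filter (fun s : ℕ => Real.exp (U / 9) ≤ s ∧ Rough y s),
      fun s => mem_filter⟩
  obtain ⟨R, hR⟩ : ∃ R : ℕ → ℕ → Prop, ∀ m s, R m s ↔
      ((m * s + 1 : ℕ) : ℝ) ≤ Real.exp (4 * U) ∧ (m * s + 1).Prime :=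
    ⟨fun m s => ((m * s + 1 : ℕ) : ℝ) ≤ Real.exp (4 * U) ∧ (m * s + 1).Prime,
      fun _ _ => Iff.rfl⟩
  have hWs : W ⊆ Icc 1 ⌊Real.exp (4 * U)⌋₊ := fun s hs => ((hW s).1 hs).1
  have hWsum : ∑ s ∈ W, 1 / (s : ℝ) ≤ 5 * U :=
    (sum_le_sum_of_subset_of_nonneg hWs (fun _ _ _ => by positivity)).trans (PRB_harm hU)
  have hWW : ∀ m, WW y m U ⊆ W.filter (R m) := by
    intro m s hs
    unfold WW at hs
    rw [mem_filter] at hs
    rw [mem_filter, hW, hR]
    exact ⟨⟨hs.1, hs.2.1, hs.2.2.2.1⟩, hs.2.2.1, hs.2.2.2.2⟩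
  have hX : (MM A V).card * x ≤ ∑ m ∈ MM A V, ∑ s ∈ W.filter (R m), 1 / (s : ℝ) := by
    rw [← nsmul_eq_mul, ← Finset.sum_const]
    refine sum_le_sum fun m hm => (hWin m hm).trans ?_
    exact sum_le_sum_of_subset_of_nonneg (hWW m) (fun _ _ _ => by positivity)
  have hF : ∑ m ∈ MM A V, ∑ m' ∈ MM A V, ∑ s ∈ W.filter (fun s => R m s ∧ R m' s),
      1 / (s : ℝ) ≤ 2 * G := by
    have h1 : ∀ m ∈ MM A V, ∑ m' ∈ MM A V, ∑ s ∈ W.filter (fun s => R m s ∧ R m' s),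
        1 / (s : ℝ) ≤ 5 * U + ∑ m' ∈ (MM A V).erase m,
        ∑ s ∈ (Icc 1 ⌊Real.exp (4 * U)⌋₊).filter (fun s : ℕ => Real.exp (U / 9) ≤ s ∧ Rough y s ∧
      (m * s + 1).Prime ∧ (m' * s + 1).Prime), 1 / (s : ℝ) := by
      intro m hm
      rw [← Finset.add_sum_erase _ _ hm]
      refine add_le_add ?_ (sum_le_sum fun m' _ => ?_)
      · exact (sum_le_sum_of_subset_of_nonneg (filter_subset _ _)
          (fun _ _ _ => by positivity)).trans hWsum
      · refine sum_le_sum_of_subset_of_nonneg ?_ (fun _ _ _ => by positivity)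
        intro s hs
        rw [mem_filter, hW, hR, hR] at hs
        rw [mem_filter]
        exact ⟨hs.1.1, hs.1.2.1, hs.1.2.2, hs.2.1.2, hs.2.2.2⟩
    calc _ ≤ ∑ m ∈ MM A V, (5 * U + ∑ m' ∈ (MM A V).erase m,
        ∑ s ∈ (Icc 1 ⌊Real.exp (4 * U)⌋₊).filter (fun s : ℕ => Real.exp (U / 9) ≤ s ∧ Rough y s ∧
      (m * s + 1).Prime ∧ (m' * s + 1).Prime), 1 / (s : ℝ)) := sum_le_sum h1
      _ = (MM A V).card * (5 * U) + ∑ m ∈ MM A V, ∑ m' ∈ (MM A V).erase m,
        ∑ s ∈ (Icc 1 ⌊Real.exp (4 * U)⌋₊).filter (fun s : ℕ => Real.exp (U / 9) ≤ s ∧ Rough y s ∧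
      (m * s + 1).Prime ∧ (m' * s + 1).Prime), 1 / (s : ℝ) := by
          rw [sum_add_distrib, Finset.sum_const, nsmul_eq_mul]
      _ ≤ G + G := by
          refine add_le_add hdiag (le_of_eq_of_le ?_ hoff)
          refine sum_congr rfl fun m _ => sum_congr rfl fun m' _ => ?_
          congr
      _ = 2 * G := by ring
  have hTw : T * ∑ s ∈ W, 1 / (s : ℝ) ≤ (MM A V).card * x / 2 :=
    (mul_le_mul_of_nonneg_left hWsum (by positivity)).trans hT
  have hcx : 0 ≤ ((MM A V).card : ℝ) * x := mul_nonneg (by positivity) hx0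
  have hTx : T * ∑ s ∈ W, 1 / (s : ℝ) ≤
      ∑ m ∈ MM A V, ∑ s ∈ W.filter (R m), 1 / (s : ℝ) := by linarith
  have hW1 : ∀ s ∈ W, 1 ≤ s := fun s hs => (mem_Icc.1 (hWs hs)).1
  have hC := h6 W (MM A V) R T (2 * G) hW1
  have hC2 : (∑ m ∈ MM A V, ∑ s ∈ W.filter (R m), 1 / (s : ℝ) - T * ∑ s ∈ W, 1 / (s : ℝ)) ^ 2 ≤
      (2 * G) * ∑ s ∈ W.filter (fun s => T ≤ ((MM A V).filter (R · s)).card), 1 / (s : ℝ) := by
    convert hC ?_ ?_ using 1
    · convert hF using 1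
    · convert hTx using 1
  have hsub : W.filter (fun s => T ≤ ((MM A V).filter (R · s)).card) ⊆
      SS y ⌊Real.exp (4 * U)⌋₊ T Q := by
    intro s hs
    rw [mem_filter, hW] at hs
    unfold SS
    rw [mem_filter]
    refine ⟨hs.1.1, hs.1.2.2, hs.2.trans (card_le_card ?_)⟩
    intro m hm
    rw [mem_filter, hR] at hm
    rw [mem_filter, mem_Icc]
    obtain ⟨hm0, hmQ⟩ := hMM m hm.1
    have hs1 : 1 ≤ s := (mem_Icc.1 hs.1.1).1
    have h7 : m * s + 1 ≤ ⌊Real.exp (4 * U)⌋₊ := Nat.le_floor hm.2.1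
    have h8 : m ≤ m * s := Nat.le_mul_of_pos_right m hs1
    exact ⟨⟨Nat.pos_of_ne_zero hm0, by omega⟩, hmQ, h7, hm.2.2⟩
  have hfin := sum_le_sum_of_subset_of_nonneg (f := fun s : ℕ => 1 / (s : ℝ)) hsub
    (fun _ _ _ => by positivity)
  have hsq : ((MM A V).card * x / 2) ^ 2 ≤
      (∑ m ∈ MM A V, ∑ s ∈ W.filter (R m), 1 / (s : ℝ) - T * ∑ s ∈ W, 1 / (s : ℝ)) ^ 2 := by
    apply pow_le_pow_left₀ (by positivity)
    linarith
  calc ((MM A V).card * x / 2) ^ 2 ≤ _ := hsq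
    _ ≤ _ := hC2
    _ ≤ _ := mul_le_mul_of_nonneg_left hfin (by positivity)

theorem p_PRB (h1 : T_WIN) (h2 : T_DYA) (h3 : T_AVG) (h4 : T_BOX) (h5 : T_MRT) (h6 : T_CSQ) :
    T_PRB := by
  obtain ⟨CD, hCD, hD⟩ := h2
  obtain ⟨CA, hCA, hA⟩ := h3
  obtain ⟨c1, C1, hc1, hC1, hM⟩ := h5
  refine ⟨c1 / (128000000 * C1 * CD * CA), by positivity, ?_⟩
  intro y T hy
  obtain ⟨UW, hUW1, hW⟩ := h1 y hy
  obtain ⟨UD, hUD1, hD'⟩ := hD y hy
  have hy' : (2 : ℝ) ≤ y := by exact_mod_cast hy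
  have hlog : 0 < Real.log y := Real.log_pos (by linarith)
  set k0 : ℝ := (1 / 2 : ℝ) ^ (y + 1) with hk0
  have hk0p : 0 < k0 := by positivity
  set K : ℝ := max (20000 * T / k0) (5 / (CD * CA * Real.log y * k0 ^ 2)) with hK
  have hbox : ∀ Q : Finset ℕ, ∃ U0 : ℝ, Q ⊆ PP y → 2 ∈ Q → 34 ≤ Q.card → ∀ U : ℝ, U0 ≤ U →
      ∃ (A : ℕ) (V : Finset ℕ), 1 ≤ A ∧
      (∀ u ∈ V, Odd u ∧ u.primeFactors = Q.erase 2) ∧
      (∀ m ∈ MM A V, (m : ℝ) ≤ Real.exp (U ^ (1 / 11 : ℝ))) ∧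
      K * U ^ 2 ≤ (MM A V).card ∧
      ∏ p ∈ PP ⌊U ^ (1 / 11 : ℝ)⌋₊, (1 + 4 / (p : ℝ)) ≤ A := by
    intro Q
    by_cases hc : Q ⊆ PP y ∧ 2 ∈ Q ∧ 34 ≤ Q.card
    · obtain ⟨U0, _, h⟩ := h4 y Q K hc.2.1 hc.1 hc.2.2
      exact ⟨U0, fun _ _ _ => h⟩
    · refine ⟨0, fun ha hb hd => absurd ⟨ha, hb, hd⟩ hc⟩
  choose UB hUB using hbox
  set U : ℝ := UW + UD + (y + 1) + ∑ Q ∈ (PP y).powerset, |UB Q| with hUdef
  have hsumnn : 0 ≤ ∑ Q ∈ (PP y).powerset, |UB Q| := sum_nonneg fun _ _ => abs_nonneg _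
  have hy0 : (0 : ℝ) ≤ y := by positivity
  have hUUW : UW ≤ U := by rw [hUdef]; linarith
  have hUUD : UD ≤ U := by rw [hUdef]; linarith
  have hU1 : 1 ≤ U := hUW1.trans hUUW
  have hUy : (y : ℝ) + 1 ≤ U := by rw [hUdef]; linarith
  have hUB' : ∀ Q ∈ (PP y).powerset, UB Q ≤ U := by
    intro Q hQ
    have h7 : |UB Q| ≤ ∑ Q ∈ (PP y).powerset, |UB Q| :=
      single_le_sum (f := fun Q => |UB Q|) (fun _ _ => abs_nonneg _) hQ
    have h8 := le_abs_self (UB Q)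
    rw [hUdef]; linarith
  have hexp : (y : ℝ) + 1 ≤ Real.exp (4 * U) := by
    have h9 := Real.add_one_le_exp (4 * U)
    linarith
  refine ⟨⌊Real.exp (4 * U)⌋₊, ?_, ?_⟩
  · have h10 : y + 1 ≤ ⌊Real.exp (4 * U)⌋₊ := by
      apply Nat.le_floor
      push_cast
      exact hexp
    omega
  intro Q hQ h2Q hQ34
  obtain ⟨A, V, hA1, hV, hmU, hcard, hprod⟩ :=
    hUB Q hQ h2Q hQ34 U (hUB' Q (mem_powerset.2 hQ))
  set z : ℕ := ⌊Real.exp (4 * U)⌋₊ with hz
  have hyz : y + 1 ≤ z := by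
    apply Nat.le_floor
    push_cast
    exact hexp
  have hkap : k0 ≤ kap y Q := PRB_kap h2Q
  have hkapp : 0 < kap y Q := lt_of_lt_of_le hk0p hkap
  have hU0 : 0 < U := by linarith
  -- the number of elements
  have hKpos : 0 < K := by
    rw [hK]
    exact lt_max_of_lt_right (by positivity)
  have hN0 : 0 < ((MM A V).card : ℝ) := lt_of_lt_of_le (by positivity) hcard
  have hNU : K * U ≤ (MM A V).card := by
    refine le_trans ?_ hcard
    rw [pow_two, ← mul_assoc]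
    exact le_mul_of_one_le_right (by positivity) hU1
  set G : ℝ := CD * Real.log y * kap y Q ^ 2 / U * (CA * ((MM A V).card : ℝ) ^ 2) with hG
  have hGp : 0 < G := by positivity
  have hMMall := fun m hm => PRB_MM (m := m) (A := A) hQ h2Q hV hm
  have hpow1 : 1 ≤ U ^ (1 / 11 : ℝ) := Real.one_le_rpow hU1 (by norm_num)
  have hAvg := hA A V Q (U ^ (1 / 11 : ℝ)) hA1 h2Q
    (fun u hu => ⟨(hV u hu).1, by rw [(hV u hu).2]; exact erase_subset _ _⟩) hpow1 hmU hprod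
  have hcore := PRB_core (y := y) (T := T) (U := U) (G := G) (x := kap y Q / 2000) (Q := Q)
    (A := A) (V := V) h6 hU1 hGp (by positivity)
    (fun m hm => ⟨(hMMall m hm).2.1, (hMMall m hm).2.2.1⟩) ?_ ?_ ?_ ?_
  · -- conclusion
    have hzlog : Real.log z ≤ 4 * U := by
      have h11 : (z : ℝ) ≤ Real.exp (4 * U) := Nat.floor_le (Real.exp_pos _).le
      have h12 : (0 : ℝ) < z := by
        have : 0 < z := by omega
        exact_mod_cast this
      calc Real.log z ≤ Real.log (Real.exp (4 * U)) := Real.log_le_log h12 h11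
        _ = 4 * U := Real.log_exp _
    have hz2 : 2 ≤ z := by omega
    have hzlogp : 0 < Real.log z := Real.log_pos (by exact_mod_cast (by omega : 1 < z))
    have hMz := (hM z hz2).1
    have hMy := (hM y hy).2
    rw [PRB_split (by omega : y ≤ z) (fun p => 1 - 1 / (p : ℝ))] at hMz
    set PIp : ℝ := ∏ p ∈ PI y z, (1 - 1 / (p : ℝ)) with hPIp
    have hPI0 : 0 ≤ PIp := by
      apply prod_nonneg
      intro p hp
      rw [PI, mem_filter] at hp
      have h13 : (2 : ℝ) ≤ p := by exact_mod_cast hp.2.two_le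
      have h14 : 1 / (p : ℝ) ≤ 1 / 2 := one_div_le_one_div_of_le (by norm_num) h13
      linarith
    have hPI : c1 * Real.log y / (4 * U * C1) ≤ PIp := by
      have h15 : c1 / Real.log z ≤ C1 / Real.log y * PIp :=
        hMz.trans (mul_le_mul_of_nonneg_right hMy hPI0)
      have h16 : c1 / (4 * U) ≤ c1 / Real.log z :=
        div_le_div_of_nonneg_left hc1.le hzlogp hzlog
      have h17 : c1 / (4 * U) ≤ C1 / Real.log y * PIp := h16.trans h15
      rw [div_le_iff₀ (by positivity)] at h17 ⊢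
      have h18 : C1 / Real.log y * PIp * (4 * U) * Real.log y = PIp * (4 * U * C1) := by
        field_simp
      calc c1 * Real.log y ≤ C1 / Real.log y * PIp * (4 * U) * Real.log y :=
            mul_le_mul_of_nonneg_right h17 hlog.le
        _ = _ := h18
    set S : ℝ := ∑ s ∈ SS y z T Q, 1 / (s : ℝ) with hS
    have hSlow : U / (32000000 * CD * CA * Real.log y) ≤ S := by
      rw [div_le_iff₀ (by positivity)]
      have h19 : ((MM A V).card * (kap y Q / 2000) / 2) ^ 2 =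
          (kap y Q ^ 2 * ((MM A V).card : ℝ) ^ 2) / 16000000 := by ring
      have h20 : 2 * G * S = (kap y Q ^ 2 * ((MM A V).card : ℝ) ^ 2) *
          (2 * CD * CA * Real.log y * S / U) := by
        rw [hG]; ring
      rw [h19, h20] at hcore
      have h21 : 0 < kap y Q ^ 2 * ((MM A V).card : ℝ) ^ 2 := by positivity
      have h22 : (1 : ℝ) / 16000000 ≤ 2 * CD * CA * Real.log y * S / U := by
        have h23 : (kap y Q ^ 2 * ((MM A V).card : ℝ) ^ 2) * (1 / 16000000) ≤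
          (kap y Q ^ 2 * ((MM A V).card : ℝ) ^ 2) * (2 * CD * CA * Real.log y * S / U) := by
          rw [mul_one_div]
          exact hcore
        exact le_of_mul_le_mul_left h23 h21
      rw [le_div_iff₀ hU0] at h22
      linarith
    calc c1 / (128000000 * C1 * CD * CA) =
          c1 * Real.log y / (4 * U * C1) * (U / (32000000 * CD * CA * Real.log y)) := by
          field_simp
          norm_num
      _ ≤ PIp * S := mul_le_mul hPI hSlow (by positivity) hPI0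
  · -- first moment
    intro m hm
    obtain ⟨ha, hb, hc, hd⟩ := hMMall m hm
    have h24 := hW U m hUUW ha hb hd (hmU m hm)
    rw [hc] at h24
    exact h24
  · -- off diagonal
    classical
    have h25 : ∀ m ∈ MM A V, ∀ m' ∈ (MM A V).erase m,
        ∑ s ∈ (Icc 1 ⌊Real.exp (4 * U)⌋₊).filter (fun s : ℕ => Real.exp (U / 9) ≤ s ∧ Rough y s ∧
          (m * s + 1).Prime ∧ (m' * s + 1).Prime), 1 / (s : ℝ) ≤
        CD * Real.log y * kap y Q ^ 2 / U * HH Q (Int.natAbs ((m : ℤ) - m')) := by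
      intro m hm m' hm'
      obtain ⟨hne, hm'2⟩ := mem_erase.1 hm'
      obtain ⟨ha, hb, hc, hd⟩ := hMMall m hm
      obtain ⟨ha', hb', hc', hd'⟩ := hMMall m' hm'2
      have h26 := hD' U m m' hUUD (Nat.pos_of_ne_zero hb) (Nat.pos_of_ne_zero hb')
        (Ne.symm hne) (dvd_trans (by norm_num) ha) (hc.trans hc'.symm) hd
      rw [hc] at h26
      refine le_trans (le_of_eq ?_) (h26.trans (le_of_eq ?_))
      · congr
      · ring
    refine le_trans (le_of_eq ?_) (le_trans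
      (sum_le_sum fun m hm => sum_le_sum fun m' hm' => h25 m hm m' hm') ?_)
    · refine sum_congr rfl fun m _ => sum_congr rfl fun m' _ => ?_
      congr
    · simp only [← Finset.mul_sum]
      rw [hG]
      exact mul_le_mul_of_nonneg_left hAvg (by positivity)
  · -- diagonal
    have h27 : 5 / (CD * CA * Real.log y * k0 ^ 2) * U ^ 2 ≤ (MM A V).card := by
      refine le_trans ?_ hcard
      exact mul_le_mul_of_nonneg_right (le_max_right _ _) (by positivity)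
    have h28 : 5 * U ^ 2 ≤ (MM A V).card * (CD * CA * Real.log y * k0 ^ 2) := by
      rw [div_mul_eq_mul_div, div_le_iff₀ (by positivity)] at h27
      exact h27
    have h29 : (MM A V).card * (CD * CA * Real.log y * k0 ^ 2) ≤
        (MM A V).card * (CD * CA * Real.log y * kap y Q ^ 2) := by
      gcongr
    rw [hG]
    have h30 : CD * Real.log y * kap y Q ^ 2 / U * (CA * ((MM A V).card : ℝ) ^ 2) =
        ((MM A V).card : ℝ) * (((MM A V).card * (CD * CA * Real.log y * kap y Q ^ 2)) / U) := by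
      ring
    rw [h30]
    apply mul_le_mul_of_nonneg_left _ hN0.le
    rw [le_div_iff₀ hU0]
    calc 5 * U * U = 5 * U ^ 2 := by ring
      _ ≤ _ := h28
      _ ≤ _ := h29
  · -- the size of T
    have h31 : 20000 * T / k0 * U ≤ (MM A V).card := by
      refine le_trans ?_ hNU
      exact mul_le_mul_of_nonneg_right (le_max_left _ _) hU0.le
    have h32 : 20000 * T * U ≤ (MM A V).card * k0 := by
      rw [div_mul_eq_mul_div, div_le_iff₀ hk0p] at h31
      exact h31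
    have h33 : (MM A V).card * k0 ≤ (MM A V).card * kap y Q :=
      mul_le_mul_of_nonneg_left hkap hN0.le
    have h34 : (MM A V).card * (kap y Q / 2000) / 2 = (MM A V).card * kap y Q / 4000 := by ring
    rw [h34]
    linarith

end Pool.Agent.TEQ
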