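import Pool.Agent.TEQ.Targets

/-!
# TEQ: target PRN (the principal character)
-/

set_option autoImplicit false

open Finset

noncomputable section

namespace Pool.Agent.TEQ

namespace PRN_

open DirichletCharacter

/-- the statement for one modulus -/
def Prop1 (C : ℝ) (m : ℕ) [NeZero m] : Prop :=
  ∀ s : ℂ, ‖s - 1‖ ≤ 1 / C → LFunctionTrivChar₁ m s ≠ 0 ∧
    ‖deriv (LFunctionTrivChar₁ m) s / LFunctionTrivChar₁ m s‖ ≤ C

lemma mono {C C' : ℝ} {m : ℕ} [NeZero m] (h : Prop1 C m) (hC : 0 < C) (hC' : C ≤ C') :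
    Prop1 C' m := by
  intro s hs
  have h1 := h s (hs.trans (one_div_le_one_div_of_le hC hC'))
  exact ⟨h1.1, h1.2.trans hC'⟩

lemma one (m : ℕ) [NeZero m] : ∃ C : ℝ, 1 ≤ C ∧ Prop1 C m := by
  have hd := differentiable_LFunctionTrivChar₁ m
  have h0 := LFunctionTrivChar₁_apply_one_ne_zero m
  have hdc : Continuous (deriv (LFunctionTrivChar₁ m)) :=
    (hd.contDiff (n := 1)).continuous_deriv le_rfl
  have h1 : ∀ᶠ s in nhds (1 : ℂ), LFunctionTrivChar₁ m s ≠ 0 :=
    hd.continuous.continuousAt.eventually_ne h0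
  have h2 : ContinuousAt (fun s =>
      ‖deriv (LFunctionTrivChar₁ m) s / LFunctionTrivChar₁ m s‖) (1 : ℂ) :=
    (hdc.continuousAt.div hd.continuous.continuousAt h0).norm
  have h3 := h2.eventually_lt continuousAt_const
    (lt_add_one ‖deriv (LFunctionTrivChar₁ m) 1 / LFunctionTrivChar₁ m 1‖)
  obtain ⟨δ, hδ, h4⟩ := Metric.eventually_nhds_iff.1 (h1.and h3)
  refine ⟨max 1 (max (‖deriv (LFunctionTrivChar₁ m) 1 / LFunctionTrivChar₁ m 1‖ + 1) (2 / δ)),
    le_max_left _ _, fun s hs => ?_⟩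
  have h5 : dist s 1 < δ := by
    rw [dist_eq_norm]
    calc ‖s - 1‖ ≤ _ := hs
      _ ≤ 1 / (2 / δ) := one_div_le_one_div_of_le (by positivity)
        ((le_max_right _ _).trans (le_max_right _ _))
      _ = δ / 2 := by rw [one_div_div]
      _ < δ := half_lt_self hδ
  obtain ⟨h6, h7⟩ := h4 h5
  exact ⟨h6, h7.le.trans ((le_max_left _ _).trans (le_max_right _ _))⟩

lemma eq_of_primeFactors {m m' : ℕ} [NeZero m] [NeZero m']
    (h : m.primeFactors = m'.primeFactors) : LFunctionTrivChar₁ m = LFunctionTrivChar₁ m' := by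
  unfold LFunctionTrivChar₁
  funext s
  by_cases hs : s = 1
  · subst hs
    rw [Function.update_self, Function.update_self, h]
  · rw [Function.update_of_ne hs, Function.update_of_ne hs,
      LFunctionTrivChar_eq_mul_riemannZeta hs, LFunctionTrivChar_eq_mul_riemannZeta hs, h]

lemma set (E : Finset ℕ) : ∃ C : ℝ, 1 ≤ C ∧ ∀ (m : ℕ) [NeZero m], m.primeFactors = E →
    Prop1 C m := by
  by_cases h : ∃ m : ℕ, m ≠ 0 ∧ m.primeFactors = E
  · obtain ⟨m, hm, hE⟩ := h
    have : NeZero m := ⟨hm⟩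
    obtain ⟨C, hC, h1⟩ := one m
    refine ⟨C, hC, fun m' _ hm' => ?_⟩
    unfold Prop1
    rw [eq_of_primeFactors (hm'.trans hE.symm)]
    exact h1
  · exact ⟨1, le_rfl, fun m _ hm => absurd ⟨m, NeZero.ne m, hm⟩ h⟩

end PRN_

open PRN_ in
theorem p_PRN : T_PRN := by
  intro y
  choose C hC h using PRN_.set
  have hle : ∀ E ∈ (PP y).powerset, C E ≤ ∑ F ∈ (PP y).powerset, C F := fun E hE =>
    Finset.single_le_sum (f := C) (fun F _ => zero_le_one.trans (hC F)) hE
  refine ⟨∑ F ∈ (PP y).powerset, C F,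
    (hC ∅).trans (hle ∅ (Finset.empty_mem_powerset _)), fun m _ hm => ?_⟩
  have hE : m.primeFactors ∈ (PP y).powerset := by
    rw [Finset.mem_powerset]
    intro p hp
    have h1 := Nat.mem_primeFactors.1 hp
    rw [PP, Finset.mem_filter, Finset.mem_range, Nat.lt_succ_iff]
    exact ⟨hm p h1.1 h1.2.1, h1.1⟩
  exact mono (h _ m rfl) (zero_lt_one.trans_le (hC _)) (hle _ hE)

end Pool.Agent.TEQ
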