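import Pool.Agent.TEQ.Targets

/-!
# TEQ: proof of PRS
-/

set_option autoImplicit false

open Finset

noncomputable section

namespace Pool.Agent.TEQ

namespace PRS_

lemma one_sub_pos {p : ℕ} (hp : p.Prime) : 0 < 1 - 1 / (p : ℝ) := by
  have h2 : (2 : ℝ) ≤ p := by exact_mod_cast hp.two_le
  have h3 : 1 / (p : ℝ) ≤ 1 / 2 := one_div_le_one_div_of_le (by norm_num) h2
  linarith

lemma fac {p : ℕ} (hp : p.Prime) : 1 + 4 / (p : ℝ) ≤ ((1 - 1 / (p : ℝ))⁻¹) ^ 4 := by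
  have hpos := one_sub_pos hp
  have h2 : (2 : ℝ) ≤ p := by exact_mod_cast hp.two_le
  have hx : 0 ≤ 1 / (p : ℝ) := by positivity
  have h1 : 1 + 1 / (p : ℝ) ≤ (1 - 1 / (p : ℝ))⁻¹ := by
    rw [le_inv_comm₀ (by positivity) hpos, inv_eq_one_div, le_div_iff₀ (by positivity)]
    nlinarith
  have h4 : 1 + 4 / (p : ℝ) ≤ (1 + 1 / (p : ℝ)) ^ 4 := by
    have h5 : 4 / (p : ℝ) = 4 * (1 / (p : ℝ)) := by ring
    rw [h5]
    set x := 1 / (p : ℝ)
    have : (1 + x) ^ 4 = 1 + 4 * x + (6 * x ^ 2 + 4 * x ^ 3 + x ^ 4) := by ring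
    rw [this]
    have : 0 ≤ 6 * x ^ 2 + 4 * x ^ 3 + x ^ 4 := by positivity
    linarith
  exact h4.trans (pow_le_pow_left₀ (by positivity) h1 4)

lemma one_le_fac {p : ℕ} (hp : p.Prime) : 1 ≤ ((1 - 1 / (p : ℝ))⁻¹) ^ 4 := by
  refine le_trans ?_ (fac hp)
  have : 0 ≤ 4 / (p : ℝ) := by positivity
  linarith

end PRS_

open PRS_ in
theorem p_PRS (h : T_MRT) : T_PRS := by
  obtain ⟨c, C, hc, -, H⟩ := h
  refine ⟨Real.exp 4 * (2 / c) ^ 4, by positivity, fun E hE => ?_⟩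
  set n := E.card with hn
  have hN : 2 ≤ (n + 2) ^ 2 := by nlinarith
  obtain ⟨H1, -⟩ := H ((n + 2) ^ 2) hN
  have hprime : ∀ p ∈ PP ((n + 2) ^ 2), p.Prime := fun p hp => (mem_filter.1 hp).2
  have hA : 0 < ∏ p ∈ PP ((n + 2) ^ 2), (1 - 1 / (p : ℝ)) :=
    prod_pos fun p hp => one_sub_pos (hprime p hp)
  have hlog : 0 < Real.log ((n : ℝ) + 2) := Real.log_pos (by
    have : (0 : ℝ) ≤ n := Nat.cast_nonneg n
    linarith)
  -- small primes
  have hS : E.filter (· ≤ (n + 2) ^ 2) ⊆ PP ((n + 2) ^ 2) := by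
    intro p hp
    rw [mem_filter] at hp
    exact mem_filter.2 ⟨mem_range.2 (Nat.lt_succ_of_le hp.2), hE p hp.1⟩
  have h1 : ∏ p ∈ E.filter (· ≤ (n + 2) ^ 2), (1 + 4 / (p : ℝ)) ≤
      (2 / c) ^ 4 * (Real.log ((n : ℝ) + 2)) ^ 4 := by
    calc ∏ p ∈ E.filter (· ≤ (n + 2) ^ 2), (1 + 4 / (p : ℝ))
        ≤ ∏ p ∈ E.filter (· ≤ (n + 2) ^ 2), ((1 - 1 / (p : ℝ))⁻¹) ^ 4 :=
          prod_le_prod (fun p _ => by positivity) fun p hp => fac (hE p (mem_filter.1 hp).1)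
      _ ≤ ∏ p ∈ PP ((n + 2) ^ 2), ((1 - 1 / (p : ℝ))⁻¹) ^ 4 := by
          rw [← prod_sdiff hS]
          refine le_mul_of_one_le_left (prod_nonneg fun p _ => by positivity) ?_
          refine prod_induction _ (fun x : ℝ => 1 ≤ x) (fun a b ha hb => ?_) le_rfl
            fun p hp => one_le_fac (hprime p (mem_sdiff.1 hp).1)
          exact one_le_mul_of_one_le_of_one_le ha hb
      _ = ((∏ p ∈ PP ((n + 2) ^ 2), (1 - 1 / (p : ℝ)))⁻¹) ^ 4 := by
          rw [prod_pow, prod_inv_distrib]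
      _ ≤ ((2 / c) * Real.log ((n : ℝ) + 2)) ^ 4 := by
          refine pow_le_pow_left₀ (by positivity) ?_ 4
          have h2 : Real.log (((n + 2) ^ 2 : ℕ) : ℝ) = 2 * Real.log ((n : ℝ) + 2) := by
            push_cast
            rw [Real.log_pow]
            norm_num
          rw [h2] at H1
          rw [inv_le_comm₀ hA (by positivity)]
          refine le_trans (le_of_eq ?_) H1
          field_simp
      _ = _ := by rw [mul_pow]
  -- large primes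
  have h2 : ∏ p ∈ E.filter (fun p => ¬ p ≤ (n + 2) ^ 2), (1 + 4 / (p : ℝ)) ≤ Real.exp 4 := by
    have hNpos : (0 : ℝ) < ((n : ℝ) + 2) ^ 2 := by positivity
    calc ∏ p ∈ E.filter (fun p => ¬ p ≤ (n + 2) ^ 2), (1 + 4 / (p : ℝ))
        ≤ ∏ p ∈ E.filter (fun p => ¬ p ≤ (n + 2) ^ 2), Real.exp (4 / ((n : ℝ) + 2) ^ 2) := by
          refine prod_le_prod (fun p _ => by positivity) fun p hp => ?_
          have hp2 : ((n : ℝ) + 2) ^ 2 ≤ p := by
            have := (not_le.1 (mem_filter.1 hp).2).le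
            exact_mod_cast this
          have h3 : 4 / (p : ℝ) ≤ 4 / ((n : ℝ) + 2) ^ 2 :=
            div_le_div_of_nonneg_left (by norm_num) hNpos hp2
          have h4 := Real.add_one_le_exp (4 / ((n : ℝ) + 2) ^ 2)
          linarith
      _ = Real.exp ((E.filter (fun p => ¬ p ≤ (n + 2) ^ 2)).card * (4 / ((n : ℝ) + 2) ^ 2)) := by
          rw [prod_const, ← Real.exp_nat_mul]
      _ ≤ Real.exp 4 := by
          refine Real.exp_le_exp.2 ?_
          have h5 : ((E.filter (fun p => ¬ p ≤ (n + 2) ^ 2)).card : ℝ) ≤ n := by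
            exact_mod_cast card_filter_le _ _
          have hn0 : (0 : ℝ) ≤ n := Nat.cast_nonneg n
          calc ((E.filter (fun p => ¬ p ≤ (n + 2) ^ 2)).card : ℝ) * (4 / ((n : ℝ) + 2) ^ 2)
              ≤ n * (4 / ((n : ℝ) + 2) ^ 2) := mul_le_mul_of_nonneg_right h5 (by positivity)
            _ = (4 * n) / ((n : ℝ) + 2) ^ 2 := by ring
            _ ≤ 4 := by
              rw [div_le_iff₀ hNpos]
              nlinarith
  rw [← prod_filter_mul_prod_filter_not E (· ≤ (n + 2) ^ 2)]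
  calc (∏ p ∈ E.filter (· ≤ (n + 2) ^ 2), (1 + 4 / (p : ℝ))) *
        ∏ p ∈ E.filter (fun p => ¬ p ≤ (n + 2) ^ 2), (1 + 4 / (p : ℝ))
      ≤ ((2 / c) ^ 4 * (Real.log ((n : ℝ) + 2)) ^ 4) * Real.exp 4 :=
        mul_le_mul h1 h2 (prod_nonneg fun p _ => by positivity) (by positivity)
    _ = Real.exp 4 * (2 / c) ^ 4 * (Real.log ((n : ℝ) + 2)) ^ 4 := by ring

end Pool.Agent.TEQ
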