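import Pool.Agent.TEQ.Targets

/-!
# TEQ: target REL (helper75)

Real characters to smooth moduli: finitely many `L`-functions.
-/

set_option autoImplicit false

open Finset

noncomputable section

namespace Pool.Agent.TEQ

namespace REL_

/-- the property of one function -/
def OK (f : ℂ → ℂ) (C : ℝ) : Prop :=
  ∀ s : ℂ, ‖s - 1‖ ≤ 1 / C → f s ≠ 0 ∧ ‖deriv f s / f s‖ ≤ C

theorem OK.mono {f : ℂ → ℂ} {C C' : ℝ} (h : OK f C) (h1 : 1 ≤ C) (hC : C ≤ C') : OK f C' := by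
  intro s hs
  have h2 : (0 : ℝ) < C := by linarith
  have h3 : 1 / C' ≤ 1 / C := one_div_le_one_div_of_le h2 hC
  obtain ⟨h4, h5⟩ := h s (hs.trans h3)
  exact ⟨h4, h5.trans hC⟩

theorem exists_OK {f : ℂ → ℂ} (hf : Differentiable ℂ f) (h1 : f 1 ≠ 0) :
    ∃ C : ℝ, 1 ≤ C ∧ OK f C := by
  have hd : Continuous (deriv f) := by
    have h : ContDiff ℂ 1 f := hf.contDiff
    exact h.continuous_deriv le_rfl
  have hc : ContinuousAt (fun s => deriv f s / f s) 1 :=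
    hd.continuousAt.div hf.continuous.continuousAt h1
  have e1 : ∀ᶠ s in nhds (1 : ℂ), f s ≠ 0 := hf.continuous.continuousAt.eventually_ne h1
  have e2 : ∀ᶠ s in nhds (1 : ℂ), ‖deriv f s / f s‖ < ‖deriv f 1 / f 1‖ + 1 :=
    hc.norm.eventually_lt_const (by simp)
  obtain ⟨δ, hδ, hb⟩ := Metric.eventually_nhds_iff.1 (e1.and e2)
  refine ⟨max 1 (max (2 / δ) (‖deriv f 1 / f 1‖ + 1)), le_max_left _ _, fun s hs => ?_⟩
  have h2 : 2 / δ ≤ max 1 (max (2 / δ) (‖deriv f 1 / f 1‖ + 1)) :=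
    (le_max_left _ _).trans (le_max_right _ _)
  have h3 : ‖deriv f 1 / f 1‖ + 1 ≤ max 1 (max (2 / δ) (‖deriv f 1 / f 1‖ + 1)) :=
    (le_max_right _ _).trans (le_max_right _ _)
  have h4 : (0 : ℝ) < 2 / δ := by positivity
  have h5 : dist s 1 < δ := by
    rw [dist_eq_norm]
    calc ‖s - 1‖ ≤ 1 / max 1 (max (2 / δ) (‖deriv f 1 / f 1‖ + 1)) := hs
      _ ≤ 1 / (2 / δ) := one_div_le_one_div_of_le h4 h2
      _ = δ / 2 := by rw [one_div_div]
      _ < δ := by linarith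
  obtain ⟨h6, h7⟩ := hb h5
  exact ⟨h6, h7.le.trans h3⟩

theorem level (D : ℕ) : ∃ C : ℝ, 1 ≤ C ∧ ∀ [NeZero D] (χ : DirichletCharacter ℂ D), χ ≠ 1 →
    OK χ.LFunction C := by
  by_cases hD : D = 0
  · refine ⟨1, le_rfl, fun {h} => ?_⟩
    exact absurd hD h.out
  · have : NeZero D := ⟨hD⟩
    have key : ∀ χ : DirichletCharacter ℂ D, ∃ C : ℝ, 1 ≤ C ∧ (χ ≠ 1 → OK χ.LFunction C) := by
      intro χ
      by_cases h : χ = 1
      · exact ⟨1, le_rfl, fun h' => absurd h h'⟩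
      · obtain ⟨C, hC, hO⟩ := exists_OK (DirichletCharacter.differentiable_LFunction h)
          (DirichletCharacter.LFunction_apply_one_ne_zero h)
        exact ⟨C, hC, fun _ => hO⟩
    choose c hc1 hc2 using key
    obtain ⟨B, hB⟩ := (Set.finite_range c).bddAbove
    refine ⟨max 1 B, le_max_left _ _, fun χ hχ => ?_⟩
    exact (hc2 χ hχ).mono (hc1 χ) ((hB ⟨χ, rfl⟩).trans (le_max_right _ _))

theorem finite_levels (y : ℕ) : ∃ C : ℝ, 1 ≤ C ∧ ∀ E ⊆ PP y, ∀ [NeZero (8 * ∏ p ∈ E, p)]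
    (χ : DirichletCharacter ℂ (8 * ∏ p ∈ E, p)), χ ≠ 1 → OK χ.LFunction C := by
  choose c hc1 hc2 using level
  obtain ⟨B, hB⟩ := ((PP y).powerset.image fun E => c (8 * ∏ p ∈ E, p)).bddAbove
  refine ⟨max 1 B, le_max_left _ _, fun E hE _ χ hχ => ?_⟩
  refine (hc2 _ χ hχ).mono (hc1 _) (le_trans ?_ (le_max_right _ _))
  exact hB (mem_coe.2 (mem_image_of_mem (fun E => c (8 * ∏ p ∈ E, p)) (mem_powerset.2 hE)))

theorem facts {m : ℕ} (hm : m ≠ 0) (h8 : 8 ∣ m) :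
    8 * ∏ p ∈ m.primeFactors.erase 2, p ∣ m ∧
      m.primeFactors = (8 * ∏ p ∈ m.primeFactors.erase 2, p).primeFactors := by
  have hd : ∏ p ∈ m.primeFactors.erase 2, p ∣ m :=
    (prod_dvd_prod_of_subset _ _ (fun p => p) (erase_subset _ _)).trans
      (Nat.prod_primeFactors_dvd m)
  have hcop : Nat.Coprime 8 (∏ p ∈ m.primeFactors.erase 2, p) := by
    refine Nat.Coprime.prod_right fun p hp => ?_
    rw [mem_erase] at hp
    have hp' := Nat.prime_of_mem_primeFactors hp.2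
    have h2 : Nat.Coprime 2 p := (Nat.coprime_primes Nat.prime_two hp').2 (Ne.symm hp.1)
    have h3 : (8 : ℕ) = 2 ^ 3 := by norm_num
    rw [h3]
    exact Nat.Coprime.pow_left 3 h2
  have hdvd : 8 * ∏ p ∈ m.primeFactors.erase 2, p ∣ m :=
    Nat.Coprime.mul_dvd_of_dvd_of_dvd hcop h8 hd
  refine ⟨hdvd, ?_⟩
  have hD : 8 * ∏ p ∈ m.primeFactors.erase 2, p ≠ 0 := fun h => hm (by
    rw [h] at hdvd; exact Nat.eq_zero_of_zero_dvd hdvd)
  refine Subset.antisymm (fun q hq => ?_) (Nat.primeFactors_mono hdvd hm)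
  have hq' := Nat.prime_of_mem_primeFactors hq
  rw [Nat.mem_primeFactors]
  refine ⟨hq', ?_, hD⟩
  by_cases h2 : q = 2
  · rw [h2]
    exact Dvd.dvd.mul_right (by norm_num) _
  · exact (dvd_prod_of_mem (fun p => p) (mem_erase.2 ⟨h2, hq⟩)).mul_left _

end REL_

open REL_ in
theorem p_REL (h_SQM : T_SQM) : T_REL := by
  intro y
  obtain ⟨C, hC, hfin⟩ := finite_levels y
  refine ⟨C, hC, fun m _ χ h8 hsm h2 h1 => ?_⟩
  have hm : m ≠ 0 := NeZero.ne m
  obtain ⟨hdvd, hpf⟩ := facts hm h8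
  have hE : m.primeFactors.erase 2 ⊆ PP y := by
    intro p hp
    have hp1 := mem_of_mem_erase hp
    have hpp := Nat.prime_of_mem_primeFactors hp1
    have hle := hsm p hpp (Nat.dvd_of_mem_primeFactors hp1)
    rw [PP, mem_filter, mem_range]
    exact ⟨by omega, hpp⟩
  have hD : 8 * ∏ p ∈ m.primeFactors.erase 2, p ≠ 0 := fun h => hm (by
    rw [h] at hdvd; exact Nat.eq_zero_of_zero_dvd hdvd)
  have hne : NeZero (8 * ∏ p ∈ m.primeFactors.erase 2, p) := ⟨hD⟩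
  have hft : χ.FactorsThrough (8 * ∏ p ∈ m.primeFactors.erase 2, p) := by
    rw [DirichletCharacter.factorsThrough_iff_ker_unitsMap hdvd]
    intro u hu
    rw [MonoidHom.mem_ker] at hu ⊢
    obtain ⟨v, rfl⟩ := h_SQM m _ hdvd hm (Dvd.intro _ rfl) hpf u hu
    have h3 : (χ ^ 2) (v : ZMod m) = 1 := by
      rw [h2, MulChar.one_apply_coe]
    rw [MulChar.pow_apply_coe] at h3
    rw [Units.ext_iff, MulChar.coe_toUnitHom]
    push_cast
    rw [map_pow]
    exact h3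
  obtain ⟨h, χ₀, hχ₀⟩ := hft
  have h0 : χ₀ ≠ 1 := by
    rintro rfl
    exact h1 (by rw [hχ₀, DirichletCharacter.changeLevel_one])
  have hL : χ.LFunction = χ₀.LFunction := by
    funext s
    rw [hχ₀, DirichletCharacter.LFunction_changeLevel h χ₀ (Or.inl h0)]
    refine (congrArg (χ₀.LFunction s * ·) (prod_eq_one ?_)).trans (mul_one _)
    intro p hp
    have hp0 : χ₀ ((p : ℕ) : ZMod (8 * ∏ p ∈ m.primeFactors.erase 2, p)) = 0 := by
      refine MulChar.map_nonunit _ fun hu => ?_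
      rw [ZMod.isUnit_iff_coprime] at hu
      rw [hpf] at hp
      have hpp := Nat.prime_of_mem_primeFactors hp
      exact (hpp.coprime_iff_not_dvd.1 hu) (Nat.dvd_of_mem_primeFactors hp)
    rw [hp0, zero_mul, sub_zero]
  rw [hL]
  exact hfin _ hE χ₀ h0

end Pool.Agent.TEQ
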