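import Pool.Agent.TEQ.Targets

/-!
# TEQ: RGS (inclusion-exclusion over the primes `≤ y`)
-/

set_option autoImplicit false

open Finset

noncomputable section

namespace Pool.Agent.TEQ

namespace RGS_

/-- the product of the primes `≤ y` -/
def PY (y : ℕ) : ℕ := ∏ p ∈ PP y, p

lemma prime_of_mem {y p : ℕ} (h : p ∈ PP y) : p.Prime := (mem_filter.mp h).2

lemma PY_pos (y : ℕ) : 0 < PY y := Finset.prod_pos fun _ hp => (prime_of_mem hp).pos

lemma coprime_iff (y s : ℕ) : (PY y).Coprime s ↔ Rough y s := by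
  unfold PY Rough
  rw [Nat.coprime_prod_left_iff]
  constructor
  · intro h p hp hy hd
    have := h p (mem_filter.mpr ⟨mem_range.mpr (by omega), hp⟩)
    exact ((Nat.Prime.coprime_iff_not_dvd hp).mp this) hd
  · intro h p hp
    have hp' := mem_filter.mp hp
    exact (Nat.Prime.coprime_iff_not_dvd hp'.2).mpr
      (h p hp'.2 (by have := mem_range.mp hp'.1; omega))

lemma smooth_of_dvd {y d : ℕ} (hd : d ∣ PY y) : Smooth y d := by
  intro p hp hpd
  have h1 : p ∣ PY y := hpd.trans hd
  unfold PY at h1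
  obtain ⟨q, hq, hpq⟩ := (Prime.dvd_finsetProd_iff hp.prime _).mp h1
  have hq' := mem_filter.mp hq
  have : p = q := (Nat.prime_dvd_prime_iff_eq hp hq'.2).mp hpq
  have := mem_range.mp hq'.1
  omega

lemma sum_moebius (n : ℕ) :
    ∑ d ∈ n.divisors, (ArithmeticFunction.moebius d : ℝ) = if n = 1 then 1 else 0 := by
  have h := ArithmeticFunction.coe_mul_zeta_apply
    (f := (ArithmeticFunction.moebius : ArithmeticFunction ℤ)) (x := n)
  rw [ArithmeticFunction.moebius_mul_coe_zeta, ArithmeticFunction.one_apply] at h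
  have h2 : ((∑ d ∈ n.divisors, ArithmeticFunction.moebius d : ℤ) : ℝ) =
      ((if n = 1 then 1 else 0 : ℤ) : ℝ) := by rw [h]
  push_cast at h2
  exact h2

lemma divisors_filter (P s : ℕ) (hP : P ≠ 0) :
    P.divisors.filter (· ∣ s) = (P.gcd s).divisors := by
  ext d
  simp only [mem_filter, Nat.mem_divisors]
  constructor
  · rintro ⟨⟨h1, _⟩, h3⟩
    exact ⟨Nat.dvd_gcd h1 h3, Nat.gcd_ne_zero_left hP⟩
  · rintro ⟨h1, _⟩
    exact ⟨⟨h1.trans (Nat.gcd_dvd_left _ _), hP⟩, h1.trans (Nat.gcd_dvd_right _ _)⟩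

/-- inclusion-exclusion -/
lemma ff_eq (y m n : ℕ) (hm : m ≠ 0) :
    ff y m n = ∑ d ∈ (PY y).divisors, (ArithmeticFunction.moebius d : ℝ) *
      (if n ≡ 1 [MOD (m * d)] then ArithmeticFunction.vonMangoldt n else 0) := by
  classical
  rcases Nat.lt_or_ge n 2 with hn | hn
  · have h0 : ArithmeticFunction.vonMangoldt n = 0 := by
      interval_cases n
      · simp
      · simp
    unfold ff
    simp [h0]
  by_cases hmod : n ≡ 1 [MOD m]
  · have h1 : m ∣ n - 1 := (Nat.modEq_iff_dvd' (by omega)).mp hmod.symm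
    obtain ⟨s, hs⟩ := h1
    have hns : (n - 1) / m = s := by
      rw [hs]; exact Nat.mul_div_cancel_left s (Nat.pos_of_ne_zero hm)
    have hiff : ∀ d : ℕ, (n ≡ 1 [MOD (m * d)]) ↔ d ∣ s := by
      intro d
      constructor
      · intro h
        have := (Nat.modEq_iff_dvd' (by omega)).mp h.symm
        rw [hs] at this
        exact Nat.dvd_of_mul_dvd_mul_left (Nat.pos_of_ne_zero hm) this
      · intro h
        apply Nat.ModEq.symm
        rw [Nat.modEq_iff_dvd' (by omega), hs]
        exact Nat.mul_dvd_mul_left m h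
    have hL : ff y m n = if Rough y s then ArithmeticFunction.vonMangoldt n else 0 := by
      unfold ff
      rw [hns]
      simp [hmod]
    rw [hL]
    have hR : ∑ d ∈ (PY y).divisors, (ArithmeticFunction.moebius d : ℝ) *
        (if n ≡ 1 [MOD (m * d)] then ArithmeticFunction.vonMangoldt n else 0) =
        (∑ d ∈ ((PY y).gcd s).divisors, (ArithmeticFunction.moebius d : ℝ)) *
          ArithmeticFunction.vonMangoldt n := by
      rw [← divisors_filter _ _ (PY_pos y).ne', Finset.sum_filter, Finset.sum_mul]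
      apply Finset.sum_congr rfl
      intro d _
      by_cases hd : d ∣ s
      · rw [if_pos ((hiff d).mpr hd), if_pos hd]
      · rw [if_neg (fun h => hd ((hiff d).mp h)), if_neg hd]
        ring
    rw [hR, sum_moebius]
    by_cases hR : Rough y s
    · rw [if_pos hR, if_pos ((coprime_iff y s).mpr hR)]
      ring
    · rw [if_neg hR, if_neg (fun h => hR ((coprime_iff y s).mp h))]
      ring
  · have hL : ff y m n = 0 := by
      unfold ff
      simp [hmod]
    rw [hL]
    symm
    apply Finset.sum_eq_zero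
    intro d _
    rw [if_neg (fun h => hmod (Nat.ModEq.of_mul_right d h))]
    ring

end RGS_

open RGS_ in
/-- RGS (from APS, TOT) -/
theorem p_RGS (h1 : T_APS) (h2 : T_TOT) : T_RGS := by
  classical
  intro y _hy
  obtain ⟨C₁, hC₁, hA⟩ := h1 y
  set P : ℕ := PY y with hPdef
  have hPpos : 0 < P := PY_pos y
  have hP1 : (1 : ℝ) ≤ (P : ℝ) := by exact_mod_cast hPpos
  have hlogP : 0 ≤ Real.log P := Real.log_nonneg hP1
  set D : ℝ := (P.divisors.card : ℝ) with hDdef
  have hD1 : 1 ≤ D := by
    have : 0 < P.divisors.card := Finset.card_pos.mpr ⟨1, by simp [hPpos.ne']⟩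
    rw [hDdef]
    exact_mod_cast this
  set K : ℝ := (1 + Real.log P) ^ 9 with hKdef
  have hK1 : 1 ≤ K := one_le_pow₀ (by linarith)
  refine ⟨D * (C₁ * K), ?_, ?_⟩
  · have : 1 ≤ C₁ * K := one_le_mul_of_one_le_of_one_le hC₁ hK1
    exact one_le_mul_of_one_le_of_one_le hD1 this
  intro m r η hm8 hm0 hsm hη hη2
  have hm8' : 8 ≤ m := Nat.le_of_dvd (Nat.pos_of_ne_zero hm0) hm8
  have hmR : (8 : ℝ) ≤ (m : ℝ) := by exact_mod_cast hm8'
  have hlogm : 1 ≤ Real.log m := by
    rw [Real.le_log_iff_exp_le (by linarith)]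
    have := Real.exp_one_lt_d9
    linarith
  set ell : ℝ := Real.log m with hell
  have hell9 : 0 < ell ^ 9 := by positivity
  -- data for each divisor
  have hlogmd : ∀ d ∈ P.divisors, 0 < Real.log ((m * d : ℕ) : ℝ) ∧
      C₁ * Real.log ((m * d : ℕ) : ℝ) ^ 9 ≤ C₁ * K * ell ^ 9 := by
    intro d hd
    have hdP := (Nat.mem_divisors.mp hd).1
    have hdpos : 0 < d := Nat.pos_of_dvd_of_pos hdP hPpos
    have hd1 : (1 : ℝ) ≤ (d : ℝ) := by exact_mod_cast hdpos
    have hdleP : (d : ℝ) ≤ (P : ℝ) := by exact_mod_cast Nat.le_of_dvd hPpos hdP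
    have hlogd0 : 0 ≤ Real.log d := Real.log_nonneg hd1
    have hlogd : Real.log d ≤ Real.log P := Real.log_le_log (by linarith) hdleP
    have hlog : Real.log ((m * d : ℕ) : ℝ) = ell + Real.log d := by
      push_cast
      rw [Real.log_mul (by positivity) (by positivity)]
    have hle : Real.log ((m * d : ℕ) : ℝ) ≤ (1 + Real.log P) * ell := by
      rw [hlog]
      nlinarith [mul_le_mul_of_nonneg_left hlogm hlogP]
    refine ⟨by rw [hlog]; linarith, ?_⟩
    have hpow : Real.log ((m * d : ℕ) : ℝ) ^ 9 ≤ ((1 + Real.log P) * ell) ^ 9 :=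
      pow_le_pow_left₀ (by rw [hlog]; linarith) hle 9
    rw [mul_pow] at hpow
    calc C₁ * Real.log ((m * d : ℕ) : ℝ) ^ 9 ≤ C₁ * (K * ell ^ 9) :=
          mul_le_mul_of_nonneg_left hpow (by linarith)
      _ = C₁ * K * ell ^ 9 := by ring
  have hAd : ∀ d ∈ P.divisors,
      Summable (fun n : ℕ => if n ≡ 1 [MOD (m * d)] then
        ArithmeticFunction.vonMangoldt n * (Real.log n) ^ r * (n : ℝ) ^ (-(1 + η)) else 0) ∧
      |apS (m * d) r η - r.factorial / ((m * d).totient * η ^ (r + 1))| ≤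
        r.factorial * (C₁ * K * ell ^ 9) ^ (r + 1) := by
    intro d hd
    have hdP := (Nat.mem_divisors.mp hd).1
    have hdpos : 0 < d := Nat.pos_of_dvd_of_pos hdP hPpos
    obtain ⟨hl0, hlK⟩ := hlogmd d hd
    have hsmd : Smooth y (m * d) := by
      intro p hp hpd
      rcases (Nat.Prime.dvd_mul hp).mp hpd with h | h
      · exact hsm p hp h
      · exact smooth_of_dvd hdP p hp h
    have hη3 : η ≤ 1 / (C₁ * Real.log ((m * d : ℕ) : ℝ) ^ 9) := by
      refine hη2.trans ?_
      apply one_div_le_one_div_of_le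
      · positivity
      · calc C₁ * Real.log ((m * d : ℕ) : ℝ) ^ 9 ≤ C₁ * K * ell ^ 9 := hlK
          _ ≤ D * (C₁ * K) * ell ^ 9 := by
            have : 0 ≤ C₁ * K * ell ^ 9 := by positivity
            nlinarith
    obtain ⟨hs, hb⟩ := hA (m * d) r η (dvd_mul_of_dvd_left hm8 d)
      (Nat.mul_ne_zero hm0 hdpos.ne') hsmd hη hη3
    refine ⟨hs, hb.trans ?_⟩
    apply mul_le_mul_of_nonneg_left _ (by positivity)
    exact pow_le_pow_left₀ (by positivity) hlK _
  -- termwise identity
  have hterm : ∀ n : ℕ, ff y m n * (Real.log n) ^ r * (n : ℝ) ^ (-(1 + η)) =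
      ∑ d ∈ P.divisors, (ArithmeticFunction.moebius d : ℝ) *
        (if n ≡ 1 [MOD (m * d)] then
          ArithmeticFunction.vonMangoldt n * (Real.log n) ^ r * (n : ℝ) ^ (-(1 + η)) else 0) := by
    intro n
    rw [ff_eq y m n hm0, Finset.sum_mul, Finset.sum_mul]
    apply Finset.sum_congr rfl
    intro d _
    split_ifs
    · ring
    · ring
  have hsumd : ∀ d ∈ P.divisors, Summable (fun n : ℕ => (ArithmeticFunction.moebius d : ℝ) *
        (if n ≡ 1 [MOD (m * d)] then
          ArithmeticFunction.vonMangoldt n * (Real.log n) ^ r * (n : ℝ) ^ (-(1 + η)) else 0)) :=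
    fun d hd => (hAd d hd).1.mul_left _
  have hfun : (fun n : ℕ => ff y m n * (Real.log n) ^ r * (n : ℝ) ^ (-(1 + η))) =
      fun n : ℕ => ∑ d ∈ P.divisors, (ArithmeticFunction.moebius d : ℝ) *
        (if n ≡ 1 [MOD (m * d)] then
          ArithmeticFunction.vonMangoldt n * (Real.log n) ^ r * (n : ℝ) ^ (-(1 + η)) else 0) :=
    funext hterm
  constructor
  · rw [hfun]
    exact summable_sum hsumd
  have htsum : (∑' n : ℕ, ff y m n * (Real.log n) ^ r * (n : ℝ) ^ (-(1 + η))) =
      ∑ d ∈ P.divisors, (ArithmeticFunction.moebius d : ℝ) * apS (m * d) r η := by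
    rw [hfun, Summable.tsum_finsetSum hsumd]
    apply Finset.sum_congr rfl
    intro d _
    rw [tsum_mul_left]
    rfl
  have h2m : 2 ∣ m := (by norm_num : 2 ∣ 8).trans hm8
  have hmain : kap y m.primeFactors / m * (r.factorial / η ^ (r + 1)) =
      ∑ d ∈ P.divisors, (ArithmeticFunction.moebius d : ℝ) *
        (r.factorial / ((m * d).totient * η ^ (r + 1))) := by
    rw [← h2 y m hm0 h2m hsm, Finset.sum_mul]
    apply Finset.sum_congr rfl
    intro d hd
    have hdpos : 0 < d := Nat.pos_of_dvd_of_pos (Nat.mem_divisors.mp hd).1 hPpos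
    have ht : (((m * d).totient : ℕ) : ℝ) ≠ 0 := by
      have : 0 < (m * d).totient := Nat.totient_pos.mpr
        (Nat.mul_pos (Nat.pos_of_ne_zero hm0) hdpos)
      exact_mod_cast this.ne'
    have hη' : η ^ (r + 1) ≠ 0 := by positivity
    field_simp
  rw [htsum, hmain, ← Finset.sum_sub_distrib]
  calc |∑ d ∈ P.divisors, ((ArithmeticFunction.moebius d : ℝ) * apS (m * d) r η -
        (ArithmeticFunction.moebius d : ℝ) *
          (r.factorial / ((m * d).totient * η ^ (r + 1))))|
      ≤ ∑ d ∈ P.divisors, |(ArithmeticFunction.moebius d : ℝ) * apS (m * d) r η -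
        (ArithmeticFunction.moebius d : ℝ) *
          (r.factorial / ((m * d).totient * η ^ (r + 1)))| := Finset.abs_sum_le_sum_abs _ _
    _ ≤ ∑ d ∈ P.divisors, (r.factorial * (C₁ * K * ell ^ 9) ^ (r + 1) : ℝ) := by
        apply Finset.sum_le_sum
        intro d hd
        rw [← mul_sub, abs_mul]
        have hmu : |(ArithmeticFunction.moebius d : ℝ)| ≤ 1 := by
          have := ArithmeticFunction.abs_moebius_le_one (n := d)
          have h3 : ((|ArithmeticFunction.moebius d| : ℤ) : ℝ) ≤ 1 := by exact_mod_cast this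
          rwa [Int.cast_abs] at h3
        calc |(ArithmeticFunction.moebius d : ℝ)| *
              |apS (m * d) r η - r.factorial / ((m * d).totient * η ^ (r + 1))|
            ≤ 1 * |apS (m * d) r η - r.factorial / ((m * d).totient * η ^ (r + 1))| :=
              mul_le_mul_of_nonneg_right hmu (abs_nonneg _)
          _ = |apS (m * d) r η - r.factorial / ((m * d).totient * η ^ (r + 1))| := one_mul _
          _ ≤ _ := (hAd d hd).2
    _ = D * (r.factorial * (C₁ * K * ell ^ 9) ^ (r + 1)) := by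
        rw [Finset.sum_const, nsmul_eq_mul]
    _ ≤ D ^ (r + 1) * (r.factorial * (C₁ * K * ell ^ 9) ^ (r + 1)) := by
        apply mul_le_mul_of_nonneg_right _ (by positivity)
        exact le_self_pow₀ hD1 (by omega)
    _ = r.factorial * (D * (C₁ * K) * ell ^ 9) ^ (r + 1) := by
        rw [show D * (C₁ * K) * ell ^ 9 = D * (C₁ * K * ell ^ 9) by ring, mul_pow D]
        ring

end Pool.Agent.TEQ
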