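import Pool.Agent.TEQ.Targets

/-!
# TEQ: proof of the target RMC (Romanoff's constant)
-/

set_option autoImplicit false

open Finset

noncomputable section

namespace Pool.Agent.TEQ

namespace RMC_

/-- the dyadic level of the order of `2` modulo `d` -/
def lv (d : ℕ) : ℕ := Nat.log 2 (orderOf (2 : ZMod d))

/-- the primes dividing `2 ^ j - 1` for some `1 ≤ j < 2 ^ (k + 1)` -/
def EE (k : ℕ) : Finset ℕ := (∏ j ∈ Ico 1 (2 ^ (k + 1)), (2 ^ j - 1)).primeFactors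

lemma one_le (j : ℕ) (hj : 1 ≤ j) : 1 ≤ 2 ^ j - 1 := by
  have h1 : 2 ^ 1 ≤ 2 ^ j := Nat.pow_le_pow_right (by norm_num) hj
  omega

lemma prod_ne (k : ℕ) : ∏ j ∈ Ico 1 (2 ^ (k + 1)), (2 ^ j - 1) ≠ 0 := by
  rw [Finset.prod_ne_zero_iff]
  intro j hj
  have h1 := one_le j (Finset.mem_Ico.1 hj).1
  omega

lemma card_le (k : ℕ) : (EE k).card ≤ 4 ^ (k + 1) := by
  have h1 : 2 ^ (EE k).card ≤ ∏ j ∈ Ico 1 (2 ^ (k + 1)), (2 ^ j - 1) := by
    have h2 : 2 ^ (EE k).card ≤ ∏ p ∈ EE k, p :=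
      Finset.pow_card_le_prod _ _ _ fun p hp => (Nat.prime_of_mem_primeFactors hp).two_le
    exact h2.trans (Nat.le_of_dvd (Nat.pos_of_ne_zero (prod_ne k)) (Nat.prod_primeFactors_dvd _))
  have h3 : ∏ j ∈ Ico 1 (2 ^ (k + 1)), (2 ^ j - 1) ≤ 2 ^ (4 ^ (k + 1)) := by
    have h4 : ∏ j ∈ Ico 1 (2 ^ (k + 1)), (2 ^ j - 1) ≤
        ∏ j ∈ Ico 1 (2 ^ (k + 1)), 2 ^ (2 ^ (k + 1)) := by
      refine Finset.prod_le_prod' fun j hj => ?_
      have h5 : 2 ^ j ≤ 2 ^ (2 ^ (k + 1)) :=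
        Nat.pow_le_pow_right (by norm_num) (Finset.mem_Ico.1 hj).2.le
      exact (Nat.sub_le _ _).trans h5
    refine h4.trans ?_
    rw [Finset.prod_const, Nat.card_Ico, ← pow_mul]
    refine Nat.pow_le_pow_right (by norm_num) ?_
    have h6 : (4 : ℕ) ^ (k + 1) = 2 ^ (k + 1) * 2 ^ (k + 1) := by
      rw [← mul_pow]
      norm_num
    rw [h6]
    exact Nat.mul_le_mul_left _ (Nat.sub_le _ _)
  exact (Nat.pow_le_pow_iff_right (by norm_num)).1 (h1.trans h3)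

lemma ord_pos (d : ℕ) (hd : Odd d) : 0 < orderOf (2 : ZMod d) := by
  have h0 : NeZero d := ⟨by rintro rfl; simp at hd⟩
  have hu : IsUnit ((2 : ℕ) : ZMod d) :=
    (ZMod.isUnit_iff_coprime 2 d).2 ((Nat.coprime_two_left).2 hd)
  obtain ⟨u, hu⟩ := hu
  have h1 : (2 : ZMod d) = (u : ZMod d) := by rw [hu]; norm_num
  rw [h1, orderOf_units]
  exact orderOf_pos u

lemma dvd_pow (d : ℕ) : d ∣ 2 ^ orderOf (2 : ZMod d) - 1 := by
  have h1 : (2 : ZMod d) ^ orderOf (2 : ZMod d) = 1 := pow_orderOf_eq_one _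
  have h2 : ((2 ^ orderOf (2 : ZMod d) - 1 : ℕ) : ZMod d) = 0 := by
    rw [Nat.cast_sub (Nat.one_le_two_pow), Nat.cast_pow, Nat.cast_ofNat, h1, Nat.cast_one,
      sub_self]
  exact (ZMod.natCast_eq_zero_iff _ _).1 h2

lemma subset (d : ℕ) (hd : Odd d) : d.primeFactors ⊆ EE (lv d) := by
  intro p hp
  have hpp := Nat.prime_of_mem_primeFactors hp
  have hpd := Nat.dvd_of_mem_primeFactors hp
  unfold EE
  rw [Nat.mem_primeFactors]
  refine ⟨hpp, ?_, prod_ne _⟩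
  refine (hpd.trans (dvd_pow d)).trans (Finset.dvd_prod_of_mem (fun j => 2 ^ j - 1) ?_)
  rw [Finset.mem_Ico]
  exact ⟨ord_pos d hd, Nat.lt_pow_succ_log_self (by norm_num) _⟩

lemma term (d : ℕ) (hd : Squarefree d) :
    (4 : ℝ) ^ d.primeFactors.card / d = ∏ p ∈ d.primeFactors, (4 / (p : ℝ)) := by
  rw [Finset.prod_div_distrib, Finset.prod_const]
  congr 1
  rw [← Nat.cast_prod, Nat.prod_primeFactors_of_squarefree hd]

lemma block (F : Finset ℕ) (hF : ∀ d ∈ F, Squarefree d ∧ Odd d) (k : ℕ) :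
    ∑ d ∈ F.filter (fun d => lv d = k), (4 : ℝ) ^ d.primeFactors.card / d ≤
      ∏ p ∈ EE k, (1 + 4 / (p : ℝ)) := by
  rw [Finset.prod_one_add]
  have h1 : ∑ d ∈ F.filter (fun d => lv d = k), (4 : ℝ) ^ d.primeFactors.card / d =
      ∑ t ∈ (F.filter (fun d => lv d = k)).image Nat.primeFactors, ∏ p ∈ t, (4 / (p : ℝ)) := by
    rw [Finset.sum_image]
    · refine Finset.sum_congr rfl fun d hd => ?_
      exact term d (hF d (Finset.mem_filter.1 hd).1).1
    · intro a ha b hb hab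
      have ha' := (hF a (Finset.mem_filter.1 ha).1).1
      have hb' := (hF b (Finset.mem_filter.1 hb).1).1
      rw [← Nat.prod_primeFactors_of_squarefree ha', ← Nat.prod_primeFactors_of_squarefree hb']
      exact Finset.prod_congr hab fun _ _ => rfl
  rw [h1]
  refine Finset.sum_le_sum_of_subset_of_nonneg ?_ fun t _ _ =>
    Finset.prod_nonneg fun p _ => by positivity
  intro t ht
  obtain ⟨d, hd, rfl⟩ := Finset.mem_image.1 ht
  rw [Finset.mem_powerset]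
  obtain ⟨hd1, hd2⟩ := Finset.mem_filter.1 hd
  have h2 := subset d (hF d hd1).2
  rwa [hd2] at h2

lemma log_le (k : ℕ) : Real.log (((EE k).card : ℝ) + 2) ≤ 2 * ((k : ℝ) + 2) := by
  have h1 : ((EE k).card : ℝ) + 2 ≤ 4 ^ (k + 2) := by
    have h2 : ((EE k).card : ℝ) ≤ 4 ^ (k + 1) := by exact_mod_cast card_le k
    have h3 : (1 : ℝ) ≤ 4 ^ (k + 1) := one_le_pow₀ (by norm_num)
    have h4 : (4 : ℝ) ^ (k + 2) = 4 * 4 ^ (k + 1) := by ring
    rw [h4]
    linarith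
  have h5 : Real.log (((EE k).card : ℝ) + 2) ≤ Real.log (4 ^ (k + 2)) :=
    Real.log_le_log (by positivity) h1
  refine h5.trans ?_
  rw [Real.log_pow]
  have h6 : Real.log 4 ≤ 2 := by
    have h7 : (4 : ℝ) = 2 ^ 2 := by norm_num
    rw [h7, Real.log_pow]
    have h8 := Real.log_two_lt_d9
    push_cast
    linarith
  push_cast
  nlinarith [Nat.cast_nonneg (α := ℝ) k]

lemma summ : Summable fun k : ℕ => ((k : ℝ) + 2) ^ 4 / 2 ^ k := by
  have h1 : Summable fun k : ℕ => (k : ℝ) ^ 4 * (1 / 2 : ℝ) ^ k :=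
    summable_pow_mul_geometric_of_norm_lt_one 4 (by norm_num)
  have h2 := ((summable_nat_add_iff 2).2 h1).mul_left 4
  refine h2.congr fun k => ?_
  push_cast
  rw [one_div, inv_pow, pow_add]
  field_simp
  norm_num

end RMC_

open RMC_ in
theorem p_RMC (h : T_PRS) : T_RMC := by
  obtain ⟨C, hC, hP⟩ := h
  have hS := summ
  have hS0 : 0 ≤ ∑' k : ℕ, ((k : ℝ) + 2) ^ 4 / 2 ^ k := tsum_nonneg fun k => by positivity
  refine ⟨C * 16 * (∑' k : ℕ, ((k : ℝ) + 2) ^ 4 / 2 ^ k) + 1, by positivity, fun F hF => ?_⟩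
  have h1 : ∑ d ∈ F, (4 : ℝ) ^ d.primeFactors.card / (d * orderOf (2 : ZMod d)) =
      ∑ k ∈ F.image lv, ∑ d ∈ F.filter (fun d => lv d = k),
        (4 : ℝ) ^ d.primeFactors.card / (d * orderOf (2 : ZMod d)) :=
    (Finset.sum_fiberwise_of_maps_to (fun d hd => Finset.mem_image_of_mem lv hd) _).symm
  rw [h1]
  have h2 : ∀ k, ∑ d ∈ F.filter (fun d => lv d = k),
      (4 : ℝ) ^ d.primeFactors.card / (d * orderOf (2 : ZMod d)) ≤
        C * 16 * (((k : ℝ) + 2) ^ 4 / 2 ^ k) := by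
    intro k
    have h3 : ∑ d ∈ F.filter (fun d => lv d = k),
        (4 : ℝ) ^ d.primeFactors.card / (d * orderOf (2 : ZMod d)) ≤
        ∑ d ∈ F.filter (fun d => lv d = k), (4 : ℝ) ^ d.primeFactors.card / d * (1 / 2 ^ k) := by
      refine Finset.sum_le_sum fun d hd => ?_
      obtain ⟨hd1, hd2⟩ := Finset.mem_filter.1 hd
      have h4 := ord_pos d (hF d hd1).2
      have h5 : 2 ^ k ≤ orderOf (2 : ZMod d) := by
        rw [← hd2]
        exact Nat.pow_log_le_self 2 h4.ne'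
      have h6 : (2 : ℝ) ^ k ≤ (orderOf (2 : ZMod d) : ℝ) := by exact_mod_cast h5
      have h7 : (0 : ℝ) < 2 ^ k := by positivity
      rw [← div_div, div_eq_mul_one_div _ (orderOf (2 : ZMod d) : ℝ)]
      exact mul_le_mul_of_nonneg_left (one_div_le_one_div_of_le h7 h6) (by positivity)
    refine h3.trans ?_
    rw [← Finset.sum_mul]
    have h8 := (block F hF k).trans (hP (EE k) fun p hp => Nat.prime_of_mem_primeFactors hp)
    have h9 : 0 ≤ Real.log (((EE k).card : ℝ) + 2) :=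
      Real.log_nonneg (by linarith [Nat.cast_nonneg (α := ℝ) (EE k).card])
    have h10 : Real.log (((EE k).card : ℝ) + 2) ^ 4 ≤ (2 * ((k : ℝ) + 2)) ^ 4 :=
      pow_le_pow_left₀ h9 (log_le k) 4
    have h11 : ∑ d ∈ F.filter (fun d => lv d = k), (4 : ℝ) ^ d.primeFactors.card / d ≤
        C * (2 * ((k : ℝ) + 2)) ^ 4 := h8.trans (mul_le_mul_of_nonneg_left h10 hC.le)
    refine (mul_le_mul_of_nonneg_right h11 (by positivity)).trans (le_of_eq ?_)
    ring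
  refine (Finset.sum_le_sum fun k _ => h2 k).trans ?_
  rw [← Finset.mul_sum]
  have h12 : ∑ k ∈ F.image lv, ((k : ℝ) + 2) ^ 4 / 2 ^ k ≤ ∑' k : ℕ, ((k : ℝ) + 2) ^ 4 / 2 ^ k :=
    hS.sum_le_tsum _ fun k _ => by positivity
  have h13 := mul_le_mul_of_nonneg_left h12 (by positivity : (0 : ℝ) ≤ C * 16)
  linarith

end Pool.Agent.TEQ
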