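import Pool.Agent.TEQ.Targets
import Pool.Agent.TEQ.P_CRT
import Pool.Agent.SSN.SEL

/-!
# TEQ: target SIV (the sieve of Selberg for sets of residue classes)
-/

set_option autoImplicit false

open Finset

noncomputable section

namespace Pool.Agent.TEQ

namespace SIV_

/-- product of the primes whose forbidden classes contain `n` -/
def bad (P : Finset ℕ) (Ω : ℕ → Finset ℕ) (n : ℕ) : ℕ :=
  ∏ p ∈ P.filter (fun p => n % p ∈ Ω p), p

lemma sqf (P : Finset ℕ) (hP : ∀ p ∈ P, p.Prime) : Squarefree (∏ p ∈ P, p) := by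
  refine Finset.squarefree_prod_of_pairwise_isCoprime (fun p hp q hq hpq => ?_)
    fun p hp => (hP p hp).squarefree
  simp only [← Nat.coprime_iff_isRelPrime]
  exact (Nat.coprime_primes (hP p hp) (hP q hq)).mpr hpq

lemma dvd_bad (P : Finset ℕ) (Ω : ℕ → Finset ℕ) (hP : ∀ p ∈ P, p.Prime) (d : ℕ)
    (hd : d ∣ ∏ p ∈ P, p) (n : ℕ) :
    d ∣ bad P Ω n ↔ ∀ p ∈ d.primeFactors, n % p ∈ Ω p := by
  have hP' : ∀ p ∈ P.filter (fun p => n % p ∈ Ω p), p.Prime :=
    fun p hp => hP p (mem_filter.mp hp).1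
  have hsub : d.primeFactors ⊆ P := by
    have h1 := Nat.primeFactors_mono hd (sqf P hP).ne_zero
    rwa [Nat.primeFactors_prod hP] at h1
  have hdsq : Squarefree d := Squarefree.squarefree_of_dvd hd (sqf P hP)
  constructor
  · intro h p hp
    have h1 := Nat.primeFactors_mono h (sqf _ hP').ne_zero
    unfold bad at h1
    rw [Nat.primeFactors_prod hP'] at h1
    exact (mem_filter.mp (h1 hp)).2
  · intro h
    rw [← Nat.prod_primeFactors_of_squarefree hdsq]
    unfold bad
    refine Finset.prod_dvd_prod_of_subset _ _ _ fun p hp => ?_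
    exact mem_filter.mpr ⟨hsub hp, h p hp⟩

lemma fib (A : Finset ℕ) (b : ℕ → ℕ) (F : ℕ → Prop) [DecidablePred F] :
    ∑ v ∈ A.image b, (if F v then ((A.filter fun n => b n = v).card : ℝ) else 0) =
      ((A.filter fun n => F (b n)).card : ℝ) := by
  rw [Finset.card_filter, Nat.cast_sum]
  rw [← Finset.sum_fiberwise_of_maps_to (s := A) (t := A.image b) (g := b)
    (fun n hn => mem_image_of_mem b hn)]
  refine Finset.sum_congr rfl fun v _ => ?_
  have h1 : ∀ n ∈ A.filter (fun n => b n = v),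
      (((if F (b n) then 1 else 0 : ℕ)) : ℝ) = if F v then 1 else 0 := by
    intro n hn
    rw [(mem_filter.mp hn).2]
    split_ifs <;> simp
  rw [Finset.sum_congr rfl h1, Finset.sum_const, nsmul_eq_mul]
  split_ifs <;> simp

/-- the predicate is periodic -/
lemma per (S : Finset ℕ) (Ω : ℕ → Finset ℕ) (W : ℕ) (hW : ∀ p ∈ S, p ∣ W) (a : ℕ) :
    (∀ p ∈ S, (a + W) % p ∈ Ω p) ↔ ∀ p ∈ S, a % p ∈ Ω p := by
  refine forall₂_congr fun p hp => ?_
  obtain ⟨k, hk⟩ := hW p hp
  rw [hk, Nat.add_mul_mod_self_left]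

lemma cnt (Ω : ℕ → Finset ℕ) (S : Finset ℕ) : (∀ p ∈ S, p.Prime) →
    (∀ p ∈ S, Ω p ⊆ range p) →
    ((range (∏ p ∈ S, p)).filter fun n => ∀ p ∈ S, n % p ∈ Ω p).card = ∏ p ∈ S, (Ω p).card := by
  induction S using Finset.induction_on with
  | empty => intro _ _; simp
  | insert q S hq ih =>
    intro hP hO
    have hP' : ∀ p ∈ S, p.Prime := fun p hp => hP p (mem_insert_of_mem hp)
    have hO' : ∀ p ∈ S, Ω p ⊆ range p := fun p hp => hO p (mem_insert_of_mem hp)
    have hqp := hP q (mem_insert_self q S)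
    rw [Finset.prod_insert hq, Finset.prod_insert hq, ← ih hP' hO']
    have hcop : q.Coprime (∏ p ∈ S, p) := by
      refine Nat.Coprime.prod_right fun p hp => ?_
      refine (Nat.coprime_primes hqp (hP' p hp)).mpr ?_
      rintro rfl
      exact hq hp
    have h1 := p_CRT q (∏ p ∈ S, p) (fun n => n % q ∈ Ω q) (fun n => ∀ p ∈ S, n % p ∈ Ω p)
      hqp.pos (Nat.pos_of_ne_zero (sqf S hP').ne_zero) hcop
      (fun a => by simp only [Nat.add_mod_right])
      (fun a => per S Ω _ (fun p hp => Finset.dvd_prod_of_mem _ hp) a)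
    have h2 : ((range q).filter fun n => n % q ∈ Ω q).card = (Ω q).card := by
      refine congrArg Finset.card ?_
      ext n
      rw [mem_filter, mem_range]
      constructor
      · rintro ⟨h3, h4⟩
        rwa [Nat.mod_eq_of_lt h3] at h4
      · intro h3
        have h4 := mem_range.mp (hO q (mem_insert_self q S) h3)
        exact ⟨h4, by rwa [Nat.mod_eq_of_lt h4]⟩
    have h5 : ((range (q * ∏ p ∈ S, p)).filter fun n => ∀ p ∈ insert q S, n % p ∈ Ω p) =
        (range (q * ∏ p ∈ S, p)).filter fun n => n % q ∈ Ω q ∧ ∀ p ∈ S, n % p ∈ Ω p := by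
      refine Finset.filter_congr fun n _ => ?_
      rw [Finset.forall_mem_insert]
    have key : ∀ (s : Finset ℕ) (p : ℕ → Prop) (i j : DecidablePred p),
        (@Finset.filter ℕ p i s).card = (@Finset.filter ℕ p j s).card := by
      intro s p i j
      rw [Subsingleton.elim i j]
    rw [h5, ← h2]
    exact (key _ _ _ _).trans (h1.trans (congrArg₂ (· * ·) (key _ _ _ _) (key _ _ _ _)))

/-- numbers of an interval in a set of classes modulo `d` -/
lemma ival (Q : ℕ → Prop) [DecidablePred Q] (d : ℕ) (hd : 0 < d) (hQ : ∀ n, Q (n % d) ↔ Q n)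
    (a X : ℕ) :
    |(((Ico a (a + X)).filter Q).card : ℝ) - X * (((range d).filter Q).card / d)| ≤
      ((range d).filter Q).card := by
  have h1 : ((Ico a (a + X)).filter Q).card =
      ∑ r ∈ (range d).filter Q, ((Ico a (a + X)).filter fun n => n ≡ r [MOD d]).card := by
    rw [Finset.card_eq_sum_card_fiberwise (f := fun n => n % d) (t := (range d).filter Q)]
    · refine Finset.sum_congr rfl fun r hr => ?_
      rw [Finset.filter_filter]
      refine congrArg Finset.card (Finset.filter_congr fun n _ => ?_)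
      have hr1 := mem_range.mp (mem_filter.mp hr).1
      have hr2 := (mem_filter.mp hr).2
      constructor
      · rintro ⟨_, h3⟩
        show n % d = r % d
        rw [Nat.mod_eq_of_lt hr1]
        exact h3
      · intro h3
        have h4 : n % d = r := by
          have h5 : n % d = r % d := h3
          rwa [Nat.mod_eq_of_lt hr1] at h5
        exact ⟨(hQ n).mp (by rw [h4]; exact hr2), h4⟩
    · intro n hn
      have h2 := (mem_filter.mp (Finset.mem_coe.mp hn)).2
      exact Finset.mem_coe.mpr (mem_filter.mpr ⟨mem_range.mpr (Nat.mod_lt _ hd), (hQ n).mpr h2⟩)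
  have h2 : ∀ r : ℕ,
      |(((Ico a (a + X)).filter fun n => n ≡ r [MOD d]).card : ℝ) - X / d| ≤ 1 := by
    intro r
    have h3 := Nat.Ico_filter_modEq_card a (a + X) hd r
    have h4 := Int.ceil_lt_add_one ((((a + X : ℕ) : ℚ) - r) / d)
    have h5 := Int.le_ceil ((((a + X : ℕ) : ℚ) - r) / d)
    have h6 := Int.ceil_lt_add_one (((a : ℚ) - r) / d)
    have h7 := Int.le_ceil (((a : ℚ) - r) / d)
    have hX : (((a + X : ℕ) : ℚ) - r) / d = ((a : ℚ) - r) / d + X / d := by
      push_cast
      ring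
    have hX0 : (0 : ℚ) ≤ X / d := by positivity
    have h8 : |(((Ico a (a + X)).filter fun n => n ≡ r [MOD d]).card : ℚ) - X / d| ≤ 1 := by
      have h9 : (((Ico a (a + X)).filter fun n => n ≡ r [MOD d]).card : ℚ) =
          max (((⌈(((a + X : ℕ) : ℚ) - r) / d⌉ : ℤ) : ℚ) - ((⌈((a : ℚ) - r) / d⌉ : ℤ) : ℚ)) 0 := by
        have h10 := congrArg (fun z : ℤ => (z : ℚ)) h3
        simp only [Int.cast_natCast, Int.cast_max, Int.cast_sub, Int.cast_zero] at h10
        exact h10
      rw [h9, abs_le]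
      rw [hX] at h4 h5
      rw [hX]
      constructor
      · have := le_max_left (((⌈((a : ℚ) - r) / d + X / d⌉ : ℤ) : ℚ) -
          ((⌈((a : ℚ) - r) / d⌉ : ℤ) : ℚ)) 0
        linarith
      · have : max (((⌈((a : ℚ) - r) / d + X / d⌉ : ℤ) : ℚ) -
          ((⌈((a : ℚ) - r) / d⌉ : ℤ) : ℚ)) 0 ≤ X / d + 1 := by
          refine max_le ?_ ?_ <;> linarith
        linarith
    have h9 : ((|(((Ico a (a + X)).filter fun n => n ≡ r [MOD d]).card : ℚ) - X / d| : ℚ) : ℝ) ≤
        ((1 : ℚ) : ℝ) := by exact_mod_cast h8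
    push_cast at h9
    exact h9
  rw [h1]
  push_cast
  have h3 : (∑ r ∈ (range d).filter Q,
      (((Ico a (a + X)).filter fun n => n ≡ r [MOD d]).card : ℝ)) -
        X * (((range d).filter Q).card / d) =
      ∑ r ∈ (range d).filter Q,
        ((((Ico a (a + X)).filter fun n => n ≡ r [MOD d]).card : ℝ) - X / d) := by
    rw [Finset.sum_sub_distrib, Finset.sum_const, nsmul_eq_mul]
    ring
  rw [h3]
  refine (Finset.abs_sum_le_sum_abs _ _).trans ?_
  refine (Finset.sum_le_sum fun r _ => h2 r).trans ?_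
  rw [Finset.sum_const, nsmul_eq_mul, mul_one]

/-- the sieve -/
def sv (P : Finset ℕ) (Ω : ℕ → Finset ℕ) (a X L : ℕ) (hP : ∀ p ∈ P, p.Prime)
    (hO : ∀ p ∈ P, Ω p ⊆ range p ∧ 0 < (Ω p).card ∧ (Ω p).card < p) (hL : 1 ≤ L) :
    SelbergSieve where
  support := (Ico a (a + X)).image (bad P Ω)
  prodPrimes := ∏ p ∈ P, p
  prodPrimes_squarefree := sqf P hP
  weights := fun v => (((Ico a (a + X)).filter fun n => bad P Ω n = v).card : ℝ)
  weights_nonneg := fun v => Nat.cast_nonneg _
  totalMass := X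
  nu := ArithmeticFunction.prodPrimeFactors fun p => ((Ω p).card : ℝ) / p
  nu_mult := ArithmeticFunction.IsMultiplicative.prodPrimeFactors _
  nu_pos_of_prime := by
    intro p hp hd
    have hpP : p ∈ P := by
      have h1 := Nat.primeFactors_mono hd (sqf P hP).ne_zero
      rw [Nat.primeFactors_prod hP, hp.primeFactors] at h1
      exact h1 (mem_singleton_self p)
    rw [ArithmeticFunction.prodPrimeFactors_apply hp.ne_zero, hp.primeFactors, prod_singleton]
    have h1 := (hO p hpP).2.1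
    have h2 := hp.pos
    positivity
  nu_lt_one_of_prime := by
    intro p hp hd
    have hpP : p ∈ P := by
      have h1 := Nat.primeFactors_mono hd (sqf P hP).ne_zero
      rw [Nat.primeFactors_prod hP, hp.primeFactors] at h1
      exact h1 (mem_singleton_self p)
    rw [ArithmeticFunction.prodPrimeFactors_apply hp.ne_zero, hp.primeFactors, prod_singleton]
    have h2 := hp.pos
    rw [div_lt_one (by positivity)]
    exact_mod_cast (hO p hpP).2.2
  level := (L : ℝ) ^ 2
  one_le_level := by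
    have : (1 : ℝ) ≤ L := by exact_mod_cast hL
    nlinarith

end SIV_

open SIV_ in
/-- SIV -/
theorem p_SIV : T_SIV := by
  intro P Ω a X L hP hO hL
  have hsq := sqf P hP
  have hsub : ∀ d, d ∣ ∏ p ∈ P, p → d.primeFactors ⊆ P := by
    intro d hd
    have h1 := Nat.primeFactors_mono hd hsq.ne_zero
    rwa [Nat.primeFactors_prod hP] at h1
  have h1 := SSN.p_SEL (sv P Ω a X L hP hO hL) (Nat.cast_nonneg X)
  have hL0 : (0 : ℝ) ≤ L := Nat.cast_nonneg L
  have hS : (sv P Ω a X L hP hO hL).siftedSum =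
      (((Ico a (a + X)).filter fun n => ∀ p ∈ P, n % p ∉ Ω p).card : ℝ) := by
    have h2 := fib (Ico a (a + X)) (bad P Ω) (fun v => Nat.Coprime (∏ p ∈ P, p) v)
    refine Eq.trans ?_ (h2.trans ?_)
    · rfl
    · refine congrArg (fun s : Finset ℕ => (s.card : ℝ)) (Finset.filter_congr fun n _ => ?_)
      constructor
      · intro h3 p hp h4
        have h5 : p ∣ bad P Ω n := Finset.dvd_prod_of_mem _ (mem_filter.mpr ⟨hp, h4⟩)
        have h6 : p ∣ ∏ p ∈ P, p := Finset.dvd_prod_of_mem _ hp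
        have h7 := Nat.dvd_gcd h6 h5
        rw [h3] at h7
        exact (hP p hp).one_lt.ne' (Nat.dvd_one.mp h7)
      · intro h3
        have h4 : P.filter (fun p => n % p ∈ Ω p) = ∅ :=
          Finset.filter_eq_empty_iff.mpr fun p hp => h3 p hp
        show Nat.Coprime _ (bad P Ω n)
        unfold bad
        rw [h4, Finset.prod_empty]
        exact Nat.coprime_one_right _
  have hM : (∑ l ∈ (sv P Ω a X L hP hO hL).prodPrimes.divisors,
      if (l : ℝ) ^ 2 ≤ (sv P Ω a X L hP hO hL).level then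
        (sv P Ω a X L hP hO hL).selbergTerms l else 0) =
      ∑ l ∈ (∏ p ∈ P, p).divisors.filter (· ≤ L),
        ∏ p ∈ l.primeFactors, ((Ω p).card : ℝ) / (p - (Ω p).card) := by
    rw [Finset.sum_filter]
    refine Finset.sum_congr rfl fun l hl => ?_
    have hl' : l ∣ ∏ p ∈ P, p := Nat.dvd_of_mem_divisors hl
    have hl0 : l ≠ 0 := (Nat.pos_of_mem_divisors hl).ne'
    have h2 : (l : ℝ) ^ 2 ≤ (sv P Ω a X L hP hO hL).level ↔ l ≤ L := by
      show (l : ℝ) ^ 2 ≤ (L : ℝ) ^ 2 ↔ l ≤ L
      rw [sq_le_sq₀ (Nat.cast_nonneg l) hL0, Nat.cast_le]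
    by_cases h3 : l ≤ L
    · rw [if_pos (h2.mpr h3), if_pos h3, BoundingSieve.selbergTerms_apply]
      show (ArithmeticFunction.prodPrimeFactors fun p => ((Ω p).card : ℝ) / p) l *
        ∏ p ∈ l.primeFactors,
          (1 - (ArithmeticFunction.prodPrimeFactors fun p => ((Ω p).card : ℝ) / p) p)⁻¹ = _
      rw [ArithmeticFunction.prodPrimeFactors_apply hl0, ← Finset.prod_mul_distrib]
      refine Finset.prod_congr rfl fun p hp => ?_
      have hpp := Nat.prime_of_mem_primeFactors hp
      have hO1 := (hO p (hsub l hl' hp)).2.2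
      rw [ArithmeticFunction.prodPrimeFactors_apply hpp.ne_zero, hpp.primeFactors,
        prod_singleton]
      have hp0 : (0 : ℝ) < p := by exact_mod_cast hpp.pos
      have h4 : ((Ω p).card : ℝ) < p := by exact_mod_cast hO1
      have h5 : (p : ℝ) - (Ω p).card ≠ 0 := by linarith
      have h6 : (1 : ℝ) - ((Ω p).card : ℝ) / p ≠ 0 := by
        rw [one_sub_div hp0.ne']
        exact div_ne_zero h5 hp0.ne'
      field_simp
    · rw [if_neg (fun h => h3 (h2.mp h)), if_neg h3]
  have hE : (∑ d ∈ (sv P Ω a X L hP hO hL).prodPrimes.divisors,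
      if (d : ℝ) ≤ (sv P Ω a X L hP hO hL).level then
        (d : ℝ) ^ 2 * |(sv P Ω a X L hP hO hL).rem d| else 0) ≤ (L : ℝ) ^ 8 := by
    have h2 : ∀ d ∈ (∏ p ∈ P, p).divisors, |(sv P Ω a X L hP hO hL).rem d| ≤ d := by
      intro d hd
      have hd' : d ∣ ∏ p ∈ P, p := Nat.dvd_of_mem_divisors hd
      have hd0 : 0 < d := Nat.pos_of_mem_divisors hd
      have hdsq : Squarefree d := Squarefree.squarefree_of_dvd hd' hsq
      have h3 := ival (fun n => ∀ p ∈ d.primeFactors, n % p ∈ Ω p) d hd0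
        (fun n => by
          refine forall₂_congr fun p hp => ?_
          rw [Nat.mod_mod_of_dvd _ (Nat.dvd_of_mem_primeFactors hp)]) a X
      have h4 := cnt Ω d.primeFactors (fun p hp => Nat.prime_of_mem_primeFactors hp)
        (fun p hp => (hO p (hsub d hd' hp)).1)
      rw [Nat.prod_primeFactors_of_squarefree hdsq] at h4
      have h5 : (sv P Ω a X L hP hO hL).rem d =
          (((Ico a (a + X)).filter fun n => ∀ p ∈ d.primeFactors, n % p ∈ Ω p).card : ℝ) -
          X * (((range d).filter fun n => ∀ p ∈ d.primeFactors, n % p ∈ Ω p).card / d) := by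
        have h6 := fib (Ico a (a + X)) (bad P Ω) (fun v => d ∣ v)
        have h7 : ((Ico a (a + X)).filter fun n => d ∣ bad P Ω n) =
            (Ico a (a + X)).filter fun n => ∀ p ∈ d.primeFactors, n % p ∈ Ω p :=
          Finset.filter_congr fun n _ => dvd_bad P Ω hP d hd' n
        rw [h7] at h6
        have h8 : (ArithmeticFunction.prodPrimeFactors fun p => ((Ω p).card : ℝ) / p) d =
            ((range d).filter fun n => ∀ p ∈ d.primeFactors, n % p ∈ Ω p).card / d := by
          rw [ArithmeticFunction.prodPrimeFactors_apply hd0.ne', h4, Finset.prod_div_distrib]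
          have h9 : (d : ℝ) = ∏ p ∈ d.primeFactors, (p : ℝ) := by
            have h10 := Nat.prod_primeFactors_of_squarefree hdsq
            rw [← Nat.cast_prod, h10]
          rw [← h9]
          push_cast
          rfl
        rw [← h6, ← h8]
        show _ - _ * (X : ℝ) = _
        rw [mul_comm]
        rfl
      rw [h5]
      refine h3.trans ?_
      have h6 := Finset.card_filter_le (range d) (fun n => ∀ p ∈ d.primeFactors, n % p ∈ Ω p)
      rw [Finset.card_range] at h6
      exact_mod_cast h6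
    have h3 : ∀ d ∈ (∏ p ∈ P, p).divisors,
        (if (d : ℝ) ≤ (sv P Ω a X L hP hO hL).level then
          (d : ℝ) ^ 2 * |(sv P Ω a X L hP hO hL).rem d| else 0) ≤
        if d ≤ L ^ 2 then (L : ℝ) ^ 6 else 0 := by
      intro d hd
      have h4 : (d : ℝ) ≤ (sv P Ω a X L hP hO hL).level ↔ d ≤ L ^ 2 := by
        show (d : ℝ) ≤ (L : ℝ) ^ 2 ↔ d ≤ L ^ 2
        rw [← Nat.cast_pow, Nat.cast_le]
      by_cases h5 : d ≤ L ^ 2
      · rw [if_pos (h4.mpr h5), if_pos h5]
        have h6 : (d : ℝ) ≤ (L : ℝ) ^ 2 := by exact_mod_cast h5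
        have h7 := h2 d hd
        calc (d : ℝ) ^ 2 * |(sv P Ω a X L hP hO hL).rem d| ≤ (d : ℝ) ^ 2 * d :=
              mul_le_mul_of_nonneg_left h7 (by positivity)
          _ = (d : ℝ) ^ 3 := by ring
          _ ≤ ((L : ℝ) ^ 2) ^ 3 := pow_le_pow_left₀ (Nat.cast_nonneg d) h6 3
          _ = (L : ℝ) ^ 6 := by ring
      · rw [if_neg (fun h => h5 (h4.mp h)), if_neg h5]
    refine (Finset.sum_le_sum h3).trans ?_
    rw [← Finset.sum_filter, Finset.sum_const, nsmul_eq_mul]
    have h4 : ((∏ p ∈ P, p).divisors.filter (· ≤ L ^ 2)).card ≤ L ^ 2 := by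
      have h5 : (∏ p ∈ P, p).divisors.filter (· ≤ L ^ 2) ⊆ Icc 1 (L ^ 2) := by
        intro d hd
        have h6 := mem_filter.mp hd
        exact mem_Icc.mpr ⟨Nat.pos_of_mem_divisors h6.1, h6.2⟩
      have h6 := Finset.card_le_card h5
      rwa [Nat.card_Icc, Nat.add_sub_cancel] at h6
    have h5 : (((∏ p ∈ P, p).divisors.filter (· ≤ L ^ 2)).card : ℝ) ≤ (L : ℝ) ^ 2 := by
      exact_mod_cast h4
    calc (((∏ p ∈ P, p).divisors.filter (· ≤ L ^ 2)).card : ℝ) * (L : ℝ) ^ 6 ≤
          (L : ℝ) ^ 2 * (L : ℝ) ^ 6 := mul_le_mul_of_nonneg_right h5 (by positivity)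
      _ = (L : ℝ) ^ 8 := by ring
  rw [hS, hM] at h1
  exact h1.trans (add_le_add le_rfl hE)

end Pool.Agent.TEQ
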