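import Pool.Agent.TEQ.Targets

/-!
# TEQ, target SQM: units congruent to 1 mod D are squares
-/

set_option autoImplicit false

namespace Pool.Agent.TEQ

namespace SQM_

/-- integer form of the statement, by induction on the primes of the quotient -/
theorem main (D : ℕ) (h8 : 8 ∣ D) (k : ℕ) : k ≠ 0 → (∀ p : ℕ, p.Prime → p ∣ k → p ∣ D) →
    ∀ w : ℤ, (D : ℤ) ∣ w - 1 → ∃ v : ℤ, ((D * k : ℕ) : ℤ) ∣ v ^ 2 - w := by
  induction k using induction_on_primes with
  | zero => intro h; exact absurd rfl h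
  | one =>
    intro _ _ w hw
    refine ⟨1, ?_⟩
    rw [mul_one, one_pow]
    have h1 := (dvd_neg (α := ℤ)).2 hw
    rwa [neg_sub] at h1
  | prime_mul p a hp ih =>
    intro hk hpr w hw
    have ha : a ≠ 0 := fun h => hk (by rw [h, mul_zero])
    obtain ⟨v, t, ht⟩ := ih ha (fun q hq hqa => hpr q hq (hqa.mul_left p)) w hw
    have hpD : p ∣ D := hpr p hp (Dvd.intro a rfl)
    have hpD' : (p : ℤ) ∣ (D : ℤ) := by exact_mod_cast hpD
    have hpM : (p : ℤ) ∣ ((D * a : ℕ) : ℤ) := by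
      push_cast
      exact hpD'.mul_right _
    have hpp : Prime (p : ℤ) := Nat.prime_iff_prime_int.1 hp
    -- the prime does not divide the root
    have hv : ¬ (p : ℤ) ∣ v := by
      intro h
      have h1 : (p : ℤ) ∣ v ^ 2 - w := hpM.trans ⟨t, ht⟩
      have h2 : (p : ℤ) ∣ w - 1 := hpD'.trans hw
      have h3 : (p : ℤ) ∣ v ^ 2 := h.trans (dvd_pow_self v two_ne_zero)
      have h4 : (p : ℤ) ∣ 1 := by
        have h5 := dvd_sub (dvd_sub h3 h1) h2
        have h6 : v ^ 2 - (v ^ 2 - w) - (w - 1) = 1 := by ring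
        rwa [h6] at h5
      exact hpp.not_isUnit (isUnit_of_dvd_one h4)
    by_cases hp2 : p = 2
    · subst hp2
      obtain ⟨d, rfl⟩ := h8
      have h1 : (2 : ℤ) ∣ v + 1 := by
        have h2 : ¬ (2 : ℤ) ∣ v := by exact_mod_cast hv
        omega
      obtain ⟨j, hj⟩ := h1
      refine ⟨v + 4 * (d * a) * t, t * j + (d * a) * t ^ 2, ?_⟩
      push_cast at ht ⊢
      have h3 : v ^ 2 = w + 8 * d * a * t := by linarith
      have h4 : (v + 4 * (d * a) * t) ^ 2 - w =
          (v ^ 2 - w) + 8 * (d * a) * t * v + 16 * (d * a) ^ 2 * t ^ 2 := by ring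
      rw [h4, h3]
      have h5 : v = 2 * j - 1 := by linarith
      rw [h5]
      ring
    · have h2 : IsCoprime (2 * v) (p : ℤ) := by
        rw [IsCoprime.mul_left_iff]
        constructor
        · have h3 : Nat.Coprime 2 p := (Nat.coprime_primes Nat.prime_two hp).2 (Ne.symm hp2)
          exact_mod_cast Nat.isCoprime_iff_coprime.2 h3
        · exact (hpp.coprime_iff_not_dvd.2 hv).symm
      obtain ⟨x, y, hxy⟩ := h2
      obtain ⟨n, hn⟩ := hpM
      refine ⟨v + ((D * a : ℕ) : ℤ) * (-(t * x)), t * y + n * (t * x) ^ 2, ?_⟩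
      have h3 : v ^ 2 = w + ((D * a : ℕ) : ℤ) * t := by linarith
      have h4 : (v + ((D * a : ℕ) : ℤ) * (-(t * x))) ^ 2 - w =
          (v ^ 2 - w) - 2 * v * ((D * a : ℕ) : ℤ) * (t * x) +
            ((D * a : ℕ) : ℤ) * ((D * a : ℕ) : ℤ) * (t * x) ^ 2 := by ring
      have h6 : ((D * (p * a) : ℕ) : ℤ) = ((D * a : ℕ) : ℤ) * p := by
        push_cast
        ring
      rw [h4, h3, h6]
      have h5 : t = t * (x * (2 * v) + y * p) := by rw [hxy, mul_one]
      have h7 : w + ((D * a : ℕ) : ℤ) * t - w - 2 * v * ((D * a : ℕ) : ℤ) * (t * x) =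
          ((D * a : ℕ) : ℤ) * (t - t * (x * (2 * v))) := by ring
      have h8 : t - t * (x * (2 * v)) = t * y * p := by linear_combination t * hxy.symm
      rw [h7, h8]
      have h9 : ((D * a : ℕ) : ℤ) * ((D * a : ℕ) : ℤ) * (t * x) ^ 2 =
          ((D * a : ℕ) : ℤ) * ((p : ℤ) * n) * (t * x) ^ 2 := by
        rw [← hn]
      rw [h9]
      ring

end SQM_

theorem p_SQM : T_SQM := by
  intro m D h hm h8 hpf u hu
  obtain ⟨k, rfl⟩ := h
  have hk : k ≠ 0 := fun h => hm (by rw [h, mul_zero])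
  have hD : D ≠ 0 := fun h => hm (by rw [h, zero_mul])
  have hpr : ∀ p : ℕ, p.Prime → p ∣ k → p ∣ D := by
    intro p hp hpk
    have h1 : p ∈ (D * k).primeFactors := Nat.mem_primeFactors.2 ⟨hp, hpk.mul_left D, hm⟩
    rw [hpf] at h1
    exact Nat.dvd_of_mem_primeFactors h1
  obtain ⟨w, hw⟩ := ZMod.intCast_surjective (u : ZMod (D * k))
  have hwD : (D : ℤ) ∣ w - 1 := by
    have h1 : ((ZMod.unitsMap (Dvd.intro k rfl) u : (ZMod D)ˣ) : ZMod D) = 1 := by
      rw [hu, Units.val_one]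
    rw [ZMod.unitsMap_val, ← hw] at h1
    have h2 : ((w : ZMod (D * k)).cast : ZMod D) = (w : ZMod D) :=
      ZMod.cast_intCast (Dvd.intro k rfl) w
    rw [h2] at h1
    have h3 : ((w - 1 : ℤ) : ZMod D) = 0 := by
      rw [Int.cast_sub, h1, Int.cast_one, sub_self]
    exact (ZMod.intCast_zmod_eq_zero_iff_dvd _ _).1 h3
  obtain ⟨v, hv⟩ := SQM_.main D h8 k hk hpr w hwD
  have hv2 : ((v : ZMod (D * k))) ^ 2 = u := by
    have h1 := (ZMod.intCast_zmod_eq_zero_iff_dvd _ _).2 hv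
    rw [Int.cast_sub, Int.cast_pow, sub_eq_zero] at h1
    rw [h1, hw]
  have hvu : IsUnit (v : ZMod (D * k)) := by
    rw [← isUnit_pow_iff two_ne_zero, hv2]
    exact u.isUnit
  refine ⟨hvu.unit, Units.ext ?_⟩
  rw [Units.val_pow_eq_pow_val, IsUnit.unit_spec, hv2]

end Pool.Agent.TEQ
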