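import Pool.Agent.TEQ.Targets

/-!
# TEQ: one more scale (STP)
-/

set_option autoImplicit false

open Finset

noncomputable section

namespace Pool.Agent.TEQ

namespace STP_

lemma mem_PI {y z p : ℕ} : p ∈ PI y z ↔ (y < p ∧ p ≤ z) ∧ p.Prime := by
  simp [PI]

lemma mem_PP {y p : ℕ} : p ∈ PP y ↔ p ≤ y ∧ p.Prime := by
  simp [PP]

lemma PR_pos (y z : ℕ) : 0 < PR y z :=
  Finset.prod_pos fun _ hp => (mem_PI.1 hp).2.pos

lemma prime_dvd_PR {y z p : ℕ} (hp : p.Prime) : p ∣ PR y z ↔ p ∈ PI y z := by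
  constructor
  · intro h
    obtain ⟨q, hq, h1⟩ := (Prime.dvd_finsetProd_iff hp.prime _).1 h
    rwa [(Nat.prime_dvd_prime_iff_eq hp (mem_PI.1 hq).2).1 h1]
  · exact fun h => Finset.dvd_prod_of_mem _ h

lemma mem_SS {y z T s : ℕ} {Q : Finset ℕ} (h : s ∈ SS y z T Q) :
    1 ≤ s ∧ s ≤ z ∧ Rough y s := by
  classical
  unfold SS at h
  have h' := Finset.mem_filter.1 h
  have h1 := Finset.mem_Icc.1 h'.1
  exact ⟨h1.1, h1.2, h'.2.1⟩

lemma dvd_pow_PR {y z s : ℕ} (h1 : 1 ≤ s) (h2 : s ≤ z) (h3 : Rough y s) : s ∣ PR y z ^ z := by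
  have hs : s ≠ 0 := by omega
  have hR : PR y z ^ z ≠ 0 := pow_ne_zero _ (PR_pos y z).ne'
  rw [← Nat.factorization_le_iff_dvd hs hR]
  intro p
  by_cases hp : p ∈ s.primeFactors
  · have hpp := Nat.prime_of_mem_primeFactors hp
    have hps := Nat.dvd_of_mem_primeFactors hp
    have hpR : p ∣ PR y z := by
      rw [prime_dvd_PR hpp, mem_PI]
      refine ⟨⟨?_, (Nat.le_of_dvd (by omega) hps).trans h2⟩, hpp⟩
      by_contra hn
      exact h3 p hpp (not_lt.1 hn) hps
    have h4 : 1 ≤ (PR y z).factorization p :=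
      (hpp.dvd_iff_one_le_factorization (PR_pos y z).ne').1 hpR
    have h5 : s.factorization p < s := Nat.factorization_lt p hs
    rw [Nat.factorization_pow, Finsupp.smul_apply, smul_eq_mul]
    nlinarith
  · rw [Finsupp.notMem_support_iff.1 (by rwa [Nat.support_factorization])]
    exact Nat.zero_le _

/-- the event `s ∣ a`, `a / s` coprime to the primes of the scale -/
def E (y z s a : ℕ) : Prop := s ∣ a ∧ (a / s).Coprime (PR y z)

lemma E_add {y z s M : ℕ} (h1 : 1 ≤ s) (h2 : s ≤ z) (h3 : Rough y s)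
    (hM : PR y z ^ (z + 1) ∣ M) (a : ℕ) : E y z s (a + M) ↔ E y z s a := by
  have hs : 0 < s := h1
  have h4 : s * PR y z ∣ PR y z ^ (z + 1) := by
    rw [pow_succ]
    exact Nat.mul_dvd_mul_right (dvd_pow_PR h1 h2 h3) _
  have h5 : s * PR y z ∣ M := h4.trans hM
  obtain ⟨t, rfl⟩ := h5
  have h6 : s ∣ s * PR y z * t := ⟨PR y z * t, by ring⟩
  unfold E
  have h7 : (a + s * PR y z * t) / s = a / s + PR y z * t := by
    rw [Nat.add_div_of_dvd_left h6]
    congr 1
    rw [mul_assoc, Nat.mul_div_cancel_left _ hs]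
  rw [h7, (Nat.dvd_add_left h6), Nat.coprime_add_mul_left_left]

lemma E_unique {y z s s' a : ℕ} (h1 : 1 ≤ s) (h2 : s ≤ z) (h3 : Rough y s)
    (h1' : 1 ≤ s') (h2' : s' ≤ z) (h3' : Rough y s') (h : E y z s a) (h' : E y z s' a) :
    s = s' := by
  obtain ⟨⟨t, rfl⟩, h5⟩ := h
  obtain ⟨⟨t', h6⟩, h7⟩ := h'
  rw [Nat.mul_div_cancel_left _ h1] at h5
  rw [h6, Nat.mul_div_cancel_left _ h1'] at h7
  refine Nat.dvd_antisymm ?_ ?_
  · have h8 : s ∣ s' * t' := ⟨t, h6.symm⟩
    have h9 : Nat.Coprime s t' :=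
      Nat.Coprime.coprime_dvd_left (dvd_pow_PR h1 h2 h3) (h7.symm.pow_left z)
    exact h9.dvd_of_dvd_mul_right h8
  · have h8 : s' ∣ s * t := ⟨t', h6⟩
    have h9 : Nat.Coprime s' t :=
      Nat.Coprime.coprime_dvd_left (dvd_pow_PR h1' h2' h3') (h5.symm.pow_left z)
    exact h9.dvd_of_dvd_mul_right h8

lemma QQ_add {y W M : ℕ} (hW : ∀ p ∈ PP y, p ∣ W) (hM : W ∣ M) (a : ℕ) :
    QQ y (a + M) = QQ y a := by
  unfold QQ
  refine Finset.filter_congr fun p hp => ?_
  exact (Nat.dvd_add_left ((hW p hp).trans hM))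

end STP_

open STP_ in
/-- STP. -/
theorem p_STP (h1 : T_CNT) (h2 : T_CRT) : T_STP := by
  classical
  intro c y z T W B hc hyz hW hsm hPW hB hB2 hprob
  set R : ℕ := PR y z with hR
  set N : ℕ := R ^ (z + 1) with hN
  have hR0 : 0 < R := PR_pos y z
  have hN0 : 0 < N := pow_pos hR0 _
  have hcop : W.Coprime N := by
    refine Nat.Coprime.pow_right _ (Nat.Coprime.symm ?_)
    refine Nat.coprime_of_dvd ?_
    intro p hp hpR hpW
    have h3 := (mem_PI.1 ((prime_dvd_PR hp).1 hpR)).1.1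
    have h4 := hsm p hp hpW
    omega
  have hper : ∀ a, Good y z T (a + W * N) ↔ Good y z T a := by
    intro a
    unfold Good
    rw [QQ_add hPW (Dvd.intro _ rfl) a]
    refine exists_congr fun s => and_congr_right fun hs => ?_
    obtain ⟨a1, a2, a3⟩ := mem_SS hs
    exact E_add a1 a2 a3 (Dvd.intro_left _ rfl) a
  refine ⟨W * N, Nat.mul_pos hW hN0, Dvd.intro _ rfl, ?_, ?_, hper, ?_⟩
  · intro p hp hpd
    rcases (Nat.Prime.dvd_mul hp).1 hpd with h | h
    · exact (hsm p hp h).trans hyz.le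
    · exact (mem_PI.1 ((prime_dvd_PR hp).1 (hp.dvd_of_dvd_pow h))).1.2
  · intro p hp
    obtain ⟨h3, hpp⟩ := mem_PP.1 hp
    by_cases hpy : p ≤ y
    · exact (hPW p (mem_PP.2 ⟨hpy, hpp⟩)).mul_right _
    · refine Dvd.dvd.mul_left ?_ _
      exact dvd_pow ((prime_dvd_PR hpp).2 (mem_PI.2 ⟨⟨not_le.1 hpy, h3⟩, hpp⟩))
        (Nat.succ_ne_zero _)
  -- counting
  set b : Finset ℕ → ℕ := fun Q => ((range W).filter fun a => B a ∧ QQ y a = Q).card with hb
  set f : (Σ _ : Finset ℕ, ℕ) → Finset ℕ := fun x =>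
    (range (W * N)).filter fun a => (B a ∧ QQ y a = x.1) ∧ E y z x.2 a with hf
  set I : Finset (Σ _ : Finset ℕ, ℕ) := (PP y).powerset.sigma fun Q => SS y z T Q with hI
  have hdisj : (I : Set (Σ _ : Finset ℕ, ℕ)).PairwiseDisjoint f := by
    rintro ⟨Q, s⟩ hx ⟨Q', s'⟩ hx' hne
    rw [Function.onFun, Finset.disjoint_left]
    intro a ha ha'
    simp only [hf, Finset.mem_filter] at ha ha'
    have e1 : Q = Q' := ha.2.1.2.symm.trans ha'.2.1.2
    subst e1
    simp only [hI, Finset.mem_coe, Finset.mem_sigma] at hx hx'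
    obtain ⟨a1, a2, a3⟩ := mem_SS hx.2
    obtain ⟨b1, b2, b3⟩ := mem_SS hx'.2
    have e2 : s = s' := E_unique a1 a2 a3 b1 b2 b3 ha.2.2 ha'.2.2
    exact hne (by rw [e2])
  have hsub : I.biUnion f ⊆ (range (W * N)).filter fun a => B a ∧ Good y z T a := by
    intro a ha
    rw [Finset.mem_biUnion] at ha
    obtain ⟨⟨Q, s⟩, hx, ha⟩ := ha
    simp only [hf, Finset.mem_filter] at ha
    simp only [hI, Finset.mem_sigma] at hx
    rw [Finset.mem_filter]
    refine ⟨ha.1, ha.2.1.1, s, ?_, ha.2.2⟩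
    rw [ha.2.1.2]
    exact hx.2
  have hcard : ∀ x ∈ I, (((f x).card : ℕ) : ℝ) =
      b x.1 * ((R : ℝ) ^ (z + 1) / x.2 * ∏ p ∈ PI y z, (1 - 1 / (p : ℝ))) := by
    rintro ⟨Q, s⟩ hx
    simp only [hI, Finset.mem_sigma] at hx
    obtain ⟨a1, a2, a3⟩ := mem_SS hx.2
    have e1 := h2 W N (fun a => B a ∧ QQ y a = Q) (E y z s) hW hN0 hcop
      (fun a => by rw [hB a, QQ_add hPW dvd_rfl a]) (fun a => E_add a1 a2 a3 dvd_rfl a)
    have e2 := h1 y z s (z + 1) a3 a1 a2 (Nat.le_succ _) (Nat.succ_pos _)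
    have e3 : (f ⟨Q, s⟩).card = b Q * ((range N).filter (E y z s)).card := by
      change ((range (W * N)).filter fun a => (B a ∧ QQ y a = Q) ∧ E y z s a).card =
        ((range W).filter fun a => B a ∧ QQ y a = Q).card * _
      convert e1
    have e4 : ((range N).filter (E y z s)).card = ((range (PR y z ^ (z + 1))).filter fun b =>
        s ∣ b ∧ (b / s).Coprime (PR y z)).card := by
      congr 1
      ext b
      simp [E, hN, hR]
    rw [e3, Nat.cast_mul, e4]
    congr 1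
  have hsum : ∀ Q ∈ (PP y).powerset, (b Q : ℝ) * ((R : ℝ) ^ (z + 1)) * c ≤
      ∑ s ∈ SS y z T Q, (b Q * ((R : ℝ) ^ (z + 1) / s * ∏ p ∈ PI y z, (1 - 1 / (p : ℝ)))) := by
    intro Q hQ
    by_cases hb0 : b Q = 0
    · rw [hb0]
      simp
    · obtain ⟨a, ha⟩ := Finset.card_pos.1 (Nat.pos_of_ne_zero hb0)
      rw [Finset.mem_filter] at ha
      have h3 := hB2 a ha.2.1
      rw [ha.2.2] at h3
      have h4 := hprob Q (Finset.mem_powerset.1 hQ) h3.1 h3.2
      have e : ∑ s ∈ SS y z T Q, (b Q * ((R : ℝ) ^ (z + 1) / s *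
          ∏ p ∈ PI y z, (1 - 1 / (p : ℝ)))) =
          (b Q : ℝ) * ((R : ℝ) ^ (z + 1)) * ((∏ p ∈ PI y z, (1 - 1 / (p : ℝ))) *
            ∑ s ∈ SS y z T Q, 1 / (s : ℝ)) := by
        rw [Finset.mul_sum, Finset.mul_sum]
        refine Finset.sum_congr rfl fun s _ => ?_
        ring
      rw [e]
      exact mul_le_mul_of_nonneg_left h4 (by positivity)
  have hbsum : ∑ Q ∈ (PP y).powerset, b Q = ((range W).filter B).card := by
    have e1 : ∀ a ∈ (range W).filter B, QQ y a ∈ (PP y).powerset := by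
      intro a _
      rw [Finset.mem_powerset]
      exact Finset.filter_subset _ _
    rw [Finset.card_eq_sum_card_fiberwise e1]
    refine Finset.sum_congr rfl fun Q _ => ?_
    rw [hb, Finset.filter_filter]
  have hgood : (((range W).filter B).card : ℝ) * (R : ℝ) ^ (z + 1) * c ≤
      (((range (W * N)).filter fun a => B a ∧ Good y z T a).card : ℝ) := by
    have g1 : (((I.biUnion f).card : ℕ) : ℝ) ≤
        (((range (W * N)).filter fun a => B a ∧ Good y z T a).card : ℝ) := by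
      exact_mod_cast Finset.card_le_card hsub
    refine le_trans ?_ g1
    rw [Finset.card_biUnion hdisj, Nat.cast_sum, Finset.sum_congr rfl hcard]
    have g2 : ∑ x ∈ I, ((b x.1 : ℝ) * ((R : ℝ) ^ (z + 1) / x.2 *
        ∏ p ∈ PI y z, (1 - 1 / (p : ℝ)))) = ∑ Q ∈ (PP y).powerset, ∑ s ∈ SS y z T Q,
        (b Q * ((R : ℝ) ^ (z + 1) / s * ∏ p ∈ PI y z, (1 - 1 / (p : ℝ)))) := by
      rw [hI, Finset.sum_sigma]
    rw [g2]
    refine le_trans ?_ (Finset.sum_le_sum hsum)
    rw [← hbsum, Nat.cast_sum, Finset.sum_mul, Finset.sum_mul]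
  have hall : (((range (W * N)).filter B).card : ℝ) =
      (((range W).filter B).card : ℝ) * (R : ℝ) ^ (z + 1) := by
    have e1 := h2 W N B (fun _ => True) hW hN0 hcop hB (fun _ => Iff.rfl)
    have e2 : ((range (W * N)).filter B).card = ((range W).filter B).card * N := by
      have e3 : ((range N).filter fun _ => True).card = N := by simp
      have e4 : ((range (W * N)).filter fun a => B a ∧ True) = (range (W * N)).filter B := by
        refine Finset.filter_congr fun a _ => ?_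
        simp
      have e5 : ((range (W * N)).filter fun a => B a ∧ True).card =
          ((range W).filter B).card * ((range N).filter fun _ => True).card := by
        convert e1
      rw [← e4, e5, e3]
    rw [e2, Nat.cast_mul, hN]
    push_cast
    ring
  have hsplit : ((range (W * N)).filter fun a => B a ∧ Good y z T a).card +
      ((range (W * N)).filter fun a => B a ∧ ¬ Good y z T a).card =
      ((range (W * N)).filter B).card := by
    have e1 := Finset.card_filter_add_card_filter_not (s := (range (W * N)).filter B)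
      (fun a => Good y z T a)
    rw [Finset.filter_filter, Finset.filter_filter] at e1
    exact e1
  have hsplitR : (((range (W * N)).filter fun a => B a ∧ Good y z T a).card : ℝ) +
      (((range (W * N)).filter fun a => B a ∧ ¬ Good y z T a).card : ℝ) =
      (((range (W * N)).filter B).card : ℝ) := by exact_mod_cast hsplit
  have hNR : (N : ℝ) = (R : ℝ) ^ (z + 1) := by rw [hN]; push_cast; rfl
  have hNR0 : (0 : ℝ) < (R : ℝ) ^ (z + 1) := by positivity
  have hWR0 : (0 : ℝ) < (W : ℝ) := by exact_mod_cast hW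
  have hfin : (((range (W * N)).filter fun a => B a ∧ ¬ Good y z T a).card : ℝ) /
      ((W * N : ℕ) : ℝ) ≤ (1 - c) * ((((range W).filter B).card : ℝ) / W) := by
    rw [Nat.cast_mul, hNR, div_le_iff₀ (by positivity)]
    have e1 : (1 - c) * ((((range W).filter B).card : ℝ) / W) * ((W : ℝ) * (R : ℝ) ^ (z + 1)) =
        (1 - c) * (((range W).filter B).card : ℝ) * (R : ℝ) ^ (z + 1) := by
      field_simp
    rw [e1]
    nlinarith
  convert hfin using 2

end Pool.Agent.TEQ
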