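import Pool.Agent.TEQ.Targets

/-!
# TEQ: the target SV2 (helper24)

Sieve bound for the `s ∈ [S, 2S)` with `s` free of primes `≤ y` and `m s + 1`, `m' s + 1` prime.
-/

set_option autoImplicit false

open Finset

noncomputable section

namespace Pool.Agent.TEQ

namespace SV2_

/-! ### Choice of the levels -/

theorem levels (B : ℕ) (y : ℕ) (δ : ℝ) (hδ : 0 < δ) :
    ∃ S₀ : ℕ, 2 ≤ S₀ ∧ ∀ S : ℕ, S₀ ≤ S → ∃ L' : ℕ, 2 ≤ L' ∧ L' ≤ S ∧ y ≤ S ∧
      Real.log S / 50 ≤ Real.log L' ∧ ((B * L' : ℕ) : ℝ) ^ 8 ≤ δ * S / (Real.log S) ^ 2 := by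
  have e1 : ∀ᶠ x : ℝ in Filter.atTop, 2 ≤ x := Filter.eventually_ge_atTop 2
  have e2 : ∀ᶠ x : ℝ in Filter.atTop, (y : ℝ) ≤ x := Filter.eventually_ge_atTop _
  have e3 : ∀ᶠ x : ℝ in Filter.atTop, 2 ≤ x ^ (49 / 50 : ℝ) :=
    (tendsto_rpow_atTop (by norm_num : (0 : ℝ) < 49 / 50)).eventually_ge_atTop 2
  have e4 : ∀ᶠ x : ℝ in Filter.atTop, (2 * (B : ℝ)) ^ 8 / δ ≤ x ^ (16 / 25 : ℝ) :=
    (tendsto_rpow_atTop (by norm_num : (0 : ℝ) < 16 / 25)).eventually_ge_atTop _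
  have e5 : ∀ᶠ x : ℝ in Filter.atTop, ‖Real.log x‖ ≤ 1 * ‖x ^ (1 / 10 : ℝ)‖ :=
    (isLittleO_log_rpow_atTop (by norm_num : (0 : ℝ) < 1 / 10)).bound one_pos
  have key : ∀ᶠ x : ℝ in Filter.atTop, 2 ≤ x ∧ (y : ℝ) ≤ x ∧ x ^ (1 / 50 : ℝ) + 1 ≤ x ∧
      ((B : ℝ) * (x ^ (1 / 50 : ℝ) + 1)) ^ 8 ≤ δ * x / (Real.log x) ^ 2 := by
    filter_upwards [e1, e2, e3, e4, e5] with x h1 h2 h3 h4 h5
    have hx0 : 0 < x := by linarith
    have hx1 : 1 ≤ x := by linarith
    have hu1 : 1 ≤ x ^ (1 / 50 : ℝ) := Real.one_le_rpow hx1 (by norm_num)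
    have hprod : x ^ (1 / 50 : ℝ) * x ^ (49 / 50 : ℝ) = x := by
      rw [← Real.rpow_add hx0]; norm_num
    have hlog : 0 < Real.log x := Real.log_pos (by linarith)
    refine ⟨h1, h2, ?_, ?_⟩
    · nlinarith
    · have hl : Real.log x ≤ x ^ (1 / 10 : ℝ) := by
        rw [one_mul, Real.norm_of_nonneg hlog.le,
          Real.norm_of_nonneg (Real.rpow_nonneg hx0.le _)] at h5
        exact h5
      have hl2 : (Real.log x) ^ 2 ≤ x ^ (1 / 5 : ℝ) := by
        calc (Real.log x) ^ 2 ≤ (x ^ (1 / 10 : ℝ)) ^ 2 :=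
              pow_le_pow_left₀ hlog.le hl 2
          _ = x ^ (1 / 5 : ℝ) := by
              rw [← Real.rpow_natCast, ← Real.rpow_mul hx0.le]; norm_num
      rw [le_div_iff₀ (by positivity)]
      have hb : ((B : ℝ) * (x ^ (1 / 50 : ℝ) + 1)) ^ 8 ≤ (2 * (B : ℝ)) ^ 8 * x ^ (4 / 25 : ℝ) := by
        calc ((B : ℝ) * (x ^ (1 / 50 : ℝ) + 1)) ^ 8 ≤ ((B : ℝ) * (2 * x ^ (1 / 50 : ℝ))) ^ 8 := by
              apply pow_le_pow_left₀ (by positivity)
              apply mul_le_mul_of_nonneg_left (by linarith) (by positivity)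
          _ = (2 * (B : ℝ)) ^ 8 * (x ^ (1 / 50 : ℝ)) ^ 8 := by ring
          _ = (2 * (B : ℝ)) ^ 8 * x ^ (4 / 25 : ℝ) := by
              congr 1
              rw [← Real.rpow_natCast, ← Real.rpow_mul hx0.le]; norm_num
      have h6 : (2 * (B : ℝ)) ^ 8 ≤ δ * x ^ (16 / 25 : ℝ) := by
        rw [div_le_iff₀ hδ] at h4
        linarith
      calc ((B : ℝ) * (x ^ (1 / 50 : ℝ) + 1)) ^ 8 * Real.log x ^ 2
          ≤ ((2 * (B : ℝ)) ^ 8 * x ^ (4 / 25 : ℝ)) * x ^ (1 / 5 : ℝ) := by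
            apply mul_le_mul hb hl2 (by positivity) (by positivity)
        _ = (2 * (B : ℝ)) ^ 8 * x ^ (9 / 25 : ℝ) := by
            rw [mul_assoc, ← Real.rpow_add hx0]; norm_num
        _ ≤ (δ * x ^ (16 / 25 : ℝ)) * x ^ (9 / 25 : ℝ) := by
            apply mul_le_mul_of_nonneg_right h6 (by positivity)
        _ = δ * x := by
            rw [mul_assoc, ← Real.rpow_add hx0]; norm_num
  obtain ⟨N, hN⟩ := Filter.eventually_atTop.1 (tendsto_natCast_atTop_atTop.eventually key)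
  refine ⟨max N 2, le_max_right _ _, fun S hS => ?_⟩
  obtain ⟨h1, h2, h3, h4⟩ := hN S ((le_max_left _ _).trans hS)
  have hS1 : (1 : ℝ) ≤ (S : ℝ) := by linarith
  have hu1 : 1 ≤ (S : ℝ) ^ (1 / 50 : ℝ) := Real.one_le_rpow hS1 (by norm_num)
  have hfl : (⌊(S : ℝ) ^ (1 / 50 : ℝ)⌋₊ : ℝ) ≤ (S : ℝ) ^ (1 / 50 : ℝ) :=
    Nat.floor_le (by linarith)
  have hfl2 : (S : ℝ) ^ (1 / 50 : ℝ) < (⌊(S : ℝ) ^ (1 / 50 : ℝ)⌋₊ : ℝ) + 1 := Nat.lt_floor_add_one _
  refine ⟨⌊(S : ℝ) ^ (1 / 50 : ℝ)⌋₊ + 1, ?_, ?_, ?_, ?_, ?_⟩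
  · have : 1 ≤ ⌊(S : ℝ) ^ (1 / 50 : ℝ)⌋₊ := Nat.le_floor (by simpa using hu1)
    omega
  · have : ((⌊(S : ℝ) ^ (1 / 50 : ℝ)⌋₊ + 1 : ℕ) : ℝ) ≤ (S : ℝ) := by
      push_cast
      linarith
    exact_mod_cast this
  · exact_mod_cast h2
  · have h5 : Real.log ((S : ℝ) ^ (1 / 50 : ℝ)) ≤ Real.log ((⌊(S : ℝ) ^ (1 / 50 : ℝ)⌋₊ + 1 : ℕ) : ℝ) := by
      apply Real.log_le_log (by linarith)
      push_cast
      linarith
    rw [Real.log_rpow (by linarith)] at h5
    linarith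
  · refine le_trans ?_ h4
    push_cast
    apply pow_le_pow_left₀ (by positivity)
    apply mul_le_mul_of_nonneg_left (by linarith) (by positivity)

/-! ### Elementary facts -/

theorem card_le (y m m' p : ℕ) : (Om y m m' p).card ≤ p := by
  unfold Om
  exact (card_filter_le _ _).trans (card_range p).le

theorem survive {y m m' S s p : ℕ} (hm : 0 < m) (hm' : 0 < m') (hS : S ≤ s) (hpS : p ≤ S)
    (hp : p.Prime) (hr : Rough y s) (h1 : (m * s + 1).Prime) (h2 : (m' * s + 1).Prime) :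
    s % p ∉ Om y m m' p := by
  intro h
  unfold Om at h
  rw [mem_filter] at h
  have aux : ∀ k : ℕ, 0 < k → (k * s + 1).Prime → p ∣ k * (s % p) + 1 → False := by
    intro k hk h3 h4
    have h5 : p ∣ k * s + 1 := by
      have h6 : k * s + 1 ≡ k * (s % p) + 1 [MOD p] :=
        ((Nat.mod_modEq s p).symm.mul_left k).add_right 1
      exact (h6.dvd_iff dvd_rfl).2 h4
    have h6 := (Nat.prime_dvd_prime_iff_eq hp h3).1 h5
    have h7 : s ≤ k * s := Nat.le_mul_of_pos_left s hk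
    omega
  rcases h.2 with ⟨h3, h4⟩ | h3 | h3
  · exact hr p hp h3 (Nat.dvd_of_mod_eq_zero h4)
  · exact aux m hm h1 h3
  · exact aux m' hm' h2 h3

theorem mem_PP {y p : ℕ} : p ∈ PP y ↔ p ≤ y ∧ p.Prime := by
  unfold PP
  rw [mem_filter, mem_range]
  constructor
  · rintro ⟨h1, h2⟩; exact ⟨by omega, h2⟩
  · rintro ⟨h1, h2⟩; exact ⟨by omega, h2⟩

theorem kap_ge {y : ℕ} {Q : Finset ℕ} (h2 : 2 ∈ Q) : (1 / 2 : ℝ) ^ (y + 1) ≤ kap y Q := by
  unfold kap
  have h : ∀ p ∈ PP y \ Q, (1 / 2 : ℝ) ≤ 1 - 1 / ((p : ℝ) - 1) := by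
    intro p hp
    rw [mem_sdiff, mem_PP] at hp
    have hp2 : p ≠ 2 := by
      rintro rfl
      exact hp.2 h2
    have h3 : 3 ≤ p := by
      have := hp.1.2.two_le
      omega
    have h4 : (3 : ℝ) ≤ p := by exact_mod_cast h3
    have h5 : 1 / ((p : ℝ) - 1) ≤ 1 / 2 := by
      apply one_div_le_one_div_of_le (by norm_num)
      linarith
    linarith
  have hc : (PP y \ Q).card ≤ y + 1 := by
    refine (card_le_card sdiff_subset).trans ?_
    unfold PP
    exact (card_filter_le _ _).trans (card_range _).le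
  calc (1 / 2 : ℝ) ^ (y + 1) ≤ (1 / 2 : ℝ) ^ ((PP y \ Q).card) :=
        pow_le_pow_of_le_one (by norm_num) (by norm_num) hc
    _ = ∏ p ∈ PP y \ Q, (1 / 2 : ℝ) := by rw [prod_const]
    _ ≤ _ := prod_le_prod (fun _ _ => by norm_num) h

theorem prod_split {y D : ℕ} {Q : Finset ℕ} (hD : D ≠ 0) (h2 : 2 ∈ Q) (hQ : Q ⊆ PP y) :
    (∏ p ∈ D.primeFactors \ PP y, (1 + 4 / (p : ℝ))) *
      (∏ p ∈ (PP y \ Q).filter (· ∣ D), (1 + 4 / (p : ℝ))) = HH Q D := by
  have hd : Disjoint (D.primeFactors \ PP y) ((PP y \ Q).filter (· ∣ D)) := by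
    rw [Finset.disjoint_left]
    intro p h3 h4
    rw [mem_sdiff] at h3
    rw [mem_filter, mem_sdiff] at h4
    exact h3.2 h4.1.1
  rw [← prod_union hd]
  unfold HH
  apply prod_congr _ (fun _ _ => rfl)
  ext p
  simp only [mem_union, mem_sdiff, mem_filter, Nat.mem_primeFactors]
  constructor
  · rintro (⟨⟨h3, h4, h5⟩, h6⟩ | ⟨⟨h3, h4⟩, h5⟩)
    · refine ⟨⟨⟨h3, h4, h5⟩, fun h7 => h6 (hQ h7)⟩, ?_⟩
      rintro rfl
      exact h6 (hQ h2)
    · refine ⟨⟨⟨(mem_PP.1 h3).2, h5, hD⟩, h4⟩, ?_⟩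
      rintro rfl
      exact h4 h2
  · rintro ⟨⟨⟨h3, h4, h5⟩, h6⟩, h7⟩
    by_cases h8 : p ∈ PP y
    · exact Or.inr ⟨⟨h8, h6⟩, h4⟩
    · exact Or.inl ⟨⟨h3, h4, h5⟩, h8⟩

theorem HH_ge_one (Q : Finset ℕ) (D : ℕ) : 1 ≤ HH Q D := by
  unfold HH
  refine le_trans (by rw [prod_const_one]) (prod_le_prod (f := fun _ => (1 : ℝ))
    (fun _ _ => zero_le_one) (fun p _ => ?_))
  have : (0 : ℝ) ≤ 4 / (p : ℝ) := by positivity
  linarith

/-- `∏ (1 + 2/p) (∏ (1 - 1/p))² ≤ 1` -/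
theorem prod_two_le (y : ℕ) :
    (∏ p ∈ PP y, (1 + 2 / (p : ℝ))) * (∏ p ∈ PP y, (1 - 1 / (p : ℝ))) ^ 2 ≤ 1 := by
  rw [← prod_pow, ← prod_mul_distrib]
  apply prod_le_one
  · intro p _
    positivity
  · intro p hp
    have h2 : (2 : ℝ) ≤ p := by exact_mod_cast (mem_PP.1 hp).2.two_le
    have hx0 : 0 ≤ 1 / (p : ℝ) := by positivity
    have hx1 : 1 / (p : ℝ) ≤ 1 := by
      rw [div_le_one (by linarith)]; linarith
    have e : 2 / (p : ℝ) = 2 * (1 / (p : ℝ)) := by ring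
    rw [e]
    set x := 1 / (p : ℝ) with hx
    nlinarith [mul_nonneg hx0 hx0, mul_nonneg (mul_nonneg hx0 hx0) (sub_nonneg.2 hx1)]

theorem mem_dvd_iff {m m' p : ℕ} : p ∣ Int.natAbs ((m : ℤ) - m') ↔ m ≡ m' [MOD p] := by
  rw [← Int.natCast_dvd, Nat.modEq_iff_dvd, ← dvd_neg, neg_sub]

/-- the sum over the divisors of `∏ P₂` -/
theorem inner_ge {y m m' L' : ℕ} (hm : 0 < m) (hm' : 0 < m') (hmm : m ≠ m')
    (hpf : m.primeFactors = m'.primeFactors) (hsm : Smooth y m) (h3 : T_NUC) :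
    ∑ l ∈ (Icc 1 L').filter (fun l => Squarefree l ∧
        ∀ p ∈ PP y ∪ (Int.natAbs ((m : ℤ) - m')).primeFactors, ¬ p ∣ l),
        (2 : ℝ) ^ l.primeFactors.card / l ≤
      ∑ l ∈ (∏ p ∈ (PP L').filter (fun p => y < p ∧ ¬ p ∣ Int.natAbs ((m : ℤ) - m')),
          p).divisors.filter (· ≤ L'),
        ∏ p ∈ l.primeFactors, ((Om y m m' p).card : ℝ) / (p - (Om y m m' p).card) := by
  set D := Int.natAbs ((m : ℤ) - m') with hD
  have hD0 : D ≠ 0 := by
    rw [hD, Int.natAbs_ne_zero, sub_ne_zero]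
    exact_mod_cast hmm
  set P₂ := (PP L').filter (fun p => y < p ∧ ¬ p ∣ D) with hP₂
  have hP₂p : ∀ p ∈ P₂, p.Prime := by
    intro p hp
    rw [hP₂, mem_filter, mem_PP] at hp
    exact hp.1.2
  have hprod0 : (∏ p ∈ P₂, p) ≠ 0 := prod_ne_zero_iff.2 fun p hp => (hP₂p p hp).ne_zero
  refine le_trans (sum_le_sum_of_subset_of_nonneg (t := (∏ p ∈ P₂, p).divisors.filter (· ≤ L')) ?_ ?_)
    (sum_le_sum ?_)
  · intro l hl
    rw [mem_filter, mem_Icc] at hl
    obtain ⟨⟨h4, h5⟩, h6, h7⟩ := hl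
    rw [mem_filter, Nat.mem_divisors]
    refine ⟨⟨?_, hprod0⟩, h5⟩
    rw [← Nat.prod_primeFactors_of_squarefree h6]
    apply prod_dvd_prod_of_subset
    intro p hp
    rw [Nat.mem_primeFactors] at hp
    rw [hP₂, mem_filter, mem_PP]
    have h8 : p ∉ PP y ∪ D.primeFactors := fun h => h7 p h hp.2.1
    rw [mem_union, not_or, mem_PP, Nat.mem_primeFactors] at h8
    refine ⟨⟨(Nat.le_of_dvd (by omega) hp.2.1).trans h5, hp.1⟩, ?_, ?_⟩
    · by_contra h9
      exact h8.1 ⟨by omega, hp.1⟩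
    · intro h9
      exact h8.2 ⟨hp.1, h9, hD0⟩
  · intro l _ _
    positivity
  · intro l hl
    rw [mem_filter, Nat.mem_divisors] at hl
    have hsq : Squarefree (∏ p ∈ P₂, p) := by
      apply Finset.squarefree_prod_of_pairwise_isCoprime
      · intro p hp q hq hpq
        exact Nat.coprime_iff_isRelPrime.1
          ((Nat.coprime_primes (hP₂p p hp) (hP₂p q hq)).2 hpq)
      · intro p hp
        exact (hP₂p p hp).squarefree
    have hl2 : Squarefree l := hsq.squarefree_of_dvd hl.1.1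
    have hmem : ∀ p ∈ l.primeFactors, p ∈ P₂ := by
      intro p hp
      rw [Nat.mem_primeFactors] at hp
      obtain ⟨q, hq, hpq⟩ := (Prime.dvd_finsetProd_iff hp.1.prime _).1 (hp.2.1.trans hl.1.1)
      rwa [(Nat.prime_dvd_prime_iff_eq hp.1 (hP₂p q hq)).1 hpq]
    have hlp : (l : ℝ) = ∏ p ∈ l.primeFactors, (p : ℝ) := by
      conv_lhs => rw [← Nat.prod_primeFactors_of_squarefree hl2]
      push_cast
      rfl
    have e : (2 : ℝ) ^ l.primeFactors.card / l = ∏ p ∈ l.primeFactors, (2 / (p : ℝ)) := by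
      rw [prod_div_distrib, prod_const, ← hlp]
    rw [e]
    apply prod_le_prod
    · intro p _
      positivity
    · intro p hp
      have hp2 := hmem p hp
      rw [hP₂, mem_filter, mem_PP] at hp2
      have hnu : (Om y m m' p).card = 2 := by
        apply ((h3 y m m' p hp2.1.2 hm hm' hpf hsm).2.2 hp2.2.1).2
        rw [← mem_dvd_iff]
        exact hp2.2.2
      rw [hnu]
      have h2p : p ≠ 2 := by
        rintro rfl
        have hy : y < 2 := hp2.2.1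
        -- `m` has no prime factor, so `m = 1`
        have hm1 : m = 1 := by
          by_contra hne
          obtain ⟨q, hq, hqm⟩ := Nat.exists_prime_and_dvd hne
          have := hsm q hq hqm
          have := hq.two_le
          omega
        have hm2 : m' = 1 := by
          have : m'.primeFactors = ∅ := by rw [← hpf, hm1, Nat.primeFactors_one]
          rcases Nat.primeFactors_eq_empty.1 this with h | h
          · omega
          · exact h
        exact hmm (by rw [hm1, hm2])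
      have h5 : (3 : ℝ) ≤ p := by
        have : 3 ≤ p := by
          have := hp2.1.2.two_le
          omega
        exact_mod_cast this
      push_cast
      apply div_le_div_of_nonneg_left (by norm_num) (by linarith) (by linarith)

end SV2_

theorem p_SV2 (h1 : T_SIV) (h2 : T_TAU) (h3 : T_NUC) (h4 : T_MRT) (h5 : T_VKP) (h6 : T_GE1)
    (h7 : T_GE2) : T_SV2 := by
  classical
  obtain ⟨c, hc, hTAU⟩ := h2
  obtain ⟨c₁, _, hc₁, _, hMRT⟩ := h4
  obtain ⟨C₂, hC₂, hVKP⟩ := h5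
  refine ⟨2500 * C₂ / (c * c₁ ^ 2) + 1, by positivity, fun y hy => ?_⟩
  have hy1 : (1 : ℝ) < y := by exact_mod_cast (by omega : 1 < y)
  have hlogy : 0 < Real.log y := Real.log_pos hy1
  obtain ⟨S₀, hS₀, hlev⟩ := SV2_.levels (∏ p ∈ PP y, p) y
    (Real.log y * ((1 / 2 : ℝ) ^ (y + 1)) ^ 2) (by positivity)
  refine ⟨S₀, hS₀, fun S m m' hS hm hm' hmm h2m hpf hsm => ?_⟩
  obtain ⟨L', hL'2, hL'S, hyS, hlogL, hL8⟩ := hlev S hS
  set Q := m.primeFactors with hQ
  set D := Int.natAbs ((m : ℤ) - m') with hD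
  have hD0 : D ≠ 0 := by
    rw [hD, Int.natAbs_ne_zero, sub_ne_zero]
    exact_mod_cast hmm
  have h2Q : 2 ∈ Q := by
    rw [hQ, Nat.mem_primeFactors]
    exact ⟨Nat.prime_two, h2m, by omega⟩
  have hQy : Q ⊆ PP y := by
    intro p hp
    rw [hQ, Nat.mem_primeFactors] at hp
    rw [SV2_.mem_PP]
    exact ⟨hsm p hp.1 hp.2.1, hp.1⟩
  have hkap : (1 / 2 : ℝ) ^ (y + 1) ≤ kap y Q := SV2_.kap_ge h2Q
  have hkap0 : 0 < kap y Q := lt_of_lt_of_le (by positivity) hkap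
  have hHH : 1 ≤ HH Q D := SV2_.HH_ge_one Q D
  have hS2 : 2 ≤ S := hS₀.trans hS
  have hSR : (2 : ℝ) ≤ S := by exact_mod_cast hS2
  have hlogS : 0 < Real.log S := Real.log_pos (by linarith)
  set P₂ := (PP L').filter (fun p => y < p ∧ ¬ p ∣ D) with hP₂
  have hP₁p : ∀ p ∈ PP y, p.Prime := fun p hp => (SV2_.mem_PP.1 hp).2
  have hP₂p : ∀ p ∈ P₂, p.Prime := by
    intro p hp
    rw [hP₂, mem_filter] at hp
    exact (SV2_.mem_PP.1 hp.1).2
  have hdisj : Disjoint (PP y) P₂ := by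
    rw [Finset.disjoint_left]
    intro p hp hp'
    rw [hP₂, mem_filter] at hp'
    have := (SV2_.mem_PP.1 hp).1
    omega
  have hPS : ∀ p ∈ PP y ∪ P₂, p.Prime ∧ p ≤ S := by
    intro p hp
    rcases mem_union.1 hp with hp | hp
    · exact ⟨hP₁p p hp, (SV2_.mem_PP.1 hp).1.trans hyS⟩
    · refine ⟨hP₂p p hp, ?_⟩
      rw [hP₂, mem_filter] at hp
      exact (SV2_.mem_PP.1 hp.1).1.trans hL'S
  -- the counted set is contained in the sifted set
  have hsub : ((Ico S (2 * S)).filter fun s => Rough y s ∧ (m * s + 1).Prime ∧ (m' * s + 1).Prime) ⊆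
      (Ico S (S + S)).filter fun n => ∀ p ∈ PP y ∪ P₂, n % p ∉ Om y m m' p := by
    intro s hs
    rw [mem_filter, mem_Ico] at hs
    rw [mem_filter, mem_Ico]
    refine ⟨⟨hs.1.1, by omega⟩, fun p hp => ?_⟩
    exact SV2_.survive hm hm' hs.1.1 (hPS p hp).2 (hPS p hp).1 hs.2.1 hs.2.2.1 hs.2.2.2
  have hrhs : 0 ≤ (2500 * C₂ / (c * c₁ ^ 2) + 1) * Real.log y * kap y Q ^ 2 * HH Q D * S /
      (Real.log S) ^ 2 := by
    have : 0 ≤ HH Q D := by linarith
    positivity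
  by_cases hfull : ∃ p ∈ PP y ∪ P₂, ¬ (Om y m m' p).card < p
  · -- some prime has all its classes removed
    obtain ⟨p, hp, hpc⟩ := hfull
    have hOm : Om y m m' p = range p := by
      apply Finset.eq_of_subset_of_card_le
      · unfold Om
        exact filter_subset _ _
      · rw [card_range]
        omega
    have hemp : ((Ico S (2 * S)).filter fun s =>
        Rough y s ∧ (m * s + 1).Prime ∧ (m' * s + 1).Prime) = ∅ := by
      rw [Finset.eq_empty_iff_forall_notMem]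
      intro s hs
      have := (mem_filter.1 (hsub hs)).2 p hp
      rw [hOm, mem_range, not_lt] at this
      exact absurd (Nat.mod_lt s (hPS p hp).1.pos) (by omega)
    rw [hemp, card_empty, Nat.cast_zero]
    exact hrhs
  push Not at hfull
  -- the numbers `ν p`
  have hnuQ : ∀ p ∈ Q, (Om y m m' p).card = 1 := by
    intro p hp
    rw [hQ, Nat.mem_primeFactors] at hp
    exact (h3 y m m' p hp.1 hm hm' hpf hsm).1 hp.2.1
  have hnu : ∀ p ∈ PP y \ Q, (p ∣ D → (Om y m m' p).card = 2) ∧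
      (¬ p ∣ D → (Om y m m' p).card = 3) := by
    intro p hp
    rw [mem_sdiff, SV2_.mem_PP] at hp
    have hpm : ¬ p ∣ m := by
      intro h
      apply hp.2
      rw [hQ, Nat.mem_primeFactors]
      exact ⟨hp.1.2, h, by omega⟩
    have := (h3 y m m' p hp.1.2 hm hm' hpf hsm).2.1 hpm hp.1.1
    rw [hD, SV2_.mem_dvd_iff]
    exact this
  have hpos : ∀ p ∈ PP y ∪ P₂, 0 < (Om y m m' p).card := by
    intro p hp
    rcases mem_union.1 hp with hp | hp
    · by_cases hpQ : p ∈ Q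
      · rw [hnuQ p hpQ]; norm_num
      · have := hnu p (mem_sdiff.2 ⟨hp, hpQ⟩)
        by_cases hpD : p ∣ D
        · rw [this.1 hpD]; norm_num
        · rw [this.2 hpD]; norm_num
    · have hp' := hp
      rw [hP₂, mem_filter, SV2_.mem_PP] at hp'
      have : (Om y m m' p).card = 2 := by
        apply ((h3 y m m' p hp'.1.2 hm hm' hpf hsm).2.2 hp'.2.1).2
        rw [← SV2_.mem_dvd_iff]
        exact hp'.2.2
      rw [this]; norm_num
  -- Selberg's sieve
  have hB0 : 0 < ∏ p ∈ PP y, p := prod_pos fun p hp => (hP₁p p hp).pos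
  have hL1 : 1 ≤ (∏ p ∈ PP y, p) * L' := Nat.mul_pos hB0 (by omega)
  have hsieve := h1 (PP y ∪ P₂) (Om y m m') S S ((∏ p ∈ PP y, p) * L')
    (fun p hp => (hPS p hp).1)
    (fun p hp => ⟨by unfold Om; exact filter_subset _ _, hpos p hp, hfull p hp⟩) hL1
  set G : ℝ := ∑ l ∈ (∏ p ∈ PP y ∪ P₂, p).divisors.filter (· ≤ (∏ p ∈ PP y, p) * L'),
      ∏ p ∈ l.primeFactors, ((Om y m m' p).card : ℝ) / (p - (Om y m m' p).card) with hG
  set A : ℝ := ∏ p ∈ PP y, (1 - ((Om y m m' p).card : ℝ) / p) with hA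
  set T : ℝ := ∑ l ∈ (Icc 1 L').filter (fun l => Squarefree l ∧
        ∀ p ∈ PP y ∪ D.primeFactors, ¬ p ∣ l), (2 : ℝ) ^ l.primeFactors.card / l with hT
  have hA0 : 0 < A := by
    apply prod_pos
    intro p hp
    have hp0 : (0 : ℝ) < p := by exact_mod_cast (hP₁p p hp).pos
    have : ((Om y m m' p).card : ℝ) < p := by
      exact_mod_cast hfull p (mem_union_left _ hp)
    rw [sub_pos, div_lt_one hp0]
    exact this
  have hGE1 := h6 (fun p => ((Om y m m' p).card : ℝ) / (p - (Om y m m' p).card)) (PP y) P₂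
    ((∏ p ∈ PP y, p) * L') L'
    (fun p => div_nonneg (Nat.cast_nonneg _) (sub_nonneg.2 (by exact_mod_cast SV2_.card_le y m m' p)))
    hP₁p hP₂p hdisj le_rfl
  have hAinv : ∏ p ∈ PP y, (1 + ((Om y m m' p).card : ℝ) / (p - (Om y m m' p).card)) = A⁻¹ := by
    rw [hA, ← prod_inv_distrib]
    apply prod_congr rfl
    intro p hp
    have hp0 : (0 : ℝ) < p := by exact_mod_cast (hP₁p p hp).pos
    have h8 : ((Om y m m' p).card : ℝ) < p := by
      exact_mod_cast hfull p (mem_union_left _ hp)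
    have h9 : (p : ℝ) - (Om y m m' p).card ≠ 0 := by linarith
    field_simp
    ring
  have hinner := SV2_.inner_ge (L' := L') hm hm' hmm hpf hsm h3
  have hGT : A⁻¹ * T ≤ G := by
    refine le_trans ?_ hGE1
    rw [hAinv]
    exact mul_le_mul_of_nonneg_left hinner (inv_nonneg.2 hA0.le)
  -- lower bound of `T`
  have hE : ∀ p ∈ PP y ∪ D.primeFactors, p.Prime := by
    intro p hp
    rcases mem_union.1 hp with hp | hp
    · exact hP₁p p hp
    · exact (Nat.mem_primeFactors.1 hp).1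
  have hGE2 := h7 (PP y ∪ D.primeFactors) L' hE
  have htau := hTAU L' hL'2
  set H₁ : ℝ := ∏ p ∈ D.primeFactors \ PP y, (1 + 4 / (p : ℝ)) with hH₁
  set H₂ : ℝ := ∏ p ∈ (PP y \ Q).filter (· ∣ D), (1 + 4 / (p : ℝ)) with hH₂
  set Py : ℝ := ∏ p ∈ PP y, (1 + 2 / (p : ℝ)) with hPy
  have hH₁0 : 0 < H₁ := prod_pos fun p _ => by positivity
  have hH₂0 : 0 < H₂ := prod_pos fun p _ => by positivity
  have hPy0 : 0 < Py := prod_pos fun p _ => by positivity
  have hHHeq : H₁ * H₂ = HH Q D := SV2_.prod_split hD0 h2Q hQy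
  have hPE : ∏ p ∈ PP y ∪ D.primeFactors, (1 + 2 / (p : ℝ)) ≤ Py * H₁ := by
    have e : PP y ∪ D.primeFactors = PP y ∪ (D.primeFactors \ PP y) := by
      rw [union_sdiff_self_eq_union]
    rw [e, prod_union disjoint_sdiff]
    apply mul_le_mul_of_nonneg_left _ hPy0.le
    apply prod_le_prod
    · intro p _
      positivity
    · intro p _
      have : 2 / (p : ℝ) ≤ 4 / (p : ℝ) := by
        apply div_le_div_of_nonneg_right (by norm_num) (Nat.cast_nonneg _)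
      linarith
  have hPyle : Py ≤ (Real.log y) ^ 2 / c₁ ^ 2 := by
    have hw := (hMRT y hy).1
    have hw0 : 0 ≤ c₁ / Real.log y := by positivity
    have h8 : Py * (c₁ / Real.log y) ^ 2 ≤ 1 :=
      le_trans (mul_le_mul_of_nonneg_left (pow_le_pow_left₀ hw0 hw 2) hPy0.le)
        (SV2_.prod_two_le y)
    rw [div_pow, mul_div_assoc', div_le_one (by positivity)] at h8
    rw [le_div_iff₀ (by positivity)]
    exact h8
  have hT0 : 0 ≤ T := sum_nonneg fun l _ => by positivity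
  have hlogL0 : 0 < Real.log L' := Real.log_pos (by exact_mod_cast (by omega : 1 < L'))
  have hTlow : c * (Real.log L') ^ 2 ≤ (Py * H₁) * T :=
    (htau.trans hGE2).trans (mul_le_mul_of_nonneg_right hPE hT0)
  have hTpos : 0 < T := by
    rcases hT0.lt_or_eq with h | h
    · exact h
    · rw [← h, mul_zero] at hTlow
      have : 0 < c * (Real.log L') ^ 2 := by positivity
      linarith
  have hGpos : 0 < G := lt_of_lt_of_le (by positivity) hGT
  -- `S / G`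
  have hlogL2 : (Real.log S) ^ 2 / 2500 ≤ (Real.log L') ^ 2 := by
    have h8 : (Real.log S / 50) ^ 2 ≤ (Real.log L') ^ 2 :=
      pow_le_pow_left₀ (by positivity) hlogL 2
    calc (Real.log S) ^ 2 / 2500 = (Real.log S / 50) ^ 2 := by ring
      _ ≤ _ := h8
  have hAle : A * Real.log y ≤ C₂ * kap y Q ^ 2 * H₂ :=
    hVKP y Q (fun p => (Om y m m' p).card) D hy h2Q hQy hnuQ hnu
  have hmain : (S : ℝ) / G ≤ 2500 * C₂ / (c * c₁ ^ 2) * Real.log y * kap y Q ^ 2 * HH Q D * S /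
      (Real.log S) ^ 2 := by
    have h8 : (S : ℝ) / G ≤ S / (A⁻¹ * T) :=
      div_le_div_of_nonneg_left (by positivity) (by positivity) hGT
    refine h8.trans ?_
    have h9 : (S : ℝ) / (A⁻¹ * T) = S * A / T := by
      field_simp
    rw [h9, div_le_iff₀ hTpos]
    -- S A ≤ K T
    have h10 : (c * ((Real.log S) ^ 2 / 2500)) ≤ ((Real.log y) ^ 2 / c₁ ^ 2 * H₁) * T := by
      refine le_trans (mul_le_mul_of_nonneg_left hlogL2 hc.le) (hTlow.trans ?_)
      apply mul_le_mul_of_nonneg_right _ hT0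
      exact mul_le_mul_of_nonneg_right hPyle hH₁0.le
    have h11 : A ≤ C₂ * kap y Q ^ 2 * H₂ / Real.log y := by
      rw [le_div_iff₀ hlogy]; exact hAle
    calc (S : ℝ) * A ≤ S * (C₂ * kap y Q ^ 2 * H₂ / Real.log y) :=
          mul_le_mul_of_nonneg_left h11 (by positivity)
      _ = (S * (C₂ * kap y Q ^ 2 * H₂ / Real.log y) * 2500 / (c * (Real.log S) ^ 2)) *
          (c * ((Real.log S) ^ 2 / 2500)) := by
          field_simp
      _ ≤ (S * (C₂ * kap y Q ^ 2 * H₂ / Real.log y) * 2500 / (c * (Real.log S) ^ 2)) *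
          (((Real.log y) ^ 2 / c₁ ^ 2 * H₁) * T) := by
          apply mul_le_mul_of_nonneg_left h10
          positivity
      _ = 2500 * C₂ / (c * c₁ ^ 2) * Real.log y * kap y Q ^ 2 * (H₁ * H₂) * S /
            (Real.log S) ^ 2 * T := by
          field_simp
      _ = _ := by rw [hHHeq]
  have hcount : ((((Ico S (2 * S)).filter fun s =>
      Rough y s ∧ (m * s + 1).Prime ∧ (m' * s + 1).Prime).card : ℕ) : ℝ) ≤
      (((Ico S (S + S)).filter fun n => ∀ p ∈ PP y ∪ P₂, n % p ∉ Om y m m' p).card : ℝ) := by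
    exact_mod_cast card_le_card hsub
  have hL8' : (((∏ p ∈ PP y, p) * L' : ℕ) : ℝ) ^ 8 ≤
      1 * Real.log y * kap y Q ^ 2 * HH Q D * S / (Real.log S) ^ 2 := by
    refine hL8.trans ?_
    apply div_le_div_of_nonneg_right _ (by positivity)
    apply mul_le_mul_of_nonneg_right _ (by positivity)
    rw [one_mul, mul_assoc]
    apply mul_le_mul_of_nonneg_left _ hlogy.le
    calc ((1 / 2 : ℝ) ^ (y + 1)) ^ 2 ≤ kap y Q ^ 2 := pow_le_pow_left₀ (by positivity) hkap 2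
      _ = kap y Q ^ 2 * 1 := (mul_one _).symm
      _ ≤ kap y Q ^ 2 * HH Q D := mul_le_mul_of_nonneg_left hHH (by positivity)
  calc _ ≤ _ := hcount
    _ ≤ _ := hsieve
    _ ≤ 2500 * C₂ / (c * c₁ ^ 2) * Real.log y * kap y Q ^ 2 * HH Q D * S / (Real.log S) ^ 2 +
        1 * Real.log y * kap y Q ^ 2 * HH Q D * S / (Real.log S) ^ 2 := add_le_add hmain hL8'
    _ = _ := by ring

end Pool.Agent.TEQ
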