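import Pool.Agent.TEQ.Targets

/-!
# TEQ, target TBN: the Tauberian lemma
-/

set_option autoImplicit false

open Finset MeasureTheory

noncomputable section

namespace Pool.Agent.TEQ

namespace TBN_

theorem int_le (r : ℕ) {L a b : ℝ} (hL : 0 < L) (ha : 0 < a) (hab : a ≤ b) :
    ∫ t in a..b, t ^ (r + 1) * Real.exp (-(L * t)) ≤ ((r + 1).factorial : ℝ) / L ^ (r + 2) := by
  have hkey := Real.integral_rpow_mul_exp_neg_mul_Ioi (a := (r : ℝ) + 2) (r := L)
    (by positivity) hL
  have hcongr : ∀ t ∈ Set.Ioi (0 : ℝ), t ^ ((r : ℝ) + 2 - 1) * Real.exp (-(L * t)) =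
      t ^ (r + 1) * Real.exp (-(L * t)) := by
    intro t ht
    congr 1
    have h1 : ((r : ℝ) + 2 - 1) = ((r + 1 : ℕ) : ℝ) := by push_cast; ring
    rw [h1, Real.rpow_natCast]
  have hint : IntegrableOn (fun t : ℝ => t ^ (r + 1) * Real.exp (-(L * t))) (Set.Ioi 0) := by
    have h2 := integrableOn_rpow_mul_exp_neg_mul_rpow (p := 1) (s := ((r + 1 : ℕ) : ℝ)) (b := L)
      (by have : (0 : ℝ) ≤ ((r + 1 : ℕ) : ℝ) := by positivity
          linarith) one_pos hL
    refine h2.congr_fun (fun t ht => ?_) measurableSet_Ioi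
    simp only [Real.rpow_one, Real.rpow_natCast, neg_mul]
  rw [intervalIntegral.integral_of_le hab]
  have h3 : ∫ t in Set.Ioc a b, t ^ (r + 1) * Real.exp (-(L * t)) ≤
      ∫ t in Set.Ioi (0 : ℝ), t ^ (r + 1) * Real.exp (-(L * t)) := by
    refine setIntegral_mono_set hint ?_ ?_
    · refine (ae_restrict_iff' measurableSet_Ioi).2 (Filter.Eventually.of_forall fun t ht => ?_)
      have : (0 : ℝ) < t := ht
      simp only [Pi.zero_apply]
      positivity
    · exact Filter.Eventually.of_forall fun t (ht : t ∈ Set.Ioc a b) =>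
        (lt_trans ha ht.1 : t ∈ Set.Ioi 0)
  refine h3.trans (le_of_eq ?_)
  rw [← setIntegral_congr_fun measurableSet_Ioi hcongr, hkey]
  have h4 : Real.Gamma ((r : ℝ) + 2) = ((r + 1).factorial : ℝ) := by
    rw [← Real.Gamma_nat_eq_factorial]
    congr 1
    push_cast
    ring
  have h5 : ((r : ℝ) + 2) = ((r + 2 : ℕ) : ℝ) := by push_cast; ring
  rw [h4, h5, Real.rpow_natCast, one_div, inv_pow]
  field_simp

theorem num1 {r : ℕ} (hr : 3 ≤ r) : 11 / 10 * (Real.exp (-(2 * r)) * 2 ^ (r + 1)) ≤ 1 / 20 := by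
  have e1 : Real.exp (-(2 * (r : ℝ))) = (Real.exp (-2)) ^ r := by
    rw [← Real.exp_nat_mul]
    congr 1
    ring
  have e2 : Real.exp (-2) ≤ (7.29 : ℝ)⁻¹ := by
    rw [Real.exp_neg]
    refine inv_anti₀ (by norm_num) ?_
    have h : (2.7 : ℝ) ≤ Real.exp 1 := by
      have := Real.exp_one_gt_d9
      linarith
    have h' : Real.exp 2 = Real.exp 1 * Real.exp 1 := by
      rw [← Real.exp_add]
      norm_num
    rw [h']
    nlinarith
  have e0 : 0 ≤ Real.exp (-2) := (Real.exp_pos _).le
  have e3 : (Real.exp (-2)) ^ r * 2 ^ r ≤ (2 / 7.29) ^ 3 := by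
    rw [← mul_pow]
    have h1 : Real.exp (-2) * 2 ≤ 2 / 7.29 := by
      rw [div_eq_mul_inv]
      linarith
    calc (Real.exp (-2) * 2) ^ r ≤ (2 / 7.29) ^ r := pow_le_pow_left₀ (by positivity) h1 r
      _ ≤ (2 / 7.29) ^ 3 := pow_le_pow_of_le_one (by norm_num) (by norm_num) hr
  rw [e1, pow_succ]
  norm_num at e3 ⊢
  nlinarith [e3]

theorem num2 {r : ℕ} (hr : 3 ≤ r) :
    11 / 10 * (Real.exp (3 * r / 4) * (1 / 4) ^ (r + 1)) ≤ 1 / 20 := by
  have e1 : Real.exp (3 * (r : ℝ) / 4) = (Real.exp (3 / 4)) ^ r := by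
    rw [← Real.exp_nat_mul]
    congr 1
    ring
  have e2 : Real.exp (3 / 4) ≤ 2.2 := by
    have h1 : Real.exp (3 / 4) ^ 4 = Real.exp 1 ^ 3 := by
      rw [← Real.exp_nat_mul, ← Real.exp_nat_mul]
      norm_num
    have h2 := Real.exp_one_lt_d9
    have h3 : Real.exp 1 ^ 3 ≤ 2.2 ^ 4 := by
      have : Real.exp 1 ^ 3 ≤ 2.7182818286 ^ 3 := pow_le_pow_left₀ (Real.exp_pos _).le h2.le 3
      refine this.trans ?_
      norm_num
    rw [← h1] at h3
    exact le_of_pow_le_pow_left₀ (by norm_num) (by norm_num) h3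
  have e3 : (Real.exp (3 / 4)) ^ r * (1 / 4) ^ r ≤ (0.55) ^ 3 := by
    rw [← mul_pow]
    have h1 : Real.exp (3 / 4) * (1 / 4) ≤ 0.55 := by linarith
    calc (Real.exp (3 / 4) * (1 / 4)) ^ r ≤ (0.55) ^ r := pow_le_pow_left₀ (by positivity) h1 r
      _ ≤ (0.55) ^ 3 := pow_le_pow_of_le_one (by norm_num) (by norm_num) hr
  rw [e1, pow_succ]
  norm_num at e3 ⊢
  nlinarith [e3]

end TBN_

open TBN_ in
theorem p_TBN : T_TBN := by
  intro f U A r hf hU hA hr H
  have hU0 : 0 < U := by linarith
  have hr0 : (3 : ℝ) ≤ r := by exact_mod_cast hr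
  set N : ℕ := ⌊Real.exp (4 * U)⌋₊ with hN
  set M : Finset ℕ := (Icc 1 N).filter (fun n : ℕ => U / 8 ≤ Real.log n) with hM
  set η : ℝ := r / U with hη
  have hη0 : 0 < η := by positivity
  have hηU : η * U = r := by rw [hη]; field_simp
  let a : ℕ → ℝ := fun n => f n * (Real.log n) ^ r
  have ha : ∀ n, 0 ≤ a n := fun n => mul_nonneg (hf n) (pow_nonneg (Real.log_natCast_nonneg n) r)
  let g : ℝ → ℕ → ℝ := fun t n => a n * (n : ℝ) ^ (-(1 + t))
  have hg : ∀ t n, 0 ≤ g t n := fun t n => mul_nonneg (ha n) (by positivity)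
  have hcomp : ∀ t, η ≤ t → t ≤ 2 * η → ∀ n, g t n ≤ (if n ∈ M then g t n else 0) +
      Real.exp (-(2 * r)) * g (t / 2) n + Real.exp (3 * r / 4) * g (4 * t) n := by
    intro t h1 h2 n
    have ht0 : 0 < t := lt_of_lt_of_le hη0 h1
    have p1 : 0 ≤ Real.exp (-(2 * r)) * g (t / 2) n := mul_nonneg (Real.exp_pos _).le (hg _ _)
    have p2 : 0 ≤ Real.exp (3 * r / 4) * g (4 * t) n := mul_nonneg (Real.exp_pos _).le (hg _ _)
    by_cases hn : n ∈ M
    · rw [if_pos hn]
      linarith
    · rw [if_neg hn]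
      rcases Nat.eq_zero_or_pos n with h0 | hpos
      · have : a n = 0 := by
          simp only [a, h0, Nat.cast_zero, Real.log_zero]
          rw [zero_pow (by omega), mul_zero]
        have : g t n = 0 := by simp only [g, this, zero_mul]
        rw [this]
        linarith
      · have hn0 : (0 : ℝ) < n := by exact_mod_cast hpos
        have hpow : ∀ s : ℝ, (n : ℝ) ^ s = Real.exp (Real.log n * s) := fun s =>
          Real.rpow_def_of_pos hn0 s
        by_cases hlow : Real.log n < U / 8
        · have hh : g t n ≤ Real.exp (3 * r / 4) * g (4 * t) n := by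
            simp only [g]
            rw [hpow, hpow, mul_left_comm]
            refine mul_le_mul_of_nonneg_left ?_ (ha n)
            rw [← Real.exp_add]
            refine Real.exp_le_exp.2 ?_
            have h3 : Real.log n * (3 * t) ≤ U / 8 * (3 * t) :=
              mul_le_mul_of_nonneg_right hlow.le (by positivity)
            have h4 : U / 8 * (3 * t) ≤ U / 8 * (3 * (2 * η)) := by gcongr
            have h5 : U / 8 * (3 * (2 * η)) = 3 * r / 4 := by rw [← hηU]; ring
            nlinarith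
          linarith
        · have hlow' : U / 8 ≤ Real.log n := not_lt.1 hlow
          have hbig : N < n := by
            by_contra hcon
            exact hn (mem_filter.2 ⟨mem_Icc.2 ⟨hpos, not_lt.1 hcon⟩, hlow'⟩)
          have hbig' : Real.exp (4 * U) < n := (Nat.floor_lt (Real.exp_pos _).le).1 hbig
          have hlog : 4 * U ≤ Real.log n := by
            rw [← Real.log_exp (4 * U)]
            exact Real.log_le_log (Real.exp_pos _) hbig'.le
          have hh : g t n ≤ Real.exp (-(2 * r)) * g (t / 2) n := by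
            simp only [g]
            rw [hpow, hpow, mul_left_comm]
            refine mul_le_mul_of_nonneg_left ?_ (ha n)
            rw [← Real.exp_add]
            refine Real.exp_le_exp.2 ?_
            have h3 : 4 * U * (η / 2) ≤ Real.log n * (t / 2) := by
              refine mul_le_mul hlog (by linarith) (by positivity) ?_
              linarith
            have h5 : 4 * U * (η / 2) = 2 * r := by rw [← hηU]; ring
            nlinarith
          linarith
  let J : ℝ → ℝ := fun t => A * (r.factorial / t ^ (r + 1))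
  have hmid : ∀ t, η ≤ t → t ≤ 2 * η → 8 / 10 * J t ≤ ∑ n ∈ M, g t n := by
    intro t h1 h2
    have ht0 : 0 < t := lt_of_lt_of_le hη0 h1
    have hJ0 : 0 ≤ J t := by simp only [J]; positivity
    have b1 : (r : ℝ) / (2 * U) = η / 2 := by rw [hη]; field_simp
    have b2 : 8 * (r : ℝ) / U = 8 * η := by rw [hη]; ring
    rw [b1, b2] at H
    obtain ⟨s1, e1⟩ := H t (by linarith) (by linarith)
    obtain ⟨s2, e2⟩ := H (t / 2) (by linarith) (by linarith)
    obtain ⟨s3, e3⟩ := H (4 * t) (by linarith) (by linarith)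
    have s1' : Summable (g t) := s1
    have s2' : Summable (g (t / 2)) := s2
    have s3' : Summable (g (4 * t)) := s3
    have hfin : HasSum (fun n => if n ∈ M then g t n else 0) (∑ n ∈ M, g t n) := by
      have h : HasSum (fun n => if n ∈ M then g t n else 0)
          (∑ n ∈ M, if n ∈ M then g t n else 0) :=
        hasSum_sum_of_ne_finset_zero (fun n hn => if_neg hn)
      rwa [sum_congr rfl (fun n hn => if_pos hn)] at h
    have htot := (hfin.add (s2'.hasSum.mul_left (Real.exp (-(2 * r))))).add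
      (s3'.hasSum.mul_left (Real.exp (3 * r / 4)))
    have hle := hasSum_le (hcomp t h1 h2) s1'.hasSum htot
    have a1 : 9 / 10 * J t ≤ ∑' n, g t n := by
      have := (abs_le.1 e1).1
      change -(1 / 10 * J t) ≤ (∑' n, g t n) - J t at this
      linarith
    have a2 : ∑' n, g (t / 2) n ≤ 11 / 10 * J (t / 2) := by
      have := (abs_le.1 e2).2
      change (∑' n, g (t / 2) n) - J (t / 2) ≤ 1 / 10 * J (t / 2) at this
      linarith
    have a3 : ∑' n, g (4 * t) n ≤ 11 / 10 * J (4 * t) := by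
      have := (abs_le.1 e3).2
      change (∑' n, g (4 * t) n) - J (4 * t) ≤ 1 / 10 * J (4 * t) at this
      linarith
    have j2 : J (t / 2) = 2 ^ (r + 1) * J t := by
      simp only [J]
      rw [div_pow]
      field_simp
    have j3 : J (4 * t) = (1 / 4) ^ (r + 1) * J t := by
      simp only [J]
      rw [mul_pow, div_pow, one_pow]
      field_simp
    rw [j2] at a2
    rw [j3] at a3
    have c2 : Real.exp (-(2 * r)) * ∑' n, g (t / 2) n ≤ 1 / 20 * J t := by
      calc Real.exp (-(2 * r)) * ∑' n, g (t / 2) n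
          ≤ Real.exp (-(2 * r)) * (11 / 10 * (2 ^ (r + 1) * J t)) :=
            mul_le_mul_of_nonneg_left a2 (Real.exp_pos _).le
        _ = (11 / 10 * (Real.exp (-(2 * r)) * 2 ^ (r + 1))) * J t := by ring
        _ ≤ 1 / 20 * J t := mul_le_mul_of_nonneg_right (num1 hr) hJ0
    have c3 : Real.exp (3 * r / 4) * ∑' n, g (4 * t) n ≤ 1 / 20 * J t := by
      calc Real.exp (3 * r / 4) * ∑' n, g (4 * t) n
          ≤ Real.exp (3 * r / 4) * (11 / 10 * ((1 / 4) ^ (r + 1) * J t)) :=
            mul_le_mul_of_nonneg_left a3 (Real.exp_pos _).le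
        _ = (11 / 10 * (Real.exp (3 * r / 4) * (1 / 4) ^ (r + 1))) * J t := by ring
        _ ≤ 1 / 20 * J t := mul_le_mul_of_nonneg_right (num2 hr) hJ0
    linarith
  have hlogM : ∀ n ∈ M, U / 8 ≤ Real.log n := fun n hn => (mem_filter.1 hn).2
  have hposM : ∀ n ∈ M, (0 : ℝ) < n := fun n hn => by
    have := (mem_Icc.1 (mem_filter.1 hn).1).1
    exact_mod_cast this
  have hpt : ∀ t ∈ Set.Icc η (2 * η), 8 / 10 * A * r.factorial ≤
      ∑ n ∈ M, a n / n * (t ^ (r + 1) * Real.exp (-(Real.log n * t))) := by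
    intro t ht
    have ht0 : 0 < t := lt_of_lt_of_le hη0 ht.1
    have h1 := mul_le_mul_of_nonneg_left (hmid t ht.1 ht.2) (pow_nonneg ht0.le (r + 1))
    have h2 : t ^ (r + 1) * (8 / 10 * J t) = 8 / 10 * A * r.factorial := by
      simp only [J]
      field_simp
    rw [h2] at h1
    refine h1.trans (le_of_eq ?_)
    rw [mul_sum]
    refine sum_congr rfl fun n hn => ?_
    simp only [g]
    rw [Real.rpow_neg (hposM n hn).le, Real.rpow_add (hposM n hn), Real.rpow_one,
      Real.exp_neg, ← Real.rpow_def_of_pos (hposM n hn)]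
    have h3 : (n : ℝ) ≠ 0 := (hposM n hn).ne'
    have h4 : (n : ℝ) ^ t ≠ 0 := (Real.rpow_pos_of_pos (hposM n hn) t).ne'
    field_simp
  have hcont : ∀ n : ℕ, Continuous fun t : ℝ => a n / n *
      (t ^ (r + 1) * Real.exp (-(Real.log n * t))) := fun n => by fun_prop
  have hII : ∀ n ∈ M, IntervalIntegrable (fun t : ℝ => a n / n *
      (t ^ (r + 1) * Real.exp (-(Real.log n * t)))) volume η (2 * η) := fun n _ =>
    (hcont n).intervalIntegrable _ _
  have hint : 8 / 10 * A * r.factorial * η ≤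
      ∑ n ∈ M, a n / n * ∫ t in η..(2 * η), t ^ (r + 1) * Real.exp (-(Real.log n * t)) := by
    have h1 : ∫ _t in η..(2 * η), 8 / 10 * A * r.factorial ≤ ∫ t in η..(2 * η),
        ∑ n ∈ M, a n / n * (t ^ (r + 1) * Real.exp (-(Real.log n * t))) := by
      refine intervalIntegral.integral_mono_on (by linarith) intervalIntegrable_const ?_ hpt
      exact (continuous_finsetSum M fun n _ => hcont n).intervalIntegrable _ _
    rw [intervalIntegral.integral_const, intervalIntegral.integral_finsetSum hII] at h1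
    have h2 : (2 * η - η) • (8 / 10 * A * (r.factorial : ℝ)) = 8 / 10 * A * r.factorial * η := by
      rw [smul_eq_mul]
      ring
    rw [h2] at h1
    refine h1.trans (le_of_eq (sum_congr rfl fun n _ => ?_))
    rw [intervalIntegral.integral_const_mul]
  have hterm : ∀ n ∈ M, a n / n *
      ∫ t in η..(2 * η), t ^ (r + 1) * Real.exp (-(Real.log n * t)) ≤
      f n / n * (64 * (r + 1).factorial / U ^ 2) := by
    intro n hn
    have hL : 0 < Real.log n := lt_of_lt_of_le (by positivity) (hlogM n hn)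
    have h1 := int_le r hL hη0 (by linarith : η ≤ 2 * η)
    have hn0 := hposM n hn
    have h2 : 0 ≤ a n / n := div_nonneg (ha n) hn0.le
    refine (mul_le_mul_of_nonneg_left h1 h2).trans ?_
    have h3 : a n / n * (((r + 1).factorial : ℝ) / Real.log n ^ (r + 2)) =
        f n / n * ((r + 1).factorial / Real.log n ^ 2) := by
      simp only [a]
      rw [pow_add (Real.log n) r 2]
      field_simp
    rw [h3]
    refine mul_le_mul_of_nonneg_left ?_ (div_nonneg (hf n) hn0.le)
    rw [div_le_div_iff₀ (by positivity) (by positivity)]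
    have h4 : U ^ 2 ≤ 64 * Real.log n ^ 2 := by
      have := hlogM n hn
      nlinarith
    have h5 : (0 : ℝ) ≤ (r + 1).factorial := by positivity
    nlinarith
  have hfinal := hint.trans (sum_le_sum hterm)
  rw [← sum_mul] at hfinal
  have hS : 0 ≤ ∑ n ∈ M, f n / n := sum_nonneg fun n _ => div_nonneg (hf n) (Nat.cast_nonneg n)
  set S := ∑ n ∈ M, f n / (n : ℝ) with hSdef
  have hfac : ((r + 1).factorial : ℝ) = (r + 1) * r.factorial := by
    rw [Nat.factorial_succ]
    push_cast
    ring
  have hf0 : (0 : ℝ) < r.factorial := by exact_mod_cast r.factorial_pos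
  rw [hfac] at hfinal
  have h6 : 8 / 10 * A * η * U ^ 2 ≤ S * (64 * (r + 1)) := by
    have h7 : S * (64 * ((r + 1) * (r.factorial : ℝ)) / U ^ 2) =
        S * (64 * (r + 1)) / U ^ 2 * r.factorial := by ring
    rw [h7] at hfinal
    have h8 : 8 / 10 * A * (r.factorial : ℝ) * η = 8 / 10 * A * η * r.factorial := by ring
    rw [h8] at hfinal
    have h9 := le_of_mul_le_mul_right hfinal hf0
    rwa [le_div_iff₀ (by positivity)] at h9
  have h10 : 8 / 10 * A * η * U ^ 2 = 8 / 10 * A * U * r := by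
    rw [← hηU]
    ring
  rw [h10] at h6
  have h11 : (r : ℝ) + 1 ≤ 4 / 3 * r := by linarith
  have h12 : 8 / 10 * A * U * r ≤ S * (64 * (4 / 3 * r)) :=
    h6.trans (mul_le_mul_of_nonneg_left (by linarith) hS)
  have h13 : (8 / 10 * A * U) * r ≤ (S * (64 * (4 / 3))) * r := by linarith
  have h14 := le_of_mul_le_mul_right h13 (by linarith : (0 : ℝ) < r)
  nlinarith [mul_pos hA hU0]

end Pool.Agent.TEQ
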