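import Pool.Agent.TEQ.Targets

/-!
# TEQ-TOT: the sum of `μ(d) / φ(m d)` over the divisors of `∏_{p ≤ y} p`
-/

set_option autoImplicit false

open Finset

noncomputable section

namespace Pool.Agent.TEQ

namespace TOT_

/-- the divisors of `p Q`, `p` a prime not dividing `Q` -/
lemma divisors_prime_mul {p Q : ℕ} (hp : p.Prime) (hQ : Q ≠ 0) :
    (p * Q).divisors = Q.divisors ∪ Q.divisors.image (p * ·) := by
  ext d
  simp only [mem_union, mem_image, Nat.mem_divisors]
  constructor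
  · rintro ⟨hd, _⟩
    by_cases hpd : p ∣ d
    · obtain ⟨e, rfl⟩ := hpd
      exact Or.inr ⟨e, ⟨Nat.dvd_of_mul_dvd_mul_left hp.pos hd, hQ⟩, rfl⟩
    · exact Or.inl ⟨(Nat.Coprime.symm ((Nat.Prime.coprime_iff_not_dvd hp).2 hpd)).dvd_of_dvd_mul_left
        hd, hQ⟩
  · rintro (⟨hd, _⟩ | ⟨e, ⟨he, _⟩, rfl⟩)
    · exact ⟨hd.mul_left p, mul_ne_zero hp.ne_zero hQ⟩
    · exact ⟨Nat.mul_dvd_mul_left p he, mul_ne_zero hp.ne_zero hQ⟩

/-- the local factor -/
def g (m p : ℕ) : ℝ := if p ∣ m then (p : ℝ) else (p : ℝ) - 1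

lemma totient_step {m p d : ℕ} (hp : p.Prime) (hpd : ¬ p ∣ d) :
    ((m * (p * d)).totient : ℝ) = g m p * ((m * d).totient : ℝ) := by
  have h1 : m * (p * d) = p * (m * d) := by ring
  rw [h1]
  unfold g
  split_ifs with hm
  · rw [Nat.totient_mul_of_prime_of_dvd hp (hm.mul_right d)]
    push_cast
    ring
  · have h2 : ¬ p ∣ m * d := fun h => (hp.dvd_mul.1 h).elim hm hpd
    rw [Nat.totient_mul_of_prime_of_not_dvd hp h2]
    push_cast [hp.one_le]
    ring

lemma sum_step (m : ℕ) (S : Finset ℕ) (hS : ∀ p ∈ S, p.Prime) :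
    ∑ d ∈ (∏ p ∈ S, p).divisors, (ArithmeticFunction.moebius d : ℝ) / ((m * d).totient : ℝ) =
      (∏ p ∈ S, (1 - 1 / g m p)) / (m.totient : ℝ) := by
  classical
  induction S using Finset.induction_on with
  | empty => simp
  | insert p S hpS ih =>
    have hp : p.Prime := hS p (mem_insert_self p S)
    have hS' : ∀ q ∈ S, q.Prime := fun q hq => hS q (mem_insert_of_mem hq)
    have hQ : (∏ q ∈ S, q) ≠ 0 := prod_ne_zero_iff.2 fun q hq => (hS' q hq).ne_zero
    have hpQ : ¬ p ∣ ∏ q ∈ S, q := by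
      intro h
      obtain ⟨q, hq, hpq⟩ := (hp.prime.dvd_finset_prod_iff _).1 h
      have := (Nat.prime_dvd_prime_iff_eq hp (hS' q hq)).1 hpq
      exact hpS (this ▸ hq)
    have ih' := ih hS'
    rw [prod_insert hpS, prod_insert hpS, divisors_prime_mul hp hQ]
    rw [sum_union, sum_image]
    · have h1 : ∀ d ∈ (∏ q ∈ S, q).divisors,
          (ArithmeticFunction.moebius (p * d) : ℝ) / ((m * (p * d)).totient : ℝ) =
          -(1 / g m p) * ((ArithmeticFunction.moebius d : ℝ) / ((m * d).totient : ℝ)) := by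
        intro d hd
        have hdQ := (Nat.mem_divisors.1 hd).1
        have hpd : ¬ p ∣ d := fun h => hpQ (h.trans hdQ)
        rw [totient_step hp hpd]
        have hcop : Nat.Coprime p d := (Nat.Prime.coprime_iff_not_dvd hp).2 hpd
        rw [ArithmeticFunction.isMultiplicative_moebius.map_mul_of_coprime hcop,
          ArithmeticFunction.moebius_apply_prime hp]
        push_cast
        rw [neg_one_mul, neg_div, neg_mul, div_mul_div_comm, one_mul]
      rw [sum_congr rfl h1, ← mul_sum, ih']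
      ring
    · intro a _ b _ hab
      exact Nat.eq_of_mul_eq_mul_left hp.pos hab
    · rw [disjoint_left]
      intro d hd hd2
      obtain ⟨e, _, rfl⟩ := mem_image.1 hd2
      exact hpQ ((Dvd.intro e rfl).trans (Nat.mem_divisors.1 hd).1)

end TOT_

open TOT_ in
theorem p_TOT : T_TOT := by
  classical
  intro y m hm _ hsm
  have hPP : ∀ p ∈ PP y, p.Prime := fun p hp => (mem_filter.1 hp).2
  rw [sum_step m (PP y) hPP]
  have hsub : m.primeFactors ⊆ PP y := by
    intro p hp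
    have h1 := Nat.prime_of_mem_primeFactors hp
    have h2 := Nat.dvd_of_mem_primeFactors hp
    exact mem_filter.2 ⟨mem_range.2 (Nat.lt_succ_of_le (hsm p h1 h2)), h1⟩
  rw [← prod_sdiff hsub]
  have e1 : ∏ p ∈ PP y \ m.primeFactors, (1 - 1 / g m p) = kap y m.primeFactors := by
    unfold kap
    refine prod_congr rfl fun p hp => ?_
    have h1 := (mem_sdiff.1 hp)
    have h2 : ¬ p ∣ m := fun h =>
      h1.2 (Nat.mem_primeFactors.2 ⟨hPP p h1.1, h, hm⟩)
    simp [g, h2]
  have e2 : ∏ p ∈ m.primeFactors, (1 - 1 / g m p) = (m.totient : ℝ) / m := by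
    have h3 : ∏ p ∈ m.primeFactors, (1 - 1 / g m p) = ∏ p ∈ m.primeFactors, (1 - (p : ℝ)⁻¹) := by
      refine prod_congr rfl fun p hp => ?_
      have h2 := Nat.dvd_of_mem_primeFactors hp
      simp [g, h2]
    have h4 : (m.totient : ℝ) = m * ∏ p ∈ m.primeFactors, (1 - (p : ℝ)⁻¹) := by
      have := Nat.totient_eq_mul_prod_factors m
      have h5 : ((m.totient : ℚ) : ℝ) = ((m * ∏ p ∈ m.primeFactors, (1 - (p : ℚ)⁻¹) : ℚ) : ℝ) := by
        rw [this]
      push_cast at h5
      exact h5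
    have hm' : (m : ℝ) ≠ 0 := Nat.cast_ne_zero.2 hm
    rw [h3, h4]
    field_simp
  rw [e1, e2]
  have ht : (m.totient : ℝ) ≠ 0 := Nat.cast_ne_zero.2 (Nat.totient_pos.2 (Nat.pos_of_ne_zero hm)).ne'
  field_simp

end Pool.Agent.TEQ
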