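import Pool.Agent.TEQ.Targets

/-!
# TEQ, target VKP: comparison of products
-/

set_option autoImplicit false

open Finset

noncomputable section

namespace Pool.Agent.TEQ

/-- the product of the comparison factors -/
private theorem VKP_prod (y : ℕ) (Q : Finset ℕ) (D : ℕ) :
    ∏ p ∈ PP y, ((1 - 1 / (p : ℝ)) * ((if p ∉ Q then (1 - 1 / ((p : ℝ) - 1)) ^ 2 else 1) *
      (if p ∉ Q then (if p ∣ D then (1 + 4 / (p : ℝ)) else 1) else 1))) =
    (∏ p ∈ PP y, (1 - 1 / (p : ℝ))) * (kap y Q ^ 2 *
      ∏ p ∈ (PP y \ Q).filter (· ∣ D), (1 + 4 / (p : ℝ))) := by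
  rw [Finset.prod_mul_distrib, Finset.prod_mul_distrib]
  congr 1
  have e : PP y \ Q = (PP y).filter (· ∉ Q) := Finset.sdiff_eq_filter _ _
  congr 1
  · unfold kap
    rw [← Finset.prod_pow, e, Finset.prod_filter]
  · rw [e, Finset.prod_filter (fun p => p ∣ D), Finset.prod_filter]

theorem p_VKP (h : T_MRT) : T_VKP := by
  obtain ⟨c, C, hc, hC, hM⟩ := h
  refine ⟨C, hC, ?_⟩
  intro y Q ν D hy h2 hQ hν1 hν2
  have hfac : ∀ p ∈ PP y, 0 ≤ 1 - (ν p : ℝ) / p ∧ 1 - (ν p : ℝ) / p ≤
      (1 - 1 / (p : ℝ)) * ((if p ∉ Q then (1 - 1 / ((p : ℝ) - 1)) ^ 2 else 1) *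
      (if p ∉ Q then (if p ∣ D then (1 + 4 / (p : ℝ)) else 1) else 1)) := by
    intro p hp
    have hpp : p.Prime := by
      have := hp
      simp only [PP, Finset.mem_filter] at this
      exact this.2
    by_cases hQp : p ∈ Q
    · rw [hν1 p hQp]
      have h1 : (1 : ℝ) ≤ p := by exact_mod_cast hpp.one_lt.le
      have h3 : 1 / (p : ℝ) ≤ 1 := by
        rw [div_le_one (by linarith)]
        exact h1
      simp only [hQp, not_true_eq_false, if_false, mul_one, Nat.cast_one]
      constructor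
      · linarith
      · exact le_refl _
    · have hm : p ∈ PP y \ Q := Finset.mem_sdiff.mpr ⟨hp, hQp⟩
      have h2p : p ≠ 2 := by
        rintro rfl
        exact hQp h2
      have h3p : 3 ≤ p := by
        have := hpp.two_le
        omega
      have h3 : (3 : ℝ) ≤ p := by exact_mod_cast h3p
      have hp0 : (0 : ℝ) < p := by linarith
      have hp1 : (0 : ℝ) < (p : ℝ) - 1 := by linarith
      simp only [hQp, not_false_eq_true, if_true]
      by_cases hD : p ∣ D
      · rw [(hν2 p hm).1 hD]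
        simp only [hD, if_true]
        have e1 : (1 : ℝ) - 1 / ((p : ℝ) - 1) = ((p : ℝ) - 2) / ((p : ℝ) - 1) := by
          field_simp
          ring
        constructor
        · have : (2 : ℝ) / p ≤ 1 := by
            rw [div_le_one hp0]
            linarith
          push_cast
          linarith
        · push_cast
          rw [e1]
          have e2 : (1 : ℝ) - 2 / p = (p - 2) / p := by
            field_simp
          have e3 : (1 - 1 / (p : ℝ)) * ((((p : ℝ) - 2) / ((p : ℝ) - 1)) ^ 2 *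
              (1 + 4 / (p : ℝ))) = (p - 2) / p * (((p : ℝ) - 2) * (p + 4) / ((p - 1) * p)) := by
            field_simp
          rw [e2, e3]
          have h4 : (0 : ℝ) ≤ (p - 2) / p := div_nonneg (by linarith) hp0.le
          have h5 : (1 : ℝ) ≤ ((p : ℝ) - 2) * (p + 4) / ((p - 1) * p) := by
            rw [le_div_iff₀ (mul_pos hp1 hp0)]
            nlinarith
          calc ((p : ℝ) - 2) / p = (p - 2) / p * 1 := (mul_one _).symm
            _ ≤ _ := mul_le_mul_of_nonneg_left h5 h4
      · rw [(hν2 p hm).2 hD]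
        simp only [hD, if_false, mul_one]
        have e1 : (1 : ℝ) - 1 / ((p : ℝ) - 1) = ((p : ℝ) - 2) / ((p : ℝ) - 1) := by
          field_simp
          ring
        constructor
        · have : (3 : ℝ) / p ≤ 1 := by
            rw [div_le_one hp0]
            linarith
          push_cast
          linarith
        · push_cast
          rw [e1]
          have e2 : (1 : ℝ) - 3 / p = (p - 3) / p := by
            field_simp
          have e3 : (1 - 1 / (p : ℝ)) * (((p : ℝ) - 2) / ((p : ℝ) - 1)) ^ 2 =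
              (p - 2) ^ 2 / (p * (p - 1)) := by
            field_simp
          rw [e2, e3, div_le_div_iff₀ hp0 (mul_pos hp0 hp1)]
          nlinarith [mul_pos hp0 hp0]
  have hlog : 0 < Real.log y := Real.log_pos (by exact_mod_cast (by omega : 1 < y))
  have key := Finset.prod_le_prod (fun p hp => (hfac p hp).1) (fun p hp => (hfac p hp).2)
  rw [VKP_prod] at key
  have hW : 0 ≤ kap y Q ^ 2 * ∏ p ∈ (PP y \ Q).filter (· ∣ D), (1 + 4 / (p : ℝ)) :=
    mul_nonneg (sq_nonneg _) (Finset.prod_nonneg fun p _ => by positivity)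
  have hMy := (hM y hy).2
  calc (∏ p ∈ PP y, (1 - (ν p : ℝ) / p)) * Real.log y
      ≤ ((∏ p ∈ PP y, (1 - 1 / (p : ℝ))) * (kap y Q ^ 2 *
      ∏ p ∈ (PP y \ Q).filter (· ∣ D), (1 + 4 / (p : ℝ)))) * Real.log y :=
        mul_le_mul_of_nonneg_right key hlog.le
    _ ≤ (C / Real.log y * (kap y Q ^ 2 *
      ∏ p ∈ (PP y \ Q).filter (· ∣ D), (1 + 4 / (p : ℝ)))) * Real.log y := by
        apply mul_le_mul_of_nonneg_right _ hlog.le
        exact mul_le_mul_of_nonneg_right hMy hW
    _ = C * kap y Q ^ 2 * ∏ p ∈ (PP y \ Q).filter (· ∣ D), (1 + 4 / (p : ℝ)) := by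
        field_simp

end Pool.Agent.TEQ
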