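import Pool.Agent.TEQ.Targets

/-!
# TEQ, item WIN: the first moment
-/

set_option autoImplicit false

open Finset

noncomputable section

namespace Pool.Agent.TEQ

lemma WIN_growth {c B U : ℝ} (hc : 0 < c) (hB : 0 ≤ B) (hU1 : 1 ≤ U)
    (hU : ((1 + B) / c) ^ 2 ≤ U) : B ≤ c * U - U ^ (1 / 11 : ℝ) := by
  have h1 : U ^ (1 / 11 : ℝ) ≤ U ^ (1 / 2 : ℝ) :=
    Real.rpow_le_rpow_of_exponent_le hU1 (by norm_num)
  rw [← Real.sqrt_eq_rpow] at h1
  have h2 : (1 + B) / c ≤ Real.sqrt U := by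
    apply Real.le_sqrt_of_sq_le hU
  have h3 : 1 + B ≤ c * Real.sqrt U := by
    rw [div_le_iff₀ hc] at h2
    linarith
  have h4 : 1 ≤ Real.sqrt U := by
    rw [Real.one_le_sqrt]
    exact hU1
  have h5 : Real.sqrt U * Real.sqrt U = U := Real.mul_self_sqrt (by linarith)
  have h6 : B ≤ Real.sqrt U * (c * Real.sqrt U - 1) := by
    have h7 : B ≤ c * Real.sqrt U - 1 := by linarith
    calc B ≤ 1 * (c * Real.sqrt U - 1) := by linarith
      _ ≤ Real.sqrt U * (c * Real.sqrt U - 1) :=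
        mul_le_mul_of_nonneg_right h4 (by linarith)
  have h8 : Real.sqrt U * (c * Real.sqrt U - 1) = c * U - Real.sqrt U := by
    calc _ = c * (Real.sqrt U * Real.sqrt U) - Real.sqrt U := by ring
      _ = _ := by rw [h5]
  linarith

lemma WIN_ff_nonneg (y m n : ℕ) : 0 ≤ ff y m n := by
  unfold ff
  split_ifs
  · exact ArithmeticFunction.vonMangoldt_nonneg
  · exact le_rfl

lemma WIN_ff_le (y m n : ℕ) : ff y m n ≤ ArithmeticFunction.vonMangoldt n := by
  unfold ff
  split_ifs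
  · exact le_rfl
  · exact ArithmeticFunction.vonMangoldt_nonneg

lemma WIN_kap {y : ℕ} {Q : Finset ℕ} (h2 : 2 ∈ Q) : (1 / 2 : ℝ) ^ (y + 1) ≤ kap y Q := by
  have hcard : (PP y \ Q).card ≤ y + 1 := by
    calc (PP y \ Q).card ≤ (PP y).card := Finset.card_le_card Finset.sdiff_subset
      _ ≤ (range (y + 1)).card := Finset.card_filter_le _ _
      _ = y + 1 := Finset.card_range _
  calc (1 / 2 : ℝ) ^ (y + 1) ≤ (1 / 2 : ℝ) ^ (PP y \ Q).card :=
        pow_le_pow_of_le_one (by norm_num) (by norm_num) hcard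
    _ = ∏ _p ∈ PP y \ Q, (1 / 2 : ℝ) := by rw [Finset.prod_const]
    _ ≤ kap y Q := by
        unfold kap
        apply Finset.prod_le_prod (fun _ _ => by norm_num)
        intro p hp
        rw [Finset.mem_sdiff, PP, Finset.mem_filter] at hp
        have hpp := hp.1.2
        have hp2 : p ≠ 2 := fun h => hp.2 (h ▸ h2)
        have hp3 : 3 ≤ p := by
          have := hpp.two_le
          omega
        have hp3' : (3 : ℝ) ≤ p := by exact_mod_cast hp3
        have h4 : 1 / ((p : ℝ) - 1) ≤ 1 / 2 := one_div_le_one_div_of_le (by norm_num) (by linarith)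
        linarith

/-- **First moment.** -/
theorem p_WIN (h1 : T_ASY) (h2 : T_TBN) (h3 : T_PPW) : T_WIN := by
  classical
  intro y hy
  obtain ⟨U₁, hU₁, hasy⟩ := h1 y hy
  obtain ⟨C, hC, hppw⟩ := h3
  set B₀ : ℝ := 125 * C * 2 ^ (y + 1) with hB₀
  have hB₀0 : 0 ≤ B₀ := by positivity
  refine ⟨max (max U₁ 8) (max (((1 + 1) / (1 / 72 : ℝ)) ^ 2) (((1 + B₀) / (1 / 16 : ℝ)) ^ 2)),
    hU₁.trans ((le_max_left _ _).trans (le_max_left _ _)), ?_⟩
  intro U m hU hm8 hm0 hsm hmU
  have hUa : U₁ ≤ U := ((le_max_left _ _).trans (le_max_left _ _)).trans hU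
  have hU8 : 8 ≤ U := ((le_max_right _ _).trans (le_max_left _ _)).trans hU
  have hUb : ((1 + 1) / (1 / 72 : ℝ)) ^ 2 ≤ U :=
    ((le_max_left _ _).trans (le_max_right _ _)).trans hU
  have hUc : ((1 + B₀) / (1 / 16 : ℝ)) ^ 2 ≤ U :=
    ((le_max_right _ _).trans (le_max_right _ _)).trans hU
  have g1 := WIN_growth (by norm_num : (0 : ℝ) < 1 / 72) zero_le_one (by linarith) hUb
  have g2 := WIN_growth (by norm_num : (0 : ℝ) < 1 / 16) hB₀0 (by linarith) hUc
  obtain ⟨r, hr, hsum⟩ := hasy U m hUa hm8 hm0 hsm hmU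
  have hmpos : (0 : ℝ) < m := by exact_mod_cast Nat.pos_of_ne_zero hm0
  have h2Q : 2 ∈ m.primeFactors := by
    rw [Nat.mem_primeFactors]
    exact ⟨Nat.prime_two, (by norm_num : 2 ∣ 8).trans hm8, hm0⟩
  have hkap := WIN_kap (y := y) h2Q
  set κ := kap y m.primeFactors with hκ
  have hκ0 : 0 < κ := lt_of_lt_of_le (by positivity) hkap
  have hA0 : 0 < κ / m := div_pos hκ0 hmpos
  have htbn := h2 (ff y m) U (κ / m) r (WIN_ff_nonneg y m) (by linarith) hA0 hr hsum
  -- the set of the window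
  set W := (Icc 1 ⌊Real.exp (4 * U)⌋₊).filter (fun n : ℕ => U / 8 ≤ Real.log n) with hW
  have hmemW : ∀ n ∈ W, 1 ≤ n ∧ (n : ℝ) ≤ Real.exp (4 * U) ∧ Real.exp (U / 8) ≤ n := by
    intro n hn
    rw [hW, Finset.mem_filter, Finset.mem_Icc] at hn
    have hn0 : (0 : ℝ) < n := by exact_mod_cast hn.1.1
    refine ⟨hn.1.1, ?_, ?_⟩
    · exact (Nat.le_floor_iff (Real.exp_pos _).le).1 hn.1.2
    · rw [← Real.le_log_iff_exp_le hn0]
      exact hn.2
  -- non primes
  have hnp : ∑ n ∈ W.filter (fun n => ¬ n.Prime), ff y m n / n ≤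
      C * (U / 8) / Real.exp (U / 16) := by
    have hX : (2 : ℝ) ≤ Real.exp (U / 8) := by
      have := Real.add_one_le_exp (U / 8)
      linarith
    have h4 := hppw (Real.exp (U / 8)) (Real.exp (4 * U)) hX
    rw [Real.log_exp] at h4
    have h5 : Real.sqrt (Real.exp (U / 8)) = Real.exp (U / 16) := by
      rw [Real.sqrt_eq_iff_mul_self_eq (Real.exp_pos _).le (Real.exp_pos _).le, ← Real.exp_add]
      congr 1
      ring
    rw [h5] at h4
    refine le_trans ?_ h4
    calc ∑ n ∈ W.filter (fun n => ¬ n.Prime), ff y m n / n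
        ≤ ∑ n ∈ W.filter (fun n => ¬ n.Prime), ArithmeticFunction.vonMangoldt n / n :=
          Finset.sum_le_sum fun n _ => div_le_div_of_nonneg_right (WIN_ff_le y m n)
            (Nat.cast_nonneg n)
      _ ≤ _ := by
          apply Finset.sum_le_sum_of_subset_of_nonneg
          · intro n hn
            rw [Finset.mem_filter] at hn
            have h6 := hmemW n hn.1
            rw [Finset.mem_filter, Finset.mem_Icc]
            exact ⟨⟨h6.1, Nat.le_floor h6.2.1⟩, h6.2.2, hn.2⟩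
          · intro n _ _
            exact div_nonneg ArithmeticFunction.vonMangoldt_nonneg (Nat.cast_nonneg n)
  -- primes
  set S := (W.filter Nat.Prime).filter (fun n => ff y m n ≠ 0) with hS
  have hp : ∑ n ∈ W.filter Nat.Prime, ff y m n / n ≤ 4 * U * ∑ n ∈ S, 1 / (n : ℝ) := by
    rw [Finset.mul_sum]
    have h4 : ∑ n ∈ W.filter Nat.Prime, ff y m n / n = ∑ n ∈ S, ff y m n / n := by
      rw [hS]
      symm
      apply Finset.sum_filter_of_ne
      intro n _ hne h0
      rw [h0, zero_div] at hne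
      exact hne rfl
    rw [h4]
    apply Finset.sum_le_sum
    intro n hn
    rw [hS, Finset.mem_filter, Finset.mem_filter] at hn
    have h6 := hmemW n hn.1.1
    have hn0 : (0 : ℝ) < n := by exact_mod_cast h6.1
    rw [mul_one_div]
    apply div_le_div_of_nonneg_right _ hn0.le
    refine (WIN_ff_le y m n).trans ?_
    rw [ArithmeticFunction.vonMangoldt_apply_prime hn.1.2]
    rw [Real.log_le_iff_le_exp hn0]
    exact h6.2.1
  have hsplit : ∑ n ∈ W, ff y m n / n = ∑ n ∈ W.filter Nat.Prime, ff y m n / n +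
      ∑ n ∈ W.filter (fun n => ¬ n.Prime), ff y m n / n :=
    (Finset.sum_filter_add_sum_filter_not W Nat.Prime _).symm
  -- lower bound for the sum over the primes
  have hexp : C * (U / 8) / Real.exp (U / 16) ≤ κ / m * U / 1000 := by
    have e1 : (1 / 2 : ℝ) ^ (y + 1) / Real.exp (U ^ (1 / 11 : ℝ)) ≤ κ / m := by
      apply div_le_div₀ hκ0.le hkap hmpos hmU
    have e2 : B₀ ≤ Real.exp (1 / 16 * U - U ^ (1 / 11 : ℝ)) := by
      refine g2.trans ?_
      have := Real.add_one_le_exp (1 / 16 * U - U ^ (1 / 11 : ℝ))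
      linarith
    have e3 : Real.exp (1 / 16 * U - U ^ (1 / 11 : ℝ)) =
        Real.exp (U / 16) / Real.exp (U ^ (1 / 11 : ℝ)) := by
      rw [← Real.exp_sub]
      congr 1
      ring
    rw [e3, hB₀] at e2
    have e4 : 125 * C / Real.exp (U / 16) ≤
        (1 / 2 : ℝ) ^ (y + 1) / Real.exp (U ^ (1 / 11 : ℝ)) := by
      have e5 : (0 : ℝ) < 2 ^ (y + 1) := by positivity
      rw [one_div, inv_pow, div_le_div_iff₀ (Real.exp_pos _) (Real.exp_pos _)]
      rw [le_div_iff₀ (Real.exp_pos _)] at e2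
      rw [← div_eq_inv_mul, le_div_iff₀ e5]
      nlinarith
    have e6 : 125 * C / Real.exp (U / 16) ≤ κ / m := e4.trans e1
    have e7 : C * (U / 8) / Real.exp (U / 16) = 125 * C / Real.exp (U / 16) * (U / 1000) := by
      ring
    rw [e7]
    have e8 := mul_le_mul_of_nonneg_right e6 (by linarith : 0 ≤ U / 1000)
    linarith
  have hlow : κ / m / 1000 ≤ ∑ n ∈ S, 1 / (n : ℝ) := by
    have e1 : κ / m * U / 200 ≤ 4 * U * ∑ n ∈ S, 1 / (n : ℝ) + κ / m * U / 1000 := by
      linarith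
    have e2 : κ / m * U / 250 ≤ 4 * U * ∑ n ∈ S, 1 / (n : ℝ) := by linarith
    have hU0 : 0 < U := by linarith
    have e3 : κ / m / 1000 * (4 * U) ≤ (∑ n ∈ S, 1 / (n : ℝ)) * (4 * U) := by
      have : κ / m / 1000 * (4 * U) = κ / m * U / 250 := by ring
      rw [this]
      linarith
    exact le_of_mul_le_mul_right e3 (by linarith)
  -- the map to the window
  have hSmem : ∀ n ∈ S, m * ((n - 1) / m) + 1 = n ∧ ((n - 1) / m) ∈ WW y m U ∧
      (m : ℝ) / n ≤ 1 / (((n - 1) / m : ℕ) : ℝ) := by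
    intro n hn
    rw [hS, Finset.mem_filter, Finset.mem_filter] at hn
    obtain ⟨⟨hnW, hnp⟩, hne⟩ := hn
    obtain ⟨hn1, hnu, hnl⟩ := hmemW n hnW
    unfold ff at hne
    split_ifs at hne with hcond
    swap
    · exact absurd rfl hne
    obtain ⟨hmod, hrough⟩ := hcond
    have hdvd : m ∣ n - 1 := (Nat.modEq_iff_dvd' hn1).1 hmod.symm
    have hms : m * ((n - 1) / m) = n - 1 := Nat.mul_div_cancel' hdvd
    set s := (n - 1) / m with hs
    have hms1 : m * s + 1 = n := by omega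
    have hmsr : (m : ℝ) * s + 1 = n := by exact_mod_cast hms1
    have hn0 : (0 : ℝ) < n := by exact_mod_cast hn1
    have hsl : Real.exp (U / 9) ≤ s := by
      have e1 : Real.exp (U / 9) * Real.exp (U ^ (1 / 11 : ℝ)) * 2 ≤ Real.exp (U / 8) := by
        have e2 : (2 : ℝ) ≤ Real.exp 1 := by
          have := Real.add_one_le_exp (1 : ℝ)
          linarith
        calc Real.exp (U / 9) * Real.exp (U ^ (1 / 11 : ℝ)) * 2
            ≤ Real.exp (U / 9) * Real.exp (U ^ (1 / 11 : ℝ)) * Real.exp 1 :=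
              mul_le_mul_of_nonneg_left e2 (by positivity)
          _ = Real.exp (U / 9 + U ^ (1 / 11 : ℝ) + 1) := by
              rw [Real.exp_add, Real.exp_add]
          _ ≤ Real.exp (U / 8) := by
              apply Real.exp_le_exp.2
              linarith
      have e3 : (1 : ℝ) ≤ Real.exp (U / 9) * Real.exp (U ^ (1 / 11 : ℝ)) := by
        have e4 : (1 : ℝ) ≤ Real.exp (U / 9) := Real.one_le_exp (by linarith)
        have e5 : (1 : ℝ) ≤ Real.exp (U ^ (1 / 11 : ℝ)) :=
          Real.one_le_exp (Real.rpow_nonneg (by linarith) _)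
        nlinarith
      have e6 : Real.exp (U / 9) * Real.exp (U ^ (1 / 11 : ℝ)) ≤ m * s := by linarith
      have e7 : (m : ℝ) * s ≤ Real.exp (U ^ (1 / 11 : ℝ)) * s :=
        mul_le_mul_of_nonneg_right hmU (Nat.cast_nonneg s)
      have e8 : Real.exp (U / 9) * Real.exp (U ^ (1 / 11 : ℝ)) ≤
          (s : ℝ) * Real.exp (U ^ (1 / 11 : ℝ)) := by linarith
      exact le_of_mul_le_mul_right e8 (Real.exp_pos _)
    have hs0 : (0 : ℝ) < s := lt_of_lt_of_le (Real.exp_pos _) hsl
    have hs1 : 1 ≤ s := by exact_mod_cast hs0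
    refine ⟨hms1, ?_, ?_⟩
    · rw [WW, Finset.mem_filter, Finset.mem_Icc]
      refine ⟨⟨hs1, ?_⟩, hsl, ?_, hrough, ?_⟩
      · refine le_trans ?_ (Nat.le_floor hnu)
        have : 1 * s ≤ m * s := Nat.mul_le_mul_right _ (Nat.pos_of_ne_zero hm0)
        omega
      · rw [hms1]
        exact hnu
      · rw [hms1]
        exact hnp
    · rw [div_le_div_iff₀ hn0 hs0]
      linarith
  have hfin : (m : ℝ) * ∑ n ∈ S, 1 / (n : ℝ) ≤ ∑ s ∈ WW y m U, 1 / (s : ℝ) := by
    calc (m : ℝ) * ∑ n ∈ S, 1 / (n : ℝ) = ∑ n ∈ S, (m : ℝ) / n := by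
          rw [Finset.mul_sum]
          exact Finset.sum_congr rfl fun n _ => mul_one_div _ _
      _ ≤ ∑ n ∈ S, 1 / (((n - 1) / m : ℕ) : ℝ) := Finset.sum_le_sum fun n hn => (hSmem n hn).2.2
      _ = ∑ s ∈ S.image (fun n => (n - 1) / m), 1 / (s : ℝ) := by
          rw [Finset.sum_image]
          intro a ha b hb hab
          have h6 := (hSmem a ha).1
          have h7 := (hSmem b hb).1
          simp only at hab
          rw [← h6, ← h7, hab]
      _ ≤ ∑ s ∈ WW y m U, 1 / (s : ℝ) := by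
          apply Finset.sum_le_sum_of_subset_of_nonneg
          · intro s hs
            rw [Finset.mem_image] at hs
            obtain ⟨n, hn, rfl⟩ := hs
            exact (hSmem n hn).2.1
          · intro s _ _
            positivity
  refine le_trans ?_ hfin
  calc κ / 2000 ≤ κ / 1000 := by linarith
    _ = (m : ℝ) * (κ / m / 1000) := by field_simp
    _ ≤ (m : ℝ) * ∑ n ∈ S, 1 / (n : ℝ) := mul_le_mul_of_nonneg_left hlow hmpos.le

end Pool.Agent.TEQ
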