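import Pool.Agent.TEQ.Main
import Pool.Agent.TEQ.P_LUB
import Pool.Agent.TEQ.P_CXL
import Pool.Agent.TEQ.P_SQM
import Pool.Agent.TEQ.P_REL
import Pool.Agent.TEQ.P_PRN
import Pool.Agent.TEQ.P_AUX
import Pool.Agent.TEQ.P_APS
import Pool.Agent.TEQ.P_TOT
import Pool.Agent.TEQ.P_RGS
import Pool.Agent.TEQ.P_ASY
import Pool.Agent.TEQ.P_TBN
import Pool.Agent.TEQ.P_PPW
import Pool.Agent.TEQ.P_WIN
import Pool.Agent.TEQ.P_SIV
import Pool.Agent.TEQ.P_TAU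
import Pool.Agent.TEQ.P_NUC
import Pool.Agent.TEQ.P_MRT
import Pool.Agent.TEQ.P_VKP
import Pool.Agent.TEQ.P_GE1
import Pool.Agent.TEQ.P_GE2
import Pool.Agent.TEQ.P_SV2
import Pool.Agent.TEQ.P_DYA
import Pool.Agent.TEQ.P_ORD
import Pool.Agent.TEQ.P_PRS
import Pool.Agent.TEQ.P_RMC
import Pool.Agent.TEQ.P_AVG
import Pool.Agent.TEQ.P_BOX
import Pool.Agent.TEQ.P_CSQ
import Pool.Agent.TEQ.P_PRB
import Pool.Agent.TEQ.P_SOL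
import Pool.Agent.TEQ.P_CNT
import Pool.Agent.TEQ.P_CRT
import Pool.Agent.TEQ.P_STP
import Pool.Agent.TEQ.P_FEW
import Pool.Agent.TEQ.P_ITR
import Pool.Agent.TEQ.P_FIN

set_option autoImplicit false

namespace Pool.Agent.TEQ

theorem fin : T_FIN :=
  main p_LUB p_CXL p_SQM p_REL p_PRN p_AUX p_APS p_TOT p_RGS p_ASY p_TBN p_PPW p_WIN p_SIV p_TAU
    p_NUC p_MRT p_VKP p_GE1 p_GE2 p_SV2 p_DYA p_ORD p_PRS p_RMC p_AVG p_BOX p_CSQ p_PRB p_SOL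
    p_CNT p_CRT p_STP p_FEW p_ITR p_FIN

end Pool.Agent.TEQ
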