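import Mathlib

/-!
# TEQ: equal totient values at even distance (MP_5f97cd_nt)

For every `T`, almost all even `i` have at least `T` solutions of `φ (n + i) = φ n`.
Definitions used in the targets (see `Blueprint.lean.txt`).
-/

set_option autoImplicit false

open Finset

noncomputable section

namespace Pool.Agent.TEQ

/-- the primes `≤ y` -/
def PP (y : ℕ) : Finset ℕ := (range (y + 1)).filter Nat.Prime

/-- the primes in `(y, z]` -/
def PI (y z : ℕ) : Finset ℕ := (Ioc y z).filter Nat.Prime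

/-- the primes `≤ y` dividing `i` -/
def QQ (y i : ℕ) : Finset ℕ := (PP y).filter (· ∣ i)

/-- `s` has no prime factor `≤ y` -/
def Rough (y s : ℕ) : Prop := ∀ p : ℕ, p.Prime → p ≤ y → ¬ p ∣ s

/-- all prime factors of `m` are `≤ y` -/
def Smooth (y m : ℕ) : Prop := ∀ p : ℕ, p.Prime → p ∣ m → p ≤ y

/-- the product over the primes `p ≤ y`, `p ∉ Q`, of `1 - 1 / (p - 1)` -/
def kap (y : ℕ) (Q : Finset ℕ) : ℝ := ∏ p ∈ PP y \ Q, (1 - 1 / ((p : ℝ) - 1))

/-- `∏ (1 + 4 / p)` over the odd prime factors of `n` that are not in `Q` -/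
def HH (Q : Finset ℕ) (n : ℕ) : ℝ := ∏ p ∈ (n.primeFactors \ Q).filter (· ≠ 2), (1 + 4 / (p : ℝ))

/-- `Σ Λ(n) (log n)^r n^(-1-η)` over `n ≡ 1 mod m` -/
def apS (m r : ℕ) (η : ℝ) : ℝ :=
  ∑' n : ℕ, if n ≡ 1 [MOD m] then
    ArithmeticFunction.vonMangoldt n * (Real.log n) ^ r * (n : ℝ) ^ (-(1 + η)) else 0

open Classical in
/-- `Λ(n)` if `n = m s + 1` with `s` free of primes `≤ y` -/
def ff (y m n : ℕ) : ℝ :=
  if n ≡ 1 [MOD m] ∧ Rough y ((n - 1) / m) then ArithmeticFunction.vonMangoldt n else 0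

/-- the numbers `s` in the window of size `U` with `m s + 1` prime -/
def WW (y m : ℕ) (U : ℝ) : Finset ℕ :=
  open Classical in (Icc 1 ⌊Real.exp (4 * U)⌋₊).filter fun s =>
    Real.exp (U / 9) ≤ s ∧ (m * s + 1 : ℕ) ≤ Real.exp (4 * U) ∧ Rough y s ∧ (m * s + 1).Prime

/-- `s ≤ z`, composed of primes in `(y, z]`, with at least `T` numbers `m` with exactly the prime
factors `Q`, for which `m s + 1 ≤ z` is prime -/
def SS (y z T : ℕ) (Q : Finset ℕ) : Finset ℕ :=
  open Classical in (Icc 1 z).filter fun s => Rough y s ∧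
    T ≤ ((Icc 1 z).filter fun m => m.primeFactors = Q ∧ m * s + 1 ≤ z ∧ (m * s + 1).Prime).card

/-- the product of the primes in `(y, z]` -/
def PR (y z : ℕ) : ℕ := ∏ p ∈ PI y z, p

/-- `i` is good for the scale `(y, z]` -/
def Good (y z T i : ℕ) : Prop :=
  ∃ s ∈ SS y z T (QQ y i), s ∣ i ∧ (i / s).Coprime (PR y z)

/-- the number of solutions `n ≤ C i` -/
def sols (C i : ℕ) : Finset ℕ :=
  (Icc 1 (C * i)).filter fun n => Nat.totient (n + i) = Nat.totient n

/-- `(2 ^ a) u` for `a ∈ [3, 3 + A)`, `u ∈ 𝒰` -/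
def MM (A : ℕ) (V : Finset ℕ) : Finset ℕ := ((range A) ×ˢ V).image fun x => 2 ^ (3 + x.1) * x.2

end Pool.Agent.TEQ
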