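import Pool.Agent.TEQ.Targets

/-!
# TEQ: composition of the targets
-/

set_option autoImplicit false

open Finset

noncomputable section

namespace Pool.Agent.TEQ

/-- everything from the targets -/
theorem main
    (LUB : T_LUB) (CXL : T_LUB → T_CXL) (SQM : T_SQM) (REL : T_SQM → T_REL) (PRN : T_PRN)
    (AUX : T_CXL → T_REL → T_PRN → T_AUX) (APS : T_AUX → T_APS) (TOT : T_TOT)
    (RGS : T_APS → T_TOT → T_RGS) (ASY : T_RGS → T_ASY) (TBN : T_TBN) (PPW : T_PPW)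
    (WIN : T_ASY → T_TBN → T_PPW → T_WIN)
    (SIV : T_SIV) (TAU : T_TAU) (NUC : T_NUC) (MRT : T_MRT) (VKP : T_MRT → T_VKP)
    (GE1 : T_GE1) (GE2 : T_GE2)
    (SV2 : T_SIV → T_TAU → T_NUC → T_MRT → T_VKP → T_GE1 → T_GE2 → T_SV2)
    (DYA : T_SV2 → T_DYA)
    (ORD : T_ORD) (PRS : T_MRT → T_PRS) (RMC : T_PRS → T_RMC) (AVG : T_ORD → T_RMC → T_AVG)
    (BOX : T_PRS → T_BOX) (CSQ : T_CSQ)
    (PRB : T_WIN → T_DYA → T_AVG → T_BOX → T_MRT → T_CSQ → T_PRB)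
    (SOL : T_SOL) (CNT : T_CNT) (CRT : T_CRT) (STP : T_CNT → T_CRT → T_STP) (FEW : T_FEW)
    (ITR : T_PRB → T_STP → T_FEW → T_SOL → T_ITR) (FIN : T_ITR → T_FIN) : T_FIN := by
  have hCXL := CXL LUB
  have hREL := REL SQM
  have hAUX := AUX hCXL hREL PRN
  have hAPS := APS hAUX
  have hRGS := RGS hAPS TOT
  have hASY := ASY hRGS
  have hWIN := WIN hASY TBN PPW
  have hVKP := VKP MRT
  have hSV2 := SV2 SIV TAU NUC MRT hVKP GE1 GE2
  have hDYA := DYA hSV2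
  have hPRS := PRS MRT
  have hRMC := RMC hPRS
  have hAVG := AVG ORD hRMC
  have hBOX := BOX hPRS
  have hPRB := PRB hWIN hDYA hAVG hBOX MRT CSQ
  exact FIN (ITR hPRB (STP CNT CRT) FEW SOL)

end Pool.Agent.TEQ
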