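import Pool.Agent.TEQ.Targets

/-!
# TEQ: solutions from good scales
-/

set_option autoImplicit false

open Finset

noncomputable section

namespace Pool.Agent.TEQ

namespace SOL_

lemma tot (i : ℕ) : ∀ k : ℕ, 0 < k → (∀ p : ℕ, p.Prime → p ∣ k → p ∣ i) →
    Nat.totient (k * i) = k * Nat.totient i := by
  intro k
  induction k using Nat.strong_induction_on with
  | _ k ih =>
    intro hk hp
    rcases Nat.lt_or_ge k 2 with h1 | h1
    · have hk1 : k = 1 := by omega
      rw [hk1, one_mul, one_mul]
    · obtain ⟨p, hpp, hpk⟩ := Nat.exists_prime_and_dvd (show k ≠ 1 by omega)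
      obtain ⟨k', rfl⟩ := hpk
      have hk' : 0 < k' := Nat.pos_of_mul_pos_left hk
      have hlt : k' < p * k' := by
        have := hpp.two_le
        nlinarith
      have h2 := ih k' hlt hk' fun q hq hqk => hp q hq (hqk.mul_left p)
      have h3 : p ∣ k' * i := (hp p hpp (dvd_mul_right p k')).mul_left k'
      rw [mul_assoc, Nat.totient_mul_of_prime_of_dvd hpp h3, h2, mul_assoc]

end SOL_

theorem p_SOL : T_SOL := by
  classical
  intro y z T i hi hG
  obtain ⟨s, hs, hsi, hcop⟩ := hG
  rw [SS, mem_filter, mem_Icc] at hs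
  obtain ⟨⟨hs1, hsz⟩, hrough, hT⟩ := hs
  refine (le_of_le_of_eq hT ?_).trans (card_le_card_of_injOn (fun m => m * s * i) ?_ ?_
    (s := (Icc 1 z).filter fun m => m.primeFactors = QQ y i ∧ m * s + 1 ≤ z ∧
      (m * s + 1).Prime))
  · congr
  · intro m hm
    rw [mem_coe, mem_filter, mem_Icc] at hm
    obtain ⟨⟨hm1, hmz⟩, hmQ, hqz, hqp⟩ := hm
    have hms : 1 ≤ m * s := Nat.mul_pos hm1 hs1
    have hqi : ¬ (m * s + 1) ∣ i := by
      intro hd
      rcases Nat.lt_or_ge y (m * s + 1) with hqy | hqy
      · have hPR : (m * s + 1) ∣ PR y z := by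
          unfold PR
          refine dvd_prod_of_mem (fun p => p) ?_
          rw [PI, mem_filter, mem_Ioc]
          exact ⟨⟨hqy, hqz⟩, hqp⟩
        have hi2 : i = s * (i / s) := (Nat.mul_div_cancel' hsi).symm
        rw [hi2] at hd
        rcases (hqp.dvd_mul).1 hd with h | h
        · have := Nat.le_of_dvd hs1 h
          have h4 : s ≤ m * s := Nat.le_mul_of_pos_left s hm1
          omega
        · have := Nat.eq_one_of_dvd_coprimes hcop h hPR
          have h5 := hqp.one_lt
          omega
      · have hQ : (m * s + 1) ∈ QQ y i := by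
          rw [QQ, PP, mem_filter, mem_filter, mem_range]
          exact ⟨⟨by omega, hqp⟩, hd⟩
        rw [← hmQ] at hQ
        have h1 : (m * s + 1) ∣ m := Nat.dvd_of_mem_primeFactors hQ
        have h2 := Nat.le_of_dvd hm1 h1
        have h4 : m ≤ m * s := Nat.le_mul_of_pos_right m hs1
        omega
    have htot : Nat.totient (m * s * i) = m * s * Nat.totient i := by
      refine SOL_.tot i (m * s) hms fun p hp hd => ?_
      rcases (hp.dvd_mul).1 hd with h | h
      · have h6 : p ∈ m.primeFactors := Nat.mem_primeFactors.2 ⟨hp, h, by omega⟩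
        rw [hmQ, QQ, mem_filter] at h6
        exact h6.2
      · exact h.trans hsi
    rw [mem_coe, sols, mem_filter, mem_Icc]
    refine ⟨⟨Nat.mul_pos hms hi, ?_⟩, ?_⟩
    · exact Nat.mul_le_mul_right i (by omega)
    · simp only
      have h7 : m * s * i + i = (m * s + 1) * i := by ring
      have h8 : Nat.Coprime (m * s + 1) i := (Nat.Prime.coprime_iff_not_dvd hqp).2 hqi
      rw [h7, Nat.totient_mul h8, Nat.totient_prime hqp, htot, Nat.add_sub_cancel]
  · intro m _ m' _ h
    simp only at h
    have h9 : m * s = m' * s := Nat.eq_of_mul_eq_mul_right hi h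
    exact Nat.eq_of_mul_eq_mul_right hs1 h9

end Pool.Agent.TEQ
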