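import Pool.Agent.TEQ.Targets

/-! TAU: lower bound for the sum of `2 ^ ω(l) / l` over squarefree `l ≤ L`. -/

set_option autoImplicit false

open Finset

namespace Pool.Agent.TEQ

namespace TAU_

theorem sum_le_of_subset_image {α β : Type*} [DecidableEq β] (S : Finset β) (T : Finset α)
    (φ : α → β) (f : β → ℝ) (hf : ∀ b, 0 ≤ f b) (h : S ⊆ T.image φ) :
    ∑ b ∈ S, f b ≤ ∑ t ∈ T, f (φ t) := by
  calc ∑ b ∈ S, f b ≤ ∑ b ∈ T.image φ, f b :=
        Finset.sum_le_sum_of_subset_of_nonneg h (fun b _ _ => hf b)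
    _ ≤ ∑ b ∈ T.image φ, ∑ t ∈ T with φ t = b, f (φ t) := by
        refine Finset.sum_le_sum fun b hb => ?_
        obtain ⟨t, ht, rfl⟩ := Finset.mem_image.1 hb
        exact Finset.single_le_sum (f := fun t => f (φ t)) (fun _ _ => hf _)
          (Finset.mem_filter.2 ⟨ht, rfl⟩)
    _ = ∑ t ∈ T, f (φ t) :=
        Finset.sum_fiberwise_of_maps_to (fun t ht => Finset.mem_image_of_mem φ ht) _

/-- pairs of coprime squarefree numbers `≤ x` -/
def CP (x : ℕ) : Finset (ℕ × ℕ) :=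
  ((Icc 1 x) ×ˢ (Icc 1 x)).filter fun p => p.1.Coprime p.2 ∧ Squarefree p.1 ∧ Squarefree p.2

theorem sq_le (x : ℕ) : ∑ g ∈ Icc 1 x, 1 / ((g : ℝ) ^ 2) ≤ 2 := by
  have h := sum_Ioo_inv_sq_le (α := ℝ) 0 (x + 1)
  have e : Ioo 0 (x + 1) = Icc 1 x := by
    ext n; simp only [mem_Ioo, mem_Icc]; omega
  rw [e] at h
  simp only [Nat.cast_zero, zero_add, div_one] at h
  simpa [one_div] using h

theorem step (x : ℕ) : (∑ a ∈ Icc 1 x, 1 / (a : ℝ)) ^ 2 ≤
    8 * ∑ p ∈ CP x, 1 / ((p.1 : ℝ) * p.2) := by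
  have h1 : (∑ a ∈ Icc 1 x, 1 / (a : ℝ)) ^ 2 =
      ∑ p ∈ (Icc 1 x) ×ˢ (Icc 1 x), 1 / ((p.1 : ℝ) * p.2) := by
    rw [sq, Finset.sum_mul_sum, Finset.sum_product]
    refine Finset.sum_congr rfl fun a _ => Finset.sum_congr rfl fun b _ => ?_
    rw [one_div_mul_one_div]
  rw [h1]
  have h2 := sum_le_of_subset_image ((Icc 1 x) ×ˢ (Icc 1 x))
    ((((Icc 1 x) ×ˢ (Icc 1 x)) ×ˢ (Icc 1 x)) ×ˢ CP x)
    (fun t => (t.1.1.1 * (t.1.1.2 ^ 2 * t.2.1), t.1.1.1 * (t.1.2 ^ 2 * t.2.2)))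
    (fun p => 1 / ((p.1 : ℝ) * p.2)) (fun p => by positivity) (by
      rintro ⟨a, b⟩ hab
      rw [Finset.mem_product, Finset.mem_Icc, Finset.mem_Icc] at hab
      obtain ⟨⟨ha1, hax⟩, hb1, hbx⟩ := hab
      simp only at ha1 hax hb1 hbx
      have hg : 0 < Nat.gcd a b := Nat.gcd_pos_of_pos_left _ ha1
      obtain ⟨a', b', hcop, hga, hgb⟩ := Nat.exists_coprime a b
      set g := Nat.gcd a b with hgdef
      obtain ⟨l, k, hk, hl⟩ := Nat.sq_mul_squarefree a'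
      obtain ⟨l', k', hk', hl'⟩ := Nat.sq_mul_squarefree b'
      have ha0 : 0 < a' := Nat.pos_of_ne_zero (by rintro rfl; simp at hga; omega)
      have hb0 : 0 < b' := Nat.pos_of_ne_zero (by rintro rfl; simp at hgb; omega)
      have hk0 : 0 < k := Nat.pos_of_ne_zero (by rintro rfl; simp at hk; omega)
      have hk0' : 0 < k' := Nat.pos_of_ne_zero (by rintro rfl; simp at hk'; omega)
      have hl0 : 0 < l := Nat.pos_of_ne_zero (by rintro rfl; simp at hk; omega)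
      have hl0' : 0 < l' := Nat.pos_of_ne_zero (by rintro rfl; simp at hk'; omega)
      have haa : a' ≤ a := by rw [hga]; exact Nat.le_mul_of_pos_right _ hg
      have hbb : b' ≤ b := by rw [hgb]; exact Nat.le_mul_of_pos_right _ hg
      have hgx : g ≤ x := le_trans (Nat.le_of_dvd ha1 (Nat.gcd_dvd_left _ _)) hax
      have hkx : k ≤ x := by
        have : k ≤ k ^ 2 * l := by nlinarith [Nat.one_le_iff_ne_zero.2 hl0.ne', Nat.mul_pos (Nat.mul_pos hk0 hk0) hl0, Nat.le_mul_of_pos_right k hk0, Nat.le_mul_of_pos_right (k*k) hl0]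
        omega
      have hkx' : k' ≤ x := by
        have : k' ≤ k' ^ 2 * l' := by nlinarith [Nat.le_mul_of_pos_right k' hk0', Nat.le_mul_of_pos_right (k'*k') hl0']
        omega
      have hlx : l ≤ x := by
        have : l ≤ k ^ 2 * l := Nat.le_mul_of_pos_left _ (by positivity)
        omega
      have hlx' : l' ≤ x := by
        have : l' ≤ k' ^ 2 * l' := Nat.le_mul_of_pos_left _ (by positivity)
        omega
      have hll : l.Coprime l' := by
        refine Nat.Coprime.coprime_dvd_left (Dvd.intro_left _ hk) ?_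
        exact Nat.Coprime.coprime_dvd_right (Dvd.intro_left _ hk') hcop
      refine Finset.mem_image.2 ⟨(((g, k), k'), (l, l')), ?_, ?_⟩
      · simp only [Finset.mem_product, Finset.mem_Icc, CP, Finset.mem_filter]
        exact ⟨⟨⟨⟨hg, hgx⟩, hk0, hkx⟩, hk0', hkx'⟩, ⟨⟨hl0, hlx⟩, hl0', hlx'⟩, hll, hl, hl'⟩
      · simp only [hk, hk']
        rw [mul_comm g a', mul_comm g b', ← hga, ← hgb])
  refine le_trans h2 ?_
  have h3 : ∑ t ∈ (((Icc 1 x) ×ˢ (Icc 1 x)) ×ˢ (Icc 1 x)) ×ˢ CP x,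
      (1 : ℝ) / (((t.1.1.1 * (t.1.1.2 ^ 2 * t.2.1) : ℕ) : ℝ) *
        ((t.1.1.1 * (t.1.2 ^ 2 * t.2.2) : ℕ) : ℝ)) =
      (((∑ g ∈ Icc 1 x, 1 / ((g : ℝ) ^ 2)) * (∑ g ∈ Icc 1 x, 1 / ((g : ℝ) ^ 2))) *
        (∑ g ∈ Icc 1 x, 1 / ((g : ℝ) ^ 2))) * ∑ p ∈ CP x, 1 / ((p.1 : ℝ) * p.2) := by
    rw [Finset.sum_mul_sum, ← Finset.sum_product', Finset.sum_mul_sum, ← Finset.sum_product',
      Finset.sum_mul_sum, ← Finset.sum_product']
    refine Finset.sum_congr rfl fun t _ => ?_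
    push_cast
    simp only [one_div, mul_inv]
    ring
  rw [h3]
  have h0 : 0 ≤ ∑ g ∈ Icc 1 x, 1 / ((g : ℝ) ^ 2) := Finset.sum_nonneg fun _ _ => by positivity
  have h5 : 0 ≤ ∑ p ∈ CP x, 1 / ((p.1 : ℝ) * p.2) := Finset.sum_nonneg fun _ _ => by positivity
  have h4 := sq_le x
  refine mul_le_mul_of_nonneg_right ?_ h5
  have h6 : (∑ g ∈ Icc 1 x, 1 / ((g : ℝ) ^ 2)) * (∑ g ∈ Icc 1 x, 1 / ((g : ℝ) ^ 2)) ≤ 2 * 2 :=
    mul_le_mul h4 h4 h0 (by norm_num)
  calc _ ≤ (2 * 2) * (2 : ℝ) := mul_le_mul h6 h4 h0 (by norm_num)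
    _ = 8 := by norm_num

theorem card_div {n : ℕ} (hn : Squarefree n) : n.divisors.card = 2 ^ n.primeFactors.card := by
  rw [Nat.card_divisors hn.ne_zero, Finset.prod_congr rfl (g := fun _ => 2), Finset.prod_const]
  intro p hp
  rw [Nat.factorization_eq_one_of_squarefree hn (Nat.prime_of_mem_primeFactors hp)
    (Nat.dvd_of_mem_primeFactors hp)]

theorem step2 (x L : ℕ) (h : x * x ≤ L) : ∑ p ∈ CP x, 1 / ((p.1 : ℝ) * p.2) ≤
    ∑ l ∈ (Icc 1 L).filter Squarefree, (2 : ℝ) ^ l.primeFactors.card / l := by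
  classical
  have hm : ∀ p ∈ CP x, p.1 * p.2 ∈ (Icc 1 L).filter Squarefree := by
    intro p hp
    simp only [CP, Finset.mem_filter, Finset.mem_product, Finset.mem_Icc] at hp ⊢
    obtain ⟨⟨⟨h1, h2⟩, h3, h4⟩, hc, hs, hs'⟩ := hp
    refine ⟨⟨Nat.mul_pos h1 h3, (Nat.mul_le_mul h2 h4).trans h⟩, ?_⟩
    exact (Nat.squarefree_mul hc).2 ⟨hs, hs'⟩
  rw [← Finset.sum_fiberwise_of_maps_to hm]
  refine Finset.sum_le_sum fun n hn => ?_
  have hn' : Squarefree n := (Finset.mem_filter.1 hn).2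
  have hc : ((CP x).filter fun p => p.1 * p.2 = n).card ≤ 2 ^ n.primeFactors.card := by
    rw [← card_div hn']
    refine Finset.card_le_card_of_injOn (fun p => p.1) ?_ ?_
    · intro p hp
      have hp := (Finset.mem_filter.1 (Finset.mem_coe.1 hp)).2
      exact Finset.mem_coe.2 (Nat.mem_divisors.2 ⟨Dvd.intro _ hp, hn'.ne_zero⟩)
    · intro p hp q hq hpq
      have hp := (Finset.mem_filter.1 (Finset.mem_coe.1 hp)).2
      have hq := (Finset.mem_filter.1 (Finset.mem_coe.1 hq)).2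
      simp only at hpq
      have h0 : 0 < p.1 := Nat.pos_of_ne_zero (by
        intro h0; rw [h0, zero_mul] at hp; exact hn'.ne_zero hp.symm)
      refine Prod.ext hpq ?_
      rw [← hpq] at hq
      exact Nat.eq_of_mul_eq_mul_left h0 (hp.trans hq.symm)
  calc ∑ p ∈ (CP x).filter (fun p => p.1 * p.2 = n), 1 / ((p.1 : ℝ) * p.2)
      = ∑ p ∈ (CP x).filter (fun p => p.1 * p.2 = n), 1 / (n : ℝ) := by
        refine Finset.sum_congr rfl fun p hp => ?_
        rw [← (Finset.mem_filter.1 hp).2]; push_cast; rfl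
    _ = ((CP x).filter fun p => p.1 * p.2 = n).card / (n : ℝ) := by
        rw [Finset.sum_const, nsmul_eq_mul, mul_one_div]
    _ ≤ _ := by
        refine div_le_div_of_nonneg_right ?_ (Nat.cast_nonneg _)
        exact_mod_cast hc

end TAU_

open TAU_ in
theorem p_TAU : T_TAU := by
  refine ⟨1 / 32, by norm_num, fun L hL => ?_⟩
  set x := Nat.sqrt L with hx
  have h1 : x * x ≤ L := Nat.sqrt_le L
  have h2 : L < (x + 1) * (x + 1) := Nat.lt_succ_sqrt L
  have hH : Real.log ((x + 1 : ℕ) : ℝ) ≤ ∑ a ∈ Icc 1 x, 1 / (a : ℝ) := by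
    have := log_add_one_le_harmonic x
    rw [harmonic_eq_sum_Icc] at this
    push_cast at this ⊢
    simpa [one_div] using this
  have hlog : Real.log L ≤ 2 * Real.log ((x + 1 : ℕ) : ℝ) := by
    have : (L : ℝ) ≤ ((x + 1 : ℕ) : ℝ) ^ 2 := by
      rw [sq]; exact_mod_cast h2.le
    calc Real.log L ≤ Real.log (((x + 1 : ℕ) : ℝ) ^ 2) :=
          Real.log_le_log (by positivity) this
      _ = _ := by rw [Real.log_pow]; push_cast; ring
  have h0 : 0 ≤ Real.log L := Real.log_nonneg (by exact_mod_cast (by omega : 1 ≤ L))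
  have h3 := step x
  have h4 := step2 x L h1
  have h5 : Real.log L / 2 ≤ ∑ a ∈ Icc 1 x, 1 / (a : ℝ) := by linarith
  have h6 : (Real.log L / 2) ^ 2 ≤ (∑ a ∈ Icc 1 x, 1 / (a : ℝ)) ^ 2 :=
    pow_le_pow_left₀ (by positivity) h5 2
  nlinarith [h3, h4, h6]

end Pool.Agent.TEQ
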