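import Pool.Agent.TEQ.Defs

/-!
# TEQ: targets (proofs in `Blueprint.lean.txt`)
-/

set_option autoImplicit false

open Finset

noncomputable section

namespace Pool.Agent.TEQ

/-! ### A: primes `≡ 1` to smooth moduli -/

/-- LUB -/
def T_LUB : Prop := ∃ C : ℝ, 1 ≤ C ∧ ∀ (m : ℕ) [NeZero m] (χ : DirichletCharacter ℂ m),
  8 ≤ m → χ ≠ 1 → ∀ s : ℂ, ‖s - 1‖ ≤ 1 / Real.log m → ‖χ.LFunction s‖ ≤ C * Real.log m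

/-- CXL (from LUB): complex characters -/
def T_CXL : Prop := ∃ C : ℝ, 1 ≤ C ∧ ∀ (m : ℕ) [NeZero m] (χ : DirichletCharacter ℂ m),
  8 ≤ m → χ ^ 2 ≠ 1 → ∀ s : ℂ, ‖s - 1‖ ≤ 1 / (C * Real.log m ^ 9) →
    χ.LFunction s ≠ 0 ∧ ‖deriv χ.LFunction s / χ.LFunction s‖ ≤ C * Real.log m ^ 9

/-- SQM: units `≡ 1 mod D` are squares mod `m` -/
def T_SQM : Prop := ∀ (m D : ℕ) (h : D ∣ m), m ≠ 0 → 8 ∣ D → m.primeFactors = D.primeFactors →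
  ∀ u : (ZMod m)ˣ, ZMod.unitsMap h u = 1 → ∃ v : (ZMod m)ˣ, v ^ 2 = u

/-- REL (from SQM): real characters -/
def T_REL : Prop := ∀ y : ℕ, ∃ C : ℝ, 1 ≤ C ∧ ∀ (m : ℕ) [NeZero m]
  (χ : DirichletCharacter ℂ m), 8 ∣ m → Smooth y m → χ ^ 2 = 1 → χ ≠ 1 →
    ∀ s : ℂ, ‖s - 1‖ ≤ 1 / C →
      χ.LFunction s ≠ 0 ∧ ‖deriv χ.LFunction s / χ.LFunction s‖ ≤ C

/-- PRN: the principal character -/
def T_PRN : Prop := ∀ y : ℕ, ∃ C : ℝ, 1 ≤ C ∧ ∀ (m : ℕ) [NeZero m], Smooth y m →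
  ∀ s : ℂ, ‖s - 1‖ ≤ 1 / C → DirichletCharacter.LFunctionTrivChar₁ m s ≠ 0 ∧
    ‖deriv (DirichletCharacter.LFunctionTrivChar₁ m) s /
      DirichletCharacter.LFunctionTrivChar₁ m s‖ ≤ C

/-- AUX (from CXL, REL, PRN) -/
def T_AUX : Prop := ∀ y : ℕ, ∃ C : ℝ, 1 ≤ C ∧ ∀ (m : ℕ) [NeZero m], 8 ∣ m → Smooth y m →
  DifferentiableOn ℂ (ArithmeticFunction.vonMangoldt.LFunctionResidueClassAux (1 : ZMod m))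
    (Metric.ball 1 (1 / (C * Real.log m ^ 9))) ∧
  ∀ s ∈ Metric.ball (1 : ℂ) (1 / (C * Real.log m ^ 9)),
    ‖ArithmeticFunction.vonMangoldt.LFunctionResidueClassAux (1 : ZMod m) s‖ ≤
      C * Real.log m ^ 9

/-- APS (from AUX) -/
def T_APS : Prop := ∀ y : ℕ, ∃ C : ℝ, 1 ≤ C ∧ ∀ (m r : ℕ) (η : ℝ), 8 ∣ m → m ≠ 0 →
  Smooth y m → 0 < η → η ≤ 1 / (C * Real.log m ^ 9) →
  Summable (fun n : ℕ => if n ≡ 1 [MOD m] then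
    ArithmeticFunction.vonMangoldt n * (Real.log n) ^ r * (n : ℝ) ^ (-(1 + η)) else 0) ∧
  |apS m r η - r.factorial / (m.totient * η ^ (r + 1))| ≤
    r.factorial * (C * Real.log m ^ 9) ^ (r + 1)

/-- TOT -/
def T_TOT : Prop := ∀ y m : ℕ, m ≠ 0 → 2 ∣ m → Smooth y m →
  ∑ d ∈ (∏ p ∈ PP y, p).divisors, (ArithmeticFunction.moebius d : ℝ) / ((m * d).totient : ℝ) =
    kap y m.primeFactors / m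

/-- RGS (from APS, TOT) -/
def T_RGS : Prop := ∀ y : ℕ, 2 ≤ y → ∃ C : ℝ, 1 ≤ C ∧ ∀ (m r : ℕ) (η : ℝ), 8 ∣ m → m ≠ 0 →
  Smooth y m → 0 < η → η ≤ 1 / (C * Real.log m ^ 9) →
  Summable (fun n : ℕ => ff y m n * (Real.log n) ^ r * (n : ℝ) ^ (-(1 + η))) ∧
  |(∑' n : ℕ, ff y m n * (Real.log n) ^ r * (n : ℝ) ^ (-(1 + η))) -
      kap y m.primeFactors / m * (r.factorial / η ^ (r + 1))| ≤
    r.factorial * (C * Real.log m ^ 9) ^ (r + 1)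

/-- ASY (from RGS) -/
def T_ASY : Prop := ∀ y : ℕ, 2 ≤ y → ∃ U₀ : ℝ, 1 ≤ U₀ ∧ ∀ (U : ℝ) (m : ℕ), U₀ ≤ U → 8 ∣ m →
  m ≠ 0 → Smooth y m → (m : ℝ) ≤ Real.exp (U ^ (1 / 11 : ℝ)) → ∃ r : ℕ, 3 ≤ r ∧
  ∀ t : ℝ, r / (2 * U) ≤ t → t ≤ 8 * r / U →
    Summable (fun n : ℕ => ff y m n * (Real.log n) ^ r * (n : ℝ) ^ (-(1 + t))) ∧
    |(∑' n : ℕ, ff y m n * (Real.log n) ^ r * (n : ℝ) ^ (-(1 + t))) -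
        kap y m.primeFactors / m * (r.factorial / t ^ (r + 1))| ≤
      1 / 10 * (kap y m.primeFactors / m * (r.factorial / t ^ (r + 1)))

/-- TBN: Tauberian lemma -/
def T_TBN : Prop := ∀ (f : ℕ → ℝ) (U A : ℝ) (r : ℕ), (∀ n, 0 ≤ f n) → 1 ≤ U → 0 < A → 3 ≤ r →
  (∀ t : ℝ, r / (2 * U) ≤ t → t ≤ 8 * r / U →
    Summable (fun n : ℕ => f n * (Real.log n) ^ r * (n : ℝ) ^ (-(1 + t))) ∧
    |(∑' n : ℕ, f n * (Real.log n) ^ r * (n : ℝ) ^ (-(1 + t))) -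
        A * (r.factorial / t ^ (r + 1))| ≤ 1 / 10 * (A * (r.factorial / t ^ (r + 1)))) →
  A * U / 200 ≤ ∑ n ∈ (Icc 1 ⌊Real.exp (4 * U)⌋₊).filter (fun n : ℕ => U / 8 ≤ Real.log n),
    f n / n

/-- PPW: prime powers -/
def T_PPW : Prop := ∃ C : ℝ, 0 < C ∧ ∀ X Y : ℝ, 2 ≤ X →
  ∑ n ∈ (Icc 1 ⌊Y⌋₊).filter (fun n : ℕ => X ≤ n ∧ ¬ n.Prime),
    ArithmeticFunction.vonMangoldt n / n ≤ C * Real.log X / Real.sqrt X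

/-- WIN (from ASY, TBN, PPW): first moment -/
def T_WIN : Prop := ∀ y : ℕ, 2 ≤ y → ∃ U₀ : ℝ, 1 ≤ U₀ ∧ ∀ (U : ℝ) (m : ℕ), U₀ ≤ U → 8 ∣ m →
  m ≠ 0 → Smooth y m → (m : ℝ) ≤ Real.exp (U ^ (1 / 11 : ℝ)) →
  kap y m.primeFactors / 2000 ≤ ∑ s ∈ WW y m U, 1 / (s : ℝ)

/-! ### S: sieve -/

/-- SIV (Selberg's sieve; `SSN.T_SEL` is proved in `Pool/Agent/SSN/SEL.lean`) -/
def T_SIV : Prop := ∀ (P : Finset ℕ) (Ω : ℕ → Finset ℕ) (a X L : ℕ), (∀ p ∈ P, p.Prime) →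
  (∀ p ∈ P, Ω p ⊆ range p ∧ 0 < (Ω p).card ∧ (Ω p).card < p) → 1 ≤ L →
  (((Ico a (a + X)).filter fun n => ∀ p ∈ P, n % p ∉ Ω p).card : ℝ) ≤
    X / (∑ l ∈ (∏ p ∈ P, p).divisors.filter (· ≤ L),
      ∏ p ∈ l.primeFactors, ((Ω p).card : ℝ) / (p - (Ω p).card)) + (L : ℝ) ^ 8

/-- TAU -/
def T_TAU : Prop := ∃ c : ℝ, 0 < c ∧ ∀ L : ℕ, 2 ≤ L →
  c * (Real.log L) ^ 2 ≤ ∑ l ∈ (Icc 1 L).filter Squarefree, (2 : ℝ) ^ l.primeFactors.card / l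

/-- the residues `s` mod `p` that are sifted out -/
def Om (y m m' p : ℕ) : Finset ℕ :=
  (range p).filter fun x => (p ≤ y ∧ x = 0) ∨ p ∣ m * x + 1 ∨ p ∣ m' * x + 1

/-- NUC -/
def T_NUC : Prop := ∀ y m m' p : ℕ, p.Prime → 0 < m → 0 < m' → m.primeFactors = m'.primeFactors →
  Smooth y m →
  (p ∣ m → (Om y m m' p).card = 1) ∧
  (¬ p ∣ m → p ≤ y → ((m ≡ m' [MOD p]) → (Om y m m' p).card = 2) ∧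
    (¬ (m ≡ m' [MOD p]) → (Om y m m' p).card = 3)) ∧
  (y < p → ((m ≡ m' [MOD p]) → (Om y m m' p).card = 1) ∧
    (¬ (m ≡ m' [MOD p]) → (Om y m m' p).card = 2))

/-- MRT (Mertens; `SSC.T_MER` is proved in `Pool/Agent/SSC/MER.lean`) -/
def T_MRT : Prop := ∃ c C : ℝ, 0 < c ∧ 0 < C ∧ ∀ y : ℕ, 2 ≤ y →
  c / Real.log y ≤ ∏ p ∈ PP y, (1 - 1 / (p : ℝ)) ∧
    ∏ p ∈ PP y, (1 - 1 / (p : ℝ)) ≤ C / Real.log y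

/-- VKP (from MRT) -/
def T_VKP : Prop := ∃ C : ℝ, 0 < C ∧ ∀ (y : ℕ) (Q : Finset ℕ) (ν : ℕ → ℕ) (D : ℕ), 2 ≤ y →
  2 ∈ Q → Q ⊆ PP y → (∀ p ∈ Q, ν p = 1) →
  (∀ p ∈ PP y \ Q, (p ∣ D → ν p = 2) ∧ (¬ p ∣ D → ν p = 3)) →
  (∏ p ∈ PP y, (1 - (ν p : ℝ) / p)) * Real.log y ≤
    C * kap y Q ^ 2 * ∏ p ∈ (PP y \ Q).filter (· ∣ D), (1 + 4 / (p : ℝ))

/-- GE1 -/
def T_GE1 : Prop := ∀ (h : ℕ → ℝ) (P₁ P₂ : Finset ℕ) (L L' : ℕ), (∀ p, 0 ≤ h p) →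
  (∀ p ∈ P₁, p.Prime) → (∀ p ∈ P₂, p.Prime) → Disjoint P₁ P₂ → (∏ p ∈ P₁, p) * L' ≤ L →
  (∏ p ∈ P₁, (1 + h p)) * ∑ l ∈ (∏ p ∈ P₂, p).divisors.filter (· ≤ L'),
      ∏ p ∈ l.primeFactors, h p ≤
    ∑ l ∈ (∏ p ∈ P₁ ∪ P₂, p).divisors.filter (· ≤ L), ∏ p ∈ l.primeFactors, h p

/-- GE2 -/
def T_GE2 : Prop := ∀ (E : Finset ℕ) (L : ℕ), (∀ p ∈ E, p.Prime) →
  ∑ l ∈ (Icc 1 L).filter Squarefree, (2 : ℝ) ^ l.primeFactors.card / l ≤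
    (∏ p ∈ E, (1 + 2 / (p : ℝ))) *
      ∑ l ∈ (Icc 1 L).filter (fun l => Squarefree l ∧ ∀ p ∈ E, ¬ p ∣ l),
        (2 : ℝ) ^ l.primeFactors.card / l

/-- SV2 (from SIV, TAU, NUC, MRT, VKP, GE1, GE2) -/
def T_SV2 : Prop := ∃ C : ℝ, 0 < C ∧ ∀ y : ℕ, 2 ≤ y → ∃ S₀ : ℕ, 2 ≤ S₀ ∧
  ∀ S m m' : ℕ, S₀ ≤ S → 0 < m → 0 < m' → m ≠ m' → 2 ∣ m →
  m.primeFactors = m'.primeFactors → Smooth y m →
  (open Classical in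
    (((Ico S (2 * S)).filter fun s => Rough y s ∧ (m * s + 1).Prime ∧ (m' * s + 1).Prime).card
      : ℝ)) ≤
    C * Real.log y * kap y m.primeFactors ^ 2 *
      HH m.primeFactors (Int.natAbs ((m : ℤ) - m')) * S / (Real.log S) ^ 2

/-- DYA (from SV2) -/
def T_DYA : Prop := ∃ C : ℝ, 0 < C ∧ ∀ y : ℕ, 2 ≤ y → ∃ U₀ : ℝ, 1 ≤ U₀ ∧
  ∀ (U : ℝ) (m m' : ℕ), U₀ ≤ U → 0 < m → 0 < m' → m ≠ m' → 2 ∣ m →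
  m.primeFactors = m'.primeFactors → Smooth y m →
  (open Classical in
    ∑ s ∈ (Icc 1 ⌊Real.exp (4 * U)⌋₊).filter (fun s : ℕ => Real.exp (U / 9) ≤ s ∧ Rough y s ∧
      (m * s + 1).Prime ∧ (m' * s + 1).Prime), 1 / (s : ℝ)) ≤
    C * Real.log y * kap y m.primeFactors ^ 2 *
      HH m.primeFactors (Int.natAbs ((m : ℤ) - m')) / U

/-! ### R: Romanoff -/

/-- ORD -/
def T_ORD : Prop := ∀ A d u v : ℕ, 0 < d → Odd d → u.Coprime d →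
  ((range A).filter fun a => 2 ^ (3 + a) * u ≡ v [MOD d]).card ≤
    A / orderOf (2 : ZMod d) + 1

/-- PRS (from MRT) -/
def T_PRS : Prop := ∃ C : ℝ, 0 < C ∧ ∀ E : Finset ℕ, (∀ p ∈ E, p.Prime) →
  ∏ p ∈ E, (1 + 4 / (p : ℝ)) ≤ C * (Real.log (E.card + 2)) ^ 4

/-- RMC (from PRS): Romanoff's constant -/
def T_RMC : Prop := ∃ C : ℝ, 0 < C ∧ ∀ F : Finset ℕ, (∀ d ∈ F, Squarefree d ∧ Odd d) →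
  ∑ d ∈ F, (4 : ℝ) ^ d.primeFactors.card / (d * orderOf (2 : ZMod d)) ≤ C

/-- AVG (from ORD, RMC) -/
def T_AVG : Prop := ∃ C : ℝ, 0 < C ∧ ∀ (A : ℕ) (V Q : Finset ℕ) (M : ℝ), 1 ≤ A → 2 ∈ Q →
  (∀ u ∈ V, Odd u ∧ u.primeFactors ⊆ Q) → 1 ≤ M → (∀ m ∈ MM A V, (m : ℝ) ≤ Real.exp M) →
  ∏ p ∈ PP ⌊M⌋₊, (1 + 4 / (p : ℝ)) ≤ A →
  ∑ m ∈ MM A V, ∑ m' ∈ (MM A V).erase m, HH Q (Int.natAbs ((m : ℤ) - m')) ≤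
    C * ((MM A V).card : ℝ) ^ 2

/-- BOX (from PRS) -/
def T_BOX : Prop := ∀ (y : ℕ) (Q : Finset ℕ) (K : ℝ), 2 ∈ Q → Q ⊆ PP y → 34 ≤ Q.card →
  ∃ U₀ : ℝ, 1 ≤ U₀ ∧ ∀ U : ℝ, U₀ ≤ U → ∃ (A : ℕ) (V : Finset ℕ), 1 ≤ A ∧
    (∀ u ∈ V, Odd u ∧ u.primeFactors = Q.erase 2) ∧
    (∀ m ∈ MM A V, (m : ℝ) ≤ Real.exp (U ^ (1 / 11 : ℝ))) ∧
    K * U ^ 2 ≤ (MM A V).card ∧
    ∏ p ∈ PP ⌊U ^ (1 / 11 : ℝ)⌋₊, (1 + 4 / (p : ℝ)) ≤ A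

/-! ### P: second moment -/

/-- CSQ: Cauchy–Schwarz -/
def T_CSQ : Prop := ∀ (W M : Finset ℕ) (R : ℕ → ℕ → Prop) (T : ℕ) (F₂ : ℝ),
  (∀ s ∈ W, 1 ≤ s) →
  (open Classical in
    (∑ m ∈ M, ∑ m' ∈ M, ∑ s ∈ W.filter (fun s => R m s ∧ R m' s), 1 / (s : ℝ) ≤ F₂ →
    T * ∑ s ∈ W, 1 / (s : ℝ) ≤ ∑ m ∈ M, ∑ s ∈ W.filter (R m), 1 / (s : ℝ) →
    (∑ m ∈ M, ∑ s ∈ W.filter (R m), 1 / (s : ℝ) - T * ∑ s ∈ W, 1 / (s : ℝ)) ^ 2 ≤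
      F₂ * ∑ s ∈ W.filter (fun s => T ≤ (M.filter (R · s)).card), 1 / (s : ℝ)))

/-- PRB (from WIN, DYA, AVG, BOX, MRT, CSQ): a scale is successful with probability `≥ c` -/
def T_PRB : Prop := ∃ c : ℝ, 0 < c ∧ ∀ y T : ℕ, 2 ≤ y → ∃ z : ℕ, y < z ∧
  ∀ Q : Finset ℕ, Q ⊆ PP y → 2 ∈ Q → 34 ≤ Q.card →
    c ≤ (∏ p ∈ PI y z, (1 - 1 / (p : ℝ))) * ∑ s ∈ SS y z T Q, 1 / (s : ℝ)

/-! ### D: density -/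

/-- SOL -/
def T_SOL : Prop := ∀ y z T i : ℕ, 1 ≤ i → Good y z T i → T ≤ (sols z i).card

/-- CNT -/
def T_CNT : Prop := ∀ y z s K : ℕ, Rough y s → 1 ≤ s → s ≤ z → z ≤ K → 1 ≤ K →
  (((range (PR y z ^ K)).filter fun b => s ∣ b ∧ (b / s).Coprime (PR y z)).card : ℝ) =
    (PR y z : ℝ) ^ K / s * ∏ p ∈ PI y z, (1 - 1 / (p : ℝ))

/-- CRT -/
def T_CRT : Prop := ∀ (W R : ℕ) (B E : ℕ → Prop), 0 < W → 0 < R → W.Coprime R →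
  (∀ a, B (a + W) ↔ B a) → (∀ a, E (a + R) ↔ E a) →
  (open Classical in ((range (W * R)).filter fun a => B a ∧ E a).card =
    ((range W).filter B).card * ((range R).filter E).card)

/-- STP (from CNT, CRT): one more scale -/
def T_STP : Prop := ∀ (c : ℝ) (y z T W : ℕ) (B : ℕ → Prop), 0 < c → y < z → 0 < W →
  Smooth y W → (∀ p ∈ PP y, p ∣ W) → (∀ a, B (a + W) ↔ B a) →
  (∀ a, B a → 2 ∈ QQ y a ∧ 34 ≤ (QQ y a).card) →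
  (∀ Q : Finset ℕ, Q ⊆ PP y → 2 ∈ Q → 34 ≤ Q.card →
    c ≤ (∏ p ∈ PI y z, (1 - 1 / (p : ℝ))) * ∑ s ∈ SS y z T Q, 1 / (s : ℝ)) →
  ∃ W' : ℕ, 0 < W' ∧ W ∣ W' ∧ Smooth z W' ∧ (∀ p ∈ PP z, p ∣ W') ∧
    (∀ a, Good y z T (a + W') ↔ Good y z T a) ∧
    (open Classical in
      (((range W').filter fun a => B a ∧ ¬ Good y z T a).card : ℝ) / W' ≤
        (1 - c) * (((range W).filter B).card / W))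

/-- FEW -/
def T_FEW : Prop := ∀ ε : ℝ, 0 < ε → ∃ y : ℕ, 2 ≤ y ∧
  (((range (∏ p ∈ PP y, p)).filter fun i => (QQ y i).card < 34).card : ℝ) ≤
    ε * ((∏ p ∈ PP y, p : ℕ) : ℝ)

/-- ITR (from PRB, STP, FEW, SOL) -/
def T_ITR : Prop := ∀ (T : ℕ) (ε : ℝ), 0 < ε → ∃ (W C : ℕ) (B : ℕ → Prop), 0 < W ∧
  (∀ a, B (a + W) ↔ B a) ∧
  (open Classical in (((range W).filter B).card : ℝ) ≤ ε * W) ∧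
  ∀ i : ℕ, 1 ≤ i → Even i → ¬ B i → T ≤ (sols C i).card

/-- FIN (from ITR) -/
def T_FIN : Prop := ∀ (T : ℕ) (ε : ℝ), 0 < ε → ∃ C x₀ : ℕ, ∀ x : ℕ, x₀ ≤ x →
  (((Icc 1 x).filter fun i => Even i ∧ (sols C i).card < T).card : ℝ) ≤ ε * x

end Pool.Agent.TEQ
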